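import Pool.Agent.Helper63.PB.Under

set_option autoImplicit false

/-!
# PB-02 Approx: finitely many valuations over a given one; approximation

`E' / E` finite, `v` a discrete valuation of `E`.

(1) Two different discrete valuations `w₁ ≠ w₂` of `E'`: there is `a` with `w₁ a > 0`, `w₂ a < 0`.
PROOF. `DVal.eq_of_ring_le`: neither ring contains the other, so there are `x` with `w₁ x ≥ 0`,
`w₂ x < 0` and `y` with `w₂ y ≥ 0`, `w₁ y < 0`; `a = x / y`: `w₁ a > 0`, `w₂ a < 0`.
(2) For pairwise different `w₀, ..., w_r` there is `a` with `w₀ a > 0` and `w_j a < 0` for `j ≥ 1`.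
PROOF. Induction on `r` (Finset induction over the set `{w₁, ..., w_r}`): `a` for `w₁, ..., w_{r-1}`,
`b` for `w_r` (by (1)). If `w_r a < 0` take `a`. If `w_r a = 0` take `a ^ N * b`, `N` large
(`w_j (a ^ N b) = N w_j a + w_j b < 0` for `1 ≤ j < r`, at `w_r` it is `w_r b < 0`, at `w₀` it is
positive). If `w_r a > 0` take `a ^ N * b / (1 + a ^ N)`: simpler: `a / (1 + a)`-trick:
`c = 1 / (1 + a ^ N)` has `w₀ c = 0`, `w_r c = 0`, `w_j c = - N w_j a > 0`
for `1 ≤ j < r`; so take `b / c ^ N'` with `N'` large: `w₀ > 0`, `w_r = w_r b < 0`,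
`w_j = w_j b - N' w_j c < 0`.
(3) With `a` as in (2), `e₀ = 1 / (1 + a)`: `w₀ e₀ = 0` (`w₀ (1 + a) = 0`: `map_add_eq_of_lt`),
`w_j (1 + a) = w_j a < 0`, so `w_j e₀ ≥ 1`.
(4) FINITENESS. If `w₀, ..., w_r` over `v` are pairwise different then `r + 1 ≤ [E' : E]`:
let `ε` bound the ramification indices, take for each `i` an element `x_i = e_i ^ M` with `w_i x_i = 0`,
`w_j x_i ≥ M` for `j ≠ i`. They are linearly independent over `E`: in `∑ c_i x_i = 0` scale so that
`min v c_i = 0` is attained at `i₀`; at `w = w_{i₀}`: `w (c_{i₀} x_{i₀}) = 0` and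
`w (c_j x_j) ≥ 0 + 1` for `j ≠ i₀`, contradiction. (For `M = 1` this works.)
(5) `exists_sep`: by (4) the valuations over `v` form a finite set, apply (3).
`exists_pole`: `x = e₀ ^ N / p` with `p ∈ E`, `v p = 1`, `N` at least all ramification indices:
`w x = - ε < 0`, `w' x ≥ N - ε' ≥ 0`. `exists_one`: `x = e₀ ^ N * y`, `w y = 1`, `N` large.
-/

namespace Pool.Agent.Helper63.PB

open Pool.Agent.Helper92.Weak

section Gen

variable {k F : Type*} [Field k] [Field F] [Algebra k F]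

private theorem exists_bd (T : Finset (DVal k F)) (f : DVal k F → ℤ) :
    ∃ N : ℕ, ∀ w ∈ T, f w ≤ N := by
  refine ⟨T.sup fun w => (f w).toNat, fun w hw => ?_⟩
  have h1 : (f w).toNat ≤ T.sup fun w => (f w).toNat :=
    Finset.le_sup (f := fun w => (f w).toNat) hw
  have h2 : f w ≤ ((f w).toNat : ℤ) := Int.self_le_toNat _
  have h3 : ((f w).toNat : ℤ) ≤ ((T.sup fun w => (f w).toNat : ℕ) : ℤ) := by exact_mod_cast h1
  exact h2.trans h3

private theorem sep_two {w₁ w₂ : DVal k F} (h : w₁ ≠ w₂) : ∃ a : F, 0 < w₁ a ∧ w₂ a < 0 := by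
  have h1 : ¬ w₁.ring ≤ w₂.ring := fun hle => h (DVal.eq_of_ring_le hle)
  have h2 : ¬ w₂.ring ≤ w₁.ring := fun hle => h (DVal.eq_of_ring_le hle).symm
  obtain ⟨x, hx1, hx2⟩ := Set.not_subset.1 h1
  obtain ⟨y, hy1, hy2⟩ := Set.not_subset.1 h2
  have hx1' : 0 ≤ w₁ x := hx1
  have hx2' : ¬ 0 ≤ w₂ x := hx2
  have hy1' : 0 ≤ w₂ y := hy1
  have hy2' : ¬ 0 ≤ w₁ y := hy2
  have hx0 : x ≠ 0 := w₂.ne_zero_of_pos (by omega)
  have hy0 : y ≠ 0 := w₁.ne_zero_of_pos (by omega)
  refine ⟨x / y, ?_, ?_⟩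
  · rw [w₁.map_div hx0 hy0]; omega
  · rw [w₂.map_div hx0 hy0]; omega

private theorem sep_many (w₀ : DVal k F) (T : Finset (DVal k F)) (h : w₀ ∉ T) :
    ∃ a : F, 0 < w₀ a ∧ ∀ w ∈ T, w a < 0 := by
  classical
  induction T using Finset.induction_on with
  | empty =>
    obtain ⟨a, -, ha⟩ := w₀.exists_uniformizer
    exact ⟨a, by omega, by simp⟩
  | insert u T hu ih =>
    have h1 : w₀ ∉ T := fun hT => h (Finset.mem_insert_of_mem hT)
    have h2 : w₀ ≠ u := fun hT => h (hT ▸ Finset.mem_insert_self _ _)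
    obtain ⟨a, ha0, haT⟩ := ih h1
    obtain ⟨b, hb0, hbu⟩ := sep_two h2
    have hane : a ≠ 0 := w₀.ne_zero_of_pos (by omega)
    have hbne : b ≠ 0 := w₀.ne_zero_of_pos (by omega)
    by_cases hua : u a < 0
    · refine ⟨a, ha0, fun w hw => ?_⟩
      rcases Finset.mem_insert.1 hw with rfl | hw
      · exact hua
      · exact haT w hw
    · -- an element of value zero at `u`
      obtain ⟨c, hc, hc0, hcu, hcT⟩ : ∃ c : F, c ≠ 0 ∧ 0 ≤ w₀ c ∧ u c = 0 ∧ ∀ w ∈ T, w c < 0 := by
        by_cases hua0 : u a = 0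
        · exact ⟨a, hane, ha0.le, hua0, haT⟩
        · have h3 : (1 : F) + a ≠ 0 := w₀.add_ne_zero_of_lt one_ne_zero
            (Or.inr (by rw [w₀.map_one]; exact ha0))
          refine ⟨1 + a, h3, ?_, ?_, fun w hw => ?_⟩
          · rw [w₀.map_add_eq_of_lt one_ne_zero (Or.inr (by rw [w₀.map_one]; exact ha0)),
              w₀.map_one]
          · rw [u.map_add_eq_of_lt one_ne_zero (Or.inr (by rw [u.map_one]; omega)), u.map_one]
          · have h4 := haT w hw
            rw [add_comm, w.map_add_eq_of_lt hane (Or.inr (by rw [w.map_one]; exact h4))]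
            exact h4
      obtain ⟨N, hN⟩ := exists_bd T fun w => w b + 1
      refine ⟨b * c ^ N, ?_, fun w hw => ?_⟩
      · rw [w₀.map_mul hbne (pow_ne_zero N hc), w₀.map_pow]
        have : 0 ≤ (N : ℤ) * w₀ c := mul_nonneg (by positivity) hc0
        omega
      · rw [w.map_mul hbne (pow_ne_zero N hc), w.map_pow]
        rcases Finset.mem_insert.1 hw with rfl | hw
        · rw [hcu, mul_zero, add_zero]
          exact hbu
        · have h4 := hcT w hw
          have h5 := hN w hw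
          have h6 : (N : ℤ) * w c ≤ (N : ℤ) * (-1) :=
            mul_le_mul_of_nonneg_left (by omega) (by positivity)
          omega

private theorem sep_unit (w₀ : DVal k F) (T : Finset (DVal k F)) (h : w₀ ∉ T) :
    ∃ x : F, x ≠ 0 ∧ w₀ x = 0 ∧ ∀ w ∈ T, 1 ≤ w x := by
  obtain ⟨a, ha0, haT⟩ := sep_many w₀ T h
  have hane : a ≠ 0 := w₀.ne_zero_of_pos (by omega)
  have h3 : (1 : F) + a ≠ 0 := w₀.add_ne_zero_of_lt one_ne_zero
    (Or.inr (by rw [w₀.map_one]; exact ha0))
  refine ⟨(1 + a)⁻¹, inv_ne_zero h3, ?_, fun w hw => ?_⟩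
  · rw [w₀.map_inv, w₀.map_add_eq_of_lt one_ne_zero (Or.inr (by rw [w₀.map_one]; exact ha0)),
      w₀.map_one, neg_zero]
  · have h4 := haT w hw
    rw [w.map_inv, add_comm, w.map_add_eq_of_lt hane (Or.inr (by rw [w.map_one]; exact h4))]
    omega

end Gen

variable {k E E' : Type*} [Field k] [Field E] [Field E'] [Algebra k E] [Algebra k E']
  [Algebra E E'] [IsScalarTower k E E'] [FiniteDimensional E E']

omit [IsScalarTower k E E'] in
private theorem card_above (v : DVal k E) (T : Finset (DVal k E'))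
    (hT : ∀ w ∈ T, ∃ ε, LiesOver w v ε) : T.card ≤ Module.finrank E E' := by
  classical
  have hx : ∀ w : T, ∃ x : E', x ≠ 0 ∧ w.1 x = 0 ∧ ∀ w' ∈ T.erase w.1, 1 ≤ w' x := fun w =>
    sep_unit w.1 (T.erase w.1) (Finset.notMem_erase _ _)
  choose x hx0 hx1 hx2 using hx
  have hli : LinearIndependent E x := by
    rw [Fintype.linearIndependent_iff]
    intro g hg
    by_contra hcon
    push Not at hcon
    obtain ⟨i₁, hi₁⟩ := hcon
    obtain ⟨i, hi, hmin⟩ := (Finset.univ.filter fun i : T => g i ≠ 0).exists_min_image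
      (fun i => v (g i)) ⟨i₁, by simp [hi₁]⟩
    have hgi : g i ≠ 0 := (Finset.mem_filter.1 hi).2
    obtain ⟨ε, hε, hw⟩ := hT i.1 i.2
    have hgi' : algebraMap E E' (g i) ≠ 0 := (map_ne_zero _).2 hgi
    rw [← Finset.add_sum_erase _ _ (Finset.mem_univ i)] at hg
    have h1 : g i • x i = -∑ j ∈ Finset.univ.erase i, g j • x j := by
      linear_combination hg
    have h2 : i.1.Ge ((ε * v (g i) + 1 : ℤ) : ℚ) (g i • x i) := by
      rw [h1]
      refine DVal.Ge.neg (DVal.Ge.sum fun j hj => ?_)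
      have hji : j ≠ i := (Finset.mem_erase.1 hj).1
      by_cases hgj : g j = 0
      · left
        rw [hgj, zero_smul]
      · have hgj' : algebraMap E E' (g j) ≠ 0 := (map_ne_zero _).2 hgj
        right
        rw [Algebra.smul_def, i.1.map_mul hgj' (hx0 j), hw]
        have h3 := hmin j (by simp [hgj])
        have h4 := hx2 j i.1 (Finset.mem_erase.2 ⟨fun h => hji (Subtype.ext h.symm), i.2⟩)
        have h5 : (ε : ℤ) * v (g i) ≤ ε * v (g j) :=
          mul_le_mul_of_nonneg_left h3 (by positivity)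
        have h6 : (ε : ℤ) * v (g i) + 1 ≤ ε * v (g j) + i.1 (x j) := by omega
        exact_mod_cast h6
    have h3 : g i • x i ≠ 0 := by
      rw [Algebra.smul_def]
      exact mul_ne_zero hgi' (hx0 i)
    rw [DVal.ge_iff h3, Algebra.smul_def, i.1.map_mul hgi' (hx0 i), hw, hx1 i, add_zero] at h2
    have h4 : (ε : ℤ) * v (g i) + 1 ≤ ε * v (g i) := by exact_mod_cast h2
    omega
  have h := hli.fintype_card_le_finrank
  rwa [Fintype.card_coe] at h

omit [IsScalarTower k E E'] in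
theorem finite_above (v : DVal k E) : {w : DVal k E' | ∃ ε, LiesOver w v ε}.Finite := by
  by_contra hinf
  obtain ⟨T, hT, hc⟩ := Set.Infinite.exists_subset_card_eq hinf (Module.finrank E E' + 1)
  have h := card_above v T fun w hw => hT hw
  omega

/-- The other valuations over `v`. -/
private noncomputable def others (v : DVal k E) (w : DVal k E') : Finset (DVal k E') :=
  open Classical in (finite_above (E' := E') v).toFinset.erase w

private theorem mem_others {v : DVal k E} {w w' : DVal k E'} :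
    w' ∈ others v w ↔ w' ≠ w ∧ ∃ ε, LiesOver w' v ε := by
  classical
  unfold others
  simp only [Finset.mem_erase, Set.Finite.mem_toFinset, Set.mem_setOf_eq]

theorem exists_sep {v : DVal k E} {w : DVal k E'} {ε : ℕ} (hw : LiesOver w v ε) :
    ∃ x : E', x ≠ 0 ∧ w x = 0 ∧ ∀ (w' : DVal k E') (ε' : ℕ), LiesOver w' v ε' → w' ≠ w →
      1 ≤ w' x := by
  obtain ⟨x, h0, h1, h2⟩ := sep_unit w (others v w) (fun h => (mem_others.1 h).1 rfl)
  exact ⟨x, h0, h1, fun w' ε' hw' hne => h2 w' (mem_others.2 ⟨hne, ε', hw'⟩)⟩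

theorem exists_pole {v : DVal k E} {w : DVal k E'} {ε : ℕ} (hw : LiesOver w v ε) :
    ∃ x : E', w x < 0 ∧ ∀ (w' : DVal k E') (ε' : ℕ), LiesOver w' v ε' → w' ≠ w → 0 ≤ w' x := by
  obtain ⟨x, h0, h1, h2⟩ := exists_sep hw
  obtain ⟨p, hp0, hp⟩ := v.exists_uniformizer
  have hp0' : algebraMap E E' p ≠ 0 := (map_ne_zero _).2 hp0
  obtain ⟨N, hN⟩ := exists_bd (others v w) fun w' => w' (algebraMap E E' p)
  refine ⟨x ^ N / algebraMap E E' p, ?_, fun w' ε' hw' hne => ?_⟩
  · rw [w.map_div (pow_ne_zero N h0) hp0', w.map_pow, h1, hw.2, hp]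
    have := hw.1
    have h3 : (1 : ℤ) ≤ ε := by exact_mod_cast this
    simp only [mul_zero, mul_one, zero_sub]
    omega
  · rw [w'.map_div (pow_ne_zero N h0) hp0', w'.map_pow]
    have h3 := hN w' (mem_others.2 ⟨hne, ε', hw'⟩)
    have h4 : (N : ℤ) * 1 ≤ N * w' x :=
      mul_le_mul_of_nonneg_left (h2 w' ε' hw' hne) (by positivity)
    omega

theorem exists_one {v : DVal k E} {w : DVal k E'} {ε : ℕ} (hw : LiesOver w v ε) :
    ∃ x : E', w x = 1 ∧ ∀ (w' : DVal k E') (ε' : ℕ), LiesOver w' v ε' → w' ≠ w → 1 ≤ w' x := by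
  obtain ⟨x, h0, h1, h2⟩ := exists_sep hw
  obtain ⟨y, hy0, hy⟩ := w.exists_uniformizer
  obtain ⟨N, hN⟩ := exists_bd (others v w) fun w' => 1 - w' y
  refine ⟨x ^ N * y, ?_, fun w' ε' hw' hne => ?_⟩
  · rw [w.map_mul (pow_ne_zero N h0) hy0, w.map_pow, h1, hy, mul_zero, zero_add]
  · rw [w'.map_mul (pow_ne_zero N h0) hy0, w'.map_pow]
    have h3 := hN w' (mem_others.2 ⟨hne, ε', hw'⟩)
    have h4 : (N : ℤ) * 1 ≤ N * w' x :=
      mul_le_mul_of_nonneg_left (h2 w' ε' hw' hne) (by positivity)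
    omega

end Pool.Agent.Helper63.PB
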