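import Pool.Agent.Helper92.Weak.Torus5

set_option autoImplicit false

/-!
# PB-43a FinExc: two models of the same function field

All but finitely many prime divisors of `X'` are prime divisors of `X` (the proof is in the header
of `Contract.lean`).
-/

namespace Pool.Agent.Helper63.PB

open Pool.Agent.Helper92.Weak

variable {k L : Type*} [Field k] [Field L] [Algebra k L] {X X' : ProjVar k L}

theorem finite_exc (X X' : ProjVar k L) :
    {P : X'.primeDivisors | P.1 ∉ X.primeDivisors}.Finite := by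
  classical
  choose a ha b hb hb0 hab using fun j => X.chart_isFrac 0 (X'.x j / X'.x 0)
  have hy : ∀ j, X.x j / X.x 0 ≠ 0 := fun j => div_ne_zero (X.x_ne j) (X.x_ne 0)
  have hy' : ∀ j, X'.x j / X'.x 0 ≠ 0 := fun j => div_ne_zero (X'.x_ne j) (X'.x_ne 0)
  have hE : ((⋃ j, {P | P ∈ X'.primeDivisors ∧ P (b j) ≠ 0}) ∪
      ((⋃ j, {P | P ∈ X'.primeDivisors ∧ P (X.x j / X.x 0) ≠ 0}) ∪
        ⋃ j, {P | P ∈ X'.primeDivisors ∧ P (X'.x j / X'.x 0) ≠ 0})).Finite :=
    (Set.finite_iUnion fun j => X'.finite_support (hb0 j)).union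
      ((Set.finite_iUnion fun j => X'.finite_support (hy j)).union
        (Set.finite_iUnion fun j => X'.finite_support (hy' j)))
  refine Set.Finite.subset (hE.preimage (f := fun P : X'.primeDivisors => P.1)
    (fun P _ Q _ h => Subtype.ext h)) ?_
  rintro ⟨v, hv⟩ hvX
  by_contra hcon
  simp only [Set.mem_preimage, Set.mem_union, Set.mem_iUnion, Set.mem_ofPred_eq, not_or, not_exists,
    not_and, not_not] at hcon
  obtain ⟨hvb, hvy, hvy'⟩ := hcon
  apply hvX
  change v.ring ∈ X.localRings
  -- the centre on the chart of `X`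
  have hchart : chart k X.x 0 ≤ v.ring := by
    rw [ProjVar.chart_le_iff]
    intro j
    rw [DVal.mem_ring, hvy j hv]
  have hdom := dominates_posIdeal hchart
  have hchart' : chart k X'.x 0 ≤ locAt _ (posIdeal v _ hchart) := by
    rw [ProjVar.chart_le_iff]
    intro j
    refine ⟨⟨a j, ha j⟩, ⟨b j, hb j⟩, ?_, ?_⟩
    · rw [notMem_posIdeal]
      exact ⟨hb0 j, hvb j hv⟩
    · rw [hab j]
      exact div_mul_cancel₀ _ (hb0 j)
  have hchart'' : chart k X'.x 0 ≤ v.ring := hchart'.trans hdom.1
  have hR : locAt _ (posIdeal v _ hchart'') = v.ring :=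
    X'.separated (X'.locAt_mem 0 _) hv (dominates_posIdeal hchart'') (Dominates.refl _)
  have heq : locAt _ (posIdeal v _ hchart) = v.ring := by
    refine le_antisymm hdom.1 ?_
    intro z hz
    rw [← hR] at hz
    obtain ⟨c, d, hd, hzd⟩ := hz
    rw [notMem_posIdeal] at hd
    have hdR : (d : L) ∈ locAt _ (posIdeal v _ hchart) := hchart' d.2
    have hdi : (d : L)⁻¹ ∈ locAt _ (posIdeal v _ hchart) := by
      refine hdom.2 _ hdR ?_
      rw [DVal.mem_ring, v.map_inv, hd.2, neg_zero]
    have hzc : z = c * (d : L)⁻¹ := by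
      rw [← hzd]
      have := hd.1
      field_simp
    rw [hzc]
    exact Subalgebra.mul_mem _ (hchart' c.2) hdi
  rw [← heq]
  exact X.locAt_mem 0 _

end Pool.Agent.Helper63.PB
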