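import Pool.Agent.Helper92.Weak.Defs

set_option autoImplicit false

/-!
# Crepant finite covers: definition
-/

namespace Pool.Agent.Helper63.PB

open Pool.Agent.Helper92.Weak

/-- `X → Y` is a finite cover and `K_X + Δ` is the pull back of `K_Y + Δ'`: if `P` lies over `P'` with
ramification index `e` then `e Δ'(P') = Δ(P) + e - 1`. -/
def IsLogPull {k L M : Type*} [Field k] [Field L] [Field M] [Algebra k L] [Algebra k M]
    [Algebra L M] {X : ProjVar k M} {Y : ProjVar k L} (Δ : X.Div) (Δ' : Y.Div) : Prop :=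
  ∀ (P : X.primeDivisors) (P' : Y.primeDivisors) (e : ℕ), LiesOver P.1 P'.1 e →
    e * Δ' P' = Δ P + (e - 1)

end Pool.Agent.Helper63.PB
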