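import Pool.Agent.Helper92.Weak.Defs

set_option autoImplicit false

/-!
# Stable weak abundance: definition
-/

namespace Pool.Agent.Helper63.PB

open Pool.Agent.Helper92.Weak

/-- `κ(D) ≥ 0`, and the Kodaira and the numerical dimension of `D + B` agree for every effective
`ℚ`-divisor `B`. -/
def IsStable {k K : Type*} [Field k] [Field K] [Algebra k K] (Z : ProjVar k K) (D : Z.Div) : Prop :=
  Z.kod D ≠ ⊥ ∧ ∀ B : Z.Div, (∀ Q, 0 ≤ B Q) → Z.kod (D + B) = Z.nu (D + B)

end Pool.Agent.Helper63.PB
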