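import Pool.Agent.Helper63.PB.CurveDefs
import Pool.Agent.Helper63.PB.CoverDefs
import Pool.Agent.Helper63.PB.StableDefs
import Pool.Agent.Helper60.PB.BaseDefs
import Pool.Agent.Helper60.PB.NuZeroDefs
import Pool.Agent.Helper92.Tor.Defs
import Pool.Agent.Helper47.PQ.Defs
import Pool.Agent.Helper92.HA.Stat

set_option autoImplicit false

/-!
# PB-45 TowerDefs: towers of fibrations
-/

namespace Pool.Agent.Helper63.PB

open Pool.Agent.Helper92.Weak Pool.Agent.Helper47.PQ Pool.Agent.Helper60.PB Pool.Agent.Helper92.HA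

universe u

section

variable {k K L : Type u} [Field k] [Field K] [Field L] [Algebra k K] [Algebra k L] [Algebra K L]

/-- `X → Z` is a fibration whose geometric generic fibre is a curve of genus zero or one. -/
def CurveStep (X : ProjVar k L) (Z : ProjVar k K) : Prop :=
  ∃ (K' L' : Type u) (_ : Field K') (_ : Field L') (_ : Algebra k K') (_ : Algebra k L')
    (_ : Algebra K K') (_ : Algebra K L') (_ : Algebra L L') (_ : Algebra K' L')
    (_ : IsScalarTower k K K') (_ : IsScalarTower k K L') (_ : IsScalarTower k L L')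
    (_ : IsScalarTower k K' L') (_ : IsScalarTower K L L') (_ : IsScalarTower K K' L'),
    IsCurveFibration K' L' X Z

/-- `X → Z` is a fibration whose general fibre (with the boundary `Δ`) is compared with a log
canonical hyperplane arrangement in `ℙᵈ`, see `IsArrangement`.  If `s` holds then the arrangement
`A` is of log general type and the geometric generic fibre is birational to `ℙᵈ`. -/
def ArrStep (s : Prop) (X : ProjVar k L) (Δ : X.Div) (Z : ProjVar k K) (d : ℕ) : Prop :=
  ∃ (K' M L' ι : Type u) (_ : Field K') (_ : Field M) (_ : Field L') (_ : Algebra k K')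
    (_ : Algebra k M) (_ : Algebra k L') (_ : Algebra K K') (_ : Algebra K L') (_ : Algebra L L')
    (_ : Algebra K' M) (_ : Algebra K' L') (_ : Algebra M L') (_ : IsScalarTower k K K')
    (_ : IsScalarTower k K L') (_ : IsScalarTower k L L') (_ : IsScalarTower k K' M)
    (_ : IsScalarTower k K' L') (_ : IsScalarTower k M L') (_ : IsScalarTower K L L')
    (_ : IsScalarTower K K' L') (_ : IsScalarTower K' M L') (_ : Fintype ι) (_ : DecidableEq ι)
    (t : Fin d → M) (A : Arr K' L' t ι), IsArrangement X Δ Z A ∧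
      (s → 0 < A.h ∧ A.N = 1 ∧ Algebra.IsPushout K K' L L')

end

section

variable {k M K E : Type*} [Field k] [Field M] [Field K] [Field E] [Algebra k M] [Algebra k K]
  [Algebra k E] [Algebra M E] [Algebra K E] [IsScalarTower k M E] [IsScalarTower k K E]

/-- Every divisor of the product `X` of `F` and `Y` has a multiple which is linearly equivalent to
a sum of pull backs `pr₁* DF + pr₂* DY` (for instance, if `F` is smooth and `h¹(𝓞_F) = 0`). -/
def IsSplit (F : ProjVar k M) (Y : ProjVar k K) (X : ProjVar k E) : Prop :=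
  ∀ B : X.Div, ∃ (N : ℕ) (g : E) (DF : F.Div) (DY : Y.Div) (D : X.Div), 0 < N ∧ g ≠ 0 ∧
    IsBox DF DY D ∧ ∀ P : X.primeDivisors, N * B P = D P + P.1 g

end

/-- Classes of pairs `(Z, q)`, `q = (K_Z, Δ)`, on `d`-dimensional normal projective varieties. -/
abbrev PairClass (k : Type u) [Field k] : Type (u + 1) :=
  ∀ (K : Type u) [Field K] [Algebra k K] (Z : ProjVar k K) (d : ℕ), Z.Pair d → Prop

/-- Two classes of pairs, `b = true` (the smaller class) and `b = false`, defined by starting pairs
and operations. The given class `𝓑` may be empty. -/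
inductive Tower (k : Type u) [Field k] (𝓑 : PairClass k) : Bool → (K : Type u) → [Field K] →
    [Algebra k K] → (Z : ProjVar k K) → (d : ℕ) → Z.Pair d → Prop
  /-- start: pairs of the given class -/
  | base (K : Type u) [Field K] [Algebra k K] (Z : ProjVar k K) (d : ℕ) (q : Z.Pair d)
      (hd : Algebra.trdeg k K = d) (hq : 𝓑 K Z d q) : Tower k 𝓑 true K Z d q
  /-- start: all prime divisors are big (for instance, `Z` is a curve, or is `ℚ`-factorial with
  Picard number one) -/
  | primeBig (K : Type u) [Field K] [Algebra k K] (Z : ProjVar k K) (d : ℕ) (q : Z.Pair d)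
      (hd : Algebra.trdeg k K = d) (hZ : IsPrimeBig Z) (hκ : Z.kod q.logDiv ≠ ⊥) :
      Tower k 𝓑 true K Z d q
  /-- start: section rings of `Z` are finitely generated (for instance, Mori dream spaces, abelian
  varieties) -/
  | fgSections (K : Type u) [Field K] [Algebra k K] (Z : ProjVar k K) (d : ℕ) (q : Z.Pair d)
      (hd : Algebra.trdeg k K = d) (hZ : HasFGSections Z) (hκ : Z.kod q.logDiv ≠ ⊥) :
      Tower k 𝓑 true K Z d q
  /-- start: log general type -/
  | big (K : Type u) [Field K] [Algebra k K] (Z : ProjVar k K) (d : ℕ) (q : Z.Pair d)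
      (hd : Algebra.trdeg k K = d) (hκ : Z.kod q.logDiv = d) : Tower k 𝓑 true K Z d q
  /-- larger boundaries and birational maps `X ⇢ Y`: at the prime divisors `P` of `X` which are not
  prime divisors of `Y` the coefficient is larger than `1 - A`, where `A` is the log discrepancy of
  `(Y, Δ_Y)` at `P` -/
  | birational (L : Type u) [Field L] [Algebra k L] (X Y : ProjVar k L) (n : ℕ) (p : X.Pair n)
      (q : Y.Pair n) (hq : Tower k 𝓑 true L Y n q)
      (h1 : ∀ (P : X.primeDivisors) (Q : Y.primeDivisors), P.1 = Q.1 → q.Δ Q ≤ p.Δ P)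
      (h2 : ∀ P : X.primeDivisors, P.1 ∉ Y.primeDivisors → ∃ (a : ℤ) (c : ℚ), P.1.HasOrd q.ω a ∧
        Y.IsValue P.1 q.logDiv c ∧ c < a + p.Δ P) : Tower k 𝓑 true L X n p
  /-- products `F × Y`, where `F` is rational or the divisors of `F × Y` split, see `IsSplit`; the
  boundary is at least the sum of the pull backs -/
  | product (M K E : Type u) [Field M] [Field K] [Field E] [Algebra k M] [Algebra k K]
      [Algebra k E] [Algebra M E] [Algebra K E] [IsScalarTower k M E] [IsScalarTower k K E]
      (F : ProjVar k M) (Y : ProjVar k K) (X : ProjVar k E) (m n : ℕ) (pF : F.Pair m)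
      (pY : Y.Pair n) (p : X.Pair (m + n)) (h : IsProduct F Y X)
      (hs : (∃ (r : ℕ) (y : Fin r → M), AlgebraicIndependent k y ∧
        IntermediateField.adjoin k (Set.range y) = ⊤) ∨ IsSplit F Y X)
      (hF : Tower k 𝓑 true M F m pF) (hY : Tower k 𝓑 true K Y n pY)
      (h1 : ∀ (P : X.primeDivisors) (T : F.primeDivisors), LiesOver P.1 T.1 1 → pF.Δ T ≤ p.Δ P)
      (h2 : ∀ (P : X.primeDivisors) (Q : Y.primeDivisors), LiesOver P.1 Q.1 1 → pY.Δ Q ≤ p.Δ P) :
      Tower k 𝓑 true E X (m + n) p
  /-- the first class is contained in the second one -/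
  | weaken (K : Type u) [Field K] [Algebra k K] (Z : ProjVar k K) (d : ℕ) (q : Z.Pair d)
      (hq : Tower k 𝓑 true K Z d q) : Tower k 𝓑 false K Z d q
  /-- fibrations in curves of genus at most one -/
  | curve (b : Bool) (K L : Type u) [Field K] [Field L] [Algebra k K] [Algebra k L] [Algebra K L]
      [IsScalarTower k K L] (X : ProjVar k L) (Z : ProjVar k K) (d : ℕ) (h : CurveStep X Z)
      (p : X.Pair (d + 1)) (q : Z.Pair d) (hq : Tower k 𝓑 true K Z d q) (hpq : IsOrbifoldBase p q)
      (hΔ : (∀ P : X.primeDivisors, (∀ x : K, P.1 (algebraMap K L x) = 0) →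
        p.Δ P ≤ 1 ∧ (b = true → p.Δ P < 1)) ∨ IsBigOnFibre K p)
      (hκ : b = true → X.kod p.logDiv ≠ ⊥) : Tower k 𝓑 b L X (d + 1) p
  /-- fibrations in rational varieties, or varieties dominated by Kummer covers of `ℙᵈ`, compared
  with hyperplane arrangements -/
  | arrangement (b : Bool) (K L : Type u) [Field K] [Field L] [Algebra k K] [Algebra k L]
      [Algebra K L] [IsScalarTower k K L] (X : ProjVar k L) (Z : ProjVar k K) (n d : ℕ) (hd : 0 < d)
      (p : X.Pair (n + d)) (q : Z.Pair n) (h : ArrStep (b = true) X p.Δ Z d)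
      (hq : Tower k 𝓑 true K Z n q) (hpq : IsOrbifoldBase p q) : Tower k 𝓑 b L X (n + d) p
  /-- torus actions -/
  | torus (b : Bool) (K L : Type u) [Field K] [Field L] [Algebra k K] [Algebra k L] [Algebra K L]
      [IsScalarTower k K L] (X : ProjVar k L) (Z : ProjVar k K) (d r : ℕ) (t : Fin r → L)
      (h : IsTorusVariety t X Z) (p : X.Pair (d + r)) (q : Z.Pair d) (hlc : p.LC)
      (hB : b = true → ∀ B : X.Div, (∀ P, 0 ≤ B P) →
        ∃ c : ℚ, 0 < c ∧ X.IsLogCanonical p.ω p.can (p.Δ + c • B))
      (hpq : IsOrbifoldBase p q) (hq : Tower k 𝓑 true K Z d q)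
      (hκ : b = true → X.kod p.logDiv ≠ ⊥) : Tower k 𝓑 b L X (d + r) p
  /-- fibrations of relative dimension `d` whose general fibre has numerical dimension zero, such
  that `K_X + Δ_X - f* (K_Z + Δ_Z)` is `ℚ`-effective, see `IsNuZero` -/
  | nuZero (K L : Type u) [Field K] [Field L] [Algebra k K] [Algebra k L] [Algebra K L]
      [IsScalarTower k K L] (X : ProjVar k L) (Z : ProjVar k K) (n d : ℕ)
      (hd : Algebra.trdeg K L = d) (p : X.Pair (n + d)) (q : Z.Pair n)
      (h : IsNuZero X p.logDiv Z q.logDiv) (hq : Tower k 𝓑 true K Z n q) :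
      Tower k 𝓑 false L X (n + d) p
  /-- products -/
  | box (M K E : Type u) [Field M] [Field K] [Field E] [Algebra k M] [Algebra k K] [Algebra k E]
      [Algebra M E] [Algebra K E] [IsScalarTower k M E] [IsScalarTower k K E] (F : ProjVar k M)
      (Y : ProjVar k K) (X : ProjVar k E) (m n : ℕ) (pF : F.Pair m) (pY : Y.Pair n)
      (p : X.Pair (m + n)) (h : IsProduct F Y X) (hF : Tower k 𝓑 false M F m pF)
      (hY : Tower k 𝓑 false K Y n pY) (hb : IsBox pF.Δ pY.Δ p.Δ) :
      Tower k 𝓑 false E X (m + n) p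
  /-- finite quotients -/
  | quotient (b : Bool) (L M : Type u) [Field L] [Field M] [Algebra k L] [Algebra k M]
      [Algebra L M] [IsScalarTower k L M] (X : ProjVar k M) (Y : ProjVar k L) (n : ℕ)
      (p : X.Pair n) (p' : Y.Pair n) (hp : Tower k 𝓑 b M X n p) (hc : IsFiniteCover X Y)
      (h : IsLogPull p.Δ p'.Δ) : Tower k 𝓑 b L Y n p'
  /-- finite covers -/
  | cover (L M : Type u) [Field L] [Field M] [Algebra k L] [Algebra k M] [Algebra L M]
      [IsScalarTower k L M] (X : ProjVar k M) (Y : ProjVar k L) (n : ℕ) (p : X.Pair n)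
      (p' : Y.Pair n) (hp : Tower k 𝓑 false L Y n p') (hc : IsFiniteCover X Y)
      (h : IsLogPull p.Δ p'.Δ) : Tower k 𝓑 false M X n p

  /-- crepant birational maps, and more generally: the coefficients at the prime divisors of one
  variety which are not prime divisors of the other one are at least `1 - A` -/
  | crepant (L : Type u) [Field L] [Algebra k L] (X Y : ProjVar k L) (n : ℕ) (p : X.Pair n)
      (q : Y.Pair n) (hq : Tower k 𝓑 false L Y n q)
      (h0 : ∀ (P : X.primeDivisors) (Q : Y.primeDivisors), P.1 = Q.1 → p.Δ P = q.Δ Q)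
      (h1 : ∀ P : X.primeDivisors, P.1 ∉ Y.primeDivisors → ∃ (a : ℤ) (c : ℚ), P.1.HasOrd q.ω a ∧
        Y.IsValue P.1 q.logDiv c ∧ c ≤ a + p.Δ P)
      (h2 : ∀ Q : Y.primeDivisors, Q.1 ∉ X.primeDivisors → ∃ (a : ℤ) (c : ℚ), Q.1.HasOrd p.ω a ∧
        X.IsValue Q.1 p.logDiv c ∧ c ≤ a + q.Δ Q) : Tower k 𝓑 false L X n p

end Pool.Agent.Helper63.PB
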