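import Pool.Agent.Helper63.PB.Enlarge
import Pool.Agent.Helper92.Ga.Final
import Mathlib.FieldTheory.SplittingField.Construction

set_option autoImplicit false

/-!
# PB-37 Final: the comparison theorem for fibrations in rational curves
-/

namespace Pool.Agent.Helper63.PB

open Pool.Agent.Helper92.Weak Pool.Agent.Helper92.Ga
open Polynomial

/-- `X → Z` is a morphism which maps every prime divisor of `X` onto `Z` or onto a prime divisor
of `Z`, and the geometric generic fibre is a rational curve: the function field `L' = L ⊗ K'` of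
`X` over the finite extension `K'` of the function field `K` of `Z` is `K'(t)`. -/
structure IsRationalCurveFibration {k K L : Type*} (K' L' : Type*) [Field k] [Field K] [Field L]
    [Field K'] [Field L'] [Algebra k K] [Algebra k L] [Algebra K L] [Algebra K K'] [Algebra K L']
    [Algebra L L'] [Algebra K' L'] [IsScalarTower K L L'] [IsScalarTower K K' L']
    (X : ProjVar k L) (Z : ProjVar k K) : Prop where
  mor : IsMorphism X Z
  equi : ∀ P ∈ X.primeDivisors, (∃ a : K, P (algebraMap K L a) ≠ 0) →
    ∃ Q ∈ Z.primeDivisors, ∃ e, LiesOver P Q e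
  finite : FiniteDimensional K K'
  pushout : Algebra.IsPushout K K' L L'
  line : ∃ t : L', Transcendental K' t ∧ IntermediateField.adjoin K' {t} = ⊤

variable {k K L K' L' : Type*} [Field k] [Field K] [Field L] [Field K'] [Field L']
  [Algebra k K] [Algebra k L] [Algebra k K'] [Algebra k L'] [Algebra K L] [Algebra K K']
  [Algebra K L'] [Algebra L L'] [Algebra K' L'] [IsScalarTower k K L] [IsScalarTower k K K']
  [IsScalarTower k K L'] [IsScalarTower k L L'] [IsScalarTower k K' L'] [IsScalarTower K L L']
  [IsScalarTower K K' L'] {X : ProjVar k L} {Z : ProjVar k K}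

omit [IsScalarTower k K L'] in
/-- A polynomial over `K'` which is positive at all finite places over horizontal components. -/
theorem exists_num_pair [FiniteDimensional K K'] [FiniteDimensional L L'] [CharZero k] {t : L'}
    (ht : IsLine K' t) (Δ : X.Div) : ∃ f : K'[X], f ≠ 0 ∧
      ∀ P : X.primeDivisors, (∀ x : K, P.1 (algebraMap K L x) = 0) → Δ P ≠ 0 →
        ∀ (v : DVal k L') (ε : ℕ), LiesOver v P.1 ε → 0 ≤ v t → 0 < v (aeval t f) := by
  classical
  have hfin : {v : DVal k L' | ∃ P : X.primeDivisors, (∀ x : K, P.1 (algebraMap K L x) = 0) ∧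
      Δ P ≠ 0 ∧ ∃ ε, LiesOver v P.1 ε}.Finite := by
    have h1 : (⋃ P ∈ Δ.support, {v : DVal k L' | ∃ ε, LiesOver v P.1 ε}).Finite :=
      Δ.support.finite_toSet.biUnion fun P _ => finite_above P.1
    refine h1.subset ?_
    rintro v ⟨P, -, hP, ε, hv⟩
    rw [Set.mem_iUnion₂]
    exact ⟨P, Finsupp.mem_support_iff.2 hP, ε, hv⟩
  obtain ⟨f, hf, hfT⟩ := exists_num ht hfin.toFinset (by
    intro v hv
    rw [Set.Finite.mem_toFinset] at hv
    obtain ⟨P, hP, -, ε, hv⟩ := hv
    exact fun x => triv_of_hor (K := K) hP hv x)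
  refine ⟨f, hf, fun P hP hPΔ v ε hv hvt => hfT v ?_ hvt⟩
  rw [Set.Finite.mem_toFinset]
  exact ⟨P, hP, hPΔ, ε, hv⟩

/-- The comparison theorem for fibrations in rational curves. -/
theorem main [IsAlgClosed k] [CharZero k] {d : ℕ} (hd : Algebra.trdeg k K = d)
    (h : IsRationalCurveFibration K' L' X Z) (p : X.Pair (d + 1)) (q : Z.Pair d)
    (h1 : (∀ P : X.primeDivisors, (∀ x : K, P.1 (algebraMap K L x) = 0) → p.Δ P ≤ 1) ∨
      IsBigOnFibre K p)
    (hq : IsOrbifoldBase p q) (hκ : Z.kod q.logDiv ≠ ⊥) :
    (X.kod p.logDiv = ⊥ ∧ X.nu p.logDiv = ⊥) ∨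
    ∃ (s : ℕ) (B : Z.Div), s ≤ 1 ∧ (∀ Q, 0 ≤ B Q) ∧ ∀ ε : ℚ, 0 < ε →
      X.kod p.logDiv = s + Z.kod (q.logDiv + ε • B) ∧
      X.nu p.logDiv = s + Z.nu (q.logDiv + ε • B) := by
  obtain ⟨t, ht1, ht2⟩ := h.line
  have ht : IsLine K' t := ⟨ht1, ht2⟩
  have j1 : FiniteDimensional K K' := h.finite
  have j2 : Algebra.IsPushout K K' L L' := h.pushout
  have j3 : Algebra.IsPushout K L K' L' := j2.symm
  have j4 : FiniteDimensional L L' :=
    Module.Finite.equiv (Algebra.IsPushout.equiv K L K' L').toLinearEquiv
  obtain ⟨f, hf, hPf⟩ := exists_num_pair (K := K) ht p.Δ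
  -- the larger fields
  let K'' := f.SplittingField
  let L'' := RatFunc K''
  let a1 : Algebra K'[X] L' := lineAlg K' t
  have f1 : IsFractionRing K'[X] L' := ht.isFractionRing
  have t1 : IsScalarTower K' K'[X] L' := lineAlg_tower K' t
  have hX : Transcendental K' (RatFunc.X : L'') :=
    (RatFunc.transcendental_X (K := K'')).restrictScalars (algebraMap K' K'').injective
  let φ : L' →ₐ[K'] L'' := IsFractionRing.liftAlgHom (g := (aeval (RatFunc.X : L'') : K'[X] →ₐ[K'] L''))
    (transcendental_iff_injective.1 hX)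
  let a2 : Algebra L' L'' := φ.toRingHom.toAlgebra
  let a3 : Algebra L L'' := (φ.toRingHom.comp (algebraMap L L')).toAlgebra
  have e1 : algebraMap L' L'' t = RatFunc.X := by
    change φ t = RatFunc.X
    have h2 : t = algebraMap K'[X] L' Polynomial.X := by
      change t = aeval t (Polynomial.X : K'[X])
      rw [aeval_X]
    rw [h2]
    change IsFractionRing.liftAlgHom _ _ = _
    rw [IsFractionRing.liftAlgHom_apply, IsFractionRing.lift_algebraMap]
    change aeval (RatFunc.X : L'') (Polynomial.X : K'[X]) = _
    rw [aeval_X]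
  have i6 : IsScalarTower k K' K'' := inferInstance
  have i9 : IsScalarTower K K' K'' := inferInstance
  have i1 : IsScalarTower k K K'' := by
    apply IsScalarTower.of_algebraMap_eq
    intro x
    rw [IsScalarTower.algebraMap_apply k K' K'', IsScalarTower.algebraMap_apply K K' K'',
      ← IsScalarTower.algebraMap_apply k K K']
  have i2 : IsScalarTower k K L'' := inferInstance
  have i4 : IsScalarTower k K'' L'' := inferInstance
  have i8 : IsScalarTower K K'' L'' := inferInstance
  have i10 : IsScalarTower K' K'' L'' := inferInstance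
  have i14 : IsScalarTower k K' L'' := inferInstance
  have i15 : IsScalarTower K K' L'' := inferInstance
  have i11 : IsScalarTower K' L' L'' := IsScalarTower.of_algebraMap_eq fun x => (φ.commutes x).symm
  have i12 : IsScalarTower L L' L'' := IsScalarTower.of_algebraMap_eq fun x => rfl
  have i5 : IsScalarTower k L' L'' := by
    apply IsScalarTower.of_algebraMap_eq
    intro x
    rw [IsScalarTower.algebraMap_apply k K' L'', IsScalarTower.algebraMap_apply K' L' L'',
      ← IsScalarTower.algebraMap_apply k K' L']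
  have i3 : IsScalarTower k L L'' := by
    apply IsScalarTower.of_algebraMap_eq
    intro x
    rw [IsScalarTower.algebraMap_apply k L' L'', IsScalarTower.algebraMap_apply L L' L'',
      ← IsScalarTower.algebraMap_apply k L L']
  have i7 : IsScalarTower K L L'' := by
    apply IsScalarTower.of_algebraMap_eq
    intro x
    rw [IsScalarTower.algebraMap_apply K K' L'', IsScalarTower.algebraMap_apply K' L' L'',
      IsScalarTower.algebraMap_apply L L' L'', ← IsScalarTower.algebraMap_apply K K' L',
      ← IsScalarTower.algebraMap_apply K L L']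
  have i13 : FiniteDimensional K' K'' := inferInstance
  have h'' : IsLine K'' (algebraMap L' L'' t) := by
    rw [e1]
    exact ⟨RatFunc.transcendental_X, RatFunc.adjoin_X⟩
  exact enlarge_main hd h.mor h.equi ht p q h1 hq hκ h'' (SplittingField.splits f) hf hPf

end Pool.Agent.Helper63.PB
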