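import Pool.Agent.Helper63.PB.Approx

set_option autoImplicit false

/-!
# PB-09 Common: a common extension of two valuations

`L₁ = L ⊗ K'` (`Algebra.IsPushout K K' L L₁`), `K' / K` finite, `P` over `Q` (`P` on `L`, `Q` on `K`),
`Q'` over `Q` (`Q'` on `K'`): there is `v` on `L₁` over `P` and over `Q'`.

PROOF. Suppose not. By `exists_pole` (for `K' / K`) there is `x ∈ K'` with `Q' x < 0` and `w x ≥ 0` for
all other `w` over `Q`. Let `v` be over `P`. By `exists_under` `v` lies over some `w` on `K'`
(`L₁` is not algebraic over `K'`: use instead: `v` restricted to `K'` is nontrivial, since it is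
nontrivial on `K` (`v = ε e Q` on `K`); so again `v` on `K'` is a positive multiple of a discrete valuation
`w` of `K'` (values form a nonzero subgroup of `ℤ`), and `w` lies over `Q` (`under_factor`-like
computation). `w ≠ Q'` by assumption, so `v x ≥ 0`. Hence `x` is integral over `P.ring`
(`Helper47.PQ.isIntegral_of_ge` for `L₁ / L`). The coefficients of `minpoly L x` are in `P.ring`
(`Helper47.PQ.minpoly_coeff_ge` with `q = 0`), and `minpoly L x = (minpoly K x).map (algebraMap K L)`:
since `L₁ = L ⊗ K'`, powers `1, x, ..., x^(d-1)` which are linearly independent over `K` in `K'`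
are linearly independent over `L` in `L₁` (`Algebra.IsPushout`, `IsBaseChange`: extend them to a basis
of `K' / K`; or `Algebra.IsPushout.linearIndependent`-like), so both polynomials have the same degree.
So the coefficients `c` of `minpoly K x` have `P c ≥ 0`, i.e. `Q c ≥ 0`, and `x` is integral over
`Q.ring`, hence `Q' x ≥ 0` (`Q'.ring` is integrally closed and contains `Q.ring`), a contradiction.

`exists_common_of` is the same for a finite extension `L'` of `L₁`: extend `v` further by
`Helper47.PQ.exists_over`.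
-/

namespace Pool.Agent.Helper63.PB

open Pool.Agent.Helper92.Weak

/-- Restriction of a valuation which is not trivial on the subfield. -/
private theorem exists_under_ne {k E E' : Type*} [Field k] [Field E] [Field E'] [Algebra k E]
    [Algebra k E'] [Algebra E E'] [IsScalarTower k E E'] (w : DVal k E')
    (h0 : ∃ c : E, w (algebraMap E E' c) ≠ 0) :
    ∃ (v : DVal k E) (ε : ℕ), LiesOver w v ε := by
  classical
  have hinj : ∀ c : E, c ≠ 0 → algebraMap E E' c ≠ 0 := fun c hc => by
    rwa [Ne, FaithfulSMul.algebraMap_eq_zero_iff]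
  let S : AddSubgroup ℤ :=
    { carrier := {n | ∃ c : E, c ≠ 0 ∧ w (algebraMap E E' c) = n}
      zero_mem' := ⟨1, one_ne_zero, by rw [map_one, w.map_one]⟩
      add_mem' := by
        rintro a b ⟨c, hc, rfl⟩ ⟨d, hd, rfl⟩
        exact ⟨c * d, mul_ne_zero hc hd, by rw [map_mul, w.map_mul (hinj c hc) (hinj d hd)]⟩
      neg_mem' := by
        rintro a ⟨c, hc, rfl⟩
        exact ⟨c⁻¹, inv_ne_zero hc, by rw [map_inv₀, w.map_inv]⟩ }
  have hS : ∀ n : ℤ, n ∈ S ↔ ∃ c : E, c ≠ 0 ∧ w (algebraMap E E' c) = n := fun n => Iff.rfl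
  obtain ⟨g, hg⟩ := Int.subgroup_cyclic S
  rw [← AddSubgroup.zmultiples_eq_closure] at hg
  have hmem : ∀ n : ℤ, n ∈ S ↔ g ∣ n := fun n => by
    rw [hg, Int.mem_zmultiples_iff]
  obtain ⟨c₀, hc₀⟩ := h0
  have hc₀' : c₀ ≠ 0 := by
    rintro rfl
    rw [map_zero, w.map_zero] at hc₀
    exact hc₀ rfl
  have hg0 : g ≠ 0 := by
    rintro rfl
    have h1 := (hmem _).1 ((hS _).2 ⟨c₀, hc₀', rfl⟩)
    exact hc₀ (zero_dvd_iff.1 h1)
  obtain ⟨ε, hε⟩ : ∃ ε : ℕ, ε = g.natAbs := ⟨_, rfl⟩
  have hε0 : 0 < ε := by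
    rw [hε]
    exact Int.natAbs_pos.2 hg0
  have hε0' : (0 : ℤ) < ε := by exact_mod_cast hε0
  have hdvd : ∀ n : ℤ, n ∈ S ↔ (ε : ℤ) ∣ n := fun n => by
    rw [hmem, hε, Int.natAbs_dvd]
  have hall : ∀ c : E, (ε : ℤ) ∣ w (algebraMap E E' c) := by
    intro c
    by_cases hc : c = 0
    · rw [hc, map_zero, w.map_zero]
      exact dvd_zero _
    · exact (hdvd _).1 ((hS _).2 ⟨c, hc, rfl⟩)
  have hdiv : ∀ c : E, (ε : ℤ) * (w (algebraMap E E' c) / ε) = w (algebraMap E E' c) :=
    fun c => Int.mul_ediv_cancel' (hall c)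
  refine ⟨⟨fun c => w (algebraMap E E' c) / ε, ?_, ?_, ?_, ?_, ?_⟩, ε, hε0, fun a => (hdiv a).symm⟩
  · rw [map_zero, w.map_zero, Int.zero_ediv]
  · intro a b ha hb
    refine mul_left_cancel₀ hε0'.ne' ?_
    rw [mul_add, hdiv, hdiv, hdiv, map_mul, w.map_mul (hinj a ha) (hinj b hb)]
  · intro a b ha hb hab
    by_contra hcon
    rw [not_le, lt_min_iff] at hcon
    obtain ⟨h1, h2⟩ := hcon
    have h3 := mul_lt_mul_of_pos_left h1 hε0'
    have h4 := mul_lt_mul_of_pos_left h2 hε0'
    rw [hdiv, hdiv] at h3 h4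
    have h5 : algebraMap E E' a + algebraMap E E' b ≠ 0 := by
      rw [← map_add]
      exact hinj _ hab
    have h6 := w.map_add' _ _ (hinj a ha) (hinj b hb) h5
    rw [← map_add] at h6
    change min (w (algebraMap E E' a)) (w (algebraMap E E' b)) ≤
      w (algebraMap E E' (a + b)) at h6
    rw [min_le_iff] at h6
    omega
  · intro c
    rw [← IsScalarTower.algebraMap_apply, w.map_const, Int.zero_ediv]
  · obtain ⟨c, _, hc⟩ := (hS _).1 ((hdvd ε).2 dvd_rfl)
    refine ⟨c, ?_⟩
    change w (algebraMap E E' c) / (ε : ℤ) = 1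
    rw [hc, Int.ediv_self hε0'.ne']

/-- Linear independence is preserved by base change. -/
private theorem linInd_baseChange {K L K' L₁ : Type*} [Field K] [Field L] [Field K'] [Field L₁]
    [Algebra K L] [Algebra K K'] [Algebra K L₁] [Algebra L L₁] [Algebra K' L₁]
    [IsScalarTower K L L₁] [IsScalarTower K K' L₁] [Algebra.IsPushout K K' L L₁]
    {ι : Type} {v : ι → K'} (hv : LinearIndependent K v) :
    LinearIndependent L fun i => algebraMap K' L₁ (v i) := by
  have hpo : Algebra.IsPushout K L K' L₁ := Algebra.IsPushout.symm inferInstance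
  let b := Module.Basis.sumExtend hv
  have h1 := (hpo.out.basis b).linearIndependent.comp Sum.inl Sum.inl_injective
  have h2 : ((hpo.out.basis b : _ → L₁) ∘ Sum.inl) = fun i => algebraMap K' L₁ (v i) := by
    funext i
    rw [Function.comp_apply, IsBaseChange.basis_apply]
    have h3 : b (Sum.inl i) = v i := by
      simp only [b, Module.Basis.sumExtend, Module.Basis.reindex_apply, Equiv.symm_symm,
        Module.Basis.extend_apply_self]
      rfl
    rw [h3]
    rfl
  rwa [h2] at h1

/-- The minimal polynomial does not change under the base change `L / K`. -/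
private theorem minpoly_baseChange {K L K' L₁ : Type*} [Field K] [Field L] [Field K'] [Field L₁]
    [Algebra K L] [Algebra K K'] [Algebra K L₁] [Algebra L L₁] [Algebra K' L₁]
    [IsScalarTower K L L₁] [IsScalarTower K K' L₁] [Algebra.IsPushout K K' L L₁]
    [FiniteDimensional K K'] [FiniteDimensional L L₁] (x : K') :
    minpoly L (algebraMap K' L₁ x) = (minpoly K x).map (algebraMap K L) := by
  have hx : IsIntegral K x := Algebra.IsIntegral.isIntegral x
  have hx' : IsIntegral L (algebraMap K' L₁ x) := Algebra.IsIntegral.isIntegral _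
  have hdvd : minpoly L (algebraMap K' L₁ x) ∣ (minpoly K x).map (algebraMap K L) := by
    refine minpoly.dvd L _ ?_
    rw [Polynomial.aeval_map_algebraMap, Polynomial.aeval_algebraMap_apply, minpoly.aeval, map_zero]
  have hm1 := minpoly.monic hx'
  have hm2 : ((minpoly K x).map (algebraMap K L)).Monic := (minpoly.monic hx).map _
  refine (Polynomial.eq_of_monic_of_dvd_of_natDegree_le hm1 hm2 hdvd ?_).symm
  rw [Polynomial.natDegree_map]
  by_contra hlt
  rw [not_le] at hlt
  have hli := linInd_baseChange (L := L) (L₁ := L₁) (linearIndependent_pow (K := K) x)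
  rw [Fintype.linearIndependent_iff] at hli
  have h0 := minpoly.aeval L (algebraMap K' L₁ x)
  rw [Polynomial.aeval_eq_sum_range' hlt] at h0
  have h1 := hli (fun i => (minpoly L (algebraMap K' L₁ x)).coeff i) (by
    rw [← h0, ← Fin.sum_univ_eq_sum_range
      (fun i => (minpoly L (algebraMap K' L₁ x)).coeff i • (algebraMap K' L₁ x) ^ i)]
    refine Finset.sum_congr rfl fun i _ => ?_
    rw [map_pow]) ⟨_, hlt⟩
  have h2 : (minpoly L (algebraMap K' L₁ x)).coeff (minpoly L (algebraMap K' L₁ x)).natDegree = 1 :=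
    hm1.coeff_natDegree
  rw [h2] at h1
  exact one_ne_zero h1

section

variable {k K L K' L₁ : Type*} [Field k] [Field K] [Field L] [Field K'] [Field L₁]
  [Algebra k K] [Algebra k L] [Algebra k K'] [Algebra k L₁] [Algebra K L] [Algebra K K']
  [Algebra K L₁] [Algebra L L₁] [Algebra K' L₁] [IsScalarTower k K L] [IsScalarTower k K K']
  [IsScalarTower k K L₁] [IsScalarTower k L L₁] [IsScalarTower k K' L₁] [IsScalarTower K L L₁]
  [IsScalarTower K K' L₁] [FiniteDimensional K K'] [FiniteDimensional L L₁]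
  [Algebra.IsPushout K K' L L₁] [CharZero k]

theorem exists_common {P : DVal k L} {Q : DVal k K} {e : ℕ} (hP : LiesOver P Q e)
    {Q' : DVal k K'} {e' : ℕ} (hQ' : LiesOver Q' Q e') :
    ∃ (v : DVal k L₁) (ε ε' : ℕ), LiesOver v P ε ∧ LiesOver v Q' ε' ∧ ε * e = ε' * e' := by
  obtain ⟨p, hp⟩ := Q.surj'
  have hp1 : Q p = 1 := hp
  by_contra hcon
  have hno : ∀ (v : DVal k L₁) (ε ε' : ℕ), LiesOver v P ε → ¬ LiesOver v Q' ε' := by
    intro v ε ε' h1 h2
    refine hcon ⟨v, ε, ε', h1, h2, ?_⟩
    have h3 := (under_trans h1 hP).2 p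
    have h4 := (under_trans h2 hQ').2 p
    rw [h3, hp1, mul_one, mul_one] at h4
    exact_mod_cast h4
  obtain ⟨x, hx, hxw⟩ := exists_pole hQ'
  -- `x` is integral over `P.ring`
  have hge : ∀ (v : DVal k L₁) (ε : ℕ), LiesOver v P ε → 0 ≤ v (algebraMap K' L₁ x) := by
    intro v ε hv
    have h1 := under_trans hv hP
    have h2 : v (algebraMap K' L₁ (algebraMap K K' p)) ≠ 0 := by
      rw [← IsScalarTower.algebraMap_apply, h1.2, hp1]
      have := h1.1
      have h3 : (0 : ℤ) < ((ε * e : ℕ) : ℤ) := by exact_mod_cast this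
      omega
    obtain ⟨w, ε', hw⟩ := exists_under_ne v ⟨_, h2⟩
    obtain ⟨e'', hwQ, -⟩ := under_factor hw h1
    have h3 : w ≠ Q' := by
      rintro rfl
      exact hno v ε ε' hv hw
    have h4 := hxw w e'' hwQ h3
    rw [hw.2]
    positivity
  have hco : ∀ i : ℕ, P.Ge 0 ((minpoly L (algebraMap K' L₁ x)).coeff i) := by
    intro i
    by_cases hi : i ≤ (minpoly L (algebraMap K' L₁ x)).natDegree
    · have h1 := Pool.Agent.Helper47.PQ.minpoly_coeff_ge P (q := 0) (x := algebraMap K' L₁ x)
        (fun v ε hv => Or.inr (by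
          have := hge v ε hv
          rw [Int.cast_zero, mul_zero]
          exact_mod_cast this)) ((minpoly L (algebraMap K' L₁ x)).natDegree - i) (Nat.sub_le _ _)
      rw [Nat.sub_sub_self hi, Int.cast_zero, mul_zero] at h1
      exact h1
    · rw [Polynomial.coeff_eq_zero_of_natDegree_lt (not_le.1 hi)]
      exact DVal.Ge.zero
  rw [minpoly_baseChange (K := K) (L := L) x] at hco
  have hint : IsIntegral Q'.ring x := by
    have hlift : (minpoly K x).map (algebraMap K K') ∈ Polynomial.lifts (algebraMap Q'.ring K') := by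
      rw [Polynomial.lifts_iff_coeff_lifts]
      intro i
      have h1 := hco i
      rw [Polynomial.coeff_map] at h1
      have h2 : 0 ≤ Q' (algebraMap K K' ((minpoly K x).coeff i)) := by
        rw [hQ'.2]
        rcases h1 with h1 | h1
        · rw [map_eq_zero] at h1
          rw [h1, Q.map_zero, mul_zero]
        · rw [hP.2] at h1
          have h3 : (0 : ℤ) ≤ e * Q ((minpoly K x).coeff i) := by exact_mod_cast h1
          have h4 : (0 : ℤ) < e := by exact_mod_cast hP.1
          have h5 : 0 ≤ Q ((minpoly K x).coeff i) := nonneg_of_mul_nonneg_right h3 h4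
          positivity
      rw [Polynomial.coeff_map]
      exact ⟨⟨_, h2⟩, rfl⟩
    have hmon : ((minpoly K x).map (algebraMap K K')).Monic :=
      (minpoly.monic (Algebra.IsIntegral.isIntegral x)).map _
    obtain ⟨q, hq1, -, hq2⟩ := Polynomial.lifts_and_natDegree_eq_and_monic hlift hmon
    refine ⟨q, hq2, ?_⟩
    rw [← Polynomial.eval_map, hq1, Polynomial.eval_map, ← Polynomial.aeval_def, minpoly.aeval]
  have := Pool.Agent.Helper47.PQ.mem_ring_of_isIntegral Q' hint
  omega

end

end Pool.Agent.Helper63.PB
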