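import Pool.Agent.Helper63.PB.Under
import Pool.Agent.Helper47.PQ.R1

set_option autoImplicit false

/-!
# PB-12 Finite: finiteness statements

`finite_ne`. `L' / L` finite, `g ∈ L'` nonzero. For all but finitely many prime divisors `P` of `X` all `v`
over `P` have `v g = 0`. PROOF. Let `c_i` be the coefficients of `minpoly L g` and of `minpoly L g⁻¹`.
Outside the finite set of `P` with `P c_i ≠ 0` for some `i` (`ProjVar.finite_support`), all `c_i` have
`P c_i ≥ 0`, so `g` and `g⁻¹` are integral over `P.ring`, `v g ≥ 0` and `v g⁻¹ ≥ 0` for all `v` over `P`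
(`v.ring` is integrally closed and contains `P.ring`: `Helper47.PQ.mem_ring_of_isIntegral`).

`finite_over_base`. Only finitely many prime divisors of `X` lie over a given `Q`: they have
`P p ≠ 0`, `p ∈ K` with `Q p = 1` (`finite_support`).

`finite_image`. If `T` is a finite set of prime divisors of `X` then only finitely many prime divisors
`Q` of `Z` lie under some `P ∈ T`: for each `P` at most one (`Helper47.PQ.liesOver_unique` in R2, or
`DVal.eq_of_ring_le`).
-/

namespace Pool.Agent.Helper63.PB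

open Pool.Agent.Helper92.Weak

/-- Coefficients of nonnegative value give a nonnegative value. -/
private lemma nonneg_of_coeff {k L L' : Type*} [Field k] [Field L] [Field L'] [Algebra k L]
    [Algebra k L'] [Algebra L L'] {P : DVal k L} {v : DVal k L'} {ε : ℕ} (h : LiesOver v P ε)
    {f : Polynomial L} (hf : f.Monic) {g : L'} (hg : Polynomial.aeval g f = 0)
    (hc : ∀ i, 0 ≤ P (f.coeff i)) : 0 ≤ v g := by
  by_contra hneg
  push Not at hneg
  have hg0 : g ≠ 0 := v.ne_zero_of_pos (by omega)
  have h1 : g ^ f.natDegree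
      = -∑ i ∈ Finset.range f.natDegree, algebraMap L L' (f.coeff i) * g ^ i := by
    rw [Polynomial.aeval_eq_sum_range, Finset.sum_range_succ, hf.coeff_natDegree, one_smul] at hg
    rw [eq_neg_iff_add_eq_zero, add_comm, ← hg]
    simp only [Algebra.smul_def]
  have h2 : v.Ge ((f.natDegree * v g + 1 : ℤ) : ℚ) (g ^ f.natDegree) := by
    rw [h1]
    apply DVal.Ge.neg
    apply DVal.Ge.sum
    intro i hi
    rw [Finset.mem_range] at hi
    by_cases hci : f.coeff i = 0
    · rw [hci, _root_.map_zero, zero_mul]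
      exact DVal.Ge.zero
    have hci' : algebraMap L L' (f.coeff i) ≠ 0 := by
      rwa [Ne, map_eq_zero_iff _ (algebraMap L L').injective]
    rw [DVal.ge_iff (mul_ne_zero hci' (pow_ne_zero _ hg0)), v.map_mul hci' (pow_ne_zero _ hg0),
      h.2, v.map_pow]
    have h3 : (0 : ℤ) ≤ ε * P (f.coeff i) := mul_nonneg (by positivity) (hc i)
    have h4 : ((f.natDegree : ℤ) - i) * v g + 1 ≤ 0 := by
      have h5 : (1 : ℤ) ≤ (f.natDegree : ℤ) - i := by omega
      nlinarith
    have h6 : (f.natDegree * v g + 1 : ℤ) ≤ ε * P (f.coeff i) + i * v g := by linarith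
    exact_mod_cast h6
  rw [DVal.ge_iff (pow_ne_zero _ hg0), v.map_pow] at h2
  have h7 : (f.natDegree * v g + 1 : ℤ) ≤ f.natDegree * v g := by exact_mod_cast h2
  omega

/-- The prime divisors along which a coefficient has nonzero value. -/
private lemma finite_coeff {k L : Type*} [Field k] [Field L] [Algebra k L] [CharZero k]
    (X : ProjVar k L) (f : Polynomial L) :
    {P : X.primeDivisors | ∃ i, P.1 (f.coeff i) ≠ 0}.Finite := by
  have h1 : {P : X.primeDivisors | ∃ i, P.1 (f.coeff i) ≠ 0}
      ⊆ ⋃ i ∈ f.support, {P : X.primeDivisors | P.1 (f.coeff i) ≠ 0} := by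
    rintro P ⟨i, hi⟩
    simp only [Set.mem_iUnion, Set.mem_ofPred_eq, exists_prop]
    refine ⟨i, ?_, hi⟩
    rw [Polynomial.mem_support_iff]
    intro h0
    rw [h0] at hi
    exact hi P.1.map_zero
  refine Set.Finite.subset ?_ h1
  apply Set.Finite.biUnion f.support.finite_toSet
  intro i hi
  rw [Finset.mem_coe, Polynomial.mem_support_iff] at hi
  have h2 := X.finite_support hi
  refine Set.Finite.of_finite_image (f := fun P : X.primeDivisors => P.1) ?_
    Subtype.val_injective.injOn
  refine h2.subset ?_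
  rintro _ ⟨P, hP, rfl⟩
  exact ⟨P.2, hP⟩

private lemma finite_val {k L : Type*} [Field k] [Field L] [Algebra k L] (X : ProjVar k L) {f : L}
    (hf : f ≠ 0) : {P : X.primeDivisors | P.1 f ≠ 0}.Finite := by
  have h2 := X.finite_support hf
  refine Set.Finite.of_finite_image (f := fun P : X.primeDivisors => P.1) ?_
    Subtype.val_injective.injOn
  refine h2.subset ?_
  rintro _ ⟨P, hP, rfl⟩
  exact ⟨P.2, hP⟩

section

variable {k L L' : Type*} [Field k] [Field L] [Field L'] [Algebra k L] [Algebra k L']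
  [Algebra L L'] [IsScalarTower k L L'] [FiniteDimensional L L'] [CharZero k]

theorem finite_ne (X : ProjVar k L) {g : L'} (hg : g ≠ 0) :
    {P : X.primeDivisors | ∃ (v : DVal k L') (ε : ℕ), LiesOver v P.1 ε ∧ v g ≠ 0}.Finite := by
  have hgi : IsIntegral L g := Algebra.IsIntegral.isIntegral g
  have hgi' : IsIntegral L g⁻¹ := Algebra.IsIntegral.isIntegral g⁻¹
  refine ((finite_coeff X (minpoly L g)).union (finite_coeff X (minpoly L g⁻¹))).subset ?_
  rintro P ⟨v, ε, hv, hne⟩
  by_contra hcon
  rw [Set.mem_union, Set.mem_ofPred_eq, Set.mem_ofPred_eq] at hcon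
  push Not at hcon
  obtain ⟨h1, h2⟩ := hcon
  have h3 := nonneg_of_coeff hv (minpoly.monic hgi) (minpoly.aeval L g) fun i => (h1 i).ge
  have h4 := nonneg_of_coeff hv (minpoly.monic hgi') (minpoly.aeval L g⁻¹) fun i => (h2 i).ge
  rw [v.map_inv] at h4
  omega

end

section

variable {k K L : Type*} [Field k] [Field K] [Field L] [Algebra k K] [Algebra k L] [Algebra K L]

theorem finite_over_base (X : ProjVar k L) (Q : DVal k K) :
    {P : X.primeDivisors | ∃ e, LiesOver P.1 Q e}.Finite := by
  obtain ⟨p, hp0, hp⟩ := Q.exists_uniformizer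
  have hp' : algebraMap K L p ≠ 0 := by
    rwa [Ne, map_eq_zero_iff _ (algebraMap K L).injective]
  refine (finite_val X hp').subset ?_
  rintro P ⟨e, he⟩
  rw [Set.mem_ofPred_eq, he.2, hp, mul_one]
  have := he.1
  omega

theorem finite_image {X : ProjVar k L} (Z : ProjVar k K) {T : Set X.primeDivisors}
    (hT : T.Finite) :
    {Q : Z.primeDivisors | ∃ P ∈ T, ∃ e, LiesOver P.1 Q.1 e}.Finite := by
  have h1 : {Q : Z.primeDivisors | ∃ P ∈ T, ∃ e, LiesOver P.1 Q.1 e}
      = ⋃ P ∈ T, {Q : Z.primeDivisors | ∃ e, LiesOver P.1 Q.1 e} := by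
    ext Q
    simp only [Set.mem_ofPred_eq, Set.mem_iUnion, exists_prop]
  rw [h1]
  refine hT.biUnion fun P _ => Set.Subsingleton.finite ?_
  rintro Q ⟨e, he⟩ Q' ⟨e', he'⟩
  apply Subtype.ext
  apply DVal.eq_of_ring_le
  intro a ha
  rw [DVal.mem_ring] at ha ⊢
  have h2 := he.2 a
  have h3 := he'.2 a
  rw [h2] at h3
  have h4 : (0 : ℤ) < e := by exact_mod_cast he.1
  have h5 : (0 : ℤ) < e' := by exact_mod_cast he'.1
  have h6 : (0 : ℤ) ≤ e' * Q'.1 a := by rw [← h3]; exact mul_nonneg h4.le ha
  exact nonneg_of_mul_nonneg_right h6 h5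

end

end Pool.Agent.Helper63.PB
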