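import Pool.Agent.Helper63.PB.Under
import Pool.Agent.Helper92.Ga.Gauss

set_option autoImplicit false
set_option linter.unusedSectionVars false

/-!
# PB-11 VertPrimes: every prime divisor of `Z` has a prime divisor of `X` over it

PROOF. (1) There is a discrete valuation `w` of `L` over `Q`: `s ∈ L` is transcendental over `K` and `L`
is algebraic over `F = K(s) = IntermediateField.adjoin K {s}`, finite over `F` since `L` is finitely
generated over `k` (`X.gen`; `IntermediateField.essFiniteType`/`finiteDimensional_adjoin`: the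
generators `x_j / x_0` are algebraic over `F`). On `F` take the Gauss valuation
`gaussVal (IsTorus K ...) Q` (`Ga/Gauss`, `gaussVal_algebraMap`; `F` is `K(t)` for
`t = ⟨s, _⟩`) and extend it by `Helper47.PQ.exists_over`; `under_trans`.
(2) Let `R ∈ X.localRings` be the centre of `w` (`ProjVar.exists_center`), `Above S R`,
`S ∈ Z.localRings`. `S` is dominated by `Q.ring`: `S ⊆ R ⊆ w.ring`, so `Q ≥ 0` on `S`; and if `a ∈ S`,
`a⁻¹ ∈ Q.ring`, then `w (a⁻¹) ≥ 0`, so `a⁻¹ ∈ R` (`Dominates R w.ring`) and `a⁻¹ ∈ S` (`Above`). Also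
`Q.ring ∈ Z.localRings` is dominated by itself. So `S = Q.ring` (`ProjVar.separated`).
(3) Let `p ∈ K`, `Q p = 1`. `p⁻¹ ∉ R`: otherwise `p⁻¹ ∈ S = Q.ring` by `Above` (`p ∈ S`). By
`ProjVar.hartogs` (contraposition; or `exists_dval_of_notMem`) there is `P ∈ X.primeDivisors` with
`R ≤ P.ring` and `p⁻¹ ∉ P.ring`, so `P p > 0`. For `a ∈ K` with `Q a ≥ 0`, `a ∈ S`, so
`P a ≥ 0`; so for `Q a = 0` `P a = 0`, and `P a = (Q a) (P p)` for all `a`: `LiesOver P Q (P p)`.
-/

namespace Pool.Agent.Helper63.PB

open Pool.Agent.Helper92.Weak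

variable {k K L : Type*} [Field k] [Field K] [Field L] [Algebra k K] [Algebra k L] [Algebra K L]
  [IsScalarTower k K L] [CharZero k]

section Aux

private theorem vrp_findim {X : ProjVar k L} {s : L}
    (hs' : ∀ x : L, IsAlgebraic (IntermediateField.adjoin K {s}) x) :
    FiniteDimensional (IntermediateField.adjoin K ({s} : Set L)) L := by
  set F := IntermediateField.adjoin K ({s} : Set L) with hF
  have hst : IsScalarTower k F L :=
    IsScalarTower.of_algebraMap_eq fun _ => rfl
  have h1 : IntermediateField.adjoin F (Set.range fun j => X.x j / X.x 0) = ⊤ := by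
    rw [eq_top_iff]
    intro z _
    have hz : z ∈ IntermediateField.adjoin k (Set.range fun j => X.x j / X.x 0) := by
      rw [X.gen 0]
      trivial
    have h2 : IntermediateField.adjoin k (Set.range fun j => X.x j / X.x 0) ≤
        (IntermediateField.adjoin F (Set.range fun j => X.x j / X.x 0)).restrictScalars k := by
      rw [IntermediateField.adjoin_le_iff]
      exact IntermediateField.subset_adjoin F _
    exact h2 hz
  have h3 : FiniteDimensional F (IntermediateField.adjoin F (Set.range fun j => X.x j / X.x 0)) :=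
    IntermediateField.finiteDimensional_adjoin fun x _ => (hs' x).isIntegral
  rw [h1] at h3
  exact LinearEquiv.finiteDimensional
    (IntermediateField.topEquiv (F := F) (E := L)).toLinearEquiv

private theorem vrp_torus {s : L} (hs : Transcendental K s) :
    IsTorus K (fun _ : Fin 1 => (⟨s, IntermediateField.mem_adjoin_simple_self K s⟩ :
      IntermediateField.adjoin K ({s} : Set L))) := by
  constructor
  · rw [algebraicIndependent_unique_type_iff]
    exact (transcendental_algebraMap_iff
      (algebraMap (IntermediateField.adjoin K ({s} : Set L)) L).injective).1 hs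
  · rw [Set.range_const]
    apply IntermediateField.lift_injective
    rw [IntermediateField.lift_adjoin_simple, IntermediateField.lift_top]

private theorem vrp_over {X : ProjVar k L} {s : L}
    (hs : Transcendental K s) (hs' : ∀ x : L, IsAlgebraic (IntermediateField.adjoin K {s}) x)
    (Q : DVal k K) : ∃ (w : DVal k L) (n : ℕ), LiesOver w Q n := by
  have hfd := vrp_findim (X := X) hs'
  have hst : IsScalarTower k (IntermediateField.adjoin K ({s} : Set L)) L :=
    IsScalarTower.of_algebraMap_eq fun _ => rfl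
  have h1 : LiesOver (Pool.Agent.Helper92.Ga.gaussVal (vrp_torus hs) Q) Q 1 :=
    ⟨one_pos, fun a => by rw [Pool.Agent.Helper92.Ga.gaussVal_algebraMap]; simp⟩
  obtain ⟨w, e, hw⟩ := Pool.Agent.Helper47.PQ.exists_over L
    (Pool.Agent.Helper92.Ga.gaussVal (vrp_torus hs) Q)
  exact ⟨w, _, under_trans hw h1⟩

end Aux

theorem exists_vert {X : ProjVar k L} {Z : ProjVar k K} (hmor : IsMorphism X Z) {s : L}
    (hs : Transcendental K s) (hs' : ∀ x : L, IsAlgebraic (IntermediateField.adjoin K {s}) x)
    {Q : DVal k K} (hQ : Q ∈ Z.primeDivisors) : ∃ P ∈ X.primeDivisors, ∃ e, LiesOver P Q e := by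
  classical
  obtain ⟨w, n, hn0, hw⟩ := vrp_over (X := X) hs hs' Q
  have hn : (0 : ℤ) < n := by exact_mod_cast hn0
  obtain ⟨R, hR, hRw⟩ := X.exists_center w
  obtain ⟨S, hS, hab⟩ := hmor R hR
  have hnn : ∀ a : K, 0 ≤ w (algebraMap K L a) ↔ 0 ≤ Q a := by
    intro a
    rw [hw a]
    constructor
    · intro h
      by_contra hcon
      push Not at hcon
      nlinarith
    · intro h
      positivity
  have hSQ : S = Q.ring := by
    refine Z.separated hS hQ (V := Q.ring) ⟨?_, ?_⟩ ⟨le_rfl, fun z _ h => h⟩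
    · intro a ha
      have h1 := hRw.1 (hab.1 a ha)
      rw [DVal.mem_ring] at h1 ⊢
      exact (hnn a).1 h1
    · intro a ha ha'
      apply hab.2 a ha
      apply hRw.2 _ (hab.1 a ha)
      rw [DVal.mem_ring] at ha' ⊢
      rw [← map_inv₀]
      exact (hnn _).2 ha'
  subst hSQ
  obtain ⟨p, hp0, hp⟩ := Q.exists_uniformizer
  have hpR : (algebraMap K L p)⁻¹ ∉ R := by
    intro h
    have h1 := hab.2 p (by rw [DVal.mem_ring, hp]; norm_num) h
    rw [DVal.mem_ring, DVal.map_inv, hp] at h1
    norm_num at h1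
  obtain ⟨P, hP, hRP, hpP⟩ : ∃ P ∈ X.primeDivisors, R ≤ P.ring ∧ (algebraMap K L p)⁻¹ ∉ P.ring := by
    by_contra hcon
    push Not at hcon
    exact hpR (X.hartogs hR hcon)
  rw [DVal.mem_ring, DVal.map_inv] at hpP
  have hge : ∀ a : K, 0 ≤ Q a → 0 ≤ P (algebraMap K L a) := fun a ha => hRP (hab.1 a ha)
  have h0 : ∀ a : K, Q a = 0 → P (algebraMap K L a) = 0 := by
    intro a ha
    have h1 := hge a ha.ge
    have h2 := hge a⁻¹ (by rw [DVal.map_inv, ha, neg_zero])
    rw [map_inv₀, DVal.map_inv] at h2
    omega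
  refine ⟨P, hP, (P (algebraMap K L p)).toNat, by omega, fun a => ?_⟩
  have hcast : ((P (algebraMap K L p)).toNat : ℤ) = P (algebraMap K L p) := by omega
  rw [hcast]
  by_cases ha : a = 0
  · rw [ha]; simp
  have hpL : algebraMap K L p ≠ 0 := by rwa [Ne, map_eq_zero]
  have haL : algebraMap K L a ≠ 0 := by rwa [Ne, map_eq_zero]
  have h3 := h0 (a * p ^ (-(Q a))) (by
    rw [Q.map_mul ha (zpow_ne_zero _ hp0), Q.map_zpow, hp]
    ring)
  rw [_root_.map_mul, map_zpow₀, P.map_mul haL (zpow_ne_zero _ hpL), P.map_zpow] at h3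
  linarith

end Pool.Agent.Helper63.PB
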