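import Pool.Agent.Helper63.PB.Defs
import Pool.Agent.Helper47.PQ.R2

set_option autoImplicit false

/-!
# PB-01 Under: restriction of valuations

`exists_under`. Let `E' / E` be algebraic and `w` a discrete valuation of `E'` over `k`. Then `w`
lies over a (unique) discrete valuation `v` of `E`.
PROOF. If `w` were trivial on `E` (`w c = 0` for all `c ∈ E`), then `E'`, integral over `E ⊆ w.ring`,
would be contained in `w.ring` (integrally closed; `Helper47.PQ.mem_ring_of_isIntegral`, or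
`Helper60.MA.dval_algebraic`), so `w ≥ 0` on `E'`, which contradicts `w.surj'` (`w (x⁻¹) = -w x`).
The values `{w c : c ∈ E, c ≠ 0}` form a nonzero subgroup of `ℤ`, generated by some `ε > 0`
(`AddSubgroup` of `ℤ` is cyclic: `Int.subgroup_cyclic`/`AddSubgroup.zmultiples`; or take the
smallest positive value, and divide with remainder). Put `v c = w c / ε`.

`under_trans`: multiply. `under_factor`: with `u p = 1`: `ε * v p = n`, and for `a ∈ K`:
`ε * v a = w a = n * u a`, so `e = v p` (positive since `n > 0`) works.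
-/

namespace Pool.Agent.Helper63.PB

open Pool.Agent.Helper92.Weak

theorem exists_under {k E E' : Type*} [Field k] [Field E] [Field E'] [Algebra k E] [Algebra k E']
    [Algebra E E'] [IsScalarTower k E E'] [Algebra.IsAlgebraic E E'] (w : DVal k E') :
    ∃ (v : DVal k E) (ε : ℕ), LiesOver w v ε := by
  classical
  have h0 : ∃ c : E, w (algebraMap E E' c) ≠ 0 := by
    by_contra hcon
    push Not at hcon
    obtain ⟨x, hx⟩ := w.surj'
    have hx1 : w x = 1 := hx
    have hx' : w x⁻¹ = -1 := by rw [w.map_inv, hx1]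
    let φ : E →+* w.ring := (algebraMap E E').codRestrict w.ring.toSubring
      (fun c => by
        change 0 ≤ w (algebraMap E E' c)
        rw [hcon c])
    have h1 : IsIntegral E x⁻¹ := (Algebra.IsAlgebraic.isAlgebraic (R := E) x⁻¹).isIntegral
    have h2 : IsIntegral w.ring x⁻¹ :=
      IsIntegral.map_of_comp_eq φ (RingHom.id E') (RingHom.ext fun _ => rfl) h1
    have h3 := Pool.Agent.Helper47.PQ.mem_ring_of_isIntegral w h2
    omega
  have hinj : ∀ c : E, c ≠ 0 → algebraMap E E' c ≠ 0 := fun c hc => by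
    rwa [Ne, FaithfulSMul.algebraMap_eq_zero_iff]
  let S : AddSubgroup ℤ :=
    { carrier := {n | ∃ c : E, c ≠ 0 ∧ w (algebraMap E E' c) = n}
      zero_mem' := ⟨1, one_ne_zero, by rw [map_one, w.map_one]⟩
      add_mem' := by
        rintro a b ⟨c, hc, rfl⟩ ⟨d, hd, rfl⟩
        exact ⟨c * d, mul_ne_zero hc hd, by rw [map_mul, w.map_mul (hinj c hc) (hinj d hd)]⟩
      neg_mem' := by
        rintro a ⟨c, hc, rfl⟩
        exact ⟨c⁻¹, inv_ne_zero hc, by rw [map_inv₀, w.map_inv]⟩ }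
  have hS : ∀ n : ℤ, n ∈ S ↔ ∃ c : E, c ≠ 0 ∧ w (algebraMap E E' c) = n := fun n => Iff.rfl
  obtain ⟨g, hg⟩ := Int.subgroup_cyclic S
  rw [← AddSubgroup.zmultiples_eq_closure] at hg
  have hmem : ∀ n : ℤ, n ∈ S ↔ g ∣ n := fun n => by
    rw [hg, Int.mem_zmultiples_iff]
  obtain ⟨c₀, hc₀⟩ := h0
  have hc₀' : c₀ ≠ 0 := by
    rintro rfl
    rw [map_zero, w.map_zero] at hc₀
    exact hc₀ rfl
  have hg0 : g ≠ 0 := by
    rintro rfl
    have h1 := (hmem _).1 ((hS _).2 ⟨c₀, hc₀', rfl⟩)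
    exact hc₀ (zero_dvd_iff.1 h1)
  obtain ⟨ε, hε⟩ : ∃ ε : ℕ, ε = g.natAbs := ⟨_, rfl⟩
  have hε0 : 0 < ε := by
    rw [hε]
    exact Int.natAbs_pos.2 hg0
  have hε0' : (0 : ℤ) < ε := by exact_mod_cast hε0
  have hdvd : ∀ n : ℤ, n ∈ S ↔ (ε : ℤ) ∣ n := fun n => by
    rw [hmem, hε, Int.natAbs_dvd]
  have hall : ∀ c : E, (ε : ℤ) ∣ w (algebraMap E E' c) := by
    intro c
    by_cases hc : c = 0
    · rw [hc, map_zero, w.map_zero]
      exact dvd_zero _
    · exact (hdvd _).1 ((hS _).2 ⟨c, hc, rfl⟩)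
  have hdiv : ∀ c : E, (ε : ℤ) * (w (algebraMap E E' c) / ε) = w (algebraMap E E' c) :=
    fun c => Int.mul_ediv_cancel' (hall c)
  refine ⟨⟨fun c => w (algebraMap E E' c) / ε, ?_, ?_, ?_, ?_, ?_⟩, ε, hε0, fun a => (hdiv a).symm⟩
  · rw [map_zero, w.map_zero, Int.zero_ediv]
  · intro a b ha hb
    refine mul_left_cancel₀ hε0'.ne' ?_
    rw [mul_add, hdiv, hdiv, hdiv, map_mul, w.map_mul (hinj a ha) (hinj b hb)]
  · intro a b ha hb hab
    by_contra hcon
    rw [not_le, lt_min_iff] at hcon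
    obtain ⟨h1, h2⟩ := hcon
    have h3 := mul_lt_mul_of_pos_left h1 hε0'
    have h4 := mul_lt_mul_of_pos_left h2 hε0'
    rw [hdiv, hdiv] at h3 h4
    have h5 : algebraMap E E' a + algebraMap E E' b ≠ 0 := by
      rw [← map_add]
      exact hinj _ hab
    have h6 := w.map_add' _ _ (hinj a ha) (hinj b hb) h5
    rw [← map_add] at h6
    change min (w (algebraMap E E' a)) (w (algebraMap E E' b)) ≤
      w (algebraMap E E' (a + b)) at h6
    rw [min_le_iff] at h6
    omega
  · intro c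
    rw [← IsScalarTower.algebraMap_apply, w.map_const, Int.zero_ediv]
  · obtain ⟨c, _, hc⟩ := (hS _).1 ((hdvd ε).2 dvd_rfl)
    refine ⟨c, ?_⟩
    change w (algebraMap E E' c) / (ε : ℤ) = 1
    rw [hc, Int.ediv_self hε0'.ne']

section

variable {k K L M : Type*} [Field k] [Field K] [Field L] [Field M] [Algebra k K] [Algebra k L]
  [Algebra k M] [Algebra K L] [Algebra K M] [Algebra L M] [IsScalarTower K L M]

theorem under_trans {w : DVal k M} {v : DVal k L} {u : DVal k K} {ε e : ℕ} (h1 : LiesOver w v ε)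
    (h2 : LiesOver v u e) : LiesOver w u (ε * e) := by
  obtain ⟨h1a, h1b⟩ := h1
  obtain ⟨h2a, h2b⟩ := h2
  refine ⟨Nat.mul_pos h1a h2a, fun a => ?_⟩
  rw [IsScalarTower.algebraMap_apply K L M, h1b, h2b]
  push_cast
  ring

theorem under_factor {w : DVal k M} {v : DVal k L} {u : DVal k K} {ε n : ℕ}
    (h1 : LiesOver w v ε) (h2 : LiesOver w u n) : ∃ e, LiesOver v u e ∧ n = ε * e := by
  obtain ⟨h1a, h1b⟩ := h1
  obtain ⟨h2a, h2b⟩ := h2
  obtain ⟨p, hp⟩ := u.surj'
  have hp1 : u p = 1 := hp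
  have h3 : ∀ a : K, (ε : ℤ) * v (algebraMap K L a) = n * u a := fun a => by
    rw [← h1b, ← h2b, ← IsScalarTower.algebraMap_apply]
  have h4 := h3 p
  rw [hp1, mul_one] at h4
  have hε : (0 : ℤ) < ε := by exact_mod_cast h1a
  have hn : (0 : ℤ) < n := by exact_mod_cast h2a
  have hvp : 0 < v (algebraMap K L p) := by
    rw [← h4] at hn
    exact pos_of_mul_pos_right hn hε.le
  have hcast : ((v (algebraMap K L p)).toNat : ℤ) = v (algebraMap K L p) :=
    Int.toNat_of_nonneg hvp.le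
  refine ⟨(v (algebraMap K L p)).toNat, ⟨by omega, fun a => ?_⟩, ?_⟩
  · refine mul_left_cancel₀ hε.ne' ?_
    rw [h3 a, hcast, ← mul_assoc, h4]
  · have h5 : (n : ℤ) = ε * ((v (algebraMap K L p)).toNat : ℤ) := by rw [hcast, h4]
    exact_mod_cast h5

end

end Pool.Agent.Helper63.PB
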