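import Pool.Agent.Helper63.PB.NormGe
import Pool.Agent.Helper63.PB.Finite
import Pool.Agent.Helper47.PQ.R4

set_option autoImplicit false

/-!
# PB-23 LowNorm: norms of sections over a finite extension

`L' / L` finite of degree `n`, `D` a divisor on `X`, `T` on `Z`, `B` a finite set of prime divisors of
`Z`, `m ≥ 1`. There is `R ≥ 1` such that for every nonzero `ψ ∈ L'` with
`v ψ ≥ -ε m D(P)` (`P` trivial on `K`), `v ψ ≥ ε m (e T(Q) - D(P))` (`P` over `Q`), with strict inequality for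
at least one `v` over `P` if `Q ∈ B`, the function `b = norm(ψ) ^ R` satisfies, with `N = R n m`,
`P b + N D(P) ≥ 0` (`P` trivial on `K`) and `P b + N D(P) ≥ e (N T(Q) + B(Q))` (`P` over `Q`).

PROOF. `norm_ge` with `r = -m D(P)` resp. `r = m (e T(Q) - D(P))` gives `P (norm ψ) ≥ n r`. If `Q ∈ B`,
`norm_gt`: `P (norm ψ) - n m (e T(Q) - D(P)) > 0`; it is a rational number with denominator dividing
`N₀`, a common denominator of all values of `D` and `T` (finite supports; `PQ.exists_int_mult`), so it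
is `≥ 1 / N₀`. Let `e₁` be the maximum of the multiplicities `e` of the finitely many `P` over the
finitely many `Q ∈ B` (`finite_over_base`; `e = P p` for `Q p = 1`), and `R = N₀ (e₁ + 1)`. Then
`R (P (norm ψ) - n m (e T(Q) - D(P))) ≥ R / N₀ ≥ e = e B(Q)`.
-/

namespace Pool.Agent.Helper63.PB

open Pool.Agent.Helper92.Weak

variable {k K L L' : Type*} [Field k] [Field K] [Field L] [Field L']
  [Algebra k K] [Algebra k L] [Algebra k L'] [Algebra K L] [Algebra L L'] [IsScalarTower k L L']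
  [FiniteDimensional L L'] [CharZero k]

/-- The multiplicities of the fibres over finitely many prime divisors are bounded. -/
theorem exists_mult_le (X : ProjVar k L) {Z : ProjVar k K} (B : Finset Z.primeDivisors) :
    ∃ e₁ : ℕ, ∀ (P : X.primeDivisors) (Q : Z.primeDivisors) (e : ℕ), Q ∈ B →
      LiesOver P.1 Q.1 e → e ≤ e₁ := by
  classical
  have hfin : {e : ℕ | ∃ Q ∈ B, ∃ P : X.primeDivisors, LiesOver P.1 Q.1 e}.Finite := by
    have h1 : {e : ℕ | ∃ Q ∈ B, ∃ P : X.primeDivisors, LiesOver P.1 Q.1 e} =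
        ⋃ Q ∈ B, {e : ℕ | ∃ P : X.primeDivisors, LiesOver P.1 Q.1 e} := by
      ext e
      simp only [Set.mem_setOf_eq, Set.mem_iUnion, exists_prop]
    rw [h1]
    refine B.finite_toSet.biUnion fun Q _ => ?_
    obtain ⟨p, hp0, hp⟩ := Q.1.exists_uniformizer
    refine ((finite_over_base X Q.1).image fun P : X.primeDivisors =>
      (P.1 (algebraMap K L p)).toNat).subset ?_
    rintro e ⟨P, hP⟩
    refine ⟨P, ⟨e, hP⟩, ?_⟩
    simp only
    rw [hP.2 p, hp, mul_one, Int.toNat_natCast]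
  obtain ⟨e₁, he₁⟩ := hfin.bddAbove
  exact ⟨e₁, fun P Q e hQ hPQ => he₁ ⟨Q, hQ, P, hPQ⟩⟩

theorem low_norm {X : ProjVar k L} {Z : ProjVar k K} (D : X.Div) (T : Z.Div)
    (B : Finset Z.primeDivisors) {m : ℕ} (hm : 0 < m) : ∃ R : ℕ, 0 < R ∧ ∀ ψ : L', ψ ≠ 0 →
      (∀ P : X.primeDivisors, (∀ x : K, P.1 (algebraMap K L x) = 0) →
        ∀ (v : DVal k L') (ε : ℕ), LiesOver v P.1 ε → -((ε : ℚ) * (m * D P)) ≤ v ψ) →
      (∀ (P : X.primeDivisors) (Q : Z.primeDivisors) (e : ℕ), LiesOver P.1 Q.1 e →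
        ∀ (v : DVal k L') (ε : ℕ), LiesOver v P.1 ε → (ε : ℚ) * (m * (e * T Q - D P)) ≤ v ψ) →
      (∀ (P : X.primeDivisors) (Q : Z.primeDivisors) (e : ℕ), LiesOver P.1 Q.1 e → Q ∈ B →
        ∃ (v : DVal k L') (ε : ℕ), LiesOver v P.1 ε ∧ (ε : ℚ) * (m * (e * T Q - D P)) < v ψ) →
      (∀ P : X.primeDivisors, (∀ x : K, P.1 (algebraMap K L x) = 0) →
        0 ≤ (P.1 (Algebra.norm L ψ ^ R) : ℚ) + ((R * (Module.finrank L L' * m) : ℕ) : ℚ) * D P) ∧
      ∀ (P : X.primeDivisors) (Q : Z.primeDivisors) (e : ℕ), LiesOver P.1 Q.1 e →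
        e * (((R * (Module.finrank L L' * m) : ℕ) : ℚ) * T Q + redDiv B Q) ≤
          P.1 (Algebra.norm L ψ ^ R) + ((R * (Module.finrank L L' * m) : ℕ) : ℚ) * D P := by
  classical
  obtain ⟨N₁, hN₁, hD⟩ := Helper47.PQ.r4_exists_int D
  obtain ⟨N₂, hN₂, hT⟩ := Helper47.PQ.r4_exists_int T
  obtain ⟨e₁, he₁⟩ := exists_mult_le X B
  refine ⟨N₁ * N₂ * (e₁ + 1), by positivity, ?_⟩
  intro ψ hψ h1 h2 h3
  set n := Module.finrank L L' with hn
  have hR0 : (0 : ℚ) < ((N₁ * N₂ * (e₁ + 1) : ℕ) : ℚ) := by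
    have : 0 < N₁ * N₂ * (e₁ + 1) := by positivity
    exact_mod_cast this
  refine ⟨fun P hP => ?_, fun P Q e hPQ => ?_⟩
  · have h4 : (n : ℚ) * (-(m * D P)) ≤ P.1 (Algebra.norm L ψ) := by
      refine norm_ge P.1 hψ fun w ε hw => ?_
      have := h1 P hP w ε hw
      linarith
    rw [P.1.map_pow]
    push_cast at hR0 ⊢
    have h5 := mul_le_mul_of_nonneg_left h4 hR0.le
    linarith
  · by_cases hQ : Q ∈ B
    · have h4 : (n : ℚ) * (m * (e * T Q - D P)) < P.1 (Algebra.norm L ψ) := by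
        refine norm_gt P.1 hψ (fun w ε hw => h2 P Q e hPQ w ε hw) ?_
        obtain ⟨v, ε, hv, hlt⟩ := h3 P Q e hPQ hQ
        exact ⟨v, ε, hv, hlt⟩
      obtain ⟨z₁, hz₁⟩ := hD P
      obtain ⟨z₂, hz₂⟩ := hT Q
      have hN0 : (0 : ℚ) < (N₁ : ℚ) * N₂ := by
        have : 0 < N₁ * N₂ := by positivity
        exact_mod_cast this
      have h5 : (N₁ : ℚ) * N₂ * (P.1 (Algebra.norm L ψ) - n * (m * (e * T Q - D P))) =
          ((N₁ * N₂ * P.1 (Algebra.norm L ψ) - n * m * (e * N₁ * z₂ - N₂ * z₁) : ℤ) : ℚ) := by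
        push_cast
        rw [← hz₁, ← hz₂]
        ring
      have h6 : (0 : ℚ) < (N₁ : ℚ) * N₂ * (P.1 (Algebra.norm L ψ) - n * (m * (e * T Q - D P))) :=
        mul_pos hN0 (by linarith)
      have h7 : (1 : ℚ) ≤ (N₁ : ℚ) * N₂ *
          (P.1 (Algebra.norm L ψ) - n * (m * (e * T Q - D P))) := by
        rw [h5] at h6 ⊢
        have h8 : (0 : ℤ) < N₁ * N₂ * P.1 (Algebra.norm L ψ) -
          n * m * (e * N₁ * z₂ - N₂ * z₁) := by exact_mod_cast h6
        exact_mod_cast h8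
      have h8 : (e : ℚ) ≤ e₁ := by exact_mod_cast he₁ P Q e hQ hPQ
      have h9 : (0 : ℚ) ≤ (e₁ : ℚ) + 1 := by positivity
      have h10 := mul_le_mul_of_nonneg_right h7 h9
      rw [P.1.map_pow, redDiv_apply, if_pos hQ]
      push_cast
      linarith
    · have h4 : (n : ℚ) * (m * (e * T Q - D P)) ≤ P.1 (Algebra.norm L ψ) :=
        norm_ge P.1 hψ fun w ε hw => h2 P Q e hPQ w ε hw
      rw [P.1.map_pow, redDiv_apply, if_neg hQ]
      push_cast at hR0 ⊢
      have h5 := mul_le_mul_of_nonneg_left h4 hR0.le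
      linarith

end Pool.Agent.Helper63.PB
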