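import Mathlib

set_option autoImplicit false

/-!
# PB-24 Transc: norms which are transcendental

`L' / L` finite, `K ⊆ L`, `k ⊆ K` infinite, `ρ ∈ L'` transcendental over `K`. There is `z ∈ k` such that
`norm_{L'/L} (ρ - z)` is transcendental over `K`.

PROOF. Suppose all are algebraic over `K`. `norm (z - ρ) = (charpoly of ρ)(z)`
(`Algebra.norm_eq...`: `LinearMap.charpoly`, `Algebra.norm L (algebraMap z - ρ) = (Algebra.leftMulMatrix
b ρ).charpoly.eval z`, `Matrix.eval_charpoly`/`eval_det`), and `norm (ρ - z) = ± norm (z - ρ)`. Let `C ∈ L[T]`
be the characteristic polynomial, of degree `n`. Its values at the elements of `k` lie in the field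
`A` of elements of `L` algebraic over `K` (`algebraicClosure K L`), `k ⊆ K ⊆ A`; by Lagrange
interpolation at `n + 1` elements of `k` (`Polynomial.eq_interpolate`-like, `Lagrange.interpolate`) all
coefficients of `C` are in `A`. `C(ρ) = 0` (Cayley-Hamilton) and `C` is monic, so `ρ` is algebraic over `A`
and hence over `K`, a contradiction.
-/

namespace Pool.Agent.Helper63.PB

open Polynomial

theorem exists_norm_transcendental {k K L L' : Type*} [Field k] [Field K] [Field L] [Field L']
    [Algebra k K] [Algebra k L] [Algebra k L'] [Algebra K L] [Algebra K L'] [Algebra L L']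
    [IsScalarTower k K L] [IsScalarTower k L L'] [IsScalarTower K L L'] [FiniteDimensional L L']
    [CharZero k] {ρ : L'} (hρ : Transcendental K ρ) :
    ∃ z : k, Transcendental K (Algebra.norm L (ρ - algebraMap k L' z)) := by
  by_contra hcon
  push Not at hcon
  have halg : ∀ z : k, IsAlgebraic K (Algebra.norm L (ρ - algebraMap k L' z)) := fun z => by
    have := hcon z
    unfold Transcendental at this
    exact not_not.1 this
  have hcL : CharZero L := charZero_of_injective_algebraMap (algebraMap k L).injective
  set A : IntermediateField K L := algebraicClosure K L with hA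
  set C : L[X] := (Algebra.lmul L L' ρ).charpoly with hC
  have hCm : C.Monic := LinearMap.charpoly_monic _
  set n := C.natDegree with hn
  -- values at natural numbers
  have hval : ∀ i : ℕ, C.eval (i : L) ∈ A := by
    intro i
    rw [hA, mem_algebraicClosure_iff]
    have h1 : C.eval (i : L) = Algebra.norm L ((i : L') - ρ) := by
      have h0 : algebraMap L (Module.End L L') (i : L) - Algebra.lmul L L' ρ =
          Algebra.lmul L L' ((i : L') - ρ) := by
        rw [map_sub (Algebra.lmul L L'), map_natCast, map_natCast]
      rw [hC, LinearMap.eval_charpoly, Algebra.norm_apply, h0]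
    have h2 : ((i : L') - ρ) = -1 * (ρ - algebraMap k L' (i : k)) := by
      rw [map_natCast]; ring
    rw [h1, h2, map_mul]
    refine IsAlgebraic.mul ?_ (halg i)
    have h3 : Algebra.norm L (-1 : L') = (-1) ^ Module.finrank L L' := by
      have h4 : (-1 : L') = algebraMap L L' (-1) := by rw [map_neg, map_one]
      rw [h4, Algebra.norm_algebraMap]
    rw [h3]
    have h5 : ((-1 : L)) ^ Module.finrank L L' = algebraMap K L ((-1) ^ Module.finrank L L') := by
      rw [map_pow, map_neg, map_one]
    rw [h5]
    exact isAlgebraic_algebraMap _
  -- interpolation over `A`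
  set v : ℕ → A := fun i => (i : A) with hv
  have hcK : CharZero K := charZero_of_injective_algebraMap (algebraMap k K).injective
  have hcA : CharZero A := charZero_of_injective_algebraMap (algebraMap K A).injective
  have hinj : Function.Injective v := Nat.cast_injective
  set P : A[X] := Lagrange.interpolate (Finset.range (n + 1)) v (fun i => ⟨C.eval (i : L), hval i⟩)
    with hP
  have hPC : P.map (algebraMap A L) = C := by
    refine Polynomial.eq_of_degrees_lt_of_eval_index_eq (s := Finset.range (n + 1))
      (v := fun i : ℕ => (i : L)) (Nat.cast_injective.injOn) ?_ ?_ ?_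
    · rw [Polynomial.degree_map]
      exact Lagrange.degree_interpolate_lt _ hinj.injOn
    · rw [Finset.card_range]
      exact lt_of_le_of_lt Polynomial.degree_le_natDegree (by exact_mod_cast Nat.lt_succ_self n)
    · intro i hi
      have h1 : ((i : ℕ) : L) = algebraMap A L (v i) := by
        rw [hv, map_natCast]
      rw [h1, Polynomial.eval_map_algebraMap, Polynomial.aeval_algebraMap_apply_eq_algebraMap_eval,
        hP, Lagrange.eval_interpolate_at_node _ hinj.injOn hi, ← h1]
      rfl
  -- Cayley-Hamilton
  have hCH : aeval ρ C = 0 := by
    have h1 := LinearMap.aeval_self_charpoly (Algebra.lmul L L' ρ)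
    have h2 : aeval (Algebra.lmul L L' ρ) C = Algebra.lmul L L' (aeval ρ C) := by
      exact (Polynomial.aeval_algHom_apply (Algebra.lmul L L') ρ C)
    rw [← hC, h2] at h1
    have h3 := LinearMap.congr_fun h1 1
    simpa using h3
  have hP0 : P ≠ 0 := by
    intro h
    rw [h, Polynomial.map_zero] at hPC
    exact hCm.ne_zero hPC.symm
  have hρA : IsAlgebraic A ρ := by
    refine ⟨P, hP0, ?_⟩
    rw [← hPC, Polynomial.aeval_map_algebraMap] at hCH
    exact hCH
  have hρK : IsAlgebraic K ρ := hρA.restrictScalars K
  exact hρ hρK

end Pool.Agent.Helper63.PB
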