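import Pool.Agent.Helper63.PB.Defs
import Pool.Agent.Helper60.PB.Cover
import Pool.Agent.Helper47.PQ.R3
import Pool.Agent.Helper47.PQ.R4

set_option autoImplicit false

/-!
# PB-27 AbsUp: upper bounds for `κ` and `ν` from `UpperData`

`famH0_eq`. If `Z'` is a finite cover of `Z` with function field `K'` and `D'` the pull back of `D`, then
`famH0 K' Z D = Z'.H0 D'`: the valuations over prime divisors of `Z` are exactly the prime divisors of `Z'`
(`IsFiniteCover.mem`, `IsFiniteCover.equi`).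

`up_nu`, `up_kod`: there is `C ≥ 1` with `ν(D) ≤ s + ν(T + C B)` and `κ(D) ≤ s + κ(T + C B)`.
PROOF. `Z'` exists by `Helper60.PB.exists_cover`. Let `M, C₀` be as in `UpperData`, `C = C₀ + 1`; `famH0` grows
with the divisor, so the inequality of `UpperData` holds with `C` too. Let `T' , A''` be the pull backs
of `T + C B`, `A'` (`IsFiniteCover.exists_pull`).
`ν`: for `A` on `X` (`nu_eq_sup`; `ν(D) = ν(M D)` by `nu_smul`), `H⁰(X, q M D + A)` has dimension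
`≤ C' q^s dim H⁰(Z', q M T' + A'')` (`r3_isPull_add`, `r3_isPull_smul`), so
`logGrowth ≤ s + ν(Z', M T') = s + ν(Z', T')` (`logGrowth_le` with `φ = id`; `nu_smul`), and
`ν(Z', T') = ν(Z, T + C B)` by `IsFiniteCover.nu_pull`.
`κ`: `A = 0`, `A' = 0`. `PQ.regular` for `D` on `X`: if `κ(D) = ⊥` nothing to do. Otherwise `κ(D) = d` and
`m^d ≤ C₁ h⁰(X, m m₀ D)`, so with `m = q M`: `(q M)^d ≤ C₁ dim H⁰(X, (q m₀) M D) ≤
C₁ C' (q m₀)^s dim H⁰(Z', q m₀ M T')`. `PQ.regular` for `T'` on `Z'`: the first case is impossible (some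
section space is nonzero), so `κ(Z', T') = d'` and the right side is `≤ C₂ q^(s + d')`. Hence
`d ≤ s + d'`, and `κ(Z', T') = κ(Z, T + C B)` (`IsFiniteCover.kod_pull`).
-/

namespace Pool.Agent.Helper63.PB

open Pool.Agent.Helper92.Weak Pool.Agent.Helper47.PQ

variable {k K L K' : Type*} [Field k] [Field K] [Field L] [Field K'] [Algebra k K] [Algebra k L]
  [Algebra k K'] [Algebra K L] [Algebra K K'] [IsScalarTower k K K'] [CharZero k]
  [FiniteDimensional K K'] {X : ProjVar k L} {Z : ProjVar k K} {D : X.Div} {T : Z.Div}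
  {B : Finset Z.primeDivisors} {s : ℕ}

theorem famH0_eq {Z' : ProjVar k K'} (h : IsFiniteCover Z' Z) {D : Z.Div} {D' : Z'.Div}
    (hD : IsPull D D') : famH0 K' Z D = Z'.H0 D' := by
  ext f
  rw [mem_famH0]
  unfold ProjVar.H0 sec
  rw [Submodule.mem_iInf]
  constructor
  · intro h1 P
    obtain ⟨Q, hQ, e, he⟩ := h.equi P.1 P.2
    rw [DVal.mem_filt, hD P ⟨Q, hQ⟩ e he]
    exact h1 ⟨Q, hQ⟩ P.1 e he
  · intro h1 Q Q' e' he
    have h2 := h1 ⟨Q', h.mem Q.2 he⟩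
    rw [DVal.mem_filt, hD ⟨Q', h.mem Q.2 he⟩ Q e' he] at h2
    exact h2

omit [IsScalarTower k K K'] [CharZero k] [FiniteDimensional K K'] in
private theorem famH0_mono {D₁ D₂ : Z.Div} (h : ∀ Q, D₁ Q ≤ D₂ Q) :
    famH0 K' Z D₁ ≤ famH0 K' Z D₂ := by
  intro b hb
  rw [mem_famH0] at hb ⊢
  intro Q Q' e' he
  refine (hb Q Q' e' he).mono ?_
  have h1 : (e' : ℚ) * D₁ Q ≤ e' * D₂ Q := mul_le_mul_of_nonneg_left (h Q) (Nat.cast_nonneg e')
  linarith

omit [IsScalarTower k K K'] [CharZero k] [FiniteDimensional K K'] in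
private theorem isPull_zero {Z' : ProjVar k K'} : IsPull (0 : Z.Div) (0 : Z'.Div) := by
  intro P Q e _
  simp

private theorem key {Z' : ProjVar k K'} (hZ' : IsFiniteCover Z' Z) {M C : ℕ}
    (h : ∀ A : X.Div, ∃ (A' : Z.Div) (C' : ℕ), (A = 0 → A' = 0) ∧ ∀ q : ℕ, 1 ≤ q →
      sdim (X.H0 (((q * M : ℕ) : ℚ) • D + A)) ≤ C' * (q : ℕ∞) ^ s *
        sdim (famH0 K' Z (((q * M : ℕ) : ℚ) • (T + (C : ℚ) • redDiv B) + A')))
    {U' : Z'.Div} (hU : IsPull (T + ((C + 1 : ℕ) : ℚ) • redDiv B) U') (A : X.Div) :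
    ∃ (A' : Z'.Div) (C' : ℕ), (A = 0 → A' = 0) ∧ ∀ q : ℕ, 1 ≤ q →
      sdim (X.H0 (((q * M : ℕ) : ℚ) • D + A)) ≤ C' * (q : ℕ∞) ^ s *
        sdim (Z'.H0 (((q * M : ℕ) : ℚ) • U' + A')) := by
  classical
  obtain ⟨A₁, C', hA, hq⟩ := h A
  obtain ⟨A₂, hA₂, hA₀⟩ : ∃ A₂ : Z'.Div, IsPull A₁ A₂ ∧ (A = 0 → A₂ = 0) := by
    by_cases h0 : A = 0
    · refine ⟨0, ?_, fun _ => rfl⟩
      rw [hA h0]
      exact isPull_zero
    · obtain ⟨A₂, hA₂⟩ := hZ'.exists_pull A₁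
      exact ⟨A₂, hA₂, fun h1 => (h0 h1).elim⟩
  refine ⟨A₂, C', hA₀, fun q h1 => (hq q h1).trans ?_⟩
  rw [← famH0_eq hZ' (r3_isPull_add (r3_isPull_smul hU (((q * M : ℕ) : ℚ))) hA₂)]
  gcongr
  refine sdim_mono (famH0_mono fun Q => ?_)
  simp only [Finsupp.add_apply, Finsupp.smul_apply, smul_eq_mul]
  have h2 : (0 : ℚ) ≤ redDiv B Q := by
    rw [redDiv_apply]
    split_ifs <;> norm_num
  have h3 : (0 : ℚ) ≤ ((q * M : ℕ) : ℚ) := Nat.cast_nonneg _
  have h4 := mul_nonneg h3 h2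
  push_cast at h4 ⊢
  nlinarith [h4]

theorem up_nu_kod [IsAlgClosed k] (h : UpperData X Z K' D T B s) : ∃ C : ℕ, 0 < C ∧
    X.nu D ≤ s + Z.nu (T + (C : ℚ) • redDiv B) ∧
    X.kod D ≤ s + Z.kod (T + (C : ℚ) • redDiv B) := by
  obtain ⟨M, C, hM, h⟩ := h
  obtain ⟨Z', hZ'⟩ := Pool.Agent.Helper60.PB.exists_cover (k := k) (E := K') Z
  refine ⟨C + 1, Nat.succ_pos C, ?_, ?_⟩
  · obtain ⟨U', hU'⟩ := hZ'.exists_pull (T + ((C + 1 : ℕ) : ℚ) • redDiv B)
    rw [← hZ'.nu_pull hU', ← nu_smul D hM, ← nu_smul U' hM, nu_eq_sup]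
    refine iSup_le fun A => ?_
    obtain ⟨A', C', -, hq⟩ := key hZ' h hU' A
    have h1 : logGrowth (fun m => sdim (X.H0 ((m : ℚ) • (M : ℚ) • D + A))) ≤ (s : EReal) +
        logGrowth (fun m => sdim (Z'.H0 ((m : ℚ) • (M : ℚ) • U' + A'))) := by
      refine logGrowth_le (C := C') (a := 1) (c := 0) (φ := id) Filter.tendsto_id
        (fun m => by simp) ?_
      filter_upwards [Filter.eventually_ge_atTop 1] with q h2
      have h3 := hq q h2
      rw [id, smul_smul, smul_smul]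
      rw [Nat.cast_mul] at h3
      exact h3
    refine h1.trans ?_
    gcongr
    rw [nu_eq_sup]
    exact le_iSup (fun A : Z'.Div => logGrowth fun m =>
      sdim (Z'.H0 ((m : ℚ) • (M : ℚ) • U' + A))) A'
  · obtain ⟨U', hU'⟩ := hZ'.exists_pull (T + ((C + 1 : ℕ) : ℚ) • redDiv B)
    rw [← hZ'.kod_pull hU']
    obtain ⟨A', C', hA', hq⟩ := key hZ' h hU' 0
    rw [hA' rfl] at hq
    simp only [add_zero] at hq
    rcases regular D with ⟨-, h0⟩ | ⟨d, C₁, m₀, hk, hm₀, -, hl, -⟩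
    · rw [h0]
      exact bot_le
    have h1 : ∀ q : ℕ, 1 ≤ q → ((q * M : ℕ) : ℕ∞) ^ d ≤ C₁ * (C' * ((q * m₀ : ℕ) : ℕ∞) ^ s *
        sdim (Z'.H0 (((q * m₀ * M : ℕ) : ℚ) • U'))) := by
      intro q h2
      refine (hl (q * M) (Nat.mul_pos h2 hM)).trans ?_
      gcongr
      refine (X.h0_le _).trans ?_
      have h3 := hq (q * m₀) (Nat.mul_pos h2 hm₀)
      have h4 : q * M * m₀ = q * m₀ * M := by ring
      rw [h4]
      exact h3
    rcases regular U' with ⟨h0, -⟩ | ⟨d', C₂, m₁, hk', -, -, -, hu⟩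
    · exfalso
      have h2 := h1 1 le_rfl
      rw [h0 (1 * m₀ * M) (Nat.mul_pos (Nat.mul_pos one_pos hm₀) hM), sdim_bot, mul_zero, mul_zero,
        one_mul] at h2
      have h3 : M ^ d ≤ 0 := by exact_mod_cast h2
      have h4 : 0 < M ^ d := pow_pos hM d
      omega
    · rw [hk, hk']
      have h5 : ∀ q : ℕ, 1 ≤ q → (q * M) ^ d ≤ C₁ * (C' * (q * m₀) ^ s *
          (C₂ * (q * m₀ * M) ^ d')) := by
        intro q h2
        have h3 := (h1 q h2).trans (mul_le_mul_right (mul_le_mul_right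
          (hu (q * m₀ * M) (Nat.mul_pos (Nat.mul_pos h2 hm₀) hM)) _) _)
        exact_mod_cast h3
      have h6 : d ≤ s + d' := by
        by_contra hcon
        push Not at hcon
        obtain ⟨j, hj⟩ := Nat.exists_eq_add_of_le hcon
        set N : ℕ := C₁ * C' * C₂ * m₀ ^ s * (m₀ * M) ^ d' with hN
        have h7 := h5 (N + 1) (by omega)
        have h8 : C₁ * (C' * ((N + 1) * m₀) ^ s * (C₂ * ((N + 1) * m₀ * M) ^ d')) =
            N * (N + 1) ^ (s + d') := by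
          rw [hN]
          generalize C₁ * C' * C₂ * m₀ ^ s * (m₀ * M) ^ d' + 1 = q
          rw [mul_assoc q m₀ M, mul_pow, mul_pow q (m₀ * M), pow_add]
          ring
        rw [h8] at h7
        have h9 : (N + 1) ^ (s + d' + 1) ≤ ((N + 1) * M) ^ d := by
          calc (N + 1) ^ (s + d' + 1) ≤ (N + 1) ^ d :=
                Nat.pow_le_pow_right (by omega) (by omega)
            _ ≤ ((N + 1) * M) ^ d := Nat.pow_le_pow_left (Nat.le_mul_of_pos_right _ hM) d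
        have h10 := h9.trans h7
        rw [pow_succ, mul_comm ((N + 1) ^ (s + d')) (N + 1)] at h10
        have h11 := Nat.le_of_mul_le_mul_right h10 (pow_pos (by omega) _)
        omega
      exact_mod_cast h6

end Pool.Agent.Helper63.PB
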