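import Pool.Agent.Helper63.PB.AbsLow
import Pool.Agent.Helper63.PB.AbsUp
import Pool.Agent.Helper92.Ga.Main2

set_option autoImplicit false

/-!
# PB-28 AbsMain: the abstract comparison theorem

PROOF. `low_nu`, `low_kod` (with `1 / N`) and `up_nu_kod` (with `C`) bound `ν(D)`, `κ(D)` from both sides;
`Ga.kod_nu_eps` (with `T`, `redDiv B`, `DZ = N₁ T + B`, `N₁` a positive multiple of `N₃` such that
`N₁ T` is integral, `PQ.exists_int_mult`; `ε` arbitrary positive) gives for every `ε > 0` a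
`Comparison Z Z (T + ε B) DZ 0`, so `ν(T + ε B) = ν(DZ)` and `κ(T + ε B) = κ(DZ)` (`Comparison.nu_eq`,
`Comparison.kod_eq`) do not depend on `ε > 0`.
-/

namespace Pool.Agent.Helper63.PB

open Pool.Agent.Helper92.Weak

theorem abs_main {k K L K' : Type*} [Field k] [Field K] [Field L] [Field K'] [Algebra k K]
    [Algebra k L] [Algebra k K'] [Algebra K L] [Algebra K K'] [IsScalarTower k K L]
    [IsScalarTower k K K'] [IsAlgClosed k] [CharZero k] [FiniteDimensional K K']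
    {X : ProjVar k L} {Z : ProjVar k K} {D : X.Div} {T : Z.Div} {B : Finset Z.primeDivisors} {s : ℕ}
    (hequi : ∀ P ∈ X.primeDivisors, (∃ a : K, P (algebraMap K L a) ≠ 0) →
      ∃ Q ∈ Z.primeDivisors, ∃ e, LiesOver P Q e)
    (hlow : Nonempty (LowerData X Z D T B s)) (hup : UpperData X Z K' D T B s)
    {N₃ : ℕ} (hN₃ : 0 < N₃) {η : K} (hη : η ≠ 0)
    (hT : ∀ Q : Z.primeDivisors, 0 ≤ (Q.1 η : ℚ) + N₃ * T Q) {ε : ℚ} (hε : 0 < ε) :
    X.kod D = s + Z.kod (T + ε • redDiv B) ∧ X.nu D = s + Z.nu (T + ε • redDiv B) := by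
  obtain ⟨W⟩ := hlow
  obtain ⟨C, hC, hnu, hkod⟩ := up_nu_kod hup
  obtain ⟨N, hN, hNT⟩ := Pool.Agent.Helper47.PQ.exists_int_mult T
  obtain ⟨DZ, hDZ, hint⟩ : ∃ DZ : Z.Div, (∀ Q, DZ Q = ((N * N₃ : ℕ) : ℚ) * T Q + redDiv B Q) ∧
      Z.IsInt DZ := by
    refine ⟨((N * N₃ : ℕ) : ℚ) • T + redDiv B, fun Q => by
      rw [Finsupp.add_apply, Finsupp.smul_apply, smul_eq_mul], ?_⟩
    apply ProjVar.IsInt.add
    · have h3 := hNT.nsmul N₃
      rw [smul_smul] at h3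
      have h4 : (N₃ : ℚ) * N = ((N * N₃ : ℕ) : ℚ) := by push_cast; ring
      rwa [h4] at h3
    · intro Q
      classical
      rw [redDiv_apply]
      split_ifs
      · exact ⟨1, by norm_num⟩
      · exact ⟨0, by norm_num⟩
  have hB : ∀ Q : Z.primeDivisors, (0 : ℚ) ≤ redDiv B Q := by
    intro Q
    classical
    rw [redDiv_apply]
    split_ifs <;> norm_num
  have hcomp : ∀ δ : ℚ, 0 < δ →
      Pool.Agent.Helper92.Ga.Comparison Z Z (T + δ • redDiv B) DZ 0 := fun δ hδ =>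
    Pool.Agent.Helper92.Ga.kod_nu_eps (Nat.mul_pos hN hN₃) hN₃ hDZ hB hint hη hT
      (Nat.dvd_mul_left _ _) hδ
  have hn : ∀ δ : ℚ, 0 < δ → Z.nu (T + δ • redDiv B) = Z.nu DZ := by
    intro δ hδ
    rw [(hcomp δ hδ).nu_eq]
    simp
  have hk : ∀ δ : ℚ, 0 < δ → Z.kod (T + δ • redDiv B) = Z.kod DZ := by
    intro δ hδ
    rw [(hcomp δ hδ).kod_eq]
    simp
  have hWN : (0 : ℚ) < 1 / (W.N : ℚ) := by
    have h1 : (0 : ℚ) < W.N := by exact_mod_cast W.N_pos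
    positivity
  have hC' : (0 : ℚ) < (C : ℚ) := by exact_mod_cast hC
  have l1 := low_nu hequi W
  have l2 := low_kod hequi W
  rw [hn _ hWN] at l1
  rw [hk _ hWN] at l2
  rw [hn _ hC'] at hnu
  rw [hk _ hC'] at hkod
  rw [hn _ hε, hk _ hε]
  exact ⟨le_antisymm hkod l2, le_antisymm hnu l1⟩

end Pool.Agent.Helper63.PB
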