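import Pool.Agent.Helper63.PB.TLemma
import Pool.Agent.Helper92.Ga.Forms

set_option autoImplicit false

/-!
# PB-06 Hurwitz: orders of forms and finite extensions

`E' / E` finite, characteristic zero, `w` over `v` with ramification `ε`, `y` a transcendence basis of
`E / k`. If the form `dy` has order `a` along `v` then, as a form on `E'`, it has order
`ε (a + 1) - 1` along `w`.

PROOF. Write `n` for the number of `y`'s (`n ≥ 1` since `v` exists).
Coordinates: `Helper92.Ga.exists_coord_unif hy v` gives `z`, a basis `b` with `b i = D (z i)` of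
`Ω[E⁄k]`, an index `i₀` with `z i₀ = p`, `v p = 1`, all `∂_i = b.repr (D ·) i` preserve `v.ring`, and
`dy = g dz`, `v g = a`.
Basis of `Ω[E'⁄k]`: `z` is a transcendence basis of `E / k` (`Forms.isTranscendenceBasis_of_basis`), so
its image in `E'` is one of `E' / k` (`E' / E` algebraic), `Forms.exists_kaehler_basis` gives
`b' i = D (z i)`; and `b'.repr (D (algebraMap c)) i = algebraMap (b.repr (D c) i)` (as in
`Forms.exists_basis_tower`: apply `KaehlerDifferential.map k k E E'` to `b.sum_repr`). Let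
`δ_i x = b'.repr (D x) i` for `i ≠ i₀` and `δ_{i₀} x = p b'.repr (D x) i₀`: `k`-derivations of `E'`
(`(b'.coord i).compDer (D k E')`).
(1) `w (δ_i c) ≥ w c` for `c ∈ E`: write `c = p^m c₀`, `v c₀ = 0`; for `i ≠ i₀`,
`∂_i c = p^m ∂_i c₀`; for `i₀`: `p ∂ c = p^m (m c₀ + p ∂ c₀)` (compare `MA.log_ge_entry`). So
`der_ge_ext` applies: `w (δ_i x) ≥ w x` for all `x ∈ E'`. For `i₀`: if `v c ≥ 0` then
`v (p ∂ c) ≥ 1`, so by `der_pos_ext` `w (δ_{i₀} x) ≥ 1` whenever `w x ≥ 0`.
(2) Let `π` with `w π = 1`, `π^ε = u p`, `w u = 0`. `ε π⁻¹ δ_{i₀} π = u⁻¹ δ_{i₀} u + 1` (as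
`δ_{i₀} p = p`), and `w (δ_{i₀} u) ≥ 1`, so `w (π⁻¹ δ_{i₀} π) = 0`, i.e. `w (δ_{i₀} π) = 1`, and
`w (b'.repr (D π) i₀) = 1 - ε`.
(3) The functions `z' = update z i₀ π` are local coordinates at `w`: `Forms.dform_update`:
`dz' = (b'.repr (D π) i₀) dz`, nonzero, so `D z'_i` is a basis `b''`, and the dual
derivations are `∂''_{i₀} = (δ_{i₀} π)⁻¹ δ_{i₀}` and `∂''_i = δ_i - (δ_i π)(δ_{i₀} π)⁻¹ δ_{i₀}`
(`i ≠ i₀`). They preserve `w.ring`: for `w x ≥ 0`, `w (δ_{i₀} x) ≥ 1 = w (δ_{i₀} π)`,
`w (δ_i π) ≥ 1`, `w (δ_i x) ≥ 0`. By `Forms.isOrd_of_coord` the form `f dz'` has order `w f` along `w`.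
(4) `dy = g dz = g (b'.repr (D π) i₀)⁻¹ dz'` (all in `E'`; `dform k (algebraMap ∘ ·)` of the relation
`dy = g dz` in `E`: by `Forms.dform_eq_det` in `E` and in `E'`: the determinant of
`b'.repr (D y_j) i = algebraMap (b.repr (D y_j) i)` is the image of the determinant in `E`). Its order
is `ε a + (ε - 1) = ε (a + 1) - 1`.
-/

namespace Pool.Agent.Helper63.PB

open Pool.Agent.Helper92.Weak Pool.Agent.Helper92.Ga Pool.Agent.Helper50.Forms
open scoped KaehlerDifferential TensorProduct

variable {k E E' : Type*} [Field k] [Field E] [Field E'] [Algebra k E] [Algebra k E']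
  [Algebra E E'] [IsScalarTower k E E'] [FiniteDimensional E E'] [CharZero k]

/-- A basis of the differentials of a finite extension. -/
private theorem exists_basis_ext {n : ℕ} (z : Fin n → E) (b : Module.Basis (Fin n) E Ω[E⁄k])
    (hb : ∀ i, b i = KaehlerDifferential.D k E (z i)) :
    ∃ B : Module.Basis (Fin n) E' Ω[E'⁄k],
      (∀ i, B i = KaehlerDifferential.D k E' (algebraMap E E' (z i))) ∧
      ∀ (c : E) (i : Fin n), B.repr (KaehlerDifferential.D k E' (algebraMap E E' c)) i =
        algebraMap E E' (b.repr (KaehlerDifferential.D k E c) i) := by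
  have : CharZero E := charZero_of_injective_algebraMap (algebraMap k E).injective
  have : Algebra.FormallyEtale E E' := Algebra.FormallyEtale.of_isSeparable E E'
  refine ⟨(b.baseChange E').map (KaehlerDifferential.tensorKaehlerEquivOfFormallyEtale k E E'),
    fun i => ?_, fun c i => ?_⟩
  · rw [Module.Basis.map_apply, Module.Basis.baseChange_apply,
      KaehlerDifferential.tensorKaehlerEquivOfFormallyEtale_apply,
      KaehlerDifferential.mapBaseChange_tmul, one_smul, hb, KaehlerDifferential.map_D]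
  · have h1 : KaehlerDifferential.D k E' (algebraMap E E' c) =
        KaehlerDifferential.tensorKaehlerEquivOfFormallyEtale k E E'
          (1 ⊗ₜ[E] KaehlerDifferential.D k E c) := by
      rw [KaehlerDifferential.tensorKaehlerEquivOfFormallyEtale_apply,
        KaehlerDifferential.mapBaseChange_tmul, one_smul, KaehlerDifferential.map_D]
    rw [h1, Module.Basis.map_repr, LinearEquiv.trans_apply, LinearEquiv.symm_apply_apply,
      Module.Basis.baseChange_repr_tmul, Algebra.smul_def, mul_one]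

omit [CharZero k] in
/-- Replacing one coordinate: the new dual derivations. -/
private theorem repr_update {L : Type*} [Field L] [Algebra k L] {n : ℕ} (x : Fin n → L)
    (B : Module.Basis (Fin n) L Ω[L⁄k]) (hB : ∀ i, B i = KaehlerDifferential.D k L (x i))
    (i₀ : Fin n) (π : L) (hπ : B.repr (KaehlerDifferential.D k L π) i₀ ≠ 0)
    (b : Module.Basis (Fin n) L Ω[L⁄k])
    (hb : ∀ i, b i = KaehlerDifferential.D k L (Function.update x i₀ π i)) (y : Ω[L⁄k])
    (i : Fin n) :
    b.repr y i = if i = i₀ then (B.repr (KaehlerDifferential.D k L π) i₀)⁻¹ * B.repr y i₀ else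
      B.repr y i - (B.repr (KaehlerDifferential.D k L π) i₀)⁻¹ * B.repr y i₀ *
        B.repr (KaehlerDifferential.D k L π) i := by
  classical
  set c : Fin n → L := fun i => if i = i₀ then
    (B.repr (KaehlerDifferential.D k L π) i₀)⁻¹ * B.repr y i₀ else
      B.repr y i - (B.repr (KaehlerDifferential.D k L π) i₀)⁻¹ * B.repr y i₀ *
        B.repr (KaehlerDifferential.D k L π) i with hc
  have h1 : y = ∑ j, c j • b j := by
    apply B.repr.injective
    ext j
    rw [map_sum, Finsupp.finsetSum_apply]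
    have h2 : ∀ l, B.repr (c l • b l) j = if l = i₀ then
        c i₀ * B.repr (KaehlerDifferential.D k L π) j else if l = j then c j else 0 := by
      intro l
      rw [map_smul, Finsupp.smul_apply, smul_eq_mul, hb]
      by_cases hl : l = i₀
      · subst hl
        rw [Function.update_self, if_pos rfl]
      · rw [Function.update_of_ne hl, ← hB, B.repr_self, Finsupp.single_apply, if_neg hl]
        split_ifs with h
        · subst h
          rw [mul_one]
        · rw [mul_zero]
    rw [Finset.sum_congr rfl fun l _ => h2 l]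
    rw [← Finset.add_sum_erase Finset.univ _ (Finset.mem_univ i₀), if_pos rfl]
    have h3 : ∀ l ∈ Finset.univ.erase i₀, (if l = i₀ then
        c i₀ * B.repr (KaehlerDifferential.D k L π) j else if l = j then c j else 0) =
        if l = j then c j else 0 := by
      intro l hl
      rw [if_neg (Finset.ne_of_mem_erase hl)]
    rw [Finset.sum_congr rfl h3, Finset.sum_ite_eq' (Finset.univ.erase i₀) j fun _ => c j]
    have hci : c i₀ = (B.repr (KaehlerDifferential.D k L π) i₀)⁻¹ * B.repr y i₀ := by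
      simp [hc]
    by_cases hj : j = i₀
    · subst hj
      rw [if_neg (Finset.notMem_erase j Finset.univ), hci, add_zero]
      field_simp
    · rw [if_pos (Finset.mem_erase.2 ⟨hj, Finset.mem_univ j⟩), hci]
      have hcj : c j = B.repr y j - (B.repr (KaehlerDifferential.D k L π) i₀)⁻¹ * B.repr y i₀ *
          B.repr (KaehlerDifferential.D k L π) j := by
        simp [hc, hj]
      rw [hcj]
      ring
  conv_lhs => rw [h1]
  rw [b.repr_sum_self]

omit [CharZero k] in
/-- Values of powers. -/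
private theorem w_natCast {L : Type*} [Field L] [Algebra k L] (w : DVal k L) (m : ℕ) :
    w (m : L) = 0 := by
  have h := w.map_const (m : k)
  rwa [map_natCast] at h

private theorem hurwitz_aux {n : ℕ} {z : Fin n → E} {b : Module.Basis (Fin n) E Ω[E⁄k]}
    {v : DVal k E} {w : DVal k E'} {ε : ℕ} (hw : LiesOver w v ε) {i₀ : Fin n} {p g : E}
    (hb : ∀ i, b i = KaehlerDifferential.D k E (z i)) (hz : ∀ i, 0 ≤ v (z i))
    (hreg : ∀ y, 0 ≤ v y → ∀ i, 0 ≤ v (b.repr (KaehlerDifferential.D k E y) i))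
    (hp : v p = 1) (hzp : z i₀ = p) (hg : g ≠ 0) :
    w.IsOrd (algebraMap E E' g • dform k fun i => algebraMap E E' (z i))
      (ε * (v g + 1) - 1) := by
  classical
  obtain ⟨hε, hwv⟩ := hw
  have hp0 : p ≠ 0 := v.ne_zero_of_pos (by omega)
  have hp'0 : algebraMap E E' p ≠ 0 := by simpa using hp0
  have hwp : w (algebraMap E E' p) = ε := by rw [hwv, hp, mul_one]
  obtain ⟨B, hB, hBr⟩ := exists_basis_ext (E' := E') z b hb
  -- images of elements of nonnegative value
  have hge0 : ∀ c : E, 0 ≤ v c → w.Ge 0 (algebraMap E E' c) := by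
    intro c hc
    right
    rw [hwv]
    have : (0 : ℤ) ≤ ε * v c := mul_nonneg (by positivity) hc
    exact_mod_cast this
  -- the derivations
  set δ : Fin n → Derivation k E' E' := fun i => (B.coord i).compDer (KaehlerDifferential.D k E')
    with hδ
  have hδa : ∀ i x, δ i x = B.repr (KaehlerDifferential.D k E' x) i := fun i x => rfl
  set δ₀ : Derivation k E' E' := algebraMap E E' p • δ i₀ with hδ₀
  have hδ₀a : ∀ x, δ₀ x = algebraMap E E' p * B.repr (KaehlerDifferential.D k E' x) i₀ :=
    fun x => rfl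
  have hD : ∀ i, i ≠ i₀ → ∀ c : E, w.Ge (w (algebraMap E E' c)) (δ i (algebraMap E E' c)) := by
    intro i hi c
    by_cases hc : c = 0
    · left
      rw [hc, _root_.map_zero, _root_.map_zero]
    obtain ⟨c', hc', h1⟩ := repr_split hp hzp hb hreg hc i
    rw [hδa, hBr, h1, if_neg hi, add_zero, _root_.map_mul, map_zpow₀]
    have h2 : w.Ge (w (algebraMap E E' c)) (algebraMap E E' p ^ v c) := by
      right
      rw [w.map_zpow, hwp, hwv, mul_comm]
    simpa using h2.mul (hge0 c' hc')
  have hD₀s : ∀ c : E, c ≠ 0 → ∃ c' : E, 0 ≤ v c' ∧ δ₀ (algebraMap E E' c) =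
      algebraMap E E' p ^ (v c + 1) * algebraMap E E' c' + (v c : E') * algebraMap E E' c := by
    intro c hc
    obtain ⟨c', hc', h1⟩ := repr_split hp hzp hb hreg hc i₀
    refine ⟨c', hc', ?_⟩
    rw [hδ₀a, hBr, h1, if_pos rfl, map_add, _root_.map_mul, _root_.map_mul, _root_.map_mul,
      map_zpow₀, map_inv₀, map_intCast, zpow_add_one₀ hp'0]
    field_simp
  have hint : ∀ m : ℤ, w.Ge 0 (m : E') := by
    intro m
    right
    rw [v_intCast w m]
    simp
  have hD₀ : ∀ c : E, w.Ge (w (algebraMap E E' c)) (δ₀ (algebraMap E E' c)) := by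
    intro c
    by_cases hc : c = 0
    · left
      rw [hc, _root_.map_zero, _root_.map_zero]
    obtain ⟨c', hc', h1⟩ := hD₀s c hc
    rw [h1]
    refine DVal.Ge.add ?_ ?_
    · have h2 : w.Ge (w (algebraMap E E' c)) (algebraMap E E' p ^ (v c + 1)) := by
        right
        rw [w.map_zpow, hwp, hwv]
        have : (ε : ℤ) * v c ≤ (v c + 1) * ε := by nlinarith
        exact_mod_cast this
      simpa using h2.mul (hge0 c' hc')
    · simpa using (hint (v c)).mul (DVal.ge_self (v := w) (algebraMap E E' c))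
  have h1D₀ : ∀ c : E, 0 ≤ v c → w.Ge 1 (δ₀ (algebraMap E E' c)) := by
    intro c hvc
    by_cases hc : c = 0
    · left
      rw [hc, _root_.map_zero, _root_.map_zero]
    obtain ⟨c', hc', h1⟩ := hD₀s c hc
    rw [h1]
    refine DVal.Ge.add ?_ ?_
    · have h2 : w.Ge 1 (algebraMap E E' p ^ (v c + 1)) := by
        right
        rw [w.map_zpow, hwp]
        have : (1 : ℤ) ≤ (v c + 1) * ε := by nlinarith
        exact_mod_cast this
      simpa using h2.mul (hge0 c' hc')
    · rcases hvc.eq_or_lt with h0 | h0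
      · left
        rw [← h0, Int.cast_zero, zero_mul]
      · have h2 : w.Ge 1 (algebraMap E E' c) := by
          right
          rw [hwv]
          have : (1 : ℤ) ≤ ε * v c := by nlinarith
          exact_mod_cast this
        simpa using (hint (v c)).mul h2
  -- the uniformizer
  obtain ⟨π, hπ0, hπ⟩ := w.exists_uniformizer
  have hδ₀p : δ₀ (algebraMap E E' p) = algebraMap E E' p := by
    rw [hδ₀a, hBr, ← hzp, ← hb, b.repr_self, Finsupp.single_eq_same, _root_.map_one, mul_one]
  set u : E' := π ^ ε / algebraMap E E' p with hu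
  have hπε : π ^ ε ≠ 0 := pow_ne_zero _ hπ0
  have hu0 : u ≠ 0 := div_ne_zero hπε hp'0
  have hwu : w u = 0 := by
    rw [hu, w.map_div hπε hp'0, w.map_pow, hπ, hwp]
    ring
  have hup : u * algebraMap E E' p = π ^ ε := by
    rw [hu, div_mul_cancel₀ _ hp'0]
  have hδu : w.Ge 1 (δ₀ u) := der_pos_ext ⟨hε, hwv⟩ δ₀ hD₀ h1D₀ hwu.ge
  have hrel : (ε : E') * π ^ (ε - 1) * δ₀ π =
      u * algebraMap E E' p + algebraMap E E' p * δ₀ u := by
    have h1 := congrArg δ₀ hup
    rw [Derivation.leibniz, Derivation.leibniz_pow, hδ₀p, smul_eq_mul, smul_eq_mul, nsmul_eq_mul,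
      smul_eq_mul] at h1
    rw [h1]
    ring
  have hup0 : u * algebraMap E E' p ≠ 0 := mul_ne_zero hu0 hp'0
  have hwup : w (u * algebraMap E E' p) = ε := by
    rw [w.map_mul hu0 hp'0, hwu, hwp, zero_add]
  have hlt : algebraMap E E' p * δ₀ u = 0 ∨
      w (u * algebraMap E E' p) < w (algebraMap E E' p * δ₀ u) := by
    by_cases h0 : δ₀ u = 0
    · left
      rw [h0, mul_zero]
    right
    rw [DVal.ge_iff h0] at hδu
    have h1 : (1 : ℤ) ≤ w (δ₀ u) := by exact_mod_cast hδu
    rw [hwup, w.map_mul hp'0 h0, hwp]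
    omega
  have hne : (ε : E') * π ^ (ε - 1) * δ₀ π ≠ 0 := by
    rw [hrel]
    exact w.add_ne_zero_of_lt hup0 hlt
  have hδπ0 : δ₀ π ≠ 0 := right_ne_zero_of_mul hne
  have hεE : (ε : E') ≠ 0 := left_ne_zero_of_mul (left_ne_zero_of_mul hne)
  have hδπ : w (δ₀ π) = 1 := by
    have h1 : w ((ε : E') * π ^ (ε - 1) * δ₀ π) = ε := by
      rw [hrel, w.map_add_eq_of_lt hup0 hlt, hwup]
    rw [w.map_mul (mul_ne_zero hεE (pow_ne_zero _ hπ0)) hδπ0, w.map_mul hεE (pow_ne_zero _ hπ0),
      w_natCast, w.map_pow, hπ] at h1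
    have h2 : ((ε - 1 : ℕ) : ℤ) = ε - 1 := by
      push_cast [Nat.cast_sub hε]
      ring
    rw [h2] at h1
    linarith
  set β := B.repr (KaehlerDifferential.D k E' π) i₀ with hβ
  have hβp : algebraMap E E' p * β = δ₀ π := (hδ₀a π).symm
  have hβ0 : β ≠ 0 := by
    intro h
    rw [h, mul_zero] at hβp
    exact hδπ0 hβp.symm
  have hwβ : w β = 1 - ε := by
    have h1 : w (algebraMap E E' p * β) = 1 := by rw [hβp, hδπ]
    rw [w.map_mul hp'0 hβ0, hwp] at h1
    linarith
  -- new coordinates
  have hupd := dform_update (fun i => algebraMap E E' (z i)) B hB i₀ π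
  rw [← hβ] at hupd
  have hdne : dform k (Function.update (fun i => algebraMap E E' (z i)) i₀ π) ≠ 0 := by
    rw [hupd]
    exact smul_ne_zero hβ0 (dform_ne_zero _ B hB)
  obtain ⟨b'', hb''⟩ := exists_basis_of_ne_zero B _ hdne
  have hgE : algebraMap E E' g ≠ 0 := by simpa using hg
  have hfin : algebraMap E E' g • dform k (fun i => algebraMap E E' (z i)) =
      (algebraMap E E' g * β⁻¹) • dform k (Function.update (fun i => algebraMap E E' (z i)) i₀ π) := by
    rw [hupd, smul_smul, mul_assoc, inv_mul_cancel₀ hβ0, mul_one]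
  have hval : (ε : ℤ) * (v g + 1) - 1 = w (algebraMap E E' g * β⁻¹) := by
    rw [w.map_mul hgE (inv_ne_zero hβ0), w.map_inv, hwβ, hwv]
    ring
  rw [hfin, hval]
  refine isOrd_of_coord w _ b'' hb'' ?_ ?_ (mul_ne_zero hgE (inv_ne_zero hβ0))
  · intro i
    by_cases hi : i = i₀
    · subst hi
      rw [Function.update_self, hπ]
      norm_num
    · rw [Function.update_of_ne hi, hwv]
      exact mul_nonneg (by positivity) (hz i)
  · intro y hy i
    change _ ∈ w.ring
    rw [DVal.mem_ring_iff_ge, repr_update _ B hB i₀ π hβ0 b'' hb'', ← hβ]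
    have hq : w.Ge 0 (β⁻¹ * B.repr (KaehlerDifferential.D k E' y) i₀) := by
      have h1 : β⁻¹ * B.repr (KaehlerDifferential.D k E' y) i₀ = (δ₀ π)⁻¹ * δ₀ y := by
        rw [← hβp, hδ₀a y]
        field_simp
      rw [h1]
      have h2 : w.Ge (-1) (δ₀ π)⁻¹ := by
        right
        rw [w.map_inv, hδπ]
        norm_num
      have h3 : w.Ge 1 (δ₀ y) := der_pos_ext ⟨hε, hwv⟩ δ₀ hD₀ h1D₀ hy
      simpa using h2.mul h3
    split_ifs with hi
    · exact hq
    · refine DVal.Ge.sub ?_ ?_
      · have h1 := der_ge_ext ⟨hε, hwv⟩ (δ i) (hD i hi) y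
        rw [hδa] at h1
        exact h1.mono (by exact_mod_cast hy)
      · have h1 := der_ge_ext ⟨hε, hwv⟩ (δ i) (hD i hi) π
        rw [hδa, hπ] at h1
        exact (hq.mul h1).mono (by norm_num)

theorem hurwitz {n : ℕ} {y : Fin n → E} (hy : IsTranscendenceBasis k y) {v : DVal k E}
    {w : DVal k E'} {ε : ℕ} (hw : LiesOver w v ε) {a : ℤ} (ha : v.IsOrd (dform k y) a) :
    w.IsOrd (dform k fun i => algebraMap E E' (y i)) (ε * (a + 1) - 1) := by
  classical
  obtain ⟨z, b, i₀, p, g, hb, hz, hreg, hp, hzp, hg, hga, heq⟩ := exists_coord_unif hy v ha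
  have h := hurwitz_aux hw hb hz hreg hp hzp hg
  rw [hga] at h
  obtain ⟨B, hB, hBr⟩ := exists_basis_ext (E' := E') z b hb
  have h1 : b.det (fun j => KaehlerDifferential.D k E (y j)) = g := by
    rw [dform_eq_det z b hb y] at heq
    exact smul_dform_inj z b hb heq
  have h2 : B.det (fun j => KaehlerDifferential.D k E' (algebraMap E E' (y j))) =
      algebraMap E E' g := by
    rw [← h1, Module.Basis.det_apply, Module.Basis.det_apply, RingHom.map_det]
    congr 1
    ext i j
    rw [RingHom.mapMatrix_apply, Matrix.map_apply, Module.Basis.toMatrix_apply,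
      Module.Basis.toMatrix_apply, hBr]
  rw [dform_eq_det _ B hB (fun i => algebraMap E E' (y i)), h2]
  exact h

end Pool.Agent.Helper63.PB
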