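import Pool.Agent.Helper63.PB.Under
import Pool.Agent.Helper92.Ga.Forms

set_option autoImplicit false

/-!
# PB-17 LogIneq: the form `dy ∧ dg` and the logarithmic inequality

`y` a transcendence basis of `K / k`, `M / K` of transcendence degree one: `s ∈ M` transcendental over
`K`, `M` algebraic over `K(s)`; `D` the derivation of `M / K` with `D s = 1`.

`exists_om_basis`: `D y_i, D s` is a basis of `Ω[M⁄k]` (`(y, s)` is a transcendence basis of `M / k`:
`IsTranscendenceBasis.sumElim_comp` as in `Ga.log_ineq`; `Forms.exists_kaehler_basis`).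

`om_eq`: `dy ∧ dg = (D g) dy ∧ ds`. PROOF. `Forms.dform_update` (replace the last coordinate by `g`) with
coefficient `B.repr (D g) (last)`. The map `g ↦ B.repr (D g) (last)` is a `k`-derivation of `M` which is `0`
on the `y_i` and `1` on `s`; `D` (as a `k`-derivation) has the same values; they agree on `k(y, s)` and so
on `M` (the difference kills `k(y, s)`, `Helper60.MA.der_eq_zero_of_isAlgebraic`; or:
a `k`-derivation is determined by its values on `y, s` because `D y_i, D s` is a basis of
`Ω[M⁄k]`: `Derivation.liftKaehlerDifferential`, `Basis.ext`).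

`log_ineq_gen`: `v` over `v₀` with multiplicity `e`, `a` the order of `dy ∧ ds` along `v`, `c` the order of
`dy` along `v₀`. Then `v (D g) ≥ v g - (a + 1 - e (c + 1))`.
PROOF. This is `Ga.log_ineq` with `g` instead of the polynomial `p(t)` and `D g` instead of `p'(t)`; the
same proof: if `D g = 0` there is nothing to prove. Coordinates at `v₀`: `exists_coord_unif hy v₀ hc`
(`z'`, `i₀`, `q` with `v₀ q = 1`, `z' i₀ = q`, `dy = g₀ dz'`, `v₀ g₀ = c`); coordinates at `v`:
`exists_coord_unif` for `ha` (`x`, `C`, `j₀`, `π`, `dy ∧ ds = γ dx`, `v γ = a`). So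
`D g • dy ∧ ds = dy ∧ dg = g₀ dz' ∧ dg = g₀ det(T) dx`, `T` the matrix of `D z'_l, D g` in the basis `C`
(`dz' ∧ dg` relative to `dy ∧ dg`: the relation `dy = g₀ dz'` in `K` gives the relation in `M`, as in
`Ga.log_ineq`: `Weak.dform_append` needs the structure of a torus; use instead that both
sides are determinants: `dform_eq_det` in a basis `D z'_i, D s` of `Ω[M⁄k]`, the matrix is block
triangular with the block of `dy` in terms of `dz'` and last entry `1`). The entries of `T` in column
`l` have value `≥ v (z'_l) ≥ [l = i₀] e`, in the last column `≥ v g`, and one less in row `j₀`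
(`repr_split`). So `v (det T) ≥ e + v g - 1` and
`v (D g) + a = e c + v (det T) ≥ e c + e + v g - 1`.
-/

namespace Pool.Agent.Helper63.PB

open Pool.Agent.Helper92.Weak Module
open scoped KaehlerDifferential
open Pool.Agent.Helper50.Forms Pool.Agent.Helper92.Ga

variable {k K M : Type*} [Field k] [Field K] [Field M] [Algebra k K] [Algebra k M] [Algebra K M]
  [IsScalarTower k K M] [CharZero k] {d : ℕ} {y : Fin d → K}

omit [Algebra k M] [Algebra k K] [IsScalarTower k K M] [CharZero k] [Field k] in
private theorem lgi_trb {s : M} (hs : Transcendental K s)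
    (hs' : ∀ x : M, IsAlgebraic (IntermediateField.adjoin K {s}) x) :
    IsTranscendenceBasis K (fun _ : Fin 1 => s) := by
  have h1 : AlgebraicIndependent K (fun _ : Fin 1 => s) :=
    algebraicIndependent_unique_type_iff.2 hs
  rw [h1.isTranscendenceBasis_iff_isAlgebraic, Set.range_const]
  open scoped IntermediateField.algebraAdjoinAdjoin in
  exact (IsFractionRing.comap_isAlgebraic_iff (A := Algebra.adjoin K ({s} : Set M))
      (K := IntermediateField.adjoin K ({s} : Set M)) (C := M)).2 ⟨hs'⟩

private theorem lgi_tower (hy : IsTranscendenceBasis k y) {s : M} (hs : Transcendental K s)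
    (hs' : ∀ x : M, IsAlgebraic (IntermediateField.adjoin K {s}) x)
    (z : Fin d → K) (b : Basis (Fin d) K Ω[K⁄k])
    (hb : ∀ i, b i = KaehlerDifferential.D k K (z i)) :
    ∃ B : Basis (Fin (d + 1)) M Ω[M⁄k],
      (∀ i, B i = KaehlerDifferential.D k M
        (Fin.append (fun i => algebraMap K M (z i)) (fun _ : Fin 1 => s) i)) ∧
      (∀ (f : K) (i : Fin d), B.repr (KaehlerDifferential.D k M (algebraMap K M f))
        (Fin.castAdd 1 i) = algebraMap K M (b.repr (KaehlerDifferential.D k K f) i)) ∧
      (∀ (f : K) (j : Fin 1),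
        B.repr (KaehlerDifferential.D k M (algebraMap K M f)) (Fin.natAdd d j) = 0) := by
  classical
  have : CharZero K := charZero_of_injective_algebraMap (algebraMap k K).injective
  have hz := isTranscendenceBasis_of_basis hy z b hb
  have ht' := lgi_trb hs hs'
  obtain ⟨B₀, hB₀⟩ := exists_kaehler_basis_aux (hz.sumElim_comp ht')
  let e : Fin 1 ⊕ Fin d ≃ Fin (d + 1) := (Equiv.sumComm _ _).trans finSumFinEquiv
  have he1 : ∀ i, e.symm (Fin.castAdd 1 i) = Sum.inr i := by
    intro i
    rw [Equiv.symm_apply_eq]
    simp [e]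
  have he2 : ∀ j, e.symm (Fin.natAdd d j) = Sum.inl j := by
    intro j
    rw [Equiv.symm_apply_eq]
    simp [e]
  have hB : ∀ i, (B₀.reindex e) i =
      KaehlerDifferential.D k M (Fin.append (fun i => algebraMap K M (z i)) (fun _ : Fin 1 => s) i) := by
    intro i
    rw [Basis.reindex_apply, hB₀]
    refine Fin.addCases (fun i => ?_) (fun j => ?_) i
    · rw [he1, Fin.append_left]
      rfl
    · rw [he2, Fin.append_right]
      rfl
  have hD : ∀ f : K, KaehlerDifferential.D k M (algebraMap K M f) =
      ∑ i, algebraMap K M (b.repr (KaehlerDifferential.D k K f) i) •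
        (B₀.reindex e) (Fin.castAdd 1 i) := by
    intro f
    have h1 : KaehlerDifferential.D k M (algebraMap K M f) =
        KaehlerDifferential.map k k K M (KaehlerDifferential.D k K f) :=
      (KaehlerDifferential.map_D k k K M f).symm
    rw [h1]
    conv_lhs => rw [← b.sum_repr (KaehlerDifferential.D k K f)]
    rw [map_sum]
    refine Finset.sum_congr rfl fun i _ => ?_
    rw [map_smul, hb, KaehlerDifferential.map_D, hB, Fin.append_left, algebraMap_smul]
  refine ⟨B₀.reindex e, hB, fun f i => ?_, fun f j => ?_⟩
  · rw [hD]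
    simp only [map_sum, map_smul, Basis.repr_self, Finsupp.finsetSum_apply, Finsupp.smul_apply,
      smul_eq_mul, Finsupp.single_apply, mul_ite, mul_one, mul_zero]
    rw [Finset.sum_eq_single i]
    · simp
    · intro j _ hj
      rw [if_neg]
      intro h
      exact hj (Fin.castAdd_injective d 1 h)
    · simp
  · rw [hD]
    simp only [map_sum, map_smul, Basis.repr_self, Finsupp.finsetSum_apply, Finsupp.smul_apply,
      smul_eq_mul, Finsupp.single_apply, mul_ite, mul_one, mul_zero]
    refine Finset.sum_eq_zero fun i _ => ?_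
    rw [if_neg]
    intro h
    have := congrArg Fin.val h
    simp at this
    have := i.2
    omega


omit [CharZero k] in
/-- The coefficient of `ds` is the value of the derivation. -/
private theorem lgi_repr {s : M} (D : Derivation K M M) (hD : D s = 1) {z : Fin d → K}
    {B : Basis (Fin (d + 1)) M Ω[M⁄k]} (hB : ∀ i, B i = KaehlerDifferential.D k M
      (Fin.append (fun i => algebraMap K M (z i)) (fun _ : Fin 1 => s) i)) (g : M) :
    B.repr (KaehlerDifferential.D k M g) (Fin.natAdd d 0) = D g := by
  let δ : Derivation k M M := D.restrictScalars k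
  have hδ : ∀ x, δ x = D x := fun _ => rfl
  have h1 : B.coord (Fin.natAdd d 0) = δ.liftKaehlerDifferential := by
    refine B.ext fun i => ?_
    rw [B.coord_apply, B.repr_self, hB, Derivation.liftKaehlerDifferential_comp_D, hδ,
      Finsupp.single_apply]
    induction i using Fin.addCases with
    | left i =>
      rw [Fin.append_left, D.map_algebraMap, if_neg (castAdd_ne_natAdd i 0)]
    | right l =>
      have hl : l = 0 := Subsingleton.elim _ _
      subst hl
      rw [Fin.append_right, hD, if_pos rfl]
  have h2 := congrArg (fun l : Ω[M⁄k] →ₗ[M] M => l (KaehlerDifferential.D k M g)) h1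
  simp only [B.coord_apply, Derivation.liftKaehlerDifferential_comp_D, hδ] at h2
  exact h2

omit [CharZero k] in
private theorem lgi_om {s : M} (D : Derivation K M M) (hD : D s = 1) {z : Fin d → K}
    {B : Basis (Fin (d + 1)) M Ω[M⁄k]} (hB : ∀ i, B i = KaehlerDifferential.D k M
      (Fin.append (fun i => algebraMap K M (z i)) (fun _ : Fin 1 => s) i)) (g : M) :
    Om k z g = D g • Om k z s := by
  have h1 := dform_update _ B hB (Fin.natAdd d 0) g
  rw [lgi_repr D hD hB] at h1
  unfold Om
  rw [← h1]
  congr 1
  funext i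
  induction i using Fin.addCases with
  | left i =>
    rw [Function.update_of_ne (castAdd_ne_natAdd i 0), Fin.append_left, Fin.append_left]
  | right l =>
    have hl : l = 0 := Subsingleton.elim _ _
    subst hl
    rw [Function.update_self, Fin.append_right]

theorem exists_om_basis (hy : IsTranscendenceBasis k y) {s : M} (hs : Transcendental K s)
    (hs' : ∀ x : M, IsAlgebraic (IntermediateField.adjoin K {s}) x) :
    ∃ B : Basis (Fin (d + 1)) M Ω[M⁄k], ∀ i, B i = KaehlerDifferential.D k M
      (Fin.append (fun i => algebraMap K M (y i)) (fun _ : Fin 1 => s) i) := by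
  obtain ⟨b, hb⟩ := exists_kaehler_basis hy
  obtain ⟨B, hB, -, -⟩ := lgi_tower hy hs hs' y b hb
  exact ⟨B, hB⟩

theorem om_eq (hy : IsTranscendenceBasis k y) {s : M} (hs : Transcendental K s)
    (hs' : ∀ x : M, IsAlgebraic (IntermediateField.adjoin K {s}) x) (D : Derivation K M M)
    (hD : D s = 1) (g : M) : Om k y g = D g • Om k y s := by
  obtain ⟨B, hB⟩ := exists_om_basis hy hs hs'
  exact lgi_om D hD hB g

theorem log_ineq_gen (hy : IsTranscendenceBasis k y) {s : M} (hs : Transcendental K s)
    (hs' : ∀ x : M, IsAlgebraic (IntermediateField.adjoin K {s}) x) (D : Derivation K M M)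
    (hD : D s = 1) {v : DVal k M} {v₀ : DVal k K} {e : ℕ} (he : LiesOver v v₀ e) {a c : ℤ}
    (ha : v.IsOrd (Om k y s) a) (hc : v₀.IsOrd (dform k y) c) (g : M) :
    v.Ge ((v g - (a + 1 - e * (c + 1)) : ℤ) : ℚ) (D g) := by
  classical
  by_cases hDg : D g = 0
  · rw [hDg]
    exact DVal.Ge.zero
  have hg0 : g ≠ 0 := by
    rintro rfl
    exact hDg (map_zero D)
  obtain ⟨z', b', i₀, q, γ₀, hb', hz', hreg', hq, hzq, hγ₀, hγ₀c, heq⟩ := exists_coord_unif hy v₀ hc
  obtain ⟨B', hB', hB1', hB2'⟩ := lgi_tower hy hs hs' z' b' hb'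
  -- the form in the new coordinates
  have hom : Om k y s = algebraMap K M γ₀ • Om k z' s := by
    unfold Om
    rw [dform_append _ y z' b' B' hB' hB1' hB2']
    congr 2
    have h1 : (1 : K) • dform k y = (b'.det fun j => KaehlerDifferential.D k K (y j)) • dform k z' := by
      rw [dform_eq_det z' b' hb' y, one_smul]
    rw [one_smul, heq] at h1
    exact (smul_dform_inj z' b' hb' h1).symm
  -- a transcendence basis of `M`
  have hyL : IsTranscendenceBasis k (Fin.append (fun i => algebraMap K M (y i))
      (fun _ : Fin 1 => s)) := by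
    have h1 := hy.sumElim_comp (lgi_trb hs hs')
    let ε : Fin (d + 1) ≃ Fin 1 ⊕ Fin d := finSumFinEquiv.symm.trans (Equiv.sumComm _ _)
    have h2 := h1.comp_equiv ε
    have h3 : (Sum.elim (fun _ : Fin 1 => s) (algebraMap K M ∘ y)) ∘ ε =
        Fin.append (fun i => algebraMap K M (y i)) (fun _ : Fin 1 => s) := by
      funext i
      induction i using Fin.addCases with
      | left i => rw [Fin.append_left]; simp [ε]
      | right l => rw [Fin.append_right]; simp [ε]
    rw [← h3]
    exact h2
  obtain ⟨x, C, j₀, π, γ, hC, hx, hregx, hπ, hxπ, hγ, hγo, heqx⟩ := exists_coord_unif hyL v ha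
  have hπ0 : π ≠ 0 := v.ne_zero_of_pos (by omega)
  have hq0 : q ≠ 0 := v₀.ne_zero_of_pos (by omega)
  set w : Fin (d + 1) → M := Fin.append (fun i => algebraMap K M (z' i))
    (fun _ : Fin 1 => g) with hw
  have hwc : ∀ i, w (Fin.castAdd 1 i) = algebraMap K M (z' i) := by
    intro i
    rw [hw, Fin.append_left]
  have hwn : w (Fin.natAdd d 0) = g := by rw [hw, Fin.append_right]
  have hdet := dform_eq_det x C hC w
  set T := C.toMatrix (fun j => KaehlerDifferential.D k M (w j)) with hT
  rw [C.det_apply, ← hT] at hdet
  have hOm : Om k z' g = D g • Om k z' s := lgi_om D hD hB' g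
  -- the relation
  have hrel : D g * γ = algebraMap K M γ₀ * T.det := by
    apply smul_dform_inj x C hC
    rw [← smul_smul, ← smul_smul, ← hdet, ← heqx, hom, smul_comm, ← hOm]
    rfl
  -- the entries
  have hentry : ∀ y : M, y ≠ 0 → ∀ i, v.Ge ((if i = j₀ then (-1 : ℚ) else 0) + v y)
      (C.repr (KaehlerDifferential.D k M y) i) := by
    intro y hy0 i
    obtain ⟨c, hc, h1⟩ := repr_split (v₀ := v) hπ hxπ hC hregx hy0 i
    rw [h1]
    have h2 : v.Ge (v y : ℚ) (π ^ (v y) * c) := by
      have h3 : v.Ge (v y : ℚ) (π ^ (v y)) := by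
        right
        rw [v.map_zpow, hπ, mul_one]
      have h4 : v.Ge 0 c := ge_of_mem v hc
      simpa using h3.mul h4
    have hint : ∀ n : ℤ, v.Ge 0 (n : M) := by
      intro n
      have h : (n : M) ∈ v.ring := by
        have := v.ring.algebraMap_mem (n : k)
        rwa [map_intCast] at this
      exact (v.mem_ring_iff_ge).1 h
    split_ifs with hi
    · apply DVal.Ge.add
      · exact h2.mono (by linarith)
      · have h5 : v.Ge (-1 : ℚ) (π⁻¹) := by
          right
          rw [v.map_inv, hπ]
          norm_num
        have h6 := ((hint (v y)).mul h5).mul (DVal.ge_self (v := v) y)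
        refine h6.mono ?_
        linarith
    · rw [add_zero]
      exact h2.mono (by linarith)
  let cc : Fin (d + 1) → ℚ := Fin.append (fun i : Fin d => if i = i₀ then (e : ℚ) else 0)
    (fun _ : Fin 1 => (v g : ℚ))
  have hTge : v.Ge (∑ i, (if i = j₀ then (-1 : ℚ) else 0) + ∑ j, cc j) T.det := by
    apply det_ge
    intro i j
    rw [hT, Basis.toMatrix_apply]
    induction j using Fin.addCases with
    | left l =>
      simp only [cc, Fin.append_left]
      rw [hwc]
      split_ifs with h1 h2 h2
      · have h3 := hentry (algebraMap K M (z' l)) (by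
          rw [h2, hzq]; simpa using hq0) i
        rw [if_pos h1, he.2, h2, hzq, hq, mul_one, Int.cast_natCast] at h3
        rw [h2, hzq]
        exact h3
      · by_cases hz0 : z' l = 0
        · rw [hz0]
          left
          simp
        · have h3 := hentry (algebraMap K M (z' l)) (by simpa using hz0) i
          rw [if_pos h1] at h3
          refine h3.mono ?_
          have h4 : (0 : ℤ) ≤ v (algebraMap K M (z' l)) := by
            rw [he.2]
            exact mul_nonneg (by positivity) (hz' l)
          have h5 : (0 : ℚ) ≤ v (algebraMap K M (z' l)) := by exact_mod_cast h4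
          linarith
      · have h3 := hentry (algebraMap K M (z' l)) (by
          rw [h2, hzq]; simpa using hq0) i
        rw [if_neg h1, he.2, h2, hzq, hq, mul_one, Int.cast_natCast] at h3
        rw [h2, hzq]
        exact h3
      · have h5 : (0 : ℤ) ≤ v (algebraMap K M (z' l)) := by
          rw [he.2]
          exact mul_nonneg (by positivity) (hz' l)
        have h6 := hregx _ h5 i
        rw [add_zero]
        exact ge_of_mem v h6
    | right l =>
      have hl : l = 0 := Subsingleton.elim _ _
      subst hl
      simp only [cc, Fin.append_right]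
      rw [hwn]
      exact hentry g hg0 i
  have hsum1 : ∑ i : Fin (d + 1), (if i = j₀ then (-1 : ℚ) else 0) = -1 := by
    rw [Finset.sum_ite_eq' Finset.univ j₀]
    simp
  have hsum2 : ∑ j, cc j = e + v g := by
    rw [Fin.sum_univ_add]
    simp only [cc, Fin.append_left, Fin.append_right]
    rw [Finset.sum_ite_eq' Finset.univ i₀]
    simp
  rw [hsum1, hsum2] at hTge
  have hTne : T.det ≠ 0 := by
    intro h0
    rw [h0, mul_zero] at hrel
    exact mul_ne_zero hDg hγ hrel
  rw [DVal.ge_iff hTne] at hTge
  have hgL : algebraMap K M γ₀ ≠ 0 := by simpa using hγ₀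
  have hval := congrArg v hrel
  rw [v.map_mul hDg hγ, v.map_mul hgL hTne, hγo, he.2, hγ₀c] at hval
  have h7 : (-1 : ℤ) + (e + v g) ≤ v T.det := by exact_mod_cast hTge
  rw [DVal.ge_iff hDg]
  have h8 : v g - (a + 1 - e * (c + 1)) ≤ v (D g) := by linarith
  exact_mod_cast h8

end Pool.Agent.Helper63.PB
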