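import Pool.Agent.Helper63.PB.Approx

set_option autoImplicit false

/-!
# PB-08 Unram: valuations trivial on `K` are unramified in `L ⊗ K'`

`trace_pos`. `E' / E` finite, characteristic zero, `v` a discrete valuation of `E`, `x ∈ E'` with
`w x ≥ 1` (or `x = 0`) for all `w` over `v`: then `v (trace x) ≥ 1` (or the trace is zero).
PROOF. Let `M / E` be a finite Galois extension containing `E'` (for instance the normal closure of
`E' / E` in `AlgebraicClosure E'`: `IntermediateField.normalClosure`, `normalClosure.isGalois`...; with
its `k`-algebra structure), and `W` a discrete valuation of `M` over `v` (`PQ.exists_over`). For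
`g ∈ Gal(M / E)` the function `W ∘ g` restricted to `E'` is a positive multiple of a discrete
valuation of `E'` (`DVal.comap`, `exists_under`) which lies over `v` (`under_factor`: `W ∘ g = W` on `E`).
So `W (g x) ≥ 1` for all `g` (or `x = 0`). Now `algebraMap (trace_{M/E} x) = ∑_g g x`
(`trace_eq_sum_automorphisms`), and `trace_{M/E} x = [M : E'] trace_{E'/E} x` (`Algebra.trace_trace`,
`Algebra.trace_algebraMap`), where `[M : E']` is a nonzero constant. So `W (trace x) ≥ 1` or the trace is
zero, and `W` on `E` is `ε v` with `ε ≥ 1`, so `v (trace x) > 0`.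

`unram`. `L' = L ⊗ K'` (`Algebra.IsPushout K K' L L'`), `K' / K` finite, `P` a discrete valuation of `L`
trivial on `K`, `w` over `P` with ramification `ε`: then `ε = 1`.
PROOF. Let `e_i` be a basis of `K' / K` and `f_i ∈ K'` the dual basis for the trace form of `K' / K`. By the
pushout property the `e_i` are a basis of `L' / L` (`Algebra.IsPushout.basis`-like:
`IsBaseChange`, `Algebra.TensorProduct.basis`, `Module.Basis.baseChange`...) and
`trace_{L'/L} (z) = algebraMap (trace_{K'/K} z)` for `z ∈ K'` (`Algebra.trace_baseChange`), so the `f_i` are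
dual to the `e_i` also for `L' / L`: `x = ∑ trace_{L'/L} (x e_i) f_i` for all `x ∈ L'`.
All `w'` over `P` are trivial on `K'`: for `z ∈ K'`, `z ≠ 0` algebraic over `K`, on which `w'` is trivial
(`Helper60.MA.dval_algebraic` over the field `K`, or: `w' z < 0` is impossible since `z` is a root
of a monic polynomial with coefficients of value `≥ 0`, and the same for `z⁻¹`).
By `exists_one` there is `x` with `w x = 1`, `w' x ≥ 1` for all other `w'` over `P`. Then `x e_i` is positive
at all `w'`, so `P (trace (x e_i)) ≥ 1` or it is `0`, and `w x ≥ min_i w (trace (x e_i) f_i) ≥ ε`. So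
`ε ≤ 1`.
-/

namespace Pool.Agent.Helper63.PB

open Pool.Agent.Helper92.Weak

private theorem trace_pos_aux {k E E' M : Type*} [Field k] [Field E] [Field E'] [Field M]
    [Algebra k E] [Algebra k E'] [Algebra k M] [Algebra E E'] [Algebra E M] [Algebra E' M]
    [IsScalarTower k E E'] [IsScalarTower k E M] [IsScalarTower k E' M] [IsScalarTower E E' M]
    [FiniteDimensional E E'] [FiniteDimensional E M] [FiniteDimensional E' M] [IsGalois E M]
    [CharZero k] (v : DVal k E) {x : E'} (hx : x ≠ 0)
    (h : ∀ (w : DVal k E') (ε : ℕ), LiesOver w v ε → w.Ge 1 x) :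
    v.Ge 1 (Algebra.trace E E' x) := by
  classical
  obtain ⟨W, n, hW⟩ := Helper47.PQ.exists_over M v
  have key : ∀ g : M ≃ₐ[E] M, W.Ge 1 (g (algebraMap E' M x)) := by
    intro g
    obtain ⟨w, ε, hw⟩ := exists_under (E := E') (W.comap (g.restrictScalars k))
    have hW' : LiesOver (W.comap (g.restrictScalars k)) v n := by
      refine ⟨hW.1, fun a => ?_⟩
      change W (g (algebraMap E M a)) = _
      rw [g.commutes]
      exact hW.2 a
    obtain ⟨e, he, -⟩ := under_factor hw hW'
    rcases h w e he with h1 | h1
    · exact absurd h1 hx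
    · right
      have h2 := hw.2 x
      change W (g (algebraMap E' M x)) = _ at h2
      rw [h2]
      have h3 : (1 : ℤ) ≤ w x := by exact_mod_cast h1
      have h4 : (1 : ℤ) ≤ ε := by exact_mod_cast hw.1
      have h5 : (1 : ℤ) ≤ ε * w x := by nlinarith
      exact_mod_cast h5
  have htr : algebraMap E M (Algebra.trace E M (algebraMap E' M x)) =
      ∑ g : M ≃ₐ[E] M, g (algebraMap E' M x) := trace_eq_sum_automorphisms _
  have htt : Algebra.trace E M (algebraMap E' M x) =
      algebraMap k E (Module.finrank E' M : k) * Algebra.trace E E' x := by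
    rw [← Algebra.trace_trace (S := E'), Algebra.trace_algebraMap, map_nsmul, nsmul_eq_mul,
      map_natCast]
  have hsum : W.Ge 1 (algebraMap E M (Algebra.trace E M (algebraMap E' M x))) := by
    rw [htr]
    exact DVal.Ge.sum fun g _ => key g
  by_cases ht : Algebra.trace E E' x = 0
  · exact Or.inl ht
  have hm : (Module.finrank E' M : k) ≠ 0 := by
    have := Module.finrank_pos (R := E') (M := M)
    exact_mod_cast this.ne'
  have hm' : algebraMap k E (Module.finrank E' M : k) ≠ 0 :=
    (map_ne_zero (algebraMap k E)).2 hm
  have h0 : algebraMap E M (Algebra.trace E M (algebraMap E' M x)) ≠ 0 := by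
    rw [htt]
    exact (map_ne_zero (algebraMap E M)).2 (mul_ne_zero hm' ht)
  rw [DVal.ge_iff h0, hW.2, htt, v.map_mul hm' ht, v.map_const, zero_add] at hsum
  right
  have h1 : (1 : ℤ) ≤ n * v (Algebra.trace E E' x) := by exact_mod_cast hsum
  have h2 : (0 : ℤ) < n := by exact_mod_cast hW.1
  have h3 : (1 : ℤ) ≤ v (Algebra.trace E E' x) := by
    by_contra hlt
    push Not at hlt
    have : v (Algebra.trace E E' x) ≤ 0 := by omega
    nlinarith
  exact_mod_cast h3

theorem trace_pos {k E E' : Type*} [Field k] [Field E] [Field E'] [Algebra k E] [Algebra k E']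
    [Algebra E E'] [IsScalarTower k E E'] [FiniteDimensional E E'] [CharZero k] (v : DVal k E)
    {x : E'} (h : ∀ (w : DVal k E') (ε : ℕ), LiesOver w v ε → w.Ge 1 x) :
    v.Ge 1 (Algebra.trace E E' x) := by
  classical
  by_cases hx : x = 0
  · left
    rw [hx, map_zero]
  have hcE : CharZero E := charZero_of_injective_algebraMap (algebraMap k E).injective
  let M := IntermediateField.normalClosure E E' (AlgebraicClosure E')
  let _ : Algebra k M := ((algebraMap E M).comp (algebraMap k E)).toAlgebra
  have : IsScalarTower k E M := IsScalarTower.of_algebraMap_eq fun _ => rfl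
  have : IsScalarTower k E' M := IsScalarTower.of_algebraMap_eq fun c => by
    rw [IsScalarTower.algebraMap_apply k E E', ← IsScalarTower.algebraMap_apply E E' M]
    rfl
  have : FiniteDimensional E M := normalClosure.is_finiteDimensional E E' (AlgebraicClosure E')
  have : FiniteDimensional E' M := FiniteDimensional.right E E' M
  have : IsGalois E M := inferInstance
  exact trace_pos_aux (M := M) v hx h

theorem unram {k K L K' L' : Type*} [Field k] [Field K] [Field L] [Field K'] [Field L']
    [Algebra k K] [Algebra k L] [Algebra k K'] [Algebra k L'] [Algebra K L] [Algebra K K']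
    [Algebra K L'] [Algebra L L'] [Algebra K' L'] [IsScalarTower k K L] [IsScalarTower k K K']
    [IsScalarTower k K L'] [IsScalarTower k L L'] [IsScalarTower k K' L'] [IsScalarTower K L L']
    [IsScalarTower K K' L'] [FiniteDimensional K K'] [FiniteDimensional L L']
    [Algebra.IsPushout K K' L L'] [CharZero k] {P : DVal k L}
    (hP : ∀ x : K, P (algebraMap K L x) = 0) {w : DVal k L'} {ε : ℕ} (hw : LiesOver w P ε) :
    ε = 1 := by
  classical
  have hc : CharZero K := charZero_of_injective_algebraMap (algebraMap k K).injective
  have hpo : Algebra.IsPushout K L K' L' := Algebra.IsPushout.symm inferInstance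
  have ibc := hpo.out
  let b := Module.finBasis K K'
  let f := (Algebra.traceForm K K').dualBasis (traceForm_nondegenerate K K') b
  let B := ibc.basis b
  let F := ibc.basis f
  have hB : ∀ i, B i = algebraMap K' L' (b i) := fun i => ibc.basis_apply b i
  have hF : ∀ i, F i = algebraMap K' L' (f i) := fun i => ibc.basis_apply f i
  -- traces of elements of `K'`
  have htr : ∀ z : K', Algebra.trace L L' (algebraMap K' L' z) =
      algebraMap K L (Algebra.trace K K' z) := by
    intro z
    rw [Algebra.trace_eq_matrix_trace B, Algebra.trace_eq_matrix_trace b]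
    unfold Matrix.trace
    rw [map_sum]
    refine Finset.sum_congr rfl fun i _ => ?_
    rw [Matrix.diag_apply, Matrix.diag_apply, Algebra.leftMulMatrix_eq_repr_mul,
      Algebra.leftMulMatrix_eq_repr_mul, hB, ← map_mul]
    exact ibc.basis_repr_comp_apply b (z * b i) i
  -- values of elements of `K'`
  have hval : ∀ (w' : DVal k L') (ε' : ℕ), LiesOver w' P ε' → ∀ z : K',
      w' (algebraMap K' L' z) = 0 := by
    intro w' ε' hw' z
    have h1 : ∀ a : K, w' (algebraMap K L' a) = 0 := by
      intro a
      rw [IsScalarTower.algebraMap_apply K L L', hw'.2, hP, mul_zero]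
    have h2 : ∀ z : K', 0 ≤ w' (algebraMap K' L' z) := by
      intro z
      let u : DVal K L' := w'.over K h1
      have h3 : IsIntegral u.ring (algebraMap K' L' z) := by
        have h4 : IsIntegral K z := Algebra.IsIntegral.isIntegral z
        have h5 : IsIntegral K (algebraMap K' L' z) := h4.map (IsScalarTower.toAlgHom K K' L')
        exact h5.tower_top
      exact Helper47.PQ.mem_ring_of_isIntegral u h3
    have h3 := h2 z
    have h4 := h2 z⁻¹
    rw [map_inv₀, w'.map_inv] at h4
    omega
  obtain ⟨x, hx1, hx⟩ := exists_one hw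
  have hx0 : x ≠ 0 := w.ne_zero_of_pos (by rw [hx1]; exact one_ne_zero)
  have hb0 : ∀ i, algebraMap K' L' (b i) ≠ 0 := fun i =>
    (map_ne_zero (algebraMap K' L')).2 (b.ne_zero i)
  have hx2 : ∀ (w' : DVal k L') (ε' : ℕ), LiesOver w' P ε' → 1 ≤ w' x := by
    intro w' ε' hw'
    by_cases hww : w' = w
    · rw [hww, hx1]
    · exact hx w' ε' hw' hww
  have hpos : ∀ i, P.Ge 1 (Algebra.trace L L' (x * algebraMap K' L' (b i))) := by
    intro i
    apply trace_pos P
    intro w' ε' hw'
    right
    rw [w'.map_mul hx0 (hb0 i), hval w' ε' hw', add_zero]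
    exact_mod_cast hx2 w' ε' hw'
  -- expansion in the dual basis
  have hexp : x = ∑ i, algebraMap L L' (Algebra.trace L L' (x * algebraMap K' L' (b i))) *
      algebraMap K' L' (f i) := by
    have h1 : ∀ i, Algebra.trace L L' (x * algebraMap K' L' (b i)) = F.repr x i := by
      intro i
      conv_lhs => rw [← F.sum_repr x]
      rw [Finset.sum_mul, map_sum, Finset.sum_eq_single i]
      · rw [smul_mul_assoc, map_smul, hF, ← map_mul, htr, smul_eq_mul]
        have h2 : Algebra.trace K K' (f i * b i) = 1 := by
          have h3 := LinearMap.BilinForm.apply_dualBasis_left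
            (traceForm_nondegenerate K K') b i i
          rw [Algebra.traceForm_apply, if_pos rfl] at h3
          exact h3
        rw [h2, map_one, mul_one]
      · intro j _ hj
        rw [smul_mul_assoc, map_smul, hF, ← map_mul, htr, smul_eq_mul]
        have h2 : Algebra.trace K K' (f j * b i) = 0 := by
          have h3 := LinearMap.BilinForm.apply_dualBasis_left
            (traceForm_nondegenerate K K') b j i
          rw [Algebra.traceForm_apply, if_neg (Ne.symm hj)] at h3
          exact h3
        rw [h2, map_zero, mul_zero]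
      · intro hi
        exact absurd (Finset.mem_univ i) hi
    conv_lhs => rw [← F.sum_repr x]
    refine Finset.sum_congr rfl fun i _ => ?_
    rw [h1, hF, Algebra.smul_def]
  have hge : w.Ge (ε : ℚ) x := by
    rw [hexp]
    refine DVal.Ge.sum fun i _ => ?_
    have h1 : w.Ge (ε : ℚ) (algebraMap L L'
        (Algebra.trace L L' (x * algebraMap K' L' (b i)))) := by
      rcases hpos i with h2 | h2
      · left
        rw [h2, map_zero]
      · right
        rw [hw.2]
        have h3 : (1 : ℤ) ≤ P (Algebra.trace L L' (x * algebraMap K' L' (b i))) := by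
          exact_mod_cast h2
        have h4 : (ε : ℤ) ≤ ε * P (Algebra.trace L L' (x * algebraMap K' L' (b i))) := by
          have h5 : (0 : ℤ) ≤ ε := Int.natCast_nonneg ε
          nlinarith
        exact_mod_cast h4
    have h2 : w.Ge 0 (algebraMap K' L' (f i)) := by
      right
      rw [hval w ε hw]
      simp
    have h3 := h1.mul h2
    rwa [add_zero] at h3
  rw [DVal.ge_iff hx0, hx1] at hge
  have h1 : ε ≤ 1 := by exact_mod_cast hge
  have h2 := hw.1
  omega

end Pool.Agent.Helper63.PB
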