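import Pool.Agent.Helper63.PB.Defs
import Pool.Agent.Helper92.Weak.Loc
import Pool.Agent.Helper92.Weak.VarLem

set_option autoImplicit false
set_option linter.unusedSectionVars false

/-!
# PB-10 HorPrimes: valuations trivial on `K` are prime divisors of `X`

`X → Z` a morphism, `L` algebraic over `K(s)`. Every discrete valuation `v` of `L` over `k` which is
trivial on `K` is a prime divisor of `X`.

PROOF. Let `R ∈ X.localRings` be the centre (`ProjVar.exists_center`): `R` is dominated by `v.ring`. By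
`mor` there is `S ∈ Z.localRings` with `Above S R`. Every `a ∈ K`, `a ≠ 0`, is in `S`: `K` is the field
of fractions of `S` (`chart_isFrac`, `le_locAt`), so `a = b / c`, `b, c ∈ S`; `c ∈ R`, `v c = 0`,
so `c⁻¹ ∈ v.ring` and by `Dominates` `c⁻¹ ∈ R`, hence `c⁻¹ ∈ S` (`Above`); so `a ∈ S` and
`algebraMap a ∈ R`. So `K ⊆ R`.
`R = locAt (chart) p` (`mem_localRings`). `R ≠ v.ring` or `R = v.ring`; in the second case we are done
(`primeDivisors` = valuations whose ring is a local ring). Otherwise pick `x ∈ v.ring`, `x ∉ R`, so by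
`exists_dval_of_notMem` (chart noetherian, integrally closed: see the proof of `ProjVar.hartogs`) there
are a prime `q ≤ p` of the chart and `P : DVal k L` with `P.ring = locAt q`, `x ∉ P.ring`; here
`P ∈ X.primeDivisors`, and `P` is trivial on `K` as `K ⊆ R ⊆ P.ring` is a field.
CLAIM: `q = p`. Let `a ∈ p`, `a ∉ q`, so `P a = 0` (`a, a⁻¹ ∈ locAt q`). Let `f ∈ q`, `f ≠ 0`
(`q ≠ ⊥` since `P.ring ≠ L`); `P f > 0`, and `f` is transcendental over `K` (`P` is trivial on `K`; an
algebraic element has value `0`, `Helper60.MA.dval_algebraic`-like). `a` is algebraic over `K(f)`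
(transcendence degree 1: `L` is algebraic over `K(s)`, `f` transcendental, so `s` is algebraic over `K(f)`).
So there is a relation `∑_j c_j(f) a^j = 0` with `c_j ∈ K[T]` not all zero; dividing by a power of `T`
we may assume that some `c_j(0) ≠ 0`. Put `g(T) = ∑_j c_j(0) T^j ∈ K[T]`, nonzero; `g(a) ∈ f R`, so
`P (g(a)) > 0` and also `v (g(a)) > 0` (`f ∈ q ⊆ p`, so `v f > 0`; the cofactor is in `R ⊆ v.ring`). Write
`g = T^l g₁`, `g₁(0) ≠ 0`. As `v a > 0` (`a ∈ p`, `v.ring` dominates `R`), `v (g₁(a)) = 0`; so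
`g₁(a) ∈ R` is a unit of `R ⊆ P.ring`, `P (g₁(a)) = 0`, and `P (g(a)) = l P a = 0`, a contradiction.
So `q = p`, `P.ring = R ⊆ v.ring`, `P = v` by `DVal.eq_of_ring_le`: `v ∈ X.primeDivisors`
(and `x ∈ v.ring = P.ring`, contradiction, so in fact this case does not occur).
-/

namespace Pool.Agent.Helper63.PB

open Pool.Agent.Helper92.Weak

variable {k K L : Type*} [Field k] [Field K] [Field L] [Algebra k K] [Algebra k L] [Algebra K L]
  [IsScalarTower k K L]

section Aux

open Polynomial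

private theorem hrp_trdeg {s : L}
    (hs : ∀ x : L, IsAlgebraic (IntermediateField.adjoin K {s}) x) : Algebra.trdeg K L ≤ 1 := by
  open scoped IntermediateField.algebraAdjoinAdjoin in
  have h1 : Algebra.IsAlgebraic (Algebra.adjoin K ({s} : Set L)) L :=
    (IsFractionRing.comap_isAlgebraic_iff (A := Algebra.adjoin K ({s} : Set L))
      (K := IntermediateField.adjoin K ({s} : Set L)) (C := L)).2 ⟨hs⟩
  have h2 := Algebra.IsAlgebraic.trdeg_le_cardinalMk K ({s} : Set L)
  simpa using h2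

private theorem hrp_rel {s : L}
    (hs : ∀ x : L, IsAlgebraic (IntermediateField.adjoin K {s}) x) {f : L}
    (hf : Transcendental K f) (a : L) :
    ∃ G : K[X][X], G ≠ 0 ∧ G.eval₂ (aeval (R := K) f).toRingHom a = 0 := by
  have h1 : AlgebraicIndependent K (fun _ : Unit => f) := algebraicIndependent_unique_type_iff.2 hf
  have h2 := h1.isTranscendenceBasis_of_lift_trdeg_le_of_finite (by
    have := hrp_trdeg hs
    simpa using this)
  have h3 := h2.isAlgebraic
  rw [Set.range_const] at h3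
  obtain ⟨p, hp0, hp⟩ := h3.isAlgebraic a
  let φ : K[X] →+* Algebra.adjoin K ({f} : Set L) :=
    (aeval (R := K) (⟨f, Algebra.self_mem_adjoin_singleton K f⟩ :
      Algebra.adjoin K ({f} : Set L))).toRingHom
  have hφ : Function.Surjective φ := by
    rintro ⟨x, hx⟩
    have hx' := hx
    rw [Algebra.adjoin_singleton_eq_range_aeval] at hx'
    obtain ⟨g, hg⟩ := hx'
    refine ⟨g, ?_⟩
    apply Subtype.ext
    change ((Algebra.adjoin K ({f} : Set L)).val
      (aeval (R := K) (⟨f, Algebra.self_mem_adjoin_singleton K f⟩ :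
      Algebra.adjoin K ({f} : Set L)) g)) = x
    rw [← Polynomial.aeval_algHom_apply]
    exact hg
  obtain ⟨G, hG⟩ := Polynomial.map_surjective φ hφ p
  refine ⟨G, ?_, ?_⟩
  · rintro rfl
    apply hp0
    rw [← hG, Polynomial.map_zero]
  · rw [← hG, aeval_def, Polynomial.eval₂_map] at hp
    have h4 : (algebraMap (Algebra.adjoin K ({f} : Set L)) L).comp φ =
        (aeval (R := K) f).toRingHom := by
      apply Polynomial.ringHom_ext
      · intro c
        change ((Algebra.adjoin K ({f} : Set L)).val (aeval (R := K)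
          (⟨f, Algebra.self_mem_adjoin_singleton K f⟩ : Algebra.adjoin K ({f} : Set L)) (C c))) =
          aeval (R := K) f (C c)
        rw [← Polynomial.aeval_algHom_apply]
        rfl
      · change ((Algebra.adjoin K ({f} : Set L)).val (aeval (R := K)
          (⟨f, Algebra.self_mem_adjoin_singleton K f⟩ : Algebra.adjoin K ({f} : Set L)) X)) =
          aeval (R := K) f X
        rw [← Polynomial.aeval_algHom_apply]
        rfl
    rwa [h4] at hp

omit [Algebra k K] [IsScalarTower k K L] in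
private theorem hrp_aeval_mem {R : Subalgebra k L} (hK : ∀ c : K, algebraMap K L c ∈ R) {a : L}
    (ha : a ∈ R) (g : K[X]) : aeval a g ∈ R := by
  rw [Polynomial.aeval_eq_sum_range]
  refine R.sum_mem fun i _ => ?_
  rw [Algebra.smul_def]
  exact R.mul_mem (hK _) (R.pow_mem ha i)

omit [Algebra k K] [IsScalarTower k K L] in
private theorem hrp_val {v : DVal k L} (hv : ∀ c : K, v (algebraMap K L c) = 0) {a : L}
    (ha : 0 < v a) {g : K[X]} (hg : g.coeff 0 ≠ 0) : aeval a g ≠ 0 ∧ v (aeval a g) = 0 := by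
  have hKv : ∀ c : K, algebraMap K L c ∈ v.ring := fun c => by rw [DVal.mem_ring, hv]
  have hav : a ∈ v.ring := by rw [DVal.mem_ring]; exact ha.le
  have h1 : aeval a g = algebraMap K L (g.coeff 0) + aeval a g.divX * a := by
    conv_lhs => rw [← Polynomial.divX_mul_X_add g]
    rw [_root_.map_add, _root_.map_mul, aeval_X, aeval_C]
    ring
  have h2 : algebraMap K L (g.coeff 0) ≠ 0 := by
    rwa [Ne, map_eq_zero]
  have h3 : aeval a g.divX * a = 0 ∨ v (algebraMap K L (g.coeff 0)) < v (aeval a g.divX * a) := by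
    by_cases h0 : aeval a g.divX * a = 0
    · exact Or.inl h0
    · right
      rw [hv, v.map_mul (left_ne_zero_of_mul h0) (right_ne_zero_of_mul h0)]
      have h4 := hrp_aeval_mem hKv hav g.divX
      rw [DVal.mem_ring] at h4
      omega
  rw [h1]
  exact ⟨v.add_ne_zero_of_lt h2 h3, by rw [v.map_add_eq_of_lt h2 h3, hv]⟩

private theorem hrp_split (g : K[X]) (hg : g ≠ 0) :
    ∃ (l : ℕ) (g₁ : K[X]), g = X ^ l * g₁ ∧ g₁.coeff 0 ≠ 0 := by
  obtain ⟨c, hc, hcd⟩ := (FiniteMultiplicity.of_not_isUnit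
    (Polynomial.not_isUnit_X (R := K)) hg).exists_eq_pow_mul_and_not_dvd
  refine ⟨_, c, hc, ?_⟩
  rwa [Polynomial.X_dvd_iff] at hcd

omit [Algebra k K] [IsScalarTower k K L] in
private theorem hrp_transc {v : DVal k L} (hv : ∀ c : K, v (algebraMap K L c) = 0) {a : L}
    (ha : 0 < v a) : Transcendental K a := by
  intro h
  obtain ⟨g, hg0, hg⟩ := h
  obtain ⟨l, g₁, rfl, h1⟩ := hrp_split g hg0
  have ha0 : a ≠ 0 := v.ne_zero_of_pos ha.ne'
  rw [_root_.map_mul, map_pow, aeval_X] at hg
  exact mul_ne_zero (pow_ne_zero _ ha0) (hrp_val hv ha h1).1 hg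

omit [Algebra k K] [IsScalarTower k K L] in
private theorem hrp_key {s : L} (hs : ∀ x : L, IsAlgebraic (IntermediateField.adjoin K {s}) x)
    {P v : DVal k L} (hP : ∀ c : K, P (algebraMap K L c) = 0)
    (hv : ∀ c : K, v (algebraMap K L c) = 0) {R : Subalgebra k L}
    (hK : ∀ c : K, algebraMap K L c ∈ R) (hRP : R ≤ P.ring) (hRv : Dominates R v.ring)
    {f a : L} (hf : f ∈ R) (ha : a ∈ R) (hPf : 0 < P f) (hPa : P a = 0) (hva : 0 < v a) :
    False := by
  classical
  have hf0 : f ≠ 0 := P.ne_zero_of_pos hPf.ne'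
  have ha0 : a ≠ 0 := v.ne_zero_of_pos hva.ne'
  obtain ⟨G, hG0, hG⟩ := hrp_rel hs (hrp_transc hP hPf) a
  have hCX : ¬ IsUnit (C (X : K[X]) : K[X][X]) := by
    rw [Polynomial.isUnit_C]
    exact Polynomial.not_isUnit_X
  obtain ⟨G', hG', hd⟩ := (FiniteMultiplicity.of_not_isUnit hCX hG0).exists_eq_pow_mul_and_not_dvd
  set ψ : K[X] →+* L := (aeval (R := K) f).toRingHom with hψ
  have hψX : ψ X = f := by
    change aeval (R := K) f X = f
    rw [aeval_X]
  have hG'0 : G'.eval₂ ψ a = 0 := by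
    rw [hG', Polynomial.eval₂_mul, Polynomial.eval₂_pow, Polynomial.eval₂_C, hψX] at hG
    exact (mul_eq_zero.1 hG).resolve_left (pow_ne_zero _ hf0)
  set g : K[X] := G'.map (Polynomial.constantCoeff : K[X] →+* K) with hg
  have hg0 : g ≠ 0 := by
    intro h
    apply hd
    rw [Polynomial.C_dvd_iff_dvd_coeff]
    intro i
    rw [Polynomial.X_dvd_iff]
    have h1 : g.coeff i = 0 := by rw [h, Polynomial.coeff_zero]
    rw [hg, Polynomial.coeff_map] at h1
    exact h1
  obtain ⟨H, hH⟩ : (C (X : K[X]) : K[X][X]) ∣ G' - g.map (C : K →+* K[X]) := by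
    rw [Polynomial.C_dvd_iff_dvd_coeff]
    intro i
    rw [Polynomial.X_dvd_iff, Polynomial.coeff_sub, Polynomial.coeff_map, hg, Polynomial.coeff_map,
      Polynomial.coeff_sub, Polynomial.coeff_C_zero]
    change _ - (G'.coeff i).coeff 0 = 0
    exact sub_self _
  have hGe : G' = g.map (C : K →+* K[X]) + C X * H := by
    rw [← hH]; ring
  have h1 : aeval a g + f * H.eval₂ ψ a = 0 := by
    rw [hGe, Polynomial.eval₂_add, Polynomial.eval₂_mul, Polynomial.eval₂_C, hψX,
      Polynomial.eval₂_map] at hG'0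
    have h2 : ψ.comp (C : K →+* K[X]) = algebraMap K L := by
      ext c
      change aeval (R := K) f (C c) = algebraMap K L c
      rw [aeval_C]
    rw [h2] at hG'0
    exact hG'0
  have hHR : H.eval₂ ψ a ∈ R := by
    rw [Polynomial.eval₂_eq_sum_range]
    refine R.sum_mem fun i _ => R.mul_mem ?_ (R.pow_mem ha i)
    exact hrp_aeval_mem hK hf _
  obtain ⟨l, g₁, hgg, hg₁⟩ := hrp_split g hg0
  obtain ⟨h2, h3⟩ := hrp_val hv hva hg₁
  have h4 : aeval a g₁ ∈ R := hrp_aeval_mem hK ha g₁
  have h5 : (aeval a g₁)⁻¹ ∈ R := hRv.2 _ h4 (by rw [DVal.mem_ring, DVal.map_inv, h3, neg_zero])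
  have h6 : P (aeval a g₁) = 0 := by
    have h7 := hRP h4
    have h8 := hRP h5
    rw [DVal.mem_ring] at h7 h8
    rw [DVal.map_inv] at h8
    omega
  have h9 : aeval a g = a ^ l * aeval a g₁ := by rw [hgg, _root_.map_mul, map_pow, aeval_X]
  have h10 : P (aeval a g) = 0 := by
    rw [h9, P.map_mul (pow_ne_zero _ ha0) h2, P.map_pow, hPa, h6]
    simp
  have h11 : aeval a g ≠ 0 := by
    rw [h9]
    exact mul_ne_zero (pow_ne_zero _ ha0) h2
  have h12 : f * H.eval₂ ψ a = -aeval a g := by linear_combination h1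
  have h13 : H.eval₂ ψ a ≠ 0 := by
    intro h
    rw [h, mul_zero] at h12
    exact h11 (neg_eq_zero.1 h12.symm)
  have h14 : P (f * H.eval₂ ψ a) = 0 := by rw [h12, P.map_neg, h10]
  rw [P.map_mul hf0 h13] at h14
  have h15 := hRP hHR
  rw [DVal.mem_ring] at h15
  omega

end Aux

theorem hor_mem {X : ProjVar k L} {Z : ProjVar k K} (hmor : IsMorphism X Z) {s : L}
    (hs : ∀ x : L, IsAlgebraic (IntermediateField.adjoin K {s}) x) {v : DVal k L}
    (hv : ∀ x : K, v (algebraMap K L x) = 0) : v ∈ X.primeDivisors := by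
  classical
  obtain ⟨R, hR, hRv⟩ := X.exists_center v
  obtain ⟨S, hS, hab⟩ := hmor R hR
  have hK : ∀ c : K, algebraMap K L c ∈ R := by
    intro a
    obtain ⟨j, q', hq', rfl⟩ := Z.mem_localRings.1 hS
    obtain ⟨b, hb, c, hc, hc0, h⟩ := ((Z.chart_isFrac j).mono (le_locAt q')) a
    have h1 : (algebraMap K L c)⁻¹ ∈ R := hRv.2 _ (hab.1 c hc) (by
      rw [DVal.mem_ring, DVal.map_inv, hv, neg_zero])
    rw [h, map_div₀, div_eq_mul_inv]
    exact R.mul_mem (hab.1 b hb) h1
  obtain ⟨i, p, hp, rfl⟩ := X.mem_localRings.1 hR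
  by_contra hcon
  have hne : ∃ x ∈ v.ring, x ∉ locAt (chart k X.x i) p := by
    by_contra h
    push Not at h
    apply hcon
    change v.ring ∈ X.localRings
    have h1 : v.ring = locAt (chart k X.x i) p := le_antisymm h hRv.1
    rw [h1]
    exact hR
  obtain ⟨x, hxv, hxR⟩ := hne
  obtain ⟨P, q, hq, hqp, hPq, hxP⟩ := exists_dval_of_notMem (X.chart_isFrac i) p hxR
  have hRP : locAt (chart k X.x i) p ≤ P.ring := by
    rw [hPq]
    exact locAt_mono hqp
  have hPK : ∀ c : K, P (algebraMap K L c) = 0 := by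
    intro c
    have h1 := hRP (hK c)
    have h2 := hRP (hK c⁻¹)
    rw [DVal.mem_ring] at h1 h2
    rw [map_inv₀, DVal.map_inv] at h2
    omega
  obtain ⟨π, hπ0, hπ⟩ := P.exists_uniformizer
  have hπP : π ∈ P.ring := by rw [DVal.mem_ring, hπ]; norm_num
  rw [hPq] at hπP
  obtain ⟨f, b, hb, hfb⟩ := hπP
  have hunit : ∀ b : chart k X.x i, b ∉ q → P (b : L) = 0 := by
    intro b hb
    have h1 : (b : L) ∈ P.ring := hRP (le_locAt p b.2)
    have h2 : (b : L)⁻¹ ∈ P.ring := by
      rw [hPq]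
      exact inv_mem_locAt hb
    rw [DVal.mem_ring] at h1 h2
    rw [DVal.map_inv] at h2
    omega
  have hPf : 0 < P (f : L) := by
    rw [← hfb, P.map_mul hπ0 (coe_ne_zero_of_notMem hb), hπ, hunit b hb]
    norm_num
  have hpq : p ≤ q := by
    intro a ha
    by_contra haq
    have ha0 : a ≠ 0 := by
      rintro rfl
      exact haq q.zero_mem
    have ha1 : 0 < v (a : L) := by
      have h1 := (mem_iff_inv_notMem ha0).1 ha
      have h2 : (a : L)⁻¹ ∉ v.ring := fun h => h1 (hRv.2 _ (le_locAt p a.2) h)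
      rw [DVal.mem_ring, DVal.map_inv] at h2
      omega
    exact hrp_key hs hPK hv hK hRP hRv (le_locAt p f.2) (le_locAt p a.2) hPf (hunit a haq) ha1
  have hqp' : q = p := le_antisymm hqp hpq
  subst hqp'
  have hPv : P = v := DVal.eq_of_ring_le (by rw [hPq]; exact hRv.1)
  rw [hPv] at hxP
  exact hxP hxv

end Pool.Agent.Helper63.PB
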