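import Pool.Agent.Helper92.Weak.Final
import Pool.Agent.Helper50.Forms.Basic

set_option autoImplicit false

/-!
# PB-38 Canonical: canonical divisors exist

PROOF. `y : Fin d → K` a transcendence basis (`exists_basis_of_trdeg hd`), `b` the basis `dy_i` of `Ω[K⁄k]`
(`Forms.exists_kaehler_basis`), `ω = wedge k y`. For `z : Fin d → K` let `c z` be the determinant of the
coordinates of `dz_1, ..., dz_d`, so `wedge k z = c z • wedge k y` (`wedge_eq_det`; `c` is the value of the
alternating map `b.det` at `D z_1, ..., D z_d`).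
Let `Q` be a prime divisor of `Z`, `v` its valuation; `v.ring` is the localisation of the chart
`R = k[g_0, ..., g_n]`, `g_l = x_l / x_i`, at a prime ideal (`localRings`, `IsLocalizationOf`).
(1) For `z ∈ v.ring`: `dz = ∑_l u_l dg_l` with `u_l ∈ v.ring`. The `z ∈ v.ring` with this property form a
subalgebra containing the `g_l` (Leibniz rule), hence contain the chart; for `z = a / b`, `a, b` in the
chart, `b⁻¹ ∈ v.ring`, `dz = b⁻¹ da - a b⁻² db`.
(2) So for `z_1, ..., z_d ∈ v.ring`, by multilinearity (`MultilinearMap.map_sum`),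
`c z = ∑_J (∏_j u_{j, J j}) c (g ∘ J)`, the sum over `J : Fin d → Fin (n + 1)`. Let `m` be the minimum of
`v (c (g ∘ J))` over the finite nonempty set of `J` with `c (g ∘ J) ≠ 0` (nonempty as `c y' = ± unit... ≠ 0`
for `y'_j = y_j` or `y_j⁻¹`, whichever is in `v.ring`; or because the `g_l` generate `K`). Then
`v.Ge m (c z)`, and if `ω = f • wedge k z` with `f ≠ 0` then `1 = f c z` (`smul_wedge_eq_iff`), so
`v f = - v (c z) ≤ -m`; and `-m` is attained for `z = g ∘ J₀`, `f = (c (g ∘ J₀))⁻¹`. So `v.HasOrd ω (-m)`.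
(3) For `Q` in the chart `i` with `Q (c (g ∘ J)) = 0` for all the finitely many `J` with `c (g ∘ J) ≠ 0` the
order is `0`. So the order is nonzero only for `Q` in the union over the finitely many charts `i` and the `J`
of the finite sets `{Q | Q (c (g ∘ J)) ≠ 0}` (`ProjVar.finite_support` or `finite_prin`).
-/

namespace Pool.Agent.Helper63.PB

open Pool.Agent.Helper92.Weak
open scoped KaehlerDifferential
open Module

section

variable {k K : Type*} [Field k] [Field K] [Algebra k K] {d : ℕ}

/-- (1): differentials of the elements of the local ring. -/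
theorem exists_diff (Z : ProjVar k K) (v : DVal k K) (i : Fin (Z.n + 1))
    (h : IsLocalizationOf (chart k Z.x i) v.ring) {z : K} (hz : z ∈ v.ring) :
    ∃ u : Fin (Z.n + 1) → K, (∀ l, u l ∈ v.ring) ∧
      KaehlerDifferential.D k K z = ∑ l, u l • KaehlerDifferential.D k K (Z.x l / Z.x i) := by
  classical
  obtain ⟨p, hp, hR⟩ := h
  have hle : ∀ a : chart k Z.x i, (a : K) ∈ v.ring := by
    intro a
    rw [hR]
    exact ⟨a, 1, fun h1 => hp.ne_top ((Ideal.eq_top_iff_one p).2 h1), by simp⟩
  have key : ∀ a : K, a ∈ chart k Z.x i → ∃ u : Fin (Z.n + 1) → K, (∀ l, u l ∈ v.ring) ∧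
      KaehlerDifferential.D k K a = ∑ l, u l • KaehlerDifferential.D k K (Z.x l / Z.x i) := by
    intro a ha
    unfold chart at ha
    induction ha using Algebra.adjoin_induction with
    | mem x hx =>
      obtain ⟨l, rfl⟩ := hx
      refine ⟨fun l' => if l' = l then 1 else 0, fun l' => ?_, ?_⟩
      · change (if l' = l then (1 : K) else 0) ∈ v.ring
        split_ifs
        · exact v.ring.one_mem
        · exact v.ring.zero_mem
      · simp only [ite_smul, one_smul, zero_smul, Finset.sum_ite_eq', Finset.mem_univ, if_true]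
    | algebraMap r =>
      refine ⟨fun _ => 0, fun _ => v.ring.zero_mem, ?_⟩
      rw [Derivation.map_algebraMap]
      simp
    | add x y hx hy ihx ihy =>
      obtain ⟨u, hu, hu'⟩ := ihx
      obtain ⟨w, hw, hw'⟩ := ihy
      refine ⟨fun l => u l + w l, fun l => v.ring.add_mem (hu l) (hw l), ?_⟩
      rw [map_add, hu', hw', ← Finset.sum_add_distrib]
      exact Finset.sum_congr rfl fun l _ => (add_smul _ _ _).symm
    | mul x y hx hy ihx ihy =>
      obtain ⟨u, hu, hu'⟩ := ihx
      obtain ⟨w, hw, hw'⟩ := ihy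
      have hx' : x ∈ v.ring := hle ⟨x, hx⟩
      have hy' : y ∈ v.ring := hle ⟨y, hy⟩
      refine ⟨fun l => x * w l + y * u l, fun l => v.ring.add_mem (v.ring.mul_mem hx' (hw l))
        (v.ring.mul_mem hy' (hu l)), ?_⟩
      rw [Derivation.leibniz, hu', hw', Finset.smul_sum, Finset.smul_sum,
        ← Finset.sum_add_distrib]
      refine Finset.sum_congr rfl fun l _ => ?_
      rw [add_smul, mul_smul, mul_smul]
  obtain ⟨a, b, hb, hab⟩ := (hR z).1 hz
  have hb0 : (b : K) ≠ 0 := by
    intro h0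
    apply hb
    have : b = 0 := Subtype.ext h0
    rw [this]
    exact p.zero_mem
  have hbinv : (b : K)⁻¹ ∈ v.ring := by
    rw [hR]
    exact ⟨1, b, hb, by simp [inv_mul_cancel₀ hb0]⟩
  obtain ⟨u, hu, hu'⟩ := key a a.2
  obtain ⟨w, hw, hw'⟩ := key b b.2
  refine ⟨fun l => (b : K)⁻¹ * (u l - z * w l), fun l => v.ring.mul_mem hbinv
    (v.ring.sub_mem (hu l) (v.ring.mul_mem hz (hw l))), ?_⟩
  have h1 : KaehlerDifferential.D k K (a : K) =
      z • KaehlerDifferential.D k K (b : K) + (b : K) • KaehlerDifferential.D k K z := by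
    rw [← hab, Derivation.leibniz]
  have h2 : KaehlerDifferential.D k K z = (b : K)⁻¹ • (KaehlerDifferential.D k K (a : K) -
      z • KaehlerDifferential.D k K (b : K)) := by
    rw [h1, add_sub_cancel_left, smul_smul, inv_mul_cancel₀ hb0, one_smul]
  rw [h2, hu', hw', Finset.smul_sum, ← Finset.sum_sub_distrib, Finset.smul_sum]
  refine Finset.sum_congr rfl fun l _ => ?_
  rw [smul_smul, ← sub_smul, smul_smul]

/-- (2): the order of the form `dy` along a prime divisor. -/
theorem hasOrd_wedge (Z : ProjVar k K) (b : Basis (Fin d) K Ω[K⁄k]) (y : Fin d → K)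
    (hb : ∀ i, b i = KaehlerDifferential.D k K (y i)) (v : DVal k K)
    (hv : v.ring ∈ Z.localRings) :
    ∃ (i : Fin (Z.n + 1)) (J : Fin d → Fin (Z.n + 1)),
      v.HasOrd (wedge k y)
        (-(v (b.det fun j => KaehlerDifferential.D k K (Z.x (J j) / Z.x i)))) := by
  classical
  obtain ⟨i, hi⟩ := hv
  set c : (Fin d → K) → K := fun z => b.det fun j => KaehlerDifferential.D k K (z j) with hc
  set G : (Fin d → Fin (Z.n + 1)) → (Fin d → K) := fun J j => Z.x (J j) / Z.x i with hG
  have hg : ∀ l, Z.x l / Z.x i ∈ v.ring := by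
    intro l
    obtain ⟨p, hp, hR⟩ := hi
    rw [hR]
    exact ⟨⟨Z.x l / Z.x i, Algebra.subset_adjoin ⟨l, rfl⟩⟩, 1,
      fun h1 => hp.ne_top ((Ideal.eq_top_iff_one p).2 h1), by simp⟩
  -- the expansion
  have hexp : ∀ z : Fin d → K, (∀ j, 0 ≤ v (z j)) →
      ∃ u : Fin d → Fin (Z.n + 1) → K, (∀ j l, u j l ∈ v.ring) ∧
        c z = ∑ J : Fin d → Fin (Z.n + 1), (∏ j, u j (J j)) * c (G J) := by
    intro z hz
    have h1 : ∀ j, ∃ u : Fin (Z.n + 1) → K, (∀ l, u l ∈ v.ring) ∧
        KaehlerDifferential.D k K (z j) =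
          ∑ l, u l • KaehlerDifferential.D k K (Z.x l / Z.x i) :=
      fun j => exists_diff Z v i hi ((DVal.mem_ring v).2 (hz j))
    choose u hu hu' using h1
    refine ⟨u, hu, ?_⟩
    have h2 : (fun j => KaehlerDifferential.D k K (z j)) =
        fun j => ∑ l, u j l • KaehlerDifferential.D k K (Z.x l / Z.x i) := funext hu'
    rw [hc]
    change b.det.toMultilinearMap (fun j => KaehlerDifferential.D k K (z j)) = _
    rw [h2, MultilinearMap.map_sum]
    refine Finset.sum_congr rfl fun J _ => ?_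
    rw [MultilinearMap.map_smul_univ, smul_eq_mul]
    rfl
  -- a nonzero coefficient
  have hne : ∃ J, c (G J) ≠ 0 := by
    by_contra hcon
    push Not at hcon
    let z : Fin d → K := fun j => if 0 ≤ v (y j) then y j else (y j)⁻¹
    let s : Fin d → K := fun j => if 0 ≤ v (y j) then 1 else -((y j)⁻¹ ^ 2)
    have hy0 : ∀ j, ¬ 0 ≤ v (y j) → y j ≠ 0 := by
      intro j hj h0
      rw [h0, v.map_zero] at hj
      exact hj le_rfl
    have hz : ∀ j, 0 ≤ v (z j) := by
      intro j
      by_cases hj : 0 ≤ v (y j)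
      · simp only [z, if_pos hj]
        exact hj
      · simp only [z, if_neg hj]
        rw [v.map_inv]
        omega
    have hs : ∀ j, KaehlerDifferential.D k K (z j) = s j • b j := by
      intro j
      rw [hb]
      by_cases hj : 0 ≤ v (y j)
      · simp only [z, s, if_pos hj, one_smul]
      · simp only [z, s, if_neg hj]
        rw [Derivation.leibniz_inv]
    have hs0 : ∀ j, s j ≠ 0 := by
      intro j
      by_cases hj : 0 ≤ v (y j)
      · simp only [s, if_pos hj]
        exact one_ne_zero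
      · simp only [s, if_neg hj]
        exact neg_ne_zero.2 (pow_ne_zero _ (inv_ne_zero (hy0 j hj)))
    have h1 : c z = ∏ j, s j := by
      have h2 : (fun j => KaehlerDifferential.D k K (z j)) = fun j => s j • b j := funext hs
      rw [hc]
      change b.det.toMultilinearMap (fun j => KaehlerDifferential.D k K (z j)) = _
      rw [h2, MultilinearMap.map_smul_univ]
      change (∏ j, s j) • b.det b = _
      rw [b.det_self, smul_eq_mul, mul_one]
    obtain ⟨u, -, hu⟩ := hexp z hz
    rw [h1] at hu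
    simp only [hcon, mul_zero, Finset.sum_const_zero] at hu
    exact Finset.prod_ne_zero_iff.2 (fun j _ => hs0 j) hu
  -- the minimum
  obtain ⟨J₀, hJ₀, hmin⟩ := Finset.exists_min_image
    (Finset.univ.filter fun J : Fin d → Fin (Z.n + 1) => c (G J) ≠ 0) (fun J => v (c (G J)))
    (by obtain ⟨J, hJ⟩ := hne; exact ⟨J, by simp [hJ]⟩)
  rw [Finset.mem_filter] at hJ₀
  have hw : ∀ z : Fin d → K, wedge k z = c z • wedge k y := fun z => wedge_eq_det b y hb z
  refine ⟨i, J₀, ⟨G J₀, (c (G J₀))⁻¹, fun j => ?_, inv_ne_zero hJ₀.2, ?_, ?_⟩, ?_⟩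
  · exact (DVal.mem_ring v).1 (hg (J₀ j))
  · rw [v.map_inv]
  · rw [hw (G J₀), smul_smul, inv_mul_cancel₀ hJ₀.2, one_smul]
  · rintro m ⟨z, f, hz, hf, rfl, he⟩
    have h1 : (1 : K) • wedge k y = (f * c z) • wedge k y := by
      rw [one_smul, mul_smul, ← hw z]
      exact he
    have h2 : 1 = f * c z := wedge_smul_inj b y hb h1
    have hcz : c z ≠ 0 := by
      intro h0
      rw [h0, mul_zero] at h2
      exact one_ne_zero h2
    have h3 : v f + v (c z) = 0 := by
      rw [← v.map_mul hf hcz, ← h2, v.map_one]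
    obtain ⟨u, hu, hcu⟩ := hexp z hz
    have h4 : v.Ge (v (c (G J₀))) (c z) := by
      rw [hcu]
      apply DVal.Ge.sum
      intro J _
      by_cases hJ : c (G J) = 0
      · rw [hJ, mul_zero]
        exact DVal.Ge.zero
      · have h5 : v.Ge 0 (∏ j, u j (J j)) := by
          have h6 : ∏ j, u j (J j) ∈ v.ring := Subalgebra.prod_mem _ fun j _ => hu j (J j)
          right
          exact_mod_cast (DVal.mem_ring v).1 h6
        have h7 := h5.mul (v.ge_self (c (G J)))
        refine h7.mono ?_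
        rw [zero_add]
        exact_mod_cast hmin J (by simp [hJ])
    rw [DVal.ge_iff hcz] at h4
    have h8 : v (c (G J₀)) ≤ v (c z) := by exact_mod_cast h4
    change v f ≤ -(v (c (G J₀)))
    omega

end

theorem exists_canonical {k K : Type*} [Field k] [CharZero k] [Field K] [Algebra k K] {d : ℕ}
    (hd : Algebra.trdeg k K = d) (Z : ProjVar k K) :
    ∃ (ω : Form k K d) (C : Z.Div), Z.IsDivisorOf ω C := by
  classical
  obtain ⟨y, hy⟩ := exists_basis_of_trdeg hd
  obtain ⟨b, hb⟩ := Pool.Agent.Helper50.Forms.exists_kaehler_basis hy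
  have h1 : ∀ Q : Z.primeDivisors, ∃ (i : Fin (Z.n + 1)) (J : Fin d → Fin (Z.n + 1)),
      Q.1.HasOrd (wedge k y)
        (-(Q.1 (b.det fun j => KaehlerDifferential.D k K (Z.x (J j) / Z.x i)))) :=
    fun Q => hasOrd_wedge Z b y hb Q.1 Q.2
  choose i J hJ using h1
  let c : Fin (Z.n + 1) → (Fin d → Fin (Z.n + 1)) → K := fun i J =>
    b.det fun j => KaehlerDifferential.D k K (Z.x (J j) / Z.x i)
  have hfin : (Function.support fun Q : Z.primeDivisors =>
      ((-(Q.1 (c (i Q) (J Q))) : ℤ) : ℚ)).Finite := by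
    have h2 : (⋃ a : Fin (Z.n + 1) × (Fin d → Fin (Z.n + 1)),
        {Q : Z.primeDivisors | (Q.1 (c a.1 a.2) : ℚ) ≠ 0}).Finite :=
      Set.finite_iUnion fun a => Z.finite_prin (c a.1 a.2)
    refine h2.subset fun Q hQ => Set.mem_iUnion.2 ⟨(i Q, J Q), ?_⟩
    rw [Function.mem_support] at hQ
    intro h0
    apply hQ
    rw [Int.cast_neg, h0, neg_zero]
  refine ⟨wedge k y, Finsupp.ofSupportFinite _ hfin, fun Q => ⟨_, rfl, hJ Q⟩⟩

theorem exists_pair {k K : Type*} [Field k] [CharZero k] [Field K] [Algebra k K] {d : ℕ}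
    (hd : Algebra.trdeg k K = d) {Z : ProjVar k K} {Δ : Z.Div} (hΔ : ∀ Q, 0 ≤ Δ Q) :
    ∃ q : Z.Pair d, q.Δ = Δ := by
  obtain ⟨ω, C, h⟩ := exists_canonical hd Z
  exact ⟨{ ω := ω, can := C, isDivisorOf := h, Δ := Δ, nonneg := hΔ }, rfl⟩

end Pool.Agent.Helper63.PB
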