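import Pool.Agent.Helper63.PB.Final
import Pool.Agent.Helper63.PB.Canonical
import Pool.Agent.Helper60.MA.Main

set_option autoImplicit false

/-!
# PB-39 Units: the unconditional case
-/

namespace Pool.Agent.Helper63.PB

open Pool.Agent.Helper92.Weak Pool.Agent.Helper92.Ga

section

variable {k K : Type*} [Field k] [Field K] [Algebra k K]

/-- The reduced divisor of zeros and poles of finitely many functions. -/
noncomputable def unitDiv (Z : ProjVar k K) {r : ℕ} (t : Fin r → K) : Z.Div := by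
  classical
  exact redDiv (Finset.univ.biUnion fun i => (Z.finite_prin (t i)).toFinset)

theorem unitDiv_apply_of_eq {Z : ProjVar k K} {r : ℕ} {t : Fin r → K} {Q : Z.primeDivisors}
    (h : ∀ i, Q.1 (t i) = 0) : unitDiv Z t Q = 0 := by
  classical
  unfold unitDiv
  rw [redDiv_apply, if_neg]
  intro hQ
  rw [Finset.mem_biUnion] at hQ
  obtain ⟨i, -, hi⟩ := hQ
  rw [Set.Finite.mem_toFinset] at hi
  apply hi
  rw [h i]
  exact Int.cast_zero

theorem unitDiv_apply_of_ne {Z : ProjVar k K} {r : ℕ} {t : Fin r → K} {Q : Z.primeDivisors}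
    {i : Fin r} (h : Q.1 (t i) ≠ 0) : unitDiv Z t Q = 1 := by
  classical
  unfold unitDiv
  rw [redDiv_apply, if_pos]
  rw [Finset.mem_biUnion]
  refine ⟨i, Finset.mem_univ i, ?_⟩
  rw [Set.Finite.mem_toFinset]
  exact fun h0 => h (Int.cast_eq_zero.1 h0)

theorem unitDiv_nonneg (Z : ProjVar k K) {r : ℕ} (t : Fin r → K) (Q : Z.primeDivisors) :
    0 ≤ unitDiv Z t Q := by
  by_cases h : ∀ i, Q.1 (t i) = 0
  · rw [unitDiv_apply_of_eq h]
  · push Not at h
    obtain ⟨i, hi⟩ := h
    rw [unitDiv_apply_of_ne hi]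
    exact zero_le_one

/-- The comparison of the base with the zeros and poles of units, plus something effective. -/
theorem base_units [IsAlgClosed k] [CharZero k] {d : ℕ} (hd : Algebra.trdeg k K = d)
    {Z : ProjVar k K} {r : ℕ} (t : Fin r → K)
    (halg : ∀ x : K, IsAlgebraic (IntermediateField.adjoin k (Set.range t)) x)
    (q : Z.Pair d) (hq : ∀ Q, unitDiv Z t Q ≤ q.Δ Q) :
    Z.kod q.logDiv = Z.nu q.logDiv ∧ 0 ≤ Z.kod q.logDiv := by
  apply Pool.Agent.Helper60.MA.main hd Z q t
  · intro Q hQ _ i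
    by_contra h
    have h1 := hq Q
    rw [unitDiv_apply_of_ne h] at h1
    linarith
  · intro x
    have hle : (IntermediateField.adjoin k (Set.range t)).toSubalgebra ≤
        (IntermediateField.adjoin k
          (Pool.Agent.Helper60.MA.ratios Z q.logDiv ∪ Set.range t)).toSubalgebra :=
      IntermediateField.adjoin.mono k _ _ Set.subset_union_right
    exact IsAlgebraic.tower_top_of_subalgebra_le hle (halg x)

end

section

variable {k K M : Type*} [Field k] [Field K] [Field M] [Algebra k K] [Algebra k M] [Algebra K M]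

/-- The orbifold base contains the zeros and poles of the units. -/
theorem orbifoldBase_unitDiv {X : ProjVar k M} {Z : ProjVar k K} {n d : ℕ} (p : X.Pair n)
    {r : ℕ} {t : Fin r → K}
    (hunit : ∀ P : X.primeDivisors, p.Δ P < 1 → ∀ i, P.1 (algebraMap K M (t i)) = 0)
    (q : Z.Pair d) (hq : q.Δ = unitDiv Z t) : IsOrbifoldBase p q := by
  intro P Q e hPQ
  have he : (1 : ℚ) ≤ e := by exact_mod_cast hPQ.1
  rw [hq]
  by_cases h : ∀ i, Q.1 (t i) = 0
  · rw [unitDiv_apply_of_eq h, mul_zero]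
    have := p.nonneg P
    linarith
  · push Not at h
    obtain ⟨i, hi⟩ := h
    rw [unitDiv_apply_of_ne hi, mul_one]
    have h1 : ¬ p.Δ P < 1 := by
      intro h2
      have h3 := hunit P h2 i
      rw [hPQ.2] at h3
      rcases mul_eq_zero.1 h3 with h4 | h4
      · have : (e : ℤ) ≠ 0 := by exact_mod_cast hPQ.1.ne'
        exact this h4
      · exact hi h4
    linarith [not_lt.1 h1]

/-- If the base has enough units, the comparison theorem gives the equality of the Kodaira and the
numerical dimension. -/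
theorem units_of_reduction [IsAlgClosed k] [CharZero k] {X : ProjVar k M} {Z : ProjVar k K}
    {n d : ℕ} (hd : Algebra.trdeg k K = d) (p : X.Pair n)
    (key : ∀ q : Z.Pair d, IsOrbifoldBase p q → Z.kod q.logDiv ≠ ⊥ →
      (X.kod p.logDiv = ⊥ ∧ X.nu p.logDiv = ⊥) ∨
      ∃ (s : ℕ) (B : Z.Div), (∀ Q, 0 ≤ B Q) ∧ ∀ ε : ℚ, 0 < ε →
        X.kod p.logDiv = s + Z.kod (q.logDiv + ε • B) ∧
        X.nu p.logDiv = s + Z.nu (q.logDiv + ε • B))
    {r : ℕ} (t : Fin r → K)
    (hunit : ∀ P : X.primeDivisors, p.Δ P < 1 → ∀ i, P.1 (algebraMap K M (t i)) = 0)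
    (halg : ∀ x : K, IsAlgebraic (IntermediateField.adjoin k (Set.range t)) x) :
    X.kod p.logDiv = X.nu p.logDiv := by
  obtain ⟨q, hq⟩ := exists_pair hd (unitDiv_nonneg Z t)
  have h0 := base_units hd t halg q (fun Q => by rw [hq])
  have hκ : Z.kod q.logDiv ≠ ⊥ := by
    intro h
    rw [h] at h0
    exact absurd h0.2 (by simp)
  rcases key q (orbifoldBase_unitDiv p hunit q hq) hκ with h | ⟨s, B, hB, h⟩
  · rw [h.1, h.2]
  · obtain ⟨h1, h2⟩ := h 1 one_pos
    have e1 : ∀ Q, 0 ≤ (q.Δ + (1 : ℚ) • B) Q := fun Q => by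
      rw [Finsupp.add_apply, Finsupp.smul_apply, smul_eq_mul, one_mul]
      exact add_nonneg (q.nonneg Q) (hB Q)
    let q' : Z.Pair d :=
      { ω := q.ω
        can := q.can
        isDivisorOf := q.isDivisorOf
        Δ := q.Δ + (1 : ℚ) • B
        nonneg := e1 }
    have h3 := (base_units hd t halg q' (fun Q => by
      change unitDiv Z t Q ≤ (q.Δ + (1 : ℚ) • B) Q
      rw [← hq, Finsupp.add_apply, Finsupp.smul_apply, smul_eq_mul, one_mul]
      linarith [hB Q])).1
    have e2 : q'.logDiv = q.logDiv + (1 : ℚ) • B := by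
      unfold ProjVar.Pair.logDiv
      exact (add_assoc _ _ _).symm
    rw [e2] at h3
    rw [h1, h2, h3]

end

end Pool.Agent.Helper63.PB
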