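import Pool.Agent.Helper47.PQ.R4
import Pool.Agent.Helper63.PB.StableDefs
import Pool.Agent.Helper63.PB.Units
import Pool.Agent.Helper92.KS.Final

set_option autoImplicit false

/-!
# PB-41 Stable: stable weak abundance
-/

namespace Pool.Agent.Helper63.PB

open Pool.Agent.Helper92.Weak Pool.Agent.Helper92.Ga Pool.Agent.Helper47.PQ

section

variable {k K : Type*} [Field k] [Field K] [Algebra k K] {Z : ProjVar k K}

theorem IsStable.eq {D : Z.Div} (h : IsStable Z D) : Z.kod D = Z.nu D := by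
  have := h.2 0 fun _ => le_rfl
  rwa [add_zero] at this

theorem IsStable.add {D : Z.Div} (h : IsStable Z D) {B : Z.Div} (hB : ∀ Q, 0 ≤ B Q)
    (hκ : Z.kod (D + B) ≠ ⊥) : IsStable Z (D + B) := by
  refine ⟨hκ, fun B' hB' => ?_⟩
  rw [add_assoc]
  exact h.2 _ fun Q => by
    rw [Finsupp.add_apply]
    exact add_nonneg (hB Q) (hB' Q)

/-- Monotonicity of the Kodaira dimension. -/
theorem kod_mono [IsAlgClosed k] {D D' : Z.Div} (h : ∀ Q, D Q ≤ D' Q) : Z.kod D ≤ Z.kod D' := by
  have hself : ∀ (P Q : DVal k K) (e : ℕ), LiesOver P Q e → P = Q ∧ e = 1 := by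
    intro P Q e hPQ
    obtain ⟨z, hz⟩ := P.surj'
    change P z = 1 at hz
    have h1 := hPQ.2 z
    rw [Algebra.algebraMap_self, RingHom.id_apply, hz] at h1
    have h2 : e = 1 := by
      have h3 : (e : ℤ) ∣ 1 := ⟨Q z, h1⟩
      have h4 : e ∣ 1 := by exact_mod_cast h3
      exact Nat.dvd_one.1 h4
    refine ⟨?_, h2⟩
    apply DVal.ext
    intro a
    have h3 := hPQ.2 a
    rw [Algebra.algebraMap_self, RingHom.id_apply, h2] at h3
    simpa using h3
  have key := low_kod (X := Z) (Z := Z) (D := D') (T := D) (B := ∅) (s := 0)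
    (fun P hP _ => ⟨P, hP, 1, one_pos, fun a => by simp⟩)
    { N := 1
      N_pos := one_pos
      b := 1
      b_ne := one_ne_zero
      ρ := Fin.elim0
      indep := algebraicIndependent_empty_type_iff.2 (algebraMap K K).injective
      hor := fun P hP => by
        exfalso
        obtain ⟨z, hz⟩ := P.1.surj'
        change P.1 z = 1 at hz
        have h1 := hP z
        rw [Algebra.algebraMap_self, RingHom.id_apply, hz] at h1
        exact one_ne_zero h1
      vert := fun P Q e hPQ => by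
        obtain ⟨h1, h2⟩ := hself P.1 Q.1 e hPQ
        have h3 : P = Q := Subtype.ext h1
        subst h3
        refine ⟨?_, fun i => i.elim0⟩
        rw [h2, P.1.map_one, redDiv_apply, if_neg (Finset.notMem_empty P)]
        push_cast
        linarith [h P] }
  have h1 : D + (1 / ((1 : ℕ) : ℚ)) • redDiv (∅ : Finset Z.primeDivisors) = D := by
    unfold redDiv
    rw [Finset.sum_empty, smul_zero, add_zero]
  rw [h1] at key
  simpa using key

/-- `κ(D + c B)` and `ν(D + c B)` do not depend on `c > 0`, if `κ(D) ≥ 0` and `B ≥ 0`. -/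
theorem eps_indep {D B : Z.Div} (hκ : Z.kod D ≠ ⊥) (hB : ∀ Q, 0 ≤ B Q) {c c' : ℚ} (hc : 0 < c)
    (hc' : 0 < c') : Z.kod (D + c • B) = Z.kod (D + c' • B) ∧
      Z.nu (D + c • B) = Z.nu (D + c' • B) := by
  obtain ⟨N₃, hN₃, η, hη, hT⟩ := exists_pluri hκ
  obtain ⟨N, hN, hND⟩ := exists_int_mult D
  obtain ⟨R, hR, hRB⟩ := exists_int_mult B
  have hR' : (0 : ℚ) < R := by exact_mod_cast hR
  have hint : Z.IsInt (((N * N₃ : ℕ) : ℚ) • D + (R : ℚ) • B) := by
    apply ProjVar.IsInt.add
    · have h3 := hND.nsmul N₃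
      rw [smul_smul] at h3
      have h4 : (N₃ : ℚ) * N = ((N * N₃ : ℕ) : ℚ) := by push_cast; ring
      rwa [h4] at h3
    · exact hRB
  have hcomp : ∀ δ : ℚ, 0 < δ →
      Comparison Z Z (D + δ • ((R : ℚ) • B)) (((N * N₃ : ℕ) : ℚ) • D + (R : ℚ) • B) 0 := fun δ hδ =>
    kod_nu_eps (B := (R : ℚ) • B) (Nat.mul_pos hN hN₃) hN₃ (fun Q => by
      rw [Finsupp.add_apply, Finsupp.smul_apply, smul_eq_mul])
      (fun Q => by
        rw [Finsupp.smul_apply, smul_eq_mul]
        exact mul_nonneg hR'.le (hB Q)) hint hη hT (Nat.dvd_mul_left _ _) hδ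
  have key : ∀ c : ℚ, 0 < c → D + c • B = D + (c / R) • ((R : ℚ) • B) := by
    intro c _
    rw [smul_smul, div_mul_cancel₀ _ hR'.ne']
  rw [key c hc, key c' hc']
  exact ⟨by rw [(hcomp _ (div_pos hc hR')).kod_eq, (hcomp _ (div_pos hc' hR')).kod_eq],
    by rw [(hcomp _ (div_pos hc hR')).nu_eq, (hcomp _ (div_pos hc' hR')).nu_eq]⟩

/-- It is enough to consider small multiples of effective divisors. -/
theorem isStable_of_small {D : Z.Div} (hκ : Z.kod D ≠ ⊥)
    (h : ∀ B : Z.Div, (∀ Q, 0 ≤ B Q) → ∃ c : ℚ, 0 < c ∧ Z.kod (D + c • B) = Z.nu (D + c • B)) :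
    IsStable Z D := by
  refine ⟨hκ, fun B hB => ?_⟩
  obtain ⟨c, hc, h1⟩ := h B hB
  obtain ⟨h2, h3⟩ := eps_indep hκ hB hc one_pos
  rw [one_smul] at h2 h3
  rw [← h2, ← h3, h1]

/-- The numerical dimension is at most the dimension. -/
theorem nu_le_dim [IsAlgClosed k] {d : ℕ} (hd : Algebra.trdeg k K = d) (D : Z.Div) :
    Z.nu D ≤ (d : EReal) := by
  obtain ⟨y, hy⟩ := exists_basis_of_trdeg hd
  refine Pool.Agent.Helper60.MA.nu_le Z D ⊤ y (fun x _ => ?_) fun A => ?_
  · have h1 : Algebra.IsAlgebraic (IntermediateField.adjoin k (Set.range y)) K := by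
      have := hy.isAlgebraic_field
      exact this
    exact h1.isAlgebraic x
  · refine ⟨⊤, ?_, fun m f _ => trivial⟩
    have h1 : Module.Finite (⊤ : IntermediateField k K) K :=
      Module.Finite.of_surjective (Algebra.linearMap (⊤ : IntermediateField k K) K)
        fun x => ⟨⟨x, trivial⟩, rfl⟩
    exact Module.Finite.equiv (Submodule.topEquiv (R := (⊤ : IntermediateField k K)) (M := K)).symm

/-- Big divisors are stable. -/
theorem isStable_of_big [IsAlgClosed k] {d : ℕ} (hd : Algebra.trdeg k K = d) {D : Z.Div}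
    (h : Z.kod D = d) : IsStable Z D := by
  refine ⟨?_, fun B hB => ?_⟩
  · rw [h]
    exact EReal.natCast_ne_bot _
  · have h1 : (d : EReal) ≤ Z.kod (D + B) := by
      rw [← h]
      exact kod_mono fun Q => by
        rw [Finsupp.add_apply]
        linarith [hB Q]
    have h2 := nu_le_dim hd (D + B)
    have h3 := kod_le_nu (D + B)
    exact le_antisymm h3 (h2.trans h1)

end

end Pool.Agent.Helper63.PB
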