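import Mathlib

set_option autoImplicit false

/-!
# PB-49 Trdeg: dimensions
-/

namespace Pool.Agent.Helper63.PB

section

variable {k K L : Type*} [Field k] [Field K] [Field L] [Algebra k K] [Algebra k L] [Algebra K L]
  [IsScalarTower k K L]

/-- The transcendence degree of a tower. -/
theorem trdeg_of_basis {d r : ℕ} (hd : Algebra.trdeg k K = d) {t : Fin r → L}
    (ht : IsTranscendenceBasis K t) : Algebra.trdeg k L = (d + r : ℕ) := by
  have h1 : Algebra.trdeg K L = r := by
    have h := ht.lift_cardinalMk_eq_trdeg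
    rw [Cardinal.mk_fin, Cardinal.lift_natCast] at h
    rw [eq_comm, Cardinal.lift_eq_nat_iff] at h
    exact h
  have h4 := lift_trdeg_add_eq k K L
  rw [hd, h1, Cardinal.lift_natCast, Cardinal.lift_natCast] at h4
  have h5 : Cardinal.lift (Algebra.trdeg k L) = ((d + r : ℕ) : Cardinal) := by
    rw [← h4]
    push_cast
    rfl
  rw [Cardinal.lift_eq_nat_iff] at h5
  exact h5

end

end Pool.Agent.Helper63.PB
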