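import Pool.Agent.Helper63.PB.CurveDefs
import Pool.Agent.Helper63.PB.Final
import Pool.Agent.Helper60.PB.G1.FinalE

set_option autoImplicit false
set_option linter.unusedSectionVars false

/-!
# PB-42 Curve: the comparison theorem for fibrations in curves of genus at most one
-/

namespace Pool.Agent.Helper63.PB

open Pool.Agent.Helper92.Weak Pool.Agent.Helper92.Ga

variable {k K L K' L' : Type*} [Field k] [Field K] [Field L] [Field K'] [Field L']
  [Algebra k K] [Algebra k L] [Algebra k K'] [Algebra k L'] [Algebra K L] [Algebra K K']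
  [Algebra K L'] [Algebra L L'] [Algebra K' L'] [IsScalarTower k K L] [IsScalarTower k K K']
  [IsScalarTower k K L'] [IsScalarTower k L L'] [IsScalarTower k K' L'] [IsScalarTower K L L']
  [IsScalarTower K K' L'] {X : ProjVar k L} {Z : ProjVar k K}

/-- The comparison theorem for fibrations in curves of genus at most one. -/
theorem curve_main [IsAlgClosed k] [CharZero k] {d : ℕ} (hd : Algebra.trdeg k K = d)
    (h : IsCurveFibration K' L' X Z) (p : X.Pair (d + 1)) (q : Z.Pair d)
    (h1 : (∀ P : X.primeDivisors, (∀ x : K, P.1 (algebraMap K L x) = 0) → p.Δ P ≤ 1) ∨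
      IsBigOnFibre K p)
    (hq : IsOrbifoldBase p q) (hκ : Z.kod q.logDiv ≠ ⊥) :
    (X.kod p.logDiv = ⊥ ∧ X.nu p.logDiv = ⊥) ∨
    ∃ (s : ℕ) (B : Z.Div), s ≤ 1 ∧ (∀ Q, 0 ≤ B Q) ∧ ∀ ε : ℚ, 0 < ε →
      X.kod p.logDiv = s + Z.kod (q.logDiv + ε • B) ∧
      X.nu p.logDiv = s + Z.nu (q.logDiv + ε • B) := by
  rcases h.curve with hc | hc
  · exact main hd ⟨h.mor, h.equi, h.finite, h.pushout, hc⟩ p q h1 hq hκ
  · exact Or.inr (Pool.Agent.Helper60.PB.emain hd ⟨h.mor, h.equi, h.finite, h.pushout, hc⟩ p q hq hκ)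

end Pool.Agent.Helper63.PB
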