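import Pool.Agent.Helper63.PB.Stable
import Pool.Agent.Helper63.PB.Curve

set_option autoImplicit false

/-!
# PB-44 StableOps: classes of stable pairs
-/

namespace Pool.Agent.Helper63.PB

open Pool.Agent.Helper92.Weak Pool.Agent.Helper92.Ga Pool.Agent.Helper47.PQ
open Pool.Agent.Helper92.KS

/-- The pair with a larger boundary. -/
noncomputable def addPair {k K : Type*} [Field k] [Field K] [Algebra k K] {Z : ProjVar k K} {d : ℕ}
    (q : Z.Pair d) (B : Z.Div) (hB : ∀ Q, 0 ≤ B Q) : Z.Pair d where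
  ω := q.ω
  can := q.can
  isDivisorOf := q.isDivisorOf
  Δ := q.Δ + B
  nonneg := fun Q => by
    rw [Finsupp.add_apply]
    exact add_nonneg (q.nonneg Q) (hB Q)

theorem addPair_logDiv {k K : Type*} [Field k] [Field K] [Algebra k K] {Z : ProjVar k K} {d : ℕ}
    (q : Z.Pair d) (B : Z.Div) (hB : ∀ Q, 0 ≤ B Q) :
    (addPair q B hB).logDiv = q.logDiv + B := by
  unfold ProjVar.Pair.logDiv
  exact (add_assoc _ _ _).symm

theorem addPair_Δ {k K : Type*} [Field k] [Field K] [Algebra k K] {Z : ProjVar k K} {d : ℕ}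
    (q : Z.Pair d) (B : Z.Div) (hB : ∀ Q, 0 ≤ B Q) : (addPair q B hB).Δ = q.Δ + B := rfl

section

variable {k K : Type*} [Field k] [Field K] [Algebra k K] {Z : ProjVar k K}

/-- Pairs with many units are stable. -/
theorem isStable_units [IsAlgClosed k] [CharZero k] {d : ℕ} (hd : Algebra.trdeg k K = d)
    (q : Z.Pair d) {e : ℕ} (t : Fin e → K)
    (hunit : ∀ Q : Z.primeDivisors, q.Δ Q < 1 →
      (∀ z ∈ Pool.Agent.Helper60.MA.ratios Z q.logDiv, Q.1 z = 0) → ∀ i, Q.1 (t i) = 0)
    (halg : ∀ x : K, IsAlgebraic (IntermediateField.adjoin k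
      (Pool.Agent.Helper60.MA.ratios Z q.logDiv ∪ Set.range t)) x) : IsStable Z q.logDiv := by
  have h0 := Pool.Agent.Helper60.MA.main hd Z q t hunit halg
  refine ⟨?_, fun B hB => ?_⟩
  · intro h
    rw [h] at h0
    exact absurd h0.2 (by simp)
  · have hrat : Pool.Agent.Helper60.MA.ratios Z q.logDiv ⊆
        Pool.Agent.Helper60.MA.ratios Z (q.logDiv + B) := by
      rintro z ⟨m, hm, f, hf, g, hg, hg0, rfl⟩
      have hle : Z.H0 ((m : ℚ) • q.logDiv) ≤ Z.H0 ((m : ℚ) • (q.logDiv + B)) := by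
        apply H0_mono
        intro Q
        rw [Finsupp.smul_apply, Finsupp.smul_apply, Finsupp.add_apply, smul_eq_mul, smul_eq_mul]
        have := hB Q
        have hm' : (0 : ℚ) ≤ m := Nat.cast_nonneg m
        nlinarith
      exact ⟨m, hm, f, hle hf, g, hle hg, hg0, rfl⟩
    have key := (Pool.Agent.Helper60.MA.main hd Z (addPair q B hB) t
      (fun Q hQ hr i => hunit Q (by
        rw [addPair_Δ, Finsupp.add_apply] at hQ
        linarith [hB Q]) (fun z hz => hr z (by
          rw [addPair_logDiv]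
          exact hrat hz)) i)
      (fun x => by
        have hle : (IntermediateField.adjoin k
            (Pool.Agent.Helper60.MA.ratios Z q.logDiv ∪ Set.range t)).toSubalgebra ≤
            (IntermediateField.adjoin k (Pool.Agent.Helper60.MA.ratios Z
              (addPair q B hB).logDiv ∪ Set.range t)).toSubalgebra := by
          rw [addPair_logDiv]
          exact IntermediateField.adjoin.mono k _ _ (Set.union_subset_union_left _ hrat)
        exact IsAlgebraic.tower_top_of_subalgebra_le hle (halg x))).1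
    rwa [addPair_logDiv] at key

/-- Divisors on finite images of compactifications of solvable groups are stable. -/
theorem isStable_group {E : Type*} [IsAlgClosed k] [CharZero k] [Field E] [Algebra k E]
    [Algebra K E] [IsScalarTower k K E] {r s : ℕ} {x : Fin r → E} {y : Fin s → E}
    {𝒟 : Set ((Fin s → ℤ) × Derivation k (MvPolynomial (Fin r) k) (MvPolynomial (Fin r) k))}
    {X' : ProjVar k E} (h : IsSolvableCompactification x y 𝒟 X') (hc : IsFiniteCover X' Z)
    {D : Z.Div} (hκ : Z.kod D ≠ ⊥) : IsStable Z D :=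
  ⟨hκ, fun _ _ => kod_eq_nu_cover h hc _⟩

end

section

theorem exists_small {ι : Type*} (S : Finset ι) (a b : ι → ℚ) (H : ι → Prop)
    (ha : ∀ i, H i → a i < 1) (hb : ∀ i, 0 ≤ b i) :
    ∃ c : ℚ, 0 < c ∧ ∀ i ∈ S, H i → a i + c * b i ≤ 1 := by
  classical
  induction S using Finset.induction_on with
  | empty => exact ⟨1, one_pos, fun i hi => absurd hi (Finset.notMem_empty i)⟩
  | insert j S hj ih =>
    obtain ⟨c, hc, hS⟩ := ih
    by_cases hH : H j
    · have h1 : 0 < (1 - a j) / (b j + 1) :=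
        div_pos (by linarith [ha j hH]) (by linarith [hb j])
      refine ⟨min c ((1 - a j) / (b j + 1)), lt_min hc h1, fun i hi hHi => ?_⟩
      rcases Finset.mem_insert.1 hi with rfl | hi
      · have h2 : min c ((1 - a i) / (b i + 1)) * b i ≤ (1 - a i) / (b i + 1) * (b i + 1) := by
          apply mul_le_mul (min_le_right _ _) (by linarith) (hb i) h1.le
        rw [div_mul_cancel₀ _ (by linarith [hb i] : b i + 1 ≠ 0)] at h2
        linarith
      · have h2 : min c ((1 - a j) / (b j + 1)) * b i ≤ c * b i :=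
          mul_le_mul_of_nonneg_right (min_le_left _ _) (hb i)
        linarith [hS i hi hHi]
    · refine ⟨c, hc, fun i hi hHi => ?_⟩
      rcases Finset.mem_insert.1 hi with rfl | hi
      · exact absurd hHi hH
      · exact hS i hi hHi

variable {k K L K' L' : Type*} [Field k] [Field K] [Field L] [Field K'] [Field L']
  [Algebra k K] [Algebra k L] [Algebra k K'] [Algebra k L'] [Algebra K L] [Algebra K K']
  [Algebra K L'] [Algebra L L'] [Algebra K' L'] [IsScalarTower k K L] [IsScalarTower k K K']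
  [IsScalarTower k K L'] [IsScalarTower k L L'] [IsScalarTower k K' L'] [IsScalarTower K L L']
  [IsScalarTower K K' L'] {X : ProjVar k L} {Z : ProjVar k K}

omit [Algebra k K] [IsScalarTower k K L] in
theorem IsBigOnFibre.add {d : ℕ} {p : X.Pair d} (h : IsBigOnFibre K p) {B : X.Div}
    (hB : ∀ P, 0 ≤ B P) : IsBigOnFibre K (addPair p B hB) := by
  obtain ⟨m, f, g, htr, h⟩ := h
  refine ⟨m, f, g, htr, fun P hP => ?_⟩
  obtain ⟨h1, h2⟩ := h P hP
  have h3 : min (p.Δ P) 1 ≤ min ((addPair p B hB).Δ P) 1 := by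
    apply min_le_min_right
    rw [addPair_Δ, Finsupp.add_apply]
    linarith [hB P]
  have h4 : (addPair p B hB).can P = p.can P := rfl
  have hm : (0 : ℚ) ≤ m := Nat.cast_nonneg m
  rw [h4]
  constructor <;> nlinarith

/-- Fibrations in curves of genus at most one over stable pairs are stable. -/
theorem isStable_fibration [IsAlgClosed k] [CharZero k] {d : ℕ} (hd : Algebra.trdeg k K = d)
    (h : IsCurveFibration K' L' X Z) (p : X.Pair (d + 1)) (q : Z.Pair d)
    (h1 : (∀ P : X.primeDivisors, (∀ x : K, P.1 (algebraMap K L x) = 0) → p.Δ P < 1) ∨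
      IsBigOnFibre K p)
    (hq : IsOrbifoldBase p q) (hZ : IsStable Z q.logDiv) (hκ : X.kod p.logDiv ≠ ⊥) :
    IsStable X p.logDiv := by
  refine isStable_of_small hκ fun B hB => ?_
  obtain ⟨c, hc, h2⟩ : ∃ c : ℚ, 0 < c ∧ ∀ hcB : ∀ P, 0 ≤ (c • B) P,
      (∀ P : X.primeDivisors, (∀ x : K, P.1 (algebraMap K L x) = 0) →
        (addPair p (c • B) hcB).Δ P ≤ 1) ∨ IsBigOnFibre K (addPair p (c • B) hcB) := by
    rcases h1 with h1 | h1
    · obtain ⟨c, hc, h2⟩ := exists_small B.support (fun P => p.Δ P) (fun P => B P)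
        (fun P => ∀ x : K, P.1 (algebraMap K L x) = 0) h1 hB
      refine ⟨c, hc, fun hcB => Or.inl fun P hP => ?_⟩
      rw [addPair_Δ, Finsupp.add_apply, Finsupp.smul_apply, smul_eq_mul]
      by_cases hPB : P ∈ B.support
      · exact h2 P hPB hP
      · rw [Finsupp.notMem_support_iff.1 hPB, mul_zero, add_zero]
        exact (h1 P hP).le
    · exact ⟨1, one_pos, fun hcB => Or.inr (h1.add hcB)⟩
  have hcB : ∀ P, 0 ≤ (c • B) P := fun P => by
    rw [Finsupp.smul_apply, smul_eq_mul]
    exact mul_nonneg hc.le (hB P)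
  refine ⟨c, hc, ?_⟩
  have hq' : IsOrbifoldBase (addPair p (c • B) hcB) q := by
    intro P Q e hPQ
    rw [addPair_Δ, Finsupp.add_apply]
    linarith [hq P Q e hPQ, hcB P]
  rw [← addPair_logDiv p (c • B) hcB]
  rcases curve_main hd h (addPair p (c • B) hcB) q (h2 hcB) hq' hZ.1 with h3 | ⟨s, BZ, -, hBZ, h3⟩
  · rw [h3.1, h3.2]
  · obtain ⟨h4, h5⟩ := h3 1 one_pos
    rw [one_smul] at h4 h5
    rw [h4, h5, hZ.2 BZ hBZ]

end

end Pool.Agent.Helper63.PB
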