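import Pool.Agent.Helper63.PB.Finite
import Pool.Agent.Helper47.PQ.D10
import Pool.Agent.Helper92.Ga.Comp

set_option autoImplicit false

/-!
# PB-26 AbsLow: lower bounds for `κ` and `ν` from `LowerData`

Let `W : LowerData X Z D T B s`, `T₁ = T + (1 / N) B`. Every prime divisor of `X` is trivial on `K` or lies
over a prime divisor of `Z` (`hequi`).

KEY (`low_sdim`). Let `N₀ ≥ 1`, `N' = N N₀`, and `A` a divisor on `Z`. There is a divisor `A'` on `X`, `A' = 0` if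
`A = 0`, with `(n + 1)^s h⁰(Z, n N' T₁ + A) ≤ dim H⁰(X, n (s + 1) N' D + A')`-type inequality; precisely:
for all `n ≥ 1`: `n ^ s * sdim (H⁰(Z, (n N' (s + 1)) T₁ + A)) ≤ sdim (H⁰(X, (n N' (s + 1)) D + A'))`.
PROOF. `A' P = e A(Q)` for `P` over `Q`, `0` for `P` trivial on `K` (finite support:
`finite_over_base`; well defined by `PQ.liesOver_unique`). Let `l = n N₀ (s + 1)`, so that
`l N = n N' (s + 1)`. For `f ∈ H⁰(Z, l N T₁ + A)` and `α : Fin s → {0, ..., n}` (so `∑ α ≤ n s ≤ l`), the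
function `g = f b^l ∏ ρ_i^(α_i) = f b^(l - ∑ α) ∏ (b ρ_i)^(α_i)` is a section of `l N D + A'`: at `P` trivial on
`K`: `P f = 0` (or `f = 0`) and `P g + l N D(P) ≥ 0` by `hor`; at `P` over `Q`:
`P g + l N D(P) ≥ e Q f + l e (N T(Q) + B(Q)) = e (Q f + l N T₁(Q)) ≥ -e A(Q)`. For `f_1, ..., f_r`
linearly independent over `k` the functions `f_j b^l ρ^α` are linearly independent over `k`: the
monomials `ρ^α` are linearly independent over `K` (`W.indep`, as `kg_lin` in MA/KodGe). There are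
`(n + 1)^s ≥ n^s` exponents `α`. (For `sdim` infinite take arbitrarily large finite families; or build an
injective linear map `(α → H⁰(Z, ..)) → H⁰(X, ..)`, `(f_α) ↦ ∑ f_α b^l ρ^α`, and compare ranks, as in
`sdim_le_card_mul`, `Weak`.)

`low_nu`. `nu_eq_sup` for both sides; `Z.nu T₁ = Z.nu (N'' T₁)`, `N'' = N' (s + 1)` (`PQ.nu_smul`); for every
`A`: `le_logGrowth` with `h2 n = sdim H⁰(Z, n (N'' T₁) + A)`, `h1 m = sdim H⁰(X, m D + A')`, `a = N''`:
`s + logGrowth h2 ≤ logGrowth h1 ≤ X.nu D`; the supremum over `A` as in `Ga.Comparison.nu_eq`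
(`EReal.le_sub_iff_add_le`).

`low_kod`. `PQ.regular` for `T₁` on `Z`: if `Z.kod T₁ = ⊥` the left side is `⊥`. Otherwise
`Z.kod T₁ = d`, and `m ^ d ≤ C h⁰(Z, m m₀ T₁)` for `m ≥ 1` (`h0 = sdim` there: the divisor is
integral, `h0_le`). `PQ.regular` for `D` on `X`: the first case is impossible (sections exist by KEY with
`A = 0`), so `X.kod D = d'` and `sdim H⁰(X, m D) ≤ C' m^(d')`. KEY with `N₀ = m₀`, `A = 0`:
`n^s (N (s + 1) n)^d / C ≤ C' (n N'')^(d')` for all `n ≥ 1`, so `s + d ≤ d'` (compare `kg_count` in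
MA/KodGe).
-/

namespace Pool.Agent.Helper63.PB

open Pool.Agent.Helper92.Weak

variable {k K L : Type*} [Field k] [Field K] [Field L] [Algebra k K] [Algebra k L] [Algebra K L]
  [IsScalarTower k K L] {X : ProjVar k L} {Z : ProjVar k K} {D : X.Div} {T : Z.Div}
  {B : Finset Z.primeDivisors} {s : ℕ}

/-- Values of monomials. -/
private theorem lw_val {k L : Type*} [Field k] [Field L] [Algebra k L] (v : DVal k L) {s : ℕ}
    {b : L} {ρ : Fin s → L} (hb : b ≠ 0) (hρ : ∀ i, ρ i ≠ 0) {x : ℚ} (h1 : x ≤ v b)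
    (h2 : ∀ i, x ≤ v (b * ρ i)) (l : ℕ) (α : Fin s → ℕ) (hα : ∑ i, α i ≤ l) :
    (l : ℚ) * x ≤ v (b ^ l * ∏ i, ρ i ^ α i) := by
  rw [v.map_mul (pow_ne_zero _ hb) (Finset.prod_ne_zero_iff.2 fun i _ => pow_ne_zero _ (hρ i)),
    v.map_pow, v.map_prod _ _ fun i _ => pow_ne_zero _ (hρ i)]
  have h3 : ∀ i, (v (b * ρ i) : ℚ) = v b + v (ρ i) := fun i => by
    rw [v.map_mul hb (hρ i)]
    push_cast
    rfl
  have h4 : ∑ i, (α i : ℚ) * x ≤ ∑ i, (α i : ℚ) * (v b + v (ρ i)) := by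
    refine Finset.sum_le_sum fun i _ => ?_
    have h5 := h2 i
    rw [h3] at h5
    exact mul_le_mul_of_nonneg_left h5 (Nat.cast_nonneg _)
  have h6 : ((∑ i, α i : ℕ) : ℚ) ≤ l := by exact_mod_cast hα
  have h7 : ((l : ℚ) - (∑ i, α i : ℕ)) * x ≤ ((l : ℚ) - (∑ i, α i : ℕ)) * v b :=
    mul_le_mul_of_nonneg_left h1 (by linarith)
  have h8 : ((∑ i, v (ρ i ^ α i) : ℤ) : ℚ) = ∑ i, (α i : ℚ) * v (ρ i) := by
    push_cast
    refine Finset.sum_congr rfl fun i _ => ?_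
    rw [v.map_pow]
    push_cast
    rfl
  push_cast at h7 h8 ⊢
  rw [h8]
  rw [← Finset.sum_mul] at h4
  have h9 : ∑ i, (α i : ℚ) * (v b + v (ρ i)) =
      (∑ i, (α i : ℚ)) * v b + ∑ i, (α i : ℚ) * v (ρ i) := by
    rw [Finset.sum_mul, ← Finset.sum_add_distrib]
    exact Finset.sum_congr rfl fun i _ => by ring
  rw [h9] at h4
  nlinarith

/-- Monomials are linearly independent. -/
private theorem lw_lin {K L : Type*} [Field K] [Field L] [Algebra K L] {d : ℕ} {z : Fin d → L}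
    (hind : AlgebraicIndependent K z) {g : L} (hg : g ≠ 0) (m : ℕ) :
    LinearIndependent K (fun a : Fin d → Fin m => g * ∏ i, z i ^ (a i : ℕ)) := by
  have h1 : LinearIndependent K (fun s : Fin d →₀ ℕ => MvPolynomial.monomial s (1 : K)) := by
    have h := (MvPolynomial.basisMonomials (Fin d) K).linearIndependent
    rwa [MvPolynomial.coe_basisMonomials] at h
  have h2 : LinearIndependent K
      (fun s : Fin d →₀ ℕ => MvPolynomial.aeval z (MvPolynomial.monomial s (1 : K))) :=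
    h1.map' (MvPolynomial.aeval z).toLinearMap (LinearMap.ker_eq_bot.2 hind)
  have hinj : Function.Injective (fun a : Fin d → Fin m =>
      Finsupp.equivFunOnFinite.symm (fun i => ((a i : Fin m) : ℕ))) := by
    intro a b hab
    have h3 := Finsupp.equivFunOnFinite.symm.injective hab
    funext i
    exact Fin.ext (congrFun h3 i)
  have h4 := (h2.comp _ hinj).map' (LinearMap.mulLeft K g)
    (LinearMap.ker_eq_bot.2 (mul_right_injective₀ hg))
  have h5 : (fun a : Fin d → Fin m => g * ∏ i, z i ^ (a i : ℕ)) =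
      ⇑(LinearMap.mulLeft K g) ∘ (fun s : Fin d →₀ ℕ =>
        MvPolynomial.aeval z (MvPolynomial.monomial s (1 : K))) ∘
        fun a : Fin d → Fin m =>
          Finsupp.equivFunOnFinite.symm (fun i => ((a i : Fin m) : ℕ)) := by
    funext a
    simp only [Function.comp_apply, LinearMap.mulLeft_apply, MvPolynomial.aeval_monomial,
      map_one, one_mul]
    congr 1
    rw [Finsupp.prod_fintype _ _ (fun i => pow_zero _)]
    rfl
  rw [h5]
  exact h4

private theorem lw_unique {k K L : Type*} [Field k] [Field K] [Field L] [Algebra k K]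
    [Algebra k L] [Algebra K L] {P : DVal k L} {Q Q' : DVal k K} {e e' : ℕ}
    (he : LiesOver P Q e) (he' : LiesOver P Q' e') : Q = Q' ∧ e = e' := by
  have hQ : Q = Q' := by
    apply DVal.eq_of_ring_le
    intro a ha
    rw [DVal.mem_ring] at ha ⊢
    have h2 := he.2 a
    have h3 := he'.2 a
    rw [h2] at h3
    have h4 : (0 : ℤ) < e := by exact_mod_cast he.1
    have h5 : (0 : ℤ) < e' := by exact_mod_cast he'.1
    have h6 : (0 : ℤ) ≤ e' * Q' a := by rw [← h3]; exact mul_nonneg h4.le ha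
    exact nonneg_of_mul_nonneg_right h6 h5
  refine ⟨hQ, ?_⟩
  subst hQ
  obtain ⟨a, ha⟩ := Q.surj'
  have h2 := he.2 a
  have h3 := he'.2 a
  rw [h2] at h3
  change Q a = 1 at ha
  rw [ha, mul_one, mul_one] at h3
  exact_mod_cast h3

open Classical in
/-- The pull back of a divisor. -/
private noncomputable def lwFun (X : ProjVar k L) (A : Z.Div) (P : X.primeDivisors) : ℚ :=
  if h : ∃ (Q : Z.primeDivisors) (e : ℕ), LiesOver P.1 Q.1 e then
    (h.choose_spec.choose : ℚ) * A h.choose else 0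

private theorem lwFun_over (A : Z.Div) {P : X.primeDivisors} {Q : Z.primeDivisors} {e : ℕ}
    (h : LiesOver P.1 Q.1 e) : lwFun X A P = e * A Q := by
  have hex : ∃ (Q : Z.primeDivisors) (e : ℕ), LiesOver P.1 Q.1 e := ⟨Q, e, h⟩
  unfold lwFun
  rw [dif_pos hex]
  obtain ⟨h1, h2⟩ := lw_unique hex.choose_spec.choose_spec h
  rw [h2, Subtype.ext h1]

private theorem exists_pull (X : ProjVar k L) (A : Z.Div) : ∃ A' : X.Div, (A = 0 → A' = 0) ∧
    (∀ P : X.primeDivisors, (∀ a : K, P.1 (algebraMap K L a) = 0) → A' P = 0) ∧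
    ∀ (P : X.primeDivisors) (Q : Z.primeDivisors) (e : ℕ), LiesOver P.1 Q.1 e →
      A' P = e * A Q := by
  classical
  have hfin : (Function.support (lwFun X A)).Finite := by
    refine Set.Finite.subset (Set.Finite.biUnion A.support.finite_toSet fun Q _ =>
      finite_over_base X Q.1) ?_
    intro P hP
    rw [Function.mem_support] at hP
    by_cases h : ∃ (Q : Z.primeDivisors) (e : ℕ), LiesOver P.1 Q.1 e
    · obtain ⟨Q, e, hQ⟩ := h
      rw [lwFun_over A hQ] at hP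
      simp only [Set.mem_iUnion, exists_prop]
      refine ⟨Q, ?_, e, hQ⟩
      rw [Finset.mem_coe, Finsupp.mem_support_iff]
      exact right_ne_zero_of_mul hP
    · exact absurd (by unfold lwFun; rw [dif_neg h]) hP
  refine ⟨Finsupp.ofSupportFinite (lwFun X A) hfin, ?_, ?_, ?_⟩
  · rintro rfl
    ext P
    rw [Finsupp.ofSupportFinite_coe]
    unfold lwFun
    split_ifs <;> simp
  · intro P hP
    rw [Finsupp.ofSupportFinite_coe]
    unfold lwFun
    rw [dif_neg]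
    rintro ⟨Q, e, hQ⟩
    obtain ⟨p, hp0, hp⟩ := Q.1.exists_uniformizer
    have h1 := hQ.2 p
    rw [hP, hp, mul_one] at h1
    have := hQ.1
    omega
  · intro P Q e h
    rw [Finsupp.ofSupportFinite_coe]
    exact lwFun_over A h

private theorem lw_mem (hequi : ∀ P ∈ X.primeDivisors, (∃ a : K, P (algebraMap K L a) ≠ 0) →
      ∃ Q ∈ Z.primeDivisors, ∃ e, LiesOver P Q e) (W : LowerData X Z D T B s) {A : Z.Div}
    {A' : X.Div} (hA1 : ∀ P : X.primeDivisors, (∀ a : K, P.1 (algebraMap K L a) = 0) → A' P = 0)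
    (hA2 : ∀ (P : X.primeDivisors) (Q : Z.primeDivisors) (e : ℕ), LiesOver P.1 Q.1 e →
      A' P = e * A Q) {l : ℕ} {f : K}
    (hf : f ∈ Z.H0 (((l * W.N : ℕ) : ℚ) • (T + (1 / (W.N : ℚ)) • redDiv B) + A))
    (α : Fin s → ℕ) (hα : ∑ i, α i ≤ l) :
    algebraMap K L f * (W.b ^ l * ∏ i, W.ρ i ^ α i) ∈
      X.H0 (((l * W.N : ℕ) : ℚ) • D + A') := by
  have hρ : ∀ i, W.ρ i ≠ 0 := fun i => W.indep.ne_zero i
  unfold ProjVar.H0 at hf ⊢
  rw [mem_sec] at hf ⊢
  intro P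
  by_cases hf0 : f = 0
  · left
    rw [hf0, _root_.map_zero, zero_mul]
  have hf0' : algebraMap K L f ≠ 0 := by
    rwa [Ne, map_eq_zero_iff _ (algebraMap K L).injective]
  have hm0 : W.b ^ l * ∏ i, W.ρ i ^ α i ≠ 0 := mul_ne_zero (pow_ne_zero _ W.b_ne)
    (Finset.prod_ne_zero_iff.2 fun i _ => pow_ne_zero _ (hρ i))
  rw [DVal.ge_iff (mul_ne_zero hf0' hm0), P.1.map_mul hf0' hm0]
  have hN : (0 : ℚ) < W.N := by exact_mod_cast W.N_pos
  by_cases htriv : ∀ a : K, P.1 (algebraMap K L a) = 0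
  · rw [htriv f]
    obtain ⟨h1, h2⟩ := W.hor P htriv
    have h3 := lw_val P.1 W.b_ne hρ (x := -(W.N * D P)) (by linarith)
      (fun i => by have := h2 i; linarith) l α hα
    rw [Finsupp.add_apply, Finsupp.smul_apply, smul_eq_mul, hA1 P htriv]
    push_cast
    linarith
  · push Not at htriv
    obtain ⟨Q, hQ, e, he⟩ := hequi P.1 P.2 htriv
    obtain ⟨h1, h2⟩ := W.vert P ⟨Q, hQ⟩ e he
    have h3 := lw_val P.1 W.b_ne hρ (x := e * (W.N * T ⟨Q, hQ⟩ + redDiv B ⟨Q, hQ⟩) - W.N * D P)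
      (by linarith) (fun i => by have := h2 i; linarith) l α hα
    have h4 := hf ⟨Q, hQ⟩
    rw [DVal.ge_iff hf0, Finsupp.add_apply, Finsupp.smul_apply, smul_eq_mul, Finsupp.add_apply,
      Finsupp.smul_apply, smul_eq_mul] at h4
    rw [Finsupp.add_apply, Finsupp.smul_apply, smul_eq_mul, hA2 P ⟨Q, hQ⟩ e he, he.2 f]
    have h5 : (0 : ℚ) ≤ e := Nat.cast_nonneg _
    have h6 := mul_le_mul_of_nonneg_left h4 h5
    push_cast at h6 ⊢
    have h7 : (l : ℚ) * W.N * (T ⟨Q, hQ⟩ + 1 / W.N * redDiv B ⟨Q, hQ⟩) =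
        l * (W.N * T ⟨Q, hQ⟩ + redDiv B ⟨Q, hQ⟩) := by
      field_simp
    rw [h7] at h6
    change (e : ℚ) * -(l * (W.N * T ⟨Q, hQ⟩ + redDiv B ⟨Q, hQ⟩) + A ⟨Q, hQ⟩) ≤ e * (Q f : ℚ) at h6
    linarith

theorem low_sdim (hequi : ∀ P ∈ X.primeDivisors, (∃ a : K, P (algebraMap K L a) ≠ 0) →
      ∃ Q ∈ Z.primeDivisors, ∃ e, LiesOver P Q e) (W : LowerData X Z D T B s) {N₀ : ℕ}
    (hN₀ : 0 < N₀) (A : Z.Div) : ∃ A' : X.Div, (A = 0 → A' = 0) ∧ ∀ n : ℕ, 1 ≤ n →
      (n : ℕ∞) ^ s * sdim (Z.H0 (((n * (W.N * N₀ * (s + 1)) : ℕ) : ℚ) •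
        (T + (1 / (W.N : ℚ)) • redDiv B) + A)) ≤
      sdim (X.H0 (((n * (W.N * N₀ * (s + 1)) : ℕ) : ℚ) • D + A')) := by
  obtain ⟨A', hA0, hA1, hA2⟩ := exists_pull X A
  refine ⟨A', hA0, fun n hn => ?_⟩
  obtain ⟨l, hl⟩ : ∃ l, l = n * N₀ * (s + 1) := ⟨_, rfl⟩
  have hl' : n * (W.N * N₀ * (s + 1)) = l * W.N := by rw [hl]; ring
  rw [hl']
  have hsum : ∀ a : Fin s → Fin n, ∑ i, (a i : ℕ) ≤ l := by
    intro a
    calc ∑ i, (a i : ℕ) ≤ ∑ _i : Fin s, n := Finset.sum_le_sum fun i _ => (a i).2.le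
      _ = s * n := by simp
      _ ≤ l := by
        rw [hl]
        have h1 : 1 * (s * n) ≤ N₀ * ((s + 1) * n) :=
          Nat.mul_le_mul hN₀ (Nat.mul_le_mul_right _ (Nat.le_succ _))
        nlinarith
  have hcard : (Fintype.card (Fin s → Fin n) : ℕ∞) = (n : ℕ∞) ^ s := by
    simp
  rw [← hcard]
  have hb : W.b ^ l ≠ 0 := pow_ne_zero _ W.b_ne
  have hlin := lw_lin W.indep hb n
  rw [Fintype.linearIndependent_iff] at hlin
  let Φ : ((Fin s → Fin n) →₀
      Z.H0 (((l * W.N : ℕ) : ℚ) • (T + (1 / (W.N : ℚ)) • redDiv B) + A)) →ₗ[k]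
      X.H0 (((l * W.N : ℕ) : ℚ) • D + A') :=
    { toFun := fun φ => ⟨∑ a : Fin s → Fin n,
        algebraMap K L (φ a : K) * (W.b ^ l * ∏ i, W.ρ i ^ (a i : ℕ)),
        Submodule.sum_mem _ fun a _ => lw_mem hequi W hA1 hA2 (φ a).2 _ (hsum a)⟩
      map_add' := fun φ ψ => by
        ext
        simp only [Finsupp.add_apply, Submodule.coe_add, _root_.map_add, add_mul,
          Finset.sum_add_distrib]
      map_smul' := fun c φ => by
        ext
        simp only [Finsupp.smul_apply, Submodule.coe_smul, RingHom.id_apply, Finset.smul_sum]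
        refine Finset.sum_congr rfl fun a _ => ?_
        rw [← algebraMap_smul K c (φ a : K), smul_eq_mul, _root_.map_mul,
          ← IsScalarTower.algebraMap_apply, ← Algebra.smul_def, smul_mul_assoc] }
  apply card_mul_le_sdim Φ
  intro φ ψ hφψ
  have h1 : ∑ a : Fin s → Fin n,
      algebraMap K L (φ a : K) * (W.b ^ l * ∏ i, W.ρ i ^ (a i : ℕ)) = ∑ a : Fin s → Fin n,
      algebraMap K L (ψ a : K) * (W.b ^ l * ∏ i, W.ρ i ^ (a i : ℕ)) :=
    congrArg Subtype.val hφψ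
  have h2 := hlin (fun a => (φ a : K) - (ψ a : K)) (by
    simp only [Algebra.smul_def, _root_.map_sub, sub_mul, Finset.sum_sub_distrib]
    exact sub_eq_zero.2 h1)
  ext a
  exact sub_eq_zero.1 (h2 a)

theorem low_nu (hequi : ∀ P ∈ X.primeDivisors, (∃ a : K, P (algebraMap K L a) ≠ 0) →
      ∃ Q ∈ Z.primeDivisors, ∃ e, LiesOver P Q e) (W : LowerData X Z D T B s) :
    (s : EReal) + Z.nu (T + (1 / (W.N : ℚ)) • redDiv B) ≤ X.nu D := by
  obtain ⟨N', hN'⟩ : ∃ N', N' = W.N * 1 * (s + 1) := ⟨_, rfl⟩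
  have hN1 : 1 ≤ N' := by
    rw [hN', mul_one]
    exact Nat.mul_pos W.N_pos (Nat.succ_pos _)
  rw [← Helper47.PQ.nu_smul (X := Z) (T + (1 / (W.N : ℚ)) • redDiv B) hN1,
    Helper47.PQ.nu_eq_sup, Helper47.PQ.nu_eq_sup, add_comm,
    ← EReal.le_sub_iff_add_le (Or.inl (EReal.natCast_ne_bot _)) (Or.inl (EReal.natCast_ne_top _))]
  refine iSup_le fun A => ?_
  rw [EReal.le_sub_iff_add_le (Or.inl (EReal.natCast_ne_bot _))
      (Or.inl (EReal.natCast_ne_top _)), add_comm]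
  obtain ⟨A', -, h⟩ := low_sdim hequi W (N₀ := 1) one_pos A
  rw [← hN'] at h
  refine le_trans ?_ (le_iSup (fun A : X.Div => logGrowth fun m =>
    sdim (X.H0 ((m : ℚ) • D + A))) A')
  apply le_logGrowth (a := N') hN1
  intro n hn
  have h1 := h n hn
  have e1 : ((n : ℚ) • (N' : ℚ) • (T + (1 / (W.N : ℚ)) • redDiv B) : Z.Div) =
      ((n * N' : ℕ) : ℚ) • (T + (1 / (W.N : ℚ)) • redDiv B) := by
    rw [smul_smul]
    push_cast
    rfl
  rw [e1, mul_comm N' n]
  exact h1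

theorem low_kod [IsAlgClosed k] (hequi : ∀ P ∈ X.primeDivisors,
      (∃ a : K, P (algebraMap K L a) ≠ 0) → ∃ Q ∈ Z.primeDivisors, ∃ e, LiesOver P Q e)
    (W : LowerData X Z D T B s) :
    (s : EReal) + Z.kod (T + (1 / (W.N : ℚ)) • redDiv B) ≤ X.kod D := by
  rcases Helper47.PQ.regular (X := Z) (T + (1 / (W.N : ℚ)) • redDiv B) with
    ⟨-, h⟩ | ⟨d, C, m₀, hk, hm₀, -, hl, -⟩
  · rw [h]
    simp
  rw [hk]
  obtain ⟨A', hA', hkey⟩ := low_sdim hequi W (N₀ := m₀) hm₀ 0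
  rw [hA' rfl] at hkey
  simp only [add_zero] at hkey
  have hN' : 1 ≤ W.N * m₀ * (s + 1) := Nat.mul_pos (Nat.mul_pos W.N_pos hm₀) (Nat.succ_pos _)
  -- the lower bound on `Z`
  have hlow : ∀ n : ℕ, 1 ≤ n → (n : ℕ∞) ^ d ≤ C *
      sdim (Z.H0 (((n * (W.N * m₀ * (s + 1)) : ℕ) : ℚ) •
        (T + (1 / (W.N : ℚ)) • redDiv B))) := by
    intro n hn
    have hc : 1 ≤ W.N * (s + 1) := Nat.mul_pos W.N_pos (Nat.succ_pos _)
    have h1 := hl (n * (W.N * (s + 1))) (Nat.mul_pos hn hc)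
    have e1 : n * (W.N * (s + 1)) * m₀ = n * (W.N * m₀ * (s + 1)) := by ring
    rw [e1] at h1
    have h2 : (n : ℕ∞) ^ d ≤ ((n * (W.N * (s + 1)) : ℕ) : ℕ∞) ^ d := by
      have h3 : n ^ d ≤ (n * (W.N * (s + 1))) ^ d :=
        Nat.pow_le_pow_left (Nat.le_mul_of_pos_right n hc) d
      exact_mod_cast h3
    refine h2.trans (h1.trans ?_)
    gcongr
    exact Z.h0_le _
  rcases Helper47.PQ.regular (X := X) D with ⟨hbot, -⟩ | ⟨d', C', m₁, hk', -, -, -, hub⟩
  · exfalso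
    have h1 := hkey 1 le_rfl
    rw [hbot _ (by rw [one_mul]; exact hN'), sdim_bot] at h1
    have h2 := hlow 1 le_rfl
    simp only [Nat.cast_one, one_pow, one_mul] at h1 h2
    have h3 := le_antisymm h1 zero_le
    rw [h3, mul_zero] at h2
    exact absurd h2 (by simp)
  · rw [hk']
    suffices hle : s + d ≤ d' by exact_mod_cast hle
    by_contra hlt
    push Not at hlt
    obtain ⟨N', hNe⟩ : ∃ N', N' = W.N * m₀ * (s + 1) := ⟨_, rfl⟩
    rw [← hNe] at hN' hlow hkey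
    have hall : ∀ n : ℕ, 1 ≤ n → n ^ (s + d) ≤ (C * C' * N' ^ d') * n ^ d' := by
      intro n hn
      have h1 := hkey n hn
      have h2 := hlow n hn
      have h3 := hub (n * N') (Nat.mul_pos hn hN')
      have h4 : (n : ℕ∞) ^ s * (n : ℕ∞) ^ d ≤ C * (C' * ((n * N' : ℕ) : ℕ∞) ^ d') := by
        calc (n : ℕ∞) ^ s * (n : ℕ∞) ^ d ≤ (n : ℕ∞) ^ s * (C *
              sdim (Z.H0 (((n * N' : ℕ) : ℚ) • (T + (1 / (W.N : ℚ)) • redDiv B)))) := by
                gcongr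
          _ = C * ((n : ℕ∞) ^ s *
              sdim (Z.H0 (((n * N' : ℕ) : ℚ) • (T + (1 / (W.N : ℚ)) • redDiv B)))) := by
                ring
          _ ≤ C * (C' * ((n * N' : ℕ) : ℕ∞) ^ d') := by
                exact mul_le_mul' le_rfl (h1.trans h3)
      have h5 : n ^ s * n ^ d ≤ C * (C' * (n * N') ^ d') := by exact_mod_cast h4
      calc n ^ (s + d) = n ^ s * n ^ d := pow_add _ _ _
        _ ≤ C * (C' * (n * N') ^ d') := h5
        _ = _ := by ring
    obtain ⟨K', hK'⟩ : ∃ K', K' = C * C' * N' ^ d' := ⟨_, rfl⟩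
    rw [← hK'] at hall
    have h1 := hall (K' + 1) (by omega)
    have h2 : (K' + 1) ^ (d' + 1) ≤ (K' + 1) ^ (s + d) := Nat.pow_le_pow_right (by omega) hlt
    have h3 : (K' + 1) * (K' + 1) ^ d' ≤ K' * (K' + 1) ^ d' := by
      rw [← pow_succ']
      exact h2.trans h1
    have h4 := Nat.le_of_mul_le_mul_right h3 (by positivity)
    omega

end Pool.Agent.Helper63.PB
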