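import Pool.Agent.Helper63.PB.Defs

set_option autoImplicit false

/-!
# PB-16 Places: rational places of `K'(t)`

`plc k h i` (`i : Option K'`), `lin t i` (`t - α` or `1`) as in `Defs`. Everything follows from
`Helper92/Ga/Line.lean` (`pVal_self`, `pVal_algebraMap`, `pVal_nonneg`, `pVal_pos_iff`,
`pVal_eq_of_dvd`, `exists_pVal`, `eq_infVal`, `infVal_t`, `infVal_algebraMap`, `val_aeval_of_neg`).
-/

namespace Pool.Agent.Helper63.PB

open Pool.Agent.Helper92.Weak Pool.Agent.Helper92.Ga

section

variable {k K' L' : Type*} [Field k] [Field K'] [Field L'] [Algebra k K'] [Algebra k L']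
  [Algebra K' L'] [IsScalarTower k K' L'] {t : L'}

theorem plc_triv (h : IsLine K' t) (i : Option K') (a : K') :
    plc k h i (algebraMap K' L' a) = 0 := by
  cases i with
  | none => exact infVal_algebraMap h a
  | some α => exact pVal_algebraMap k h _ a

theorem plc_t (h : IsLine K' t) (i : Option K') :
    (i = none → plc k h i t = -1) ∧ (i ≠ none → 0 ≤ plc k h i t) := by
  cases i with
  | none => exact ⟨fun _ => infVal_t h, fun h0 => absurd rfl h0⟩
  | some α =>
    refine ⟨fun h0 => absurd h0 (by simp), fun _ => ?_⟩
    have h1 := pVal_nonneg k h (Polynomial.prime_X_sub_C α) Polynomial.X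
    rw [Polynomial.aeval_X] at h1
    exact h1

theorem aeval_X_sub_C (α : K') :
    Polynomial.aeval t (Polynomial.X - Polynomial.C α) = t - algebraMap K' L' α := by
  rw [map_sub, Polynomial.aeval_X, Polynomial.aeval_C]

theorem lin_ne_zero (h : IsLine K' t) (i : Option K') : lin t i ≠ 0 := by
  cases i with
  | none => exact one_ne_zero
  | some α =>
    have h1 := h.aeval_ne (Polynomial.X_sub_C_ne_zero α)
    rw [aeval_X_sub_C] at h1
    exact h1

theorem plc_some_lin (h : IsLine K' t) (α : K') : plc k h (some α) (lin t (some α)) = 1 := by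
  have h1 := pVal_self k h (Polynomial.prime_X_sub_C α)
  rw [aeval_X_sub_C] at h1
  exact h1

/-- The value of `t - β` at a finite place is positive only at the place of `β`. -/
theorem eq_plc_of_pos (h : IsLine K' t) {v : DVal k L'}
    (hv : ∀ a : K', v (algebraMap K' L' a) = 0) (ht : 0 ≤ v t) (β : K')
    (hpos : 0 < v (lin t (some β))) : v = plc k h (some β) := by
  obtain ⟨p, hp, hvp⟩ := exists_pVal h v hv ht
  subst hvp
  have h1 : 0 < pVal k h p hp (Polynomial.aeval t (Polynomial.X - Polynomial.C β)) := by
    rw [aeval_X_sub_C]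
    exact hpos
  rw [pVal_pos_iff k h hp (Polynomial.X_sub_C_ne_zero β)] at h1
  exact (pVal_eq_of_dvd k h (Polynomial.prime_X_sub_C β) hp h1).symm

open Classical in
theorem val_lin (h : IsLine K' t) {v : DVal k L'} (hv : ∀ a : K', v (algebraMap K' L' a) = 0)
    (j : Option K') :
    v (lin t j) = (if v = plc k h j then 1 else 0) - (if v t < 0 then 1 else 0) := by
  by_cases ht : v t < 0
  · have hvi : v = infVal k h := eq_infVal h v hv ht
    rw [if_pos ht]
    cases j with
    | none =>
      rw [if_pos (show v = plc k h none from hvi)]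
      change v 1 = _
      rw [v.map_one]
      norm_num
    | some β =>
      have hne : v ≠ plc k h (some β) := by
        intro h0
        have h1 := (plc_t (k := k) h (some β)).2 (by simp)
        rw [← h0] at h1
        omega
      rw [if_neg hne]
      have h1 := infVal_aeval (k := k) h (Polynomial.X_sub_C_ne_zero β)
      rw [aeval_X_sub_C, Polynomial.natDegree_X_sub_C, ← hvi] at h1
      change v (t - algebraMap K' L' β) = _
      rw [h1]
      norm_num
  · rw [if_neg ht]
    have ht' : 0 ≤ v t := not_lt.1 ht
    cases j with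
    | none =>
      have hne : v ≠ plc k h none := by
        intro h0
        have h1 := (plc_t (k := k) h none).1 rfl
        rw [← h0] at h1
        omega
      rw [if_neg hne]
      change v 1 = _
      rw [v.map_one]
      norm_num
    | some β =>
      by_cases hvb : v = plc k h (some β)
      · rw [if_pos hvb, hvb, plc_some_lin]
        norm_num
      · rw [if_neg hvb]
        have h1 : ¬ 0 < v (lin t (some β)) := fun h0 => hvb (eq_plc_of_pos h hv ht' β h0)
        obtain ⟨p, hp, hvp⟩ := exists_pVal h v hv ht'
        have h2 : 0 ≤ v (lin t (some β)) := by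
          rw [hvp]
          have h3 := pVal_nonneg k h hp (Polynomial.X - Polynomial.C β)
          rw [aeval_X_sub_C] at h3
          exact h3
        omega

theorem plc_injective (h : IsLine K' t) : Function.Injective (plc k h) := by
  classical
  intro i j hij
  by_contra hne
  cases i with
  | none =>
    cases j with
    | none => exact hne rfl
    | some β =>
      have h1 := (plc_t (k := k) h none).1 rfl
      have h2 := (plc_t (k := k) h (some β)).2 (by simp)
      rw [hij] at h1
      omega
  | some α =>
    cases j with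
    | none =>
      have h1 := (plc_t (k := k) h none).1 rfl
      have h2 := (plc_t (k := k) h (some α)).2 (by simp)
      rw [hij] at h2
      omega
    | some β =>
      have hαβ : α ≠ β := fun h0 => hne (by rw [h0])
      set v := plc k h (some α) with hvdef
      have h1 : v (lin t (some α)) = 1 := plc_some_lin h α
      have h2 : v (lin t (some β)) = 1 := by rw [hij]; exact plc_some_lin h β
      have h3 : v.Ge 1 (lin t (some α)) := Or.inr (by rw [h1]; norm_num)
      have h4 : v.Ge 1 (lin t (some β)) := Or.inr (by rw [h2]; norm_num)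
      have h5 : v.Ge 1 (lin t (some β) + -lin t (some α)) := by
        apply DVal.Ge.add h4
        exact Or.inr (by rw [v.map_neg, h1]; norm_num)
      have h6 : lin t (some β) + -lin t (some α) = algebraMap K' L' (α - β) := by
        change (t - algebraMap K' L' β) + -(t - algebraMap K' L' α) = _
        rw [map_sub]
        ring
      rw [h6] at h5
      have h7 : algebraMap K' L' (α - β) ≠ 0 := by
        rw [Ne, map_eq_zero]
        exact sub_ne_zero.2 hαβ
      rw [DVal.ge_iff h7, hvdef, plc_triv] at h5
      norm_num at h5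

end

section

variable {k K L K' L' : Type*} [Field k] [Field K] [Field L] [Field K'] [Field L']
  [Algebra k K] [Algebra k L] [Algebra k K'] [Algebra k L'] [Algebra K L] [Algebra K K']
  [Algebra L L'] [Algebra K' L'] [IsScalarTower k K' L']
  {X : ProjVar k L} {Z : ProjVar k K} {t : L'} (F : Frame X Z K' t)

theorem theta_eq {i j : Option K'} (hij : i ≠ j) :
    ∃ c : K', c ≠ 0 ∧ F.theta i j = algebraMap K' L' c / (lin t i * lin t j) := by
  have hi := lin_ne_zero F.line i
  have hj := lin_ne_zero F.line j
  have hD1 : F.Dt (1 : L') = 0 := F.Dt.map_one_eq_zero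
  have hDs : ∀ α : K', F.Dt (t - algebraMap K' L' α) = 1 := by
    intro α
    rw [map_sub, F.Dt_t, F.Dt.map_algebraMap, sub_zero]
  have key : F.theta i j = F.Dt (lin t i) / lin t i - F.Dt (lin t j) / lin t j := by
    unfold Frame.theta
    rw [Derivation.leibniz_div]
    simp only [smul_eq_mul]
    field_simp
  rw [key]
  cases i with
  | none =>
    cases j with
    | none => exact absurd rfl hij
    | some β =>
      refine ⟨-1, by simp, ?_⟩
      change F.Dt (1 : L') / 1 - F.Dt (t - algebraMap K' L' β) / (t - algebraMap K' L' β) =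
        algebraMap K' L' (-1) / (1 * (t - algebraMap K' L' β))
      change t - algebraMap K' L' β ≠ 0 at hj
      rw [hD1, hDs, map_neg, map_one]
      field_simp
      ring
  | some α =>
    cases j with
    | none =>
      refine ⟨1, one_ne_zero, ?_⟩
      change F.Dt (t - algebraMap K' L' α) / (t - algebraMap K' L' α) - F.Dt (1 : L') / 1 =
        algebraMap K' L' 1 / ((t - algebraMap K' L' α) * 1)
      change t - algebraMap K' L' α ≠ 0 at hi
      rw [hD1, hDs, map_one]
      field_simp
      ring
    | some β =>
      refine ⟨α - β, sub_ne_zero.2 (fun h0 => hij (by rw [h0])), ?_⟩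
      change F.Dt (t - algebraMap K' L' α) / (t - algebraMap K' L' α) -
        F.Dt (t - algebraMap K' L' β) / (t - algebraMap K' L' β) =
        algebraMap K' L' (α - β) / ((t - algebraMap K' L' α) * (t - algebraMap K' L' β))
      change t - algebraMap K' L' α ≠ 0 at hi
      change t - algebraMap K' L' β ≠ 0 at hj
      rw [hDs, hDs, map_sub]
      field_simp
      ring

theorem theta_ne_zero {i j : Option K'} (hij : i ≠ j) : F.theta i j ≠ 0 := by
  obtain ⟨c, hc, h⟩ := theta_eq F hij
  rw [h]
  apply div_ne_zero
  · rw [Ne, map_eq_zero]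
    exact hc
  · exact mul_ne_zero (lin_ne_zero F.line i) (lin_ne_zero F.line j)

open Classical in
/-- The value of `theta` at a valuation which is trivial on `K'`. -/
theorem val_theta {v : DVal k L'} (hv : ∀ a : K', v (algebraMap K' L' a) = 0)
    {i j : Option K'} (hij : i ≠ j) :
    v (F.theta i j) = 2 * (if v t < 0 then 1 else 0) - (if v = plc k F.line i then 1 else 0) -
      (if v = plc k F.line j then 1 else 0) := by
  obtain ⟨c, hc, h⟩ := theta_eq F hij
  have hi := lin_ne_zero F.line i
  have hj := lin_ne_zero F.line j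
  have hc' : algebraMap K' L' c ≠ 0 := by
    rw [Ne, map_eq_zero]
    exact hc
  rw [h, v.map_div hc' (mul_ne_zero hi hj), v.map_mul hi hj, hv, val_lin F.line hv i,
    val_lin F.line hv j]
  ring

variable {F} {Δ : X.Div} (H : HorData F Δ)

theorem phi_factor_ne_zero {x : H.S → H.S → ℕ} (hx : ∀ i, x i i = 0) (i j : H.S) :
    F.theta i.1 j.1 ^ x i j ≠ 0 := by
  by_cases hij : i = j
  · subst hij
    rw [hx, pow_zero]
    exact one_ne_zero
  · exact pow_ne_zero _ (theta_ne_zero F (fun h0 => hij (Subtype.ext h0)))

theorem phi_ne_zero {x : H.S → H.S → ℕ} (hx : ∀ i, x i i = 0) : H.phi x ≠ 0 := by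
  unfold HorData.phi
  exact Finset.prod_ne_zero_iff.2 fun i _ => Finset.prod_ne_zero_iff.2 fun j _ =>
    phi_factor_ne_zero H hx i j

/-- The value of `phi` in terms of the values of `theta`. -/
theorem val_phi_eq (v : DVal k L') {x : H.S → H.S → ℕ} (hx : ∀ i, x i i = 0) :
    v (H.phi x) = ∑ i : H.S, ∑ j : H.S, (x i j : ℤ) * v (F.theta i.1 j.1) := by
  unfold HorData.phi
  rw [v.map_prod _ _ fun i _ => Finset.prod_ne_zero_iff.2 fun j _ => phi_factor_ne_zero H hx i j]
  refine Finset.sum_congr rfl fun i _ => ?_
  rw [v.map_prod _ _ fun j _ => phi_factor_ne_zero H hx i j]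
  refine Finset.sum_congr rfl fun j _ => ?_
  rw [v.map_pow]

open Classical in
/-- The value of `phi` at a valuation which is trivial on `K'`. -/
theorem val_phi {v : DVal k L'} (hv : ∀ a : K', v (algebraMap K' L' a) = 0)
    {x : H.S → H.S → ℕ} (hx : ∀ i, x i i = 0) {m : ℕ} (hm : ∑ i, ∑ j, x i j = m) :
    v (H.phi x) = 2 * m * (if v t < 0 then 1 else 0) -
      ∑ i : H.S, if v = plc k F.line i.1 then (H.use x i : ℤ) else 0 := by
  rw [val_phi_eq H v hx]
  have h1 : ∀ i j : H.S, (x i j : ℤ) * v (F.theta i.1 j.1) =
      (x i j : ℤ) * (2 * (if v t < 0 then 1 else 0)) -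
        (x i j : ℤ) * (if v = plc k F.line i.1 then 1 else 0) -
        (x i j : ℤ) * (if v = plc k F.line j.1 then 1 else 0) := by
    intro i j
    by_cases hij : i = j
    · subst hij
      rw [hx]
      simp
    · rw [val_theta F hv (fun h0 => hij (Subtype.ext h0))]
      ring
  simp only [h1, Finset.sum_sub_distrib]
  have h2 : ∑ i : H.S, ∑ j : H.S, (x i j : ℤ) * (2 * (if v t < 0 then 1 else 0)) =
      2 * m * (if v t < 0 then 1 else 0) := by
    rw [← hm]
    push_cast
    simp only [Finset.mul_sum, Finset.sum_mul]
    refine Finset.sum_congr rfl fun i _ => Finset.sum_congr rfl fun j _ => ?_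
    ring
  have h3 : ∑ i : H.S, (if v = plc k F.line i.1 then (H.use x i : ℤ) else 0) =
      ∑ i : H.S, ∑ j : H.S, (x i j : ℤ) * (if v = plc k F.line i.1 then 1 else 0) +
        ∑ i : H.S, ∑ j : H.S, (x i j : ℤ) * (if v = plc k F.line j.1 then 1 else 0) := by
    rw [Finset.sum_comm (f := fun i j : H.S => (x i j : ℤ) * (if v = plc k F.line j.1 then 1 else 0)),
      ← Finset.sum_add_distrib]
    refine Finset.sum_congr rfl fun i _ => ?_
    rw [← Finset.sum_add_distrib]
    unfold HorData.use
    by_cases hv1 : v = plc k F.line i.1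
    · simp only [if_pos hv1]
      push_cast
      refine Finset.sum_congr rfl fun j _ => ?_
      ring
    · simp only [if_neg hv1, mul_zero, add_zero, Finset.sum_const_zero]
  rw [h2, h3]
  ring

end

end Pool.Agent.Helper63.PB
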