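import Pool.Agent.Helper63.PB.Approx
import Pool.Agent.Helper63.PB.HorPrimes
import Pool.Agent.Helper63.PB.Places

set_option autoImplicit false

/-!
# PB-20 MkHor: horizontal data

PROOF. For `i : Option K'` the valuation `plc i` of `L'` lies over a valuation `w` of `L` (`exists_under`,
`L' / L` algebraic) with ramification `ε`; `w` is trivial on `K` (`plc i` is trivial on `K' ⊇ K`, `ε > 0`),
so `w ∈ X.primeDivisors` (`hor_mem` with `F.mor` and `F.tr`), and `ε = 1` by `F.hor`. Put `pr i = w`.
`S = {i | Δ (pr i) ≠ 0}` is finite: `pr i` is in the finite support of `Δ`, over each `P` there are only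
finitely many `v` (`finite_above`), and `plc` is injective (`plc_injective`). `split`: given `P` trivial on
`K`, `Δ P ≠ 0` and `v` over `P`, `v = plc i` by hypothesis, and `pr i = P` since both lie under
`plc i` (`Helper47.PQ.liesOver_unique`), so `i ∈ S`.
-/

namespace Pool.Agent.Helper63.PB

open Pool.Agent.Helper92.Weak Pool.Agent.Helper92.Ga

variable {k K L K' L' : Type*} [Field k] [Field K] [Field L] [Field K'] [Field L']
  [Algebra k K] [Algebra k L] [Algebra k K'] [Algebra k L'] [Algebra K L] [Algebra K K']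
  [Algebra K L'] [Algebra L L'] [Algebra K' L'] [IsScalarTower k K L] [IsScalarTower k L L']
  [IsScalarTower k K' L'] [IsScalarTower K L L'] [IsScalarTower K K' L']
  [FiniteDimensional L L'] [CharZero k]
  {X : ProjVar k L} {Z : ProjVar k K} {t : L'} (F : Frame X Z K' t)

include F in
/-- Every valuation of `L'` which is trivial on `K'` lies over a prime divisor of `X` which is trivial
on `K`, unramified. -/
theorem exists_hor_under {v : DVal k L'} (hv : ∀ x : K', v (algebraMap K' L' x) = 0) :
    ∃ P : X.primeDivisors, (∀ x : K, P.1 (algebraMap K L x) = 0) ∧ LiesOver v P.1 1 := by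
  obtain ⟨w, ε, hw⟩ := exists_under (E := L) v
  have hw0 : ∀ x : K, w (algebraMap K L x) = 0 := by
    intro x
    have h1 := hw.2 (algebraMap K L x)
    rw [← IsScalarTower.algebraMap_apply K L L', IsScalarTower.algebraMap_apply K K' L', hv] at h1
    have h2 : (ε : ℤ) ≠ 0 := by
      have := hw.1
      omega
    exact (mul_eq_zero.1 h1.symm).resolve_left h2
  obtain ⟨s, -, hs⟩ := F.tr
  have hmem : w ∈ X.primeDivisors := hor_mem F.mor hs hw0
  have hε : ε = 1 := (F.hor ⟨w, hmem⟩ hw0 v ε hw).1
  subst hε
  exact ⟨⟨w, hmem⟩, hw0, hw⟩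

theorem exists_horData {Δ : X.Div}
    (hsplit : ∀ P : X.primeDivisors, (∀ x : K, P.1 (algebraMap K L x) = 0) → Δ P ≠ 0 →
      ∀ (v : DVal k L') (ε : ℕ), LiesOver v P.1 ε → ∃ i, v = plc k F.line i) :
    Nonempty (HorData F Δ) := by
  classical
  choose pr htriv hov using fun i : Option K' =>
    exists_hor_under F (v := plc k F.line i) (plc_triv F.line i)
  have hfin : {i | Δ (pr i) ≠ 0}.Finite := by
    have h1 : (⋃ P ∈ (Δ.support : Set X.primeDivisors),
        {w : DVal k L' | ∃ ε, LiesOver w P.1 ε}).Finite :=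
      Set.Finite.biUnion Δ.support.finite_toSet fun P _ => finite_above P.1
    refine (h1.preimage ((plc_injective (k := k) F.line).injOn)).subset ?_
    intro i hi
    simp only [Set.mem_preimage, Set.mem_iUnion]
    exact ⟨pr i, by simpa using hi, 1, hov i⟩
  refine ⟨⟨hfin.toFinset, pr, hov, htriv, fun i => by simp, ?_⟩⟩
  intro P hP hΔ v ε hv
  obtain ⟨i, rfl⟩ := hsplit P hP hΔ v ε hv
  have h1 : pr i = P := Subtype.ext (Pool.Agent.Helper47.PQ.liesOver_unique (hov i) hv).1
  refine ⟨i, ?_, rfl, h1⟩
  simp only [Set.Finite.mem_toFinset, Set.mem_setOf_eq, h1]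
  exact hΔ

end Pool.Agent.Helper63.PB
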