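import Pool.Agent.Helper63.PB.Places
import Pool.Agent.Helper60.MA.Ops

set_option autoImplicit false

/-!
# PB-22 PsiBounds: values of `ψ = phi x / u ^ m`

`psi_hor`. `P` trivial on `K`, `v` over `P`: `ε = 1`, `v u = a P + 2 [v t < 0]` (`F.hor`), `v` is trivial on
`K'` (elements of `K'` are algebraic over `K`, on which `v` is trivial: `x ∈ K'` with `v x < 0` cannot
satisfy a monic equation over `K`; or `Helper60.MA.dval_algebraic`). By `val_phi`,
`v ψ = 2 m [v t < 0] - ∑_i [v = plc i] use i - m a P - 2 m [v t < 0] = - ∑_i [v = plc i] use i - m a P`. At most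
one `i` has `v = plc i` (`plc_injective`), and then `pr i = P` (both under `v`,
`Helper47.PQ.liesOver_unique`) and `use i ≤ m Δ P`; otherwise the sum is `0 ≤ m Δ P`.
`psi_vert`. `v` over `P` over `Q`: by `star` with `g = lin i / lin j`, `v (theta i j) ≥ -μ` for `i ≠ j`
(`theta_ne_zero`). By `val_phi_eq` `v (phi x) ≥ -m μ`, and
`v ψ ≥ -m μ - m v u = -m ε λ`. `psi_strict`: if moreover `v (theta i j) + μ ≠ 0` it is `≥ 1`, and
`x i j ≥ 1`.
-/

namespace Pool.Agent.Helper63.PB

open Pool.Agent.Helper92.Weak Pool.Agent.Helper92.Ga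

variable {k K L K' L' : Type*} [Field k] [Field K] [Field L] [Field K'] [Field L']
  [Algebra k K] [Algebra k L] [Algebra k K'] [Algebra k L'] [Algebra K L] [Algebra K K']
  [Algebra K L'] [Algebra L L'] [Algebra K' L'] [IsScalarTower k K L] [IsScalarTower k K K']
  [IsScalarTower k L L'] [IsScalarTower k K' L'] [IsScalarTower K L L'] [IsScalarTower K K' L']
  [FiniteDimensional K K']
  {X : ProjVar k L} {Z : ProjVar k K} {t : L'} {F : Frame X Z K' t} {Δ : X.Div}
  (H : HorData F Δ) {x : H.S → H.S → ℕ} {m : ℕ}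

/-- A valuation over a valuation trivial on `K` is trivial on `K'`. -/
theorem triv_of_hor {P : DVal k L} (hP : ∀ x : K, P (algebraMap K L x) = 0) {v : DVal k L'} {ε : ℕ}
    (hv : LiesOver v P ε) (z : K') : v (algebraMap K' L' z) = 0 := by
  let g : K →ₐ[k] L' := (IsScalarTower.toAlgHom k L L').comp (IsScalarTower.toAlgHom k K L)
  have hg : ∀ x : K, g x = algebraMap K L' x := by
    intro x
    change algebraMap L L' (algebraMap K L x) = _
    rw [← IsScalarTower.algebraMap_apply K L L']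
  refine Pool.Agent.Helper60.MA.dval_algebraic v g.fieldRange ?_ ?_
  · intro x hx
    obtain ⟨y, rfl⟩ := (AlgHom.mem_fieldRange).1 hx
    change v (algebraMap L L' (algebraMap K L y)) = 0
    rw [hv.2, hP, mul_zero]
  · obtain ⟨p, hp0, hp⟩ := (IsIntegral.of_finite K z).isAlgebraic
    let f : K →+* g.fieldRange := (g : K →+* L').codRestrict g.fieldRange
      (fun x => (AlgHom.mem_fieldRange).2 ⟨x, rfl⟩)
    refine ⟨p.map f, (Polynomial.map_ne_zero_iff f.injective).2 hp0, ?_⟩
    have h1 : (algebraMap g.fieldRange L').comp f = algebraMap K L' :=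
      RingHom.ext fun x => hg x
    rw [Polynomial.aeval_def, Polynomial.eval₂_map, h1, ← Polynomial.aeval_def,
      Polynomial.aeval_algebraMap_apply, hp, map_zero]

theorem psi_hor (hx : ∀ i, x i i = 0) (hm : ∑ i, ∑ j, x i j = m)
    (huse : ∀ i : H.S, (H.use x i : ℚ) ≤ m * Δ (H.pr i)) {P : X.primeDivisors}
    (hP : ∀ x : K, P.1 (algebraMap K L x) = 0) (hΔ : 0 ≤ Δ P) {v : DVal k L'} {ε : ℕ}
    (hv : LiesOver v P.1 ε) :
    -((ε : ℚ) * (m * (F.a P + Δ P))) ≤ v (H.phi x / F.u ^ m) := by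
  classical
  have hv0 : ∀ z : K', v (algebraMap K' L' z) = 0 := triv_of_hor (K' := K') hP hv
  obtain ⟨hε, hu1, hu2⟩ := F.hor P hP v ε hv
  have hu : v F.u = F.a P + 2 * (if v t < 0 then 1 else 0) := by
    by_cases ht : v t < 0
    · rw [if_pos ht, hu2 ht]
      ring
    · rw [if_neg ht, hu1 (not_lt.1 ht)]
      ring
  have hval : v (H.phi x / F.u ^ m) = -(∑ i : H.S, if v = plc k F.line i.1 then
      (H.use x i : ℤ) else 0) - m * F.a P := by
    rw [v.map_div (phi_ne_zero H hx) (pow_ne_zero _ F.u_ne), v.map_pow, val_phi H hv0 hx hm, hu]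
    ring
  have hsum : ((∑ i : H.S, if v = plc k F.line i.1 then (H.use x i : ℤ) else 0 : ℤ) : ℚ) ≤
      m * Δ P := by
    by_cases hex : ∃ i : H.S, v = plc k F.line i.1
    · obtain ⟨i, hi⟩ := hex
      rw [Finset.sum_eq_single i]
      · rw [if_pos hi]
        have h1 : LiesOver v (H.pr i.1).1 1 := by
          rw [hi]
          exact H.ov i.1
        have h2 : P = H.pr i.1 := by
          apply Subtype.ext
          apply DVal.ext
          intro b
          have h3 := hv.2 b
          have h4 := h1.2 b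
          rw [hε] at h3
          rw [h3] at h4
          simpa using h4
        rw [h2]
        exact_mod_cast huse i
      · intro j _ hji
        rw [if_neg]
        intro h0
        exact hji (Subtype.ext (plc_injective F.line (h0.symm.trans hi)))
      · intro h0
        exact absurd (Finset.mem_univ i) h0
    · rw [Finset.sum_eq_zero]
      · rw [Int.cast_zero]
        exact mul_nonneg (Nat.cast_nonneg m) hΔ
      · intro i _
        rw [if_neg]
        intro h0
        exact hex ⟨i, h0⟩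
  rw [hval, hε]
  push_cast at hsum ⊢
  linarith

theorem theta_ge {P : X.primeDivisors} {Q : Z.primeDivisors} {e : ℕ} (hPQ : LiesOver P.1 Q.1 e)
    {v : DVal k L'} {ε : ℕ} (hv : LiesOver v P.1 ε) {i j : Option K'} (hij : i ≠ j) :
    0 ≤ v (F.theta i j) + F.mu P Q e v ε := by
  have hi := lin_ne_zero F.line i
  have hj := lin_ne_zero F.line j
  have hg : lin t i / lin t j ≠ 0 := div_ne_zero hi hj
  have hθ : F.theta i j ≠ 0 := theta_ne_zero F hij
  have hD : F.Dt (lin t i / lin t j) ≠ 0 := by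
    intro h0
    apply hθ
    unfold Frame.theta
    rw [h0, zero_div]
  have h1 := F.star P Q e hPQ v ε hv (lin t i / lin t j)
  rw [DVal.ge_iff hD] at h1
  have h2 : v (F.theta i j) = v (F.Dt (lin t i / lin t j)) - v (lin t i / lin t j) := by
    unfold Frame.theta
    rw [v.map_div hD hg]
  have h3 : v (lin t i / lin t j) - (ε * (F.a P + 1 - e * (F.c Q + 1)) - v F.u) ≤
      v (F.Dt (lin t i / lin t j)) := by
    exact_mod_cast h1
  rw [h2]
  unfold Frame.mu Frame.lam
  linarith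

/-- The value of `ψ` at a vertical valuation. -/
theorem psi_vert_eq (hx : ∀ i, x i i = 0) (hm : ∑ i, ∑ j, x i j = m)
    (P : X.primeDivisors) (Q : Z.primeDivisors) (e : ℕ) (v : DVal k L') (ε : ℕ) :
    v (H.phi x / F.u ^ m) + (ε : ℤ) * (m * F.lam P Q e) =
      ∑ i : H.S, ∑ j : H.S, (x i j : ℤ) * (v (F.theta i.1 j.1) + F.mu P Q e v ε) := by
  rw [v.map_div (phi_ne_zero H hx) (pow_ne_zero _ F.u_ne), v.map_pow, val_phi_eq H v hx]
  simp only [mul_add, Finset.sum_add_distrib]
  have h1 : ∑ i : H.S, ∑ j : H.S, (x i j : ℤ) * F.mu P Q e v ε = m * F.mu P Q e v ε := by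
    rw [← hm]
    push_cast
    simp only [Finset.sum_mul]
  rw [h1]
  unfold Frame.mu
  ring

theorem psi_term_nonneg (hx : ∀ i, x i i = 0)
    {P : X.primeDivisors} {Q : Z.primeDivisors} {e : ℕ} (hPQ : LiesOver P.1 Q.1 e)
    {v : DVal k L'} {ε : ℕ} (hv : LiesOver v P.1 ε) (i j : H.S) :
    0 ≤ (x i j : ℤ) * (v (F.theta i.1 j.1) + F.mu P Q e v ε) := by
  by_cases hij : i = j
  · subst hij
    rw [hx]
    simp
  · exact mul_nonneg (Int.natCast_nonneg _) (theta_ge hPQ hv (fun h0 => hij (Subtype.ext h0)))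

theorem psi_vert (hx : ∀ i, x i i = 0) (hm : ∑ i, ∑ j, x i j = m)
    {P : X.primeDivisors} {Q : Z.primeDivisors} {e : ℕ} (hPQ : LiesOver P.1 Q.1 e)
    {v : DVal k L'} {ε : ℕ} (hv : LiesOver v P.1 ε) :
    -((ε : ℤ) * (m * F.lam P Q e)) ≤ v (H.phi x / F.u ^ m) := by
  have h1 := psi_vert_eq H hx hm P Q e v ε
  have h2 : 0 ≤ ∑ i : H.S, ∑ j : H.S, (x i j : ℤ) * (v (F.theta i.1 j.1) + F.mu P Q e v ε) :=
    Finset.sum_nonneg fun i _ => Finset.sum_nonneg fun j _ => psi_term_nonneg H hx hPQ hv i j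
  linarith

theorem psi_strict (hx : ∀ i, x i i = 0) (hm : ∑ i, ∑ j, x i j = m)
    {P : X.primeDivisors} {Q : Z.primeDivisors} {e : ℕ} (hPQ : LiesOver P.1 Q.1 e)
    {v : DVal k L'} {ε : ℕ} (hv : LiesOver v P.1 ε) {i j : H.S} (hij : x i j ≠ 0)
    (h : v (F.theta i.1 j.1) + F.mu P Q e v ε ≠ 0) :
    -((ε : ℤ) * (m * F.lam P Q e)) < v (H.phi x / F.u ^ m) := by
  have h1 := psi_vert_eq H hx hm P Q e v ε
  have hne : i ≠ j := by
    rintro rfl
    exact hij (hx i)
  have h3 : 0 < (x i j : ℤ) * (v (F.theta i.1 j.1) + F.mu P Q e v ε) := by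
    apply mul_pos
    · exact_mod_cast Nat.pos_of_ne_zero hij
    · exact lt_of_le_of_ne (theta_ge hPQ hv (fun h0 => hne (Subtype.ext h0))) (Ne.symm h)
  have h2 : 0 < ∑ i : H.S, ∑ j : H.S, (x i j : ℤ) * (v (F.theta i.1 j.1) + F.mu P Q e v ε) := by
    refine Finset.sum_pos' (fun i _ => Finset.sum_nonneg fun j _ =>
      psi_term_nonneg H hx hPQ hv i j) ⟨i, Finset.mem_univ i, ?_⟩
    exact Finset.sum_pos' (fun j _ => psi_term_nonneg H hx hPQ hv i j)
      ⟨j, Finset.mem_univ j, h3⟩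
  linarith

end Pool.Agent.Helper63.PB
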