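import Pool.Agent.Helper63.PB.Real

set_option autoImplicit false

/-!
# PB-14 Weights: exponents

`δ : ι → ℚ` with `0 < δ i ≤ 1`.

`weights_eq`: if `∑ δ = 2`, there are `m ≥ 1` and `x` with zero diagonal, sum `m` and
`∑_j (x i j + x j i) = m δ i`. PROOF. `m` a common denominator of the `δ i`; `n i = m δ i ∈ ℕ`, sum `2 m`,
`n i ≤ m`: `exists_pairing`.

`weights_gt`: if `∑ δ > 2` there are `m ≥ 1` and `x, x'` with zero diagonal, sum `m`, all
`x i j, x' i j ≥ 1` for `i ≠ j`, `∑_j (x i j + x j i) ≤ m δ i`, the same for `x'`, and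
`∑_j (x i j + x j i) ≠ ∑_j (x' i j + x' j i)` for some `i`.
PROOF. `D = ∑ δ`, `r = card ι`, `r ≥ 3` as all `δ i ≤ 1`. Put `ν i = 2 δ i / D`: `∑ ν = 2`,
`0 < ν i < min (1, δ i)`. For small rational `η > 0` put `ν'` = `ν` changed by `+η` at `i₀` and
`-η` at `j₀` (`i₀ ≠ j₀` fixed): still `∑ ν' = 2`, `0 < ν' i < min (1, δ i)`. Let `m` be a large common
denominator of all `ν i`, `ν' i` (a multiple `m = q m₀` of one of them). `n i = m ν i`. Put
`n₁ i = n i - 2 (r - 1)` (subtract the degrees of the graph with `x i j = 1` for all ordered pairs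
`i ≠ j`, which has `r (r - 1)` edges and all `∑_j (x i j + x j i) = 2 (r - 1)`): `∑ n₁ = 2 (m - r (r - 1))`, and
`0 ≤ n₁ i ≤ m - r (r - 1)` for `m` large since `0 < ν i < 1`. `exists_pairing` gives `x₁`, and
`x = x₁ + 1` off the diagonal. The same for `n'`, with the same `m`.
-/

namespace Pool.Agent.Helper63.PB

variable {ι : Type*} [Fintype ι]

/-- common denominator -/
theorem w_den (δ : ι → ℚ) (h0 : ∀ i, 0 ≤ δ i) :
    ∃ (m : ℕ) (k : ι → ℕ), 0 < m ∧ ∀ i, (m : ℚ) * δ i = k i := by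
  classical
  refine ⟨∏ i, (δ i).den, fun i => (∏ j ∈ Finset.univ.erase i, (δ j).den) * (δ i).num.toNat,
    Finset.prod_pos fun i _ => (δ i).den_pos, fun i => ?_⟩
  have h1 : ∏ j, (δ j).den = (δ i).den * ∏ j ∈ Finset.univ.erase i, (δ j).den :=
    (Finset.mul_prod_erase _ _ (Finset.mem_univ i)).symm
  have h2 : ((δ i).num.toNat : ℚ) = ((δ i).num : ℚ) := by
    have : (((δ i).num.toNat : ℤ)) = (δ i).num := Int.toNat_of_nonneg (Rat.num_nonneg.2 (h0 i))
    exact_mod_cast this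
  have h3 : ((δ i).den : ℚ) * δ i = ((δ i).num : ℚ) := by
    rw [mul_comm]
    exact Rat.mul_den_eq_num (δ i)
  rw [h1]
  push_cast
  rw [h2, ← h3]
  ring

theorem w_core {ν : ι → ℚ} {m₀ : ℕ} {k : ι → ℕ} (hk : ∀ i, (m₀ : ℚ) * ν i = k i)
    (hm : 0 < m₀) (h0 : ∀ i, 0 < ν i) (h1 : ∀ i, ν i < 1) (h2 : ∑ i, ν i = 2) {q : ℕ}
    (hq : Fintype.card ι * Fintype.card ι + 2 * Fintype.card ι ≤ q) :
    ∃ x : ι → ι → ℕ, (∀ i, x i i = 0) ∧ ∑ i, ∑ j, x i j = q * m₀ ∧
      (∀ i j, i ≠ j → 1 ≤ x i j) ∧ ∀ i, ∑ j, (x i j + x j i) = q * k i := by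
  classical
  have hm' : (0 : ℚ) < m₀ := by exact_mod_cast hm
  have hk1 : ∀ i, 1 ≤ k i := by
    intro i
    have : (0 : ℚ) < k i := by
      rw [← hk i]
      exact mul_pos hm' (h0 i)
    exact_mod_cast this
  have hk2 : ∀ i, k i + 1 ≤ m₀ := by
    intro i
    have : (k i : ℚ) < m₀ := by
      rw [← hk i]
      calc (m₀ : ℚ) * ν i < m₀ * 1 := mul_lt_mul_of_pos_left (h1 i) hm'
        _ = m₀ := mul_one _
    have h : k i < m₀ := by exact_mod_cast this
    omega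
  have hksum : ∑ i, k i = 2 * m₀ := by
    have h : ((∑ i, k i : ℕ) : ℚ) = ((2 * m₀ : ℕ) : ℚ) := by
      push_cast
      rw [← Finset.sum_congr rfl fun i _ => hk i, ← Finset.mul_sum, h2]
      ring
    exact_mod_cast h
  set r := Fintype.card ι with hr
  have hpos : ∀ i : ι, 1 ≤ r := fun i => by
    rw [hr]
    exact Fintype.card_pos_iff.2 ⟨i⟩
  have hne : 1 ≤ r := by
    by_contra hc
    have h0' : r = 0 := by omega
    have he : IsEmpty ι := Fintype.card_eq_zero_iff.1 (hr ▸ h0')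
    rw [Finset.univ_eq_empty, Finset.sum_empty] at h2
    norm_num at h2
  obtain ⟨s, hs⟩ : ∃ s, r = s + 1 := ⟨r - 1, by omega⟩
  have hqr : (s + 1) * (s + 1) + 2 * (s + 1) ≤ q := by rw [← hs]; exact hq
  have hqm : q ≤ q * m₀ := Nat.le_mul_of_pos_right _ hm
  have hge : ∀ i, 2 * s ≤ q * k i := by
    intro i
    have : q * 1 ≤ q * k i := Nat.mul_le_mul_left _ (hk1 i)
    nlinarith
  have hup : ∀ i, q * k i + q ≤ q * m₀ := by
    intro i
    have : q * (k i + 1) ≤ q * m₀ := Nat.mul_le_mul_left _ (hk2 i)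
    nlinarith
  have hsum : ∑ i, (q * k i - 2 * s) = 2 * (q * m₀ - (s + 1) * s) := by
    have h3 : ∑ i, (q * k i - 2 * s) + ∑ i : ι, 2 * s = ∑ i, q * k i := by
      rw [← Finset.sum_add_distrib]
      exact Finset.sum_congr rfl fun i _ => Nat.sub_add_cancel (hge i)
    rw [Finset.sum_const, Finset.card_univ, ← hr, hs, smul_eq_mul, ← Finset.mul_sum, hksum] at h3
    have h4 : (s + 1) * s ≤ q * m₀ := by nlinarith
    have h5 : (s + 1) * (2 * s) = 2 * ((s + 1) * s) := by ring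
    have h6 : q * (2 * m₀) = 2 * (q * m₀) := by ring
    rw [h5, h6] at h3
    omega
  obtain ⟨x, hx0, hx1, hx2⟩ := exists_pairing (fun i => q * k i - 2 * s) hsum (fun i => by
    have h7 := hup i
    have h8 : (s + 1) * s ≤ q := by nlinarith
    show q * k i - 2 * s ≤ q * m₀ - (s + 1) * s
    omega)
  have hdiag : ∀ i : ι, ∑ j, (if i = j then 0 else 1) = s := by
    intro i
    have h9 : ∑ j, (if i = j then 0 else 1) + ∑ j, (if i = j then 1 else 0) = r := by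
      rw [← Finset.sum_add_distrib, hr, ← Finset.card_univ, Finset.card_eq_sum_ones]
      refine Finset.sum_congr rfl fun j _ => ?_
      by_cases h : i = j
      · simp [h]
      · simp [h]
    rw [Finset.sum_ite_eq, if_pos (Finset.mem_univ _), hs] at h9
    omega
  have hdiag' : ∀ i : ι, ∑ j, (if j = i then 0 else 1) = s := by
    intro i
    rw [← hdiag i]
    exact Finset.sum_congr rfl fun j _ => by
      by_cases h : i = j
      · simp [h]
      · simp [h, Ne.symm h]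
  refine ⟨fun i j => x i j + (if i = j then 0 else 1), fun i => ?_, ?_, fun i j hij => ?_,
    fun i => ?_⟩
  · show x i i + _ = 0
    rw [hx0 i, if_pos rfl]
  · rw [Finset.sum_congr rfl fun i _ => Finset.sum_add_distrib, Finset.sum_add_distrib, hx2,
      Finset.sum_congr rfl fun i _ => hdiag i, Finset.sum_const, Finset.card_univ, ← hr, hs,
      smul_eq_mul]
    have h4 : (s + 1) * s ≤ q * m₀ := by nlinarith
    omega
  · show 1 ≤ x i j + (if i = j then 0 else 1)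
    rw [if_neg hij]
    omega
  · have h10 : ∑ j, ((x i j + (if i = j then 0 else 1)) + (x j i + (if j = i then 0 else 1))) =
        ∑ j, (x i j + x j i) + (∑ j, (if i = j then 0 else 1) + ∑ j, (if j = i then 0 else 1)) := by
      rw [← Finset.sum_add_distrib, ← Finset.sum_add_distrib]
      refine Finset.sum_congr rfl fun j _ => ?_
      ring
    rw [h10, hx1 i, hdiag i, hdiag' i]
    have := hge i
    show q * k i - 2 * s + (s + s) = q * k i
    omega


theorem weights_eq {δ : ι → ℚ} (h0 : ∀ i, 0 < δ i) (h1 : ∀ i, δ i ≤ 1) (h2 : ∑ i, δ i = 2) :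
    ∃ (m : ℕ) (x : ι → ι → ℕ), 0 < m ∧ (∀ i, x i i = 0) ∧ ∑ i, ∑ j, x i j = m ∧
      ∀ i, ((∑ j, (x i j + x j i) : ℕ) : ℚ) = m * δ i := by
  classical
  obtain ⟨m, k, hm, hk⟩ := w_den δ fun i => (h0 i).le
  have hm' : (0 : ℚ) < m := by exact_mod_cast hm
  have hksum : ∑ i, k i = 2 * m := by
    have h : ((∑ i, k i : ℕ) : ℚ) = ((2 * m : ℕ) : ℚ) := by
      push_cast
      rw [← Finset.sum_congr rfl fun i _ => hk i, ← Finset.mul_sum, h2]
      ring
    exact_mod_cast h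
  have hle : ∀ i, k i ≤ m := by
    intro i
    have : (k i : ℚ) ≤ m := by
      rw [← hk i]
      calc (m : ℚ) * δ i ≤ m * 1 := mul_le_mul_of_nonneg_left (h1 i) hm'.le
        _ = m := mul_one _
    exact_mod_cast this
  obtain ⟨x, hx0, hx1, hx2⟩ := exists_pairing k hksum hle
  exact ⟨m, x, hm, hx0, hx2, fun i => by rw [hx1 i, hk i]⟩

theorem weights_gt {δ : ι → ℚ} (h0 : ∀ i, 0 < δ i) (h1 : ∀ i, δ i ≤ 1) (h2 : 2 < ∑ i, δ i) :
    ∃ (m : ℕ) (x x' : ι → ι → ℕ), 0 < m ∧ (∀ i, x i i = 0) ∧ (∀ i, x' i i = 0) ∧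
      ∑ i, ∑ j, x i j = m ∧ ∑ i, ∑ j, x' i j = m ∧
      (∀ i j, i ≠ j → 1 ≤ x i j ∧ 1 ≤ x' i j) ∧
      (∀ i, ((∑ j, (x i j + x j i) : ℕ) : ℚ) ≤ m * δ i) ∧
      (∀ i, ((∑ j, (x' i j + x' j i) : ℕ) : ℚ) ≤ m * δ i) ∧
      ∃ i, ∑ j, (x i j + x j i) ≠ ∑ j, (x' i j + x' j i) := by
  classical
  set D := ∑ i, δ i with hD
  have hD0 : 0 < D := by linarith
  -- there are two different indices
  obtain ⟨i₀, j₀, hij⟩ : ∃ i₀ j₀ : ι, i₀ ≠ j₀ := by
    by_contra hc
    push Not at hc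
    have hle : ∑ i, δ i ≤ ∑ _i : ι, (1 : ℚ) := Finset.sum_le_sum fun i _ => h1 i
    rw [Finset.sum_const, Finset.card_univ, nsmul_eq_mul, mul_one] at hle
    have hcard : Fintype.card ι ≤ 1 := Fintype.card_le_one_iff.2 hc
    have : (Fintype.card ι : ℚ) ≤ 1 := by exact_mod_cast hcard
    linarith
  let ν : ι → ℚ := fun i => 2 * δ i / D
  have hν0 : ∀ i, 0 < ν i := fun i => div_pos (mul_pos two_pos (h0 i)) hD0
  have hνδ : ∀ i, ν i < δ i := by
    intro i
    show 2 * δ i / D < δ i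
    rw [div_lt_iff₀ hD0]
    nlinarith [h0 i]
  have hν2 : ∑ i, ν i = 2 := by
    show ∑ i, 2 * δ i / D = 2
    rw [← Finset.sum_div, ← Finset.mul_sum, ← hD]
    field_simp
  let η : ℚ := min (δ i₀ - ν i₀) (ν j₀) / 2
  have hη0 : 0 < η := by
    have h3 : 0 < min (δ i₀ - ν i₀) (ν j₀) := lt_min (sub_pos.2 (hνδ i₀)) (hν0 j₀)
    exact div_pos h3 two_pos
  have hη1 : ν i₀ + η < δ i₀ := by
    have h3 : min (δ i₀ - ν i₀) (ν j₀) ≤ δ i₀ - ν i₀ := min_le_left _ _
    have h4 : 0 < δ i₀ - ν i₀ := sub_pos.2 (hνδ i₀)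
    have h5 : η ≤ (δ i₀ - ν i₀) / 2 := div_le_div_of_nonneg_right h3 zero_le_two
    linarith
  have hη2 : 0 < ν j₀ - η := by
    have h3 : min (δ i₀ - ν i₀) (ν j₀) ≤ ν j₀ := min_le_right _ _
    have h4 := hν0 j₀
    have h5 : η ≤ ν j₀ / 2 := div_le_div_of_nonneg_right h3 zero_le_two
    linarith
  let ν' : ι → ℚ := fun i => ν i + ((if i = i₀ then η else 0) - (if i = j₀ then η else 0))
  have hν'0 : ∀ i, 0 < ν' i := by
    intro i
    show 0 < ν i + ((if i = i₀ then η else 0) - (if i = j₀ then η else 0))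
    by_cases ha : i = i₀
    · rw [if_pos ha, if_neg (fun h => hij (ha.symm.trans h))]
      have := hν0 i
      linarith
    · by_cases hb : i = j₀
      · rw [if_neg ha, if_pos hb, hb]
        linarith
      · rw [if_neg ha, if_neg hb]
        have := hν0 i
        linarith
  have hν'δ : ∀ i, ν' i < δ i := by
    intro i
    show ν i + ((if i = i₀ then η else 0) - (if i = j₀ then η else 0)) < δ i
    by_cases ha : i = i₀
    · rw [if_pos ha, if_neg (fun h => hij (ha.symm.trans h)), ha]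
      linarith
    · by_cases hb : i = j₀
      · rw [if_neg ha, if_pos hb, hb]
        have := hνδ j₀
        linarith
      · rw [if_neg ha, if_neg hb]
        have := hνδ i
        linarith
  have hν'2 : ∑ i, ν' i = 2 := by
    show ∑ i, (ν i + ((if i = i₀ then η else 0) - (if i = j₀ then η else 0))) = 2
    rw [Finset.sum_add_distrib, Finset.sum_sub_distrib, Finset.sum_ite_eq', Finset.sum_ite_eq',
      if_pos (Finset.mem_univ _), if_pos (Finset.mem_univ _), hν2]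
    ring
  obtain ⟨m₁, k₁, hm₁, hk₁⟩ := w_den ν fun i => (hν0 i).le
  obtain ⟨m₂, k₂, hm₂, hk₂⟩ := w_den ν' fun i => (hν'0 i).le
  have hk₁' : ∀ i, ((m₁ * m₂ : ℕ) : ℚ) * ν i = ((m₂ * k₁ i : ℕ) : ℚ) := by
    intro i
    push_cast
    rw [← hk₁ i]
    ring
  have hk₂' : ∀ i, ((m₁ * m₂ : ℕ) : ℚ) * ν' i = ((m₁ * k₂ i : ℕ) : ℚ) := by
    intro i
    push_cast
    rw [← hk₂ i]
    ring
  set q := Fintype.card ι * Fintype.card ι + 2 * Fintype.card ι with hq
  have hm : 0 < m₁ * m₂ := Nat.mul_pos hm₁ hm₂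
  have hcard : 0 < Fintype.card ι := Fintype.card_pos_iff.2 ⟨i₀⟩
  have hq0 : 0 < q := by
    rw [hq]
    positivity
  obtain ⟨x, hx0, hx1, hx2, hx3⟩ := w_core (k := fun i => m₂ * k₁ i) hk₁' hm hν0
    (fun i => (hνδ i).trans_le (h1 i)) hν2 (le_refl q)
  obtain ⟨x', hx'0, hx'1, hx'2, hx'3⟩ := w_core (k := fun i => m₁ * k₂ i) hk₂' hm hν'0
    (fun i => (hν'δ i).trans_le (h1 i)) hν'2 (le_refl q)
  have hM : (0 : ℚ) < ((q * (m₁ * m₂) : ℕ) : ℚ) := by exact_mod_cast Nat.mul_pos hq0 hm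
  have hd : ∀ i, ((∑ j, (x i j + x j i) : ℕ) : ℚ) = ((q * (m₁ * m₂) : ℕ) : ℚ) * ν i := by
    intro i
    rw [hx3 i]
    have := hk₁' i
    push_cast at this ⊢
    rw [mul_assoc, this]
  have hd' : ∀ i, ((∑ j, (x' i j + x' j i) : ℕ) : ℚ) = ((q * (m₁ * m₂) : ℕ) : ℚ) * ν' i := by
    intro i
    rw [hx'3 i]
    have := hk₂' i
    push_cast at this ⊢
    rw [mul_assoc, this]
  refine ⟨q * (m₁ * m₂), x, x', Nat.mul_pos hq0 hm, hx0, hx'0, hx1, hx'1,
    fun i j h => ⟨hx2 i j h, hx'2 i j h⟩, fun i => ?_, fun i => ?_, i₀, fun h => ?_⟩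
  · rw [hd i]
    exact mul_le_mul_of_nonneg_left (hνδ i).le hM.le
  · rw [hd' i]
    exact mul_le_mul_of_nonneg_left (hν'δ i).le hM.le
  · have h3 : ((q * (m₁ * m₂) : ℕ) : ℚ) * ν i₀ = ((q * (m₁ * m₂) : ℕ) : ℚ) * ν' i₀ := by
      rw [← hd i₀, ← hd' i₀, h]
    have h4 : ν i₀ = ν' i₀ := mul_left_cancel₀ hM.ne' h3
    have h5 : ν' i₀ = ν i₀ + η := by
      show ν i₀ + ((if i₀ = i₀ then η else 0) - (if i₀ = j₀ then η else 0)) = ν i₀ + η
      rw [if_pos rfl, if_neg hij]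
      ring
    rw [h5] at h4
    linarith

end Pool.Agent.Helper63.PB
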