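import Pool.Agent.Helper63.PB.CurveDefs
import Pool.Agent.Helper63.PB.PsiBounds
import Pool.Agent.Helper63.PB.MkHor
import Pool.Agent.Helper63.PB.Weights

set_option autoImplicit false
set_option linter.unusedSectionVars false

/-!
# PB-40 Big: pairs of positive degree on the generic fibre
-/

namespace Pool.Agent.Helper63.PB

open Pool.Agent.Helper92.Weak Pool.Agent.Helper92.Ga

variable {k K L K' L' : Type*} [Field k] [Field K] [Field L] [Field K'] [Field L']
  [Algebra k K] [Algebra k L] [Algebra k K'] [Algebra k L'] [Algebra K L] [Algebra K K']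
  [Algebra K L'] [Algebra L L'] [Algebra K' L'] [IsScalarTower k K L] [IsScalarTower k K K']
  [IsScalarTower k K L'] [IsScalarTower k L L'] [IsScalarTower k K' L'] [IsScalarTower K L L']
  [IsScalarTower K K' L'] [FiniteDimensional K K'] [FiniteDimensional L L'] [CharZero k]
  {X : ProjVar k L} {Z : ProjVar k K} {t : L'} {F : Frame X Z K' t} {Δ : X.Div}

open Classical in
theorem sum_min (H : HorData F Δ) {P : X.primeDivisors}
    (hP : ∀ x : K, P.1 (algebraMap K L x) = 0) {v : DVal k L'} (hv : LiesOver v P.1 1)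
    (c : ℚ) (g : H.S → ℚ) (hg : ∀ i : H.S, g i = c * min (Δ (H.pr i.1)) 1) :
    ∑ i : H.S, (if v = plc k F.line i.1 then g i else 0) = c * min (Δ P) 1 := by
  have hpr : ∀ i : H.S, v = plc k F.line i.1 → H.pr i.1 = P := by
    intro i hi
    have h1 := H.ov i.1
    rw [← hi] at h1
    exact Subtype.ext (Pool.Agent.Helper47.PQ.liesOver_unique h1 hv).1
  by_cases hΔ : Δ P = 0
  · rw [hΔ, min_eq_left zero_le_one, mul_zero]
    refine Finset.sum_eq_zero fun i _ => if_neg fun hi => ?_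
    exact (H.mem i.1).1 i.2 (by rw [hpr i hi, hΔ])
  · obtain ⟨i₀, hi₀, hvi, hpi⟩ := H.split P hP hΔ v 1 hv
    rw [Finset.sum_eq_single (⟨i₀, hi₀⟩ : H.S)]
    · rw [if_pos hvi, hg, hpi]
    · intro j _ hj
      refine if_neg fun hvj => hj (Subtype.ext ?_)
      exact plc_injective F.line (hvj.symm.trans hvi)
    · intro h0
      exact absurd (Finset.mem_univ _) h0

/-- Sections of a divisor of degree at most zero are constant multiples of each other. -/
theorem const_of_le (H : HorData F Δ)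
    (h0 : ∀ P : X.primeDivisors, (∀ x : K, P.1 (algebraMap K L x) = 0) → 0 ≤ Δ P)
    (hD : ∑ i ∈ H.S, min (Δ (H.pr i)) 1 ≤ 2) {g₀ : L} (hg₀ : g₀ ≠ 0)
    {C : X.primeDivisors → ℚ} (hC : ∀ P, C P = P.1 g₀ + F.a P) {m M : ℕ} {n : H.S → ℕ}
    (hn : ∀ i : H.S, (M : ℚ) * min (Δ (H.pr i)) 1 = n i) {f : L} (hf : f ≠ 0)
    (hfP : ∀ P : X.primeDivisors, (∀ x : K, P.1 (algebraMap K L x) = 0) →
      0 ≤ P.1 f + m * (C P + min (Δ P) 1)) :
    ∃ c : K', algebraMap L L' (f ^ M * g₀ ^ (m * M)) * F.u ^ (m * M) *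
      ∏ i : H.S, lin t i.1 ^ (m * n i) = algebraMap K' L' c := by
  classical
  set Λ := ∏ i : H.S, lin t i.1 ^ (m * n i) with hΛ
  set Φ := algebraMap L L' (f ^ M * g₀ ^ (m * M)) * F.u ^ (m * M) * Λ with hΦ
  have hlin : ∀ i : H.S, lin t i.1 ^ (m * n i) ≠ 0 := fun i =>
    pow_ne_zero _ (lin_ne_zero F.line i.1)
  have hΛ0 : Λ ≠ 0 := Finset.prod_ne_zero_iff.2 fun i _ => hlin i
  have hu0 : F.u ^ (m * M) ≠ 0 := pow_ne_zero _ F.u_ne
  have hf0 : algebraMap L L' (f ^ M * g₀ ^ (m * M)) ≠ 0 := by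
    rw [map_ne_zero]
    exact mul_ne_zero (pow_ne_zero _ hf) (pow_ne_zero _ hg₀)
  have hΦ0 : Φ ≠ 0 := mul_ne_zero (mul_ne_zero hf0 hu0) hΛ0
  -- the value of `Λ`
  have hvΛ : ∀ v : DVal k L', (∀ x : K', v (algebraMap K' L' x) = 0) →
      v Λ = ∑ i : H.S, ((m * n i : ℕ) : ℤ) * ((if v = plc k F.line i.1 then (1 : ℤ) else 0) -
        (if v t < 0 then (1 : ℤ) else 0)) := by
    intro v hv
    rw [hΛ, DVal.map_prod v Finset.univ _ fun i _ => hlin i]
    refine Finset.sum_congr rfl fun i _ => ?_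
    rw [DVal.map_pow, val_lin F.line hv]
  have key : ∀ v : DVal k L', (∀ x : K', v (algebraMap K' L' x) = 0) → 0 ≤ v Φ := by
    intro v hv
    obtain ⟨P, hP, hvP⟩ := exists_hor_under F hv
    obtain ⟨-, hu1, hu2⟩ := F.hor P hP v 1 hvP
    have h1 : v (algebraMap L L' (f ^ M * g₀ ^ (m * M))) = M * P.1 f + (m * M : ℕ) * P.1 g₀ := by
      rw [hvP.2, P.1.map_mul (pow_ne_zero _ hf) (pow_ne_zero _ hg₀), P.1.map_pow, P.1.map_pow]
      push_cast
      ring
    have h2 : v Φ = M * P.1 f + (m * M : ℕ) * P.1 g₀ + (m * M : ℕ) * v F.u + v Λ := by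
      rw [hΦ, v.map_mul (mul_ne_zero hf0 hu0) hΛ0, v.map_mul hf0 hu0, h1, v.map_pow]
    have h3 := hfP P hP
    have h3' := hC P
    have h4 := sum_min H hP hvP ((m * M : ℕ) : ℚ) (fun i => ((m * n i : ℕ) : ℚ)) (fun i => by
      push_cast
      rw [← hn i]
      ring)
    have h5 := hvΛ v hv
    have hM0 : (0 : ℚ) ≤ M := Nat.cast_nonneg M
    have hm0 : (0 : ℚ) ≤ m := Nat.cast_nonneg m
    have h6 : (0 : ℚ) ≤ (M : ℚ) * (P.1 f + m * (C P + min (Δ P) 1)) := mul_nonneg hM0 h3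
    by_cases ht : v t < 0
    · have h7 : ((v Λ : ℤ) : ℚ) = ((m * M : ℕ) : ℚ) * min (Δ P) 1 -
          ∑ i : H.S, ((m * n i : ℕ) : ℚ) := by
        rw [h5, ← h4, ← Finset.sum_sub_distrib]
        push_cast
        refine Finset.sum_congr rfl fun i _ => ?_
        rw [if_pos ht]
        split_ifs <;> push_cast <;> ring
      have h8 : ∑ i : H.S, ((m * n i : ℕ) : ℚ) ≤ 2 * (m * M : ℕ) := by
        have h9 : ∑ i : H.S, ((m * n i : ℕ) : ℚ) =
            (m * M : ℕ) * ∑ i ∈ H.S, min (Δ (H.pr i)) 1 := by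
          rw [← Finset.sum_coe_sort H.S, Finset.mul_sum]
          refine Finset.sum_congr rfl fun i _ => ?_
          push_cast
          rw [← hn i]
          ring
        rw [h9]
        have h10 : (0 : ℚ) ≤ ((m * M : ℕ) : ℚ) := Nat.cast_nonneg _
        nlinarith
      have h11 := hu2 ht
      have h12 : ((v Φ : ℤ) : ℚ) = M * P.1 f + (m * M : ℕ) * P.1 g₀ +
          (m * M : ℕ) * (F.a P + 2) + ((v Λ : ℤ) : ℚ) := by
        rw [h2, h11]
        push_cast
        ring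
      have h13 : (0 : ℚ) ≤ ((v Φ : ℤ) : ℚ) := by
        rw [h12, h7]
        rw [h3'] at h6
        push_cast at h8 h6 ⊢
        nlinarith
      exact_mod_cast h13
    · have h7 : ((v Λ : ℤ) : ℚ) = ((m * M : ℕ) : ℚ) * min (Δ P) 1 := by
        rw [h5, ← h4]
        push_cast
        refine Finset.sum_congr rfl fun i _ => ?_
        rw [if_neg ht]
        split_ifs <;> push_cast <;> ring
      have h11 := hu1 (not_lt.1 ht)
      have h12 : ((v Φ : ℤ) : ℚ) = M * P.1 f + (m * M : ℕ) * P.1 g₀ +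
          (m * M : ℕ) * (F.a P) + ((v Λ : ℤ) : ℚ) := by
        rw [h2, h11]
        push_cast
        ring
      have h13 : (0 : ℚ) ≤ ((v Φ : ℤ) : ℚ) := by
        rw [h12, h7]
        rw [h3'] at h6
        push_cast at h6 ⊢
        nlinarith
      exact_mod_cast h13
  obtain ⟨b, hb⟩ := exists_poly_of_nonneg k F.line (z := Φ) fun p hp =>
    key _ fun x => pVal_algebraMap k F.line hp x
  have hb0 : b ≠ 0 := by
    rintro rfl
    rw [map_zero] at hb
    exact hΦ0 hb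
  have h1 := key (infVal k F.line) (infVal_algebraMap F.line)
  rw [hb, infVal_aeval F.line hb0] at h1
  have h2 : b.natDegree = 0 := by omega
  rw [Polynomial.eq_C_of_natDegree_eq_zero h2, Polynomial.aeval_C] at hb
  exact ⟨b.coeff 0, hb⟩

theorem two_lt_of_big (H : HorData F Δ)
    (h0 : ∀ P : X.primeDivisors, (∀ x : K, P.1 (algebraMap K L x) = 0) → 0 ≤ Δ P)
    {g₀ : L} (hg₀ : g₀ ≠ 0) {n : ℕ} {p : X.Pair n} (hp : p.Δ = Δ)
    (hC : ∀ P, p.can P = P.1 g₀ + F.a P) (hbig : IsBigOnFibre K p) :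
    2 < ∑ i ∈ H.S, min (Δ (H.pr i)) 1 := by
  by_contra hle
  obtain ⟨m, f, g, htr, hfg⟩ := hbig
  obtain ⟨M, n', hM, hn⟩ := w_den (fun i : H.S => min (Δ (H.pr i)) 1) fun i =>
    le_min (h0 _ (H.triv i.1)) zero_le_one
  have hf : f ≠ 0 := by
    rintro rfl
    rw [zero_div] at htr
    exact htr isAlgebraic_zero
  have hg : g ≠ 0 := by
    rintro rfl
    rw [div_zero] at htr
    exact htr isAlgebraic_zero
  subst hp
  obtain ⟨c, hc⟩ := const_of_le H h0 (not_lt.1 hle) hg₀ hC hn hf fun P hP => (hfg P hP).1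
  obtain ⟨c', hc'⟩ := const_of_le H h0 (not_lt.1 hle) hg₀ hC hn hg fun P hP => (hfg P hP).2
  have hΛ0 : ∏ i : H.S, lin t i.1 ^ (m * n' i) ≠ 0 :=
    Finset.prod_ne_zero_iff.2 fun i _ => pow_ne_zero _ (lin_ne_zero F.line i.1)
  have hu0 : F.u ^ (m * M) ≠ 0 := pow_ne_zero _ F.u_ne
  have hg0' : algebraMap L L' g₀ ^ (m * M) ≠ 0 := by
    rw [← map_pow, map_ne_zero]
    exact pow_ne_zero _ hg₀
  have hgL : algebraMap L L' g ^ M ≠ 0 := by
    rw [← map_pow, map_ne_zero]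
    exact pow_ne_zero _ hg
  have e1 : algebraMap L L' ((f / g) ^ M) = algebraMap K' L' (c / c') := by
    rw [map_div₀, ← hc, ← hc']
    simp only [map_mul, map_pow, map_div₀, div_pow]
    field_simp
  have h1 : IsAlgebraic K (algebraMap L L' ((f / g) ^ M)) := by
    rw [e1]
    exact (Algebra.IsAlgebraic.isAlgebraic (R := K) (c / c')).algebraMap
  have h2 : IsAlgebraic K ((f / g) ^ M) :=
    (isAlgebraic_algebraMap_iff (algebraMap L L').injective).1 h1
  exact htr (IsAlgebraic.of_pow hM h2)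

end Pool.Agent.Helper63.PB
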