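import Pool.Agent.Helper63.PB.Stable
import Pool.Agent.Helper63.PB.FinExc
import Pool.Agent.Helper60.PB.G1.BadE

set_option autoImplicit false

/-!
# PB-43 Contract: stability and birational contractions

`X`, `X'` have the same function field `L` and every prime divisor of `X` is one of `X'` (for instance, there
is a birational morphism `X' → X`).

`finite_exc`. Let `R = k[g_j]`, `R' = k[g'_j]` be the charts with index `0` of `X` and `X'`
(`g_j = x_j / x_0`). Write `g'_j = a_j / b`, `a_j, b ∈ R`, `b ≠ 0` (common denominator, `chart_isFrac`). For all but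
finitely many `P ∈ X'.primeDivisors` (`X'.finite_support`) all `g_j ≠ 0`, `b` and all the `x'_j / x'_0 ≠ 0`
have value `0` at `P`. For such `P`: `P.ring` is the localisation of `R'` at a prime: it is the localisation of
some chart `R'_i` (`localRings`), and `x'_i / x'_0`, `x'_0 / x'_i ∈ P.ring` are units, `R'_i[x'_i / x'_0] =
R'[x'_0 / x'_i]`-like (`chart_le_iff`; there may be a lemma on changing the chart, e.g. in
`Weak/VarLem.lean` or `Weak/Loc.lean`; or use `X'.exists_center`-type lemmas). `R ≤ P.ring`; put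
`p = R ∩ m_P`, `R_p ≤ P.ring` (`locAt`). `b ∉ p`, so `R' ≤ R_p`. If `z ∈ P.ring`, `z = a / c` with `a, c ∈ R'`,
`P c = 0`; `c ∈ R_p` has value `0`, so it is a unit of `R_p` and `z ∈ R_p`. So `P.ring = R_p` is a local ring of
`X`, `P ∈ X.primeDivisors`.

`resDiv`: the restriction of a divisor to the primes of `X`. `exc N`: the sum of `N P` over the `P` not in `X`.

`kod_contract`. `C` = a natural number `≥` all the `C_P` of `val_ge_slope` for `D = resDiv D'`, `P` not in `X`
(finitely many), and `≥ |D'(P)|`: take `C = ∑ (C_P + ⌈|D' P|⌉)`. For `N ≥ C` and all `m`: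
`H⁰(X', m (D' + exc N)) = H⁰(X, m D)` as subspaces of `L`, if `m ≥ 1` and `C'` for `A = 0`: use
`val_ge_mul` (Helper60/PB/ValGe) instead for `A = 0`: `P f ≥ -C_P m`. So take `C_P` the maximum of the constants of
`val_ge_mul` and `val_ge_slope`. Let `N₀ ≥ 1` with `N₀ (D' + exc N)` integral (`exists_int_mult`); then
`N₀ D` is integral too, all `h0` are `sdim` of the same spaces, so `κ(N₀ D) = κ(N₀ (D' + exc N))`;
`kod_smul`.
`nu_contract`. `nu_eq_sup` for both. `≤`: for `A'` on `X'` the space `H⁰(X', m (D' + exc N) + A')` is contained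
in `H⁰(X, m D + resDiv A')`. `≥`: for `A` on `X` let `A'` be the extension of `A` with the values `C'_P` at the
`P` not in `X`; `H⁰(X, m D + A) ⊆ H⁰(X', m (D' + exc N) + A')`. `logGrowth_le_of_le`.

`isStable_contract`. `p`, `p'` pairs on `X`, `X'` with `p.Δ = resDiv p'.Δ`. `exists_psi` for both (the same
transcendence basis): `p'.can P = p.can P + P ψ₀` for `P ∈ X`, `ψ₀ ≠ 0`. So `resDiv (p'.logDiv - div ψ₀) = p.logDiv`.
`κ(p.logDiv) ≠ ⊥`: `H⁰(X', m p'.logDiv)` is contained in `H⁰(X, m resDiv p'.logDiv)`, which is, up to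
`ψ₀ ^ m`, `H⁰(X, m p.logDiv)` (or: `kod_contract`, `kod_mono`, `kod_add_prin`). For `B ≥ 0` on `X` let `B'` be its
extension by `0`: `p.logDiv + B = resDiv (p'.logDiv + B' - div ψ₀)`; take `N ≥ C` for `D' = p'.logDiv + B' - div ψ₀`.
Then `κ(p.logDiv + B) = κ(p'.logDiv + (B' + exc N) - div ψ₀) = κ(p'.logDiv + (B' + exc N)) =`
`ν(p'.logDiv + (B' + exc N)) = ... = ν(p.logDiv + B)` (`kod_add_prin`, `nu_add_prin`, stability of `p'`).
-/

namespace Pool.Agent.Helper63.PB

open Pool.Agent.Helper92.Weak Pool.Agent.Helper92.Ga Pool.Agent.Helper47.PQ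

variable {k L : Type*} [Field k] [Field L] [Algebra k L] {X X' : ProjVar k L}

/-- The restriction of a divisor to the prime divisors of `X`. -/
noncomputable def resDiv (hX : ∀ P ∈ X.primeDivisors, P ∈ X'.primeDivisors) (D' : X'.Div) : X.Div :=
  D'.comapDomain (fun P : X.primeDivisors => (⟨P.1, hX P.1 P.2⟩ : X'.primeDivisors))
    (fun P _ Q _ h => Subtype.ext (congrArg (fun R : X'.primeDivisors => R.1) h))

theorem resDiv_apply (hX : ∀ P ∈ X.primeDivisors, P ∈ X'.primeDivisors) (D' : X'.Div)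
    (P : X.primeDivisors) : resDiv hX D' P = D' ⟨P.1, hX P.1 P.2⟩ := rfl

variable (X X') in
/-- `N` times the sum of the prime divisors of `X'` which are not prime divisors of `X`. -/
noncomputable def exc (N : ℕ) : X'.Div :=
  (N : ℚ) • ∑ P ∈ (finite_exc X X').toFinset, Finsupp.single P 1

private theorem exc_apply (N : ℕ) (P : X'.primeDivisors) :
    (P.1 ∈ X.primeDivisors → exc X X' N P = 0) ∧ (P.1 ∉ X.primeDivisors → exc X X' N P = N) := by
  classical
  have h1 : exc X X' N P = (N : ℚ) * redDiv (finite_exc X X').toFinset P := rfl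
  rw [h1, redDiv_apply]
  constructor
  · intro h
    rw [if_neg, mul_zero]
    rw [Set.Finite.mem_toFinset]
    exact fun h2 => h2 h
  · intro h
    rw [if_pos, mul_one]
    rw [Set.Finite.mem_toFinset]
    exact h

/-- The extension by zero of a divisor on `X`. -/
private noncomputable def extDiv (hX : ∀ P ∈ X.primeDivisors, P ∈ X'.primeDivisors) (A : X.Div) :
    X'.Div :=
  Finsupp.mapDomain (fun P : X.primeDivisors => (⟨P.1, hX P.1 P.2⟩ : X'.primeDivisors)) A

private theorem inj_incl (hX : ∀ P ∈ X.primeDivisors, P ∈ X'.primeDivisors) :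
    Function.Injective fun P : X.primeDivisors => (⟨P.1, hX P.1 P.2⟩ : X'.primeDivisors) :=
  fun _ _ h => Subtype.ext (congrArg (fun R : X'.primeDivisors => R.1) h)

private theorem extDiv_apply (hX : ∀ P ∈ X.primeDivisors, P ∈ X'.primeDivisors) (A : X.Div)
    (P : X.primeDivisors) : extDiv hX A ⟨P.1, hX P.1 P.2⟩ = A P := by
  unfold extDiv
  exact Finsupp.mapDomain_apply (inj_incl hX) A P

private theorem extDiv_notin (hX : ∀ P ∈ X.primeDivisors, P ∈ X'.primeDivisors) (A : X.Div)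
    (P : X'.primeDivisors) (hP : P.1 ∉ X.primeDivisors) : extDiv hX A P = 0 := by
  unfold extDiv
  refine Finsupp.mapDomain_of_notMem_range _ _ ?_
  rintro ⟨Q, hQ⟩
  apply hP
  rw [← hQ]
  exact Q.2

private theorem logGrowth_mono' {h1 h2 : ℕ → ℕ∞} (h : ∀ m, h1 m ≤ h2 m) :
    logGrowth h1 ≤ logGrowth h2 :=
  logGrowth_le_of_le (C := 1) (φ := fun m => m) Filter.tendsto_id (a := 1) (c := 0)
    (fun m => by simp) fun m _ => by
      rw [Nat.cast_one, one_mul]
      exact h m

theorem kod_contract [IsAlgClosed k] (hX : ∀ P ∈ X.primeDivisors, P ∈ X'.primeDivisors)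
    (D' : X'.Div) : ∃ C : ℕ, ∀ N : ℕ, C ≤ N →
      X.kod (resDiv hX D') = X'.kod (D' + exc X X' N) ∧
      X.nu (resDiv hX D') = X'.nu (D' + exc X X' N) := by
  classical
  set D : X.Div := resDiv hX D' with hD
  set S : Finset X'.primeDivisors := (finite_exc X X').toFinset with hS
  have hmemS : ∀ P : X'.primeDivisors, P.1 ∉ X.primeDivisors → P ∈ S := fun P hP => by
    rw [hS, Set.Finite.mem_toFinset]
    exact hP
  choose c₁ hc₁ using fun P : X'.primeDivisors => Pool.Agent.Helper60.PB.val_ge_slope X D P.1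
  choose c₂ hc₂ using fun P : X'.primeDivisors => Pool.Agent.Helper60.PB.val_ge_mul X D P.1
  refine ⟨∑ P ∈ S, (c₁ P + c₂ P + ⌈|D' P|⌉₊), fun N hN => ?_⟩
  have hNP : ∀ P : X'.primeDivisors, P.1 ∉ X.primeDivisors →
      (c₁ P : ℚ) + c₂ P ≤ D' P + N := by
    intro P hP
    have h1 : (c₁ P + c₂ P + ⌈|D' P|⌉₊ : ℕ) ≤ ∑ P ∈ S, (c₁ P + c₂ P + ⌈|D' P|⌉₊) :=
      Finset.single_le_sum (f := fun P : X'.primeDivisors => c₁ P + c₂ P + ⌈|D' P|⌉₊)
        (fun _ _ => Nat.zero_le _) (hmemS P hP)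
    have h2 : ((c₁ P + c₂ P + ⌈|D' P|⌉₊ : ℕ) : ℚ) ≤ N := by exact_mod_cast h1.trans hN
    push_cast at h2
    have h3 : |D' P| ≤ (⌈|D' P|⌉₊ : ℚ) := Nat.le_ceil _
    have h4 := neg_abs_le (D' P)
    linarith
  have hDP : ∀ P : X.primeDivisors, D P = D' ⟨P.1, hX P.1 P.2⟩ := fun P => resDiv_apply hX D' P
  have hexc0 : ∀ P : X.primeDivisors, exc X X' N ⟨P.1, hX P.1 P.2⟩ = 0 := fun P =>
    (exc_apply N _).1 P.2
  -- the spaces of sections
  have hle : ∀ (m : ℕ) (A' : X'.Div),
      X'.H0 ((m : ℚ) • (D' + exc X X' N) + A') ≤ X.H0 ((m : ℚ) • D + resDiv hX A') := by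
    intro m A' f hf
    rw [Pool.Agent.Helper60.MA.mem_H0] at hf ⊢
    intro P
    have h1 := hf ⟨P.1, hX P.1 P.2⟩
    rw [Finsupp.add_apply, Finsupp.smul_apply, Finsupp.add_apply, hexc0, add_zero] at h1
    rw [Finsupp.add_apply, Finsupp.smul_apply, hDP, resDiv_apply]
    exact h1
  have hge : ∀ m : ℕ, X.H0 ((m : ℚ) • D) ≤ X'.H0 ((m : ℚ) • (D' + exc X X' N)) := by
    intro m f hf
    rw [Pool.Agent.Helper60.MA.mem_H0]
    intro P
    by_cases hP : P.1 ∈ X.primeDivisors
    · rw [Pool.Agent.Helper60.MA.mem_H0] at hf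
      have h1 := hf ⟨P.1, hP⟩
      rw [Finsupp.smul_apply, hDP] at h1
      rw [Finsupp.smul_apply, Finsupp.add_apply, (exc_apply N P).1 hP, add_zero]
      exact h1
    · refine (hc₂ P m f hf).mono ?_
      rw [Finsupp.smul_apply, Finsupp.add_apply, (exc_apply N P).2 hP, smul_eq_mul]
      have h1 := hNP P hP
      have h2 : (0 : ℚ) ≤ c₁ P := Nat.cast_nonneg _
      have h3 : (0 : ℚ) ≤ m := Nat.cast_nonneg _
      nlinarith [mul_le_mul_of_nonneg_left h1 h3, mul_nonneg h3 h2]
  have heq : ∀ m : ℕ, X.H0 ((m : ℚ) • D) = X'.H0 ((m : ℚ) • (D' + exc X X' N)) := by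
    intro m
    refine le_antisymm (hge m) ?_
    have h1 := hle m 0
    have h2 : resDiv hX (0 : X'.Div) = 0 := by
      ext P
      rw [resDiv_apply]
      rfl
    rwa [add_zero, h2, add_zero] at h1
  constructor
  · obtain ⟨M, hM, hint⟩ := exists_int_mult (D' + exc X X' N)
    have hint' : X.IsInt ((M : ℚ) • D) := by
      intro P
      obtain ⟨z, hz⟩ := hint ⟨P.1, hX P.1 P.2⟩
      refine ⟨z, ?_⟩
      rw [← hz, Finsupp.smul_apply, Finsupp.smul_apply, Finsupp.add_apply, hexc0, add_zero, hDP]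
    rw [← kod_smul D hM, ← kod_smul (D' + exc X X' N) hM]
    unfold ProjVar.kod
    congr 1
    funext m
    rw [X.h0_of_int (hint'.nsmul m), X'.h0_of_int (hint.nsmul m), smul_smul, smul_smul]
    have h1 := heq (m * M)
    push_cast at h1
    rw [h1]
  · rw [nu_eq_sup, nu_eq_sup]
    apply le_antisymm
    · refine iSup_le fun A => ?_
      choose c' hc' using fun P : X'.primeDivisors => hc₁ P A
      refine le_trans ?_ (le_iSup (fun A' : X'.Div => logGrowth fun m =>
        sdim (X'.H0 ((m : ℚ) • (D' + exc X X' N) + A')))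
        (extDiv hX A + ∑ P ∈ S, Finsupp.single P (c' P : ℚ)))
      refine logGrowth_mono' fun m => sdim_mono ?_
      intro f hf
      rw [Pool.Agent.Helper60.MA.mem_H0]
      intro P
      have hsum : (∑ Q ∈ S, Finsupp.single Q (c' Q : ℚ)) P = if P ∈ S then (c' P : ℚ) else 0 := by
        rw [Finsupp.finsetSum_apply]
        simp only [Finsupp.single_apply]
        rw [Finset.sum_ite_eq']
      by_cases hP : P.1 ∈ X.primeDivisors
      · rw [Pool.Agent.Helper60.MA.mem_H0] at hf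
        have h1 := hf ⟨P.1, hP⟩
        have h2 : P ∉ S := by
          rw [hS, Set.Finite.mem_toFinset]
          exact fun h => h hP
        have h3 := extDiv_apply hX A ⟨P.1, hP⟩
        rw [Finsupp.add_apply, Finsupp.smul_apply, hDP] at h1
        rw [Finsupp.add_apply, Finsupp.smul_apply, Finsupp.add_apply, Finsupp.add_apply,
          (exc_apply N P).1 hP, add_zero, hsum, if_neg h2, add_zero]
        have h4 : extDiv hX A P = A ⟨P.1, hP⟩ := h3
        rw [h4]
        exact h1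
      · refine (hc' P m f hf).mono ?_
        rw [Finsupp.add_apply, Finsupp.smul_apply, Finsupp.add_apply, Finsupp.add_apply,
          (exc_apply N P).2 hP, hsum, if_pos (hmemS P hP), extDiv_notin hX A P hP, smul_eq_mul,
          zero_add]
        have h1 := hNP P hP
        have h2 : (0 : ℚ) ≤ c₂ P := Nat.cast_nonneg _
        have h3 : (0 : ℚ) ≤ m := Nat.cast_nonneg _
        nlinarith [mul_le_mul_of_nonneg_left h1 h3, mul_nonneg h3 h2]
    · refine iSup_le fun A' => ?_
      refine le_trans ?_ (le_iSup (fun A : X.Div => logGrowth fun m =>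
        sdim (X.H0 ((m : ℚ) • D + A))) (resDiv hX A'))
      exact logGrowth_mono' fun m => sdim_mono (hle m A')

theorem isStable_contract [IsAlgClosed k] [CharZero k] {n : ℕ} (hn : Algebra.trdeg k L = n)
    (hX : ∀ P ∈ X.primeDivisors, P ∈ X'.primeDivisors) (p : X.Pair n) (p' : X'.Pair n)
    (hΔ : ∀ (P : X.primeDivisors) (P' : X'.primeDivisors), P.1 = P'.1 → p.Δ P = p'.Δ P')
    (h : IsStable X' p'.logDiv) : IsStable X p.logDiv := by
  classical
  obtain ⟨y, hy⟩ := exists_basis_of_trdeg hn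
  obtain ⟨ψ, hψ, hψ1⟩ := Pool.Agent.Helper60.MA.exists_psi X p hy (one_ne_zero : (1 : L) ≠ 0)
  obtain ⟨ψ', hψ', hψ1'⟩ :=
    Pool.Agent.Helper60.MA.exists_psi X' p' hy (one_ne_zero : (1 : L) ≠ 0)
  have hψ0 : ψ' / ψ ≠ 0 := div_ne_zero hψ' hψ
  have hres : ∀ B' : X'.Div, resDiv hX (p'.logDiv + B') =
      (p.logDiv + resDiv hX B') + X.prin (ψ' / ψ) := by
    intro B'
    ext P
    obtain ⟨a, ha, hpa⟩ := hψ1 P
    obtain ⟨a', ha', hpa'⟩ := hψ1' ⟨P.1, hX P.1 P.2⟩
    have haa : a' = a := isOrd_unique ha' ha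
    rw [resDiv_apply, Finsupp.add_apply, Finsupp.add_apply, Finsupp.add_apply,
      ProjVar.prin_apply, resDiv_apply]
    unfold ProjVar.Pair.logDiv
    rw [Finsupp.add_apply, Finsupp.add_apply, hpa, hpa', haa,
      hΔ P ⟨P.1, hX P.1 P.2⟩ rfl, P.1.map_div hψ' hψ]
    push_cast
    ring
  have key : ∀ B' : X'.Div, (∀ Q, 0 ≤ B' Q) → ∃ C : X'.Div, (∀ Q, 0 ≤ C Q) ∧
      X.kod (p.logDiv + resDiv hX B') = X'.kod (p'.logDiv + C) ∧
      X.nu (p.logDiv + resDiv hX B') = X'.nu (p'.logDiv + C) := by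
    intro B' hB'
    obtain ⟨C, hC⟩ := kod_contract hX (p'.logDiv + B')
    obtain ⟨h1, h2⟩ := hC C le_rfl
    rw [hres, ProjVar.kod_add_prin _ hψ0, add_assoc] at h1
    rw [hres, ProjVar.nu_add_prin _ hψ0, add_assoc] at h2
    refine ⟨B' + exc X X' C, fun Q => ?_, h1, h2⟩
    rw [Finsupp.add_apply]
    refine add_nonneg (hB' Q) ?_
    by_cases hQ : Q.1 ∈ X.primeDivisors
    · rw [(exc_apply C Q).1 hQ]
    · rw [(exc_apply C Q).2 hQ]
      exact Nat.cast_nonneg _
  constructor
  · obtain ⟨C, hC0, h1, -⟩ := key 0 fun _ => le_rfl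
    have h2 : resDiv hX (0 : X'.Div) = 0 := by
      ext P
      rw [resDiv_apply]
      rfl
    rw [h2, add_zero] at h1
    rw [h1]
    intro h3
    apply h.1
    have h4 : X'.kod p'.logDiv ≤ X'.kod (p'.logDiv + C) := kod_mono fun Q => by
      rw [Finsupp.add_apply]
      linarith [hC0 Q]
    rw [h3] at h4
    exact le_bot_iff.1 h4
  · intro B hB
    have h2 : resDiv hX (extDiv hX B) = B := by
      ext P
      rw [resDiv_apply, extDiv_apply]
    obtain ⟨C, hC0, h1, h3⟩ := key (extDiv hX B) fun Q => by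
      by_cases hQ : Q.1 ∈ X.primeDivisors
      · have h4 := extDiv_apply hX B ⟨Q.1, hQ⟩
        have h5 : extDiv hX B Q = B ⟨Q.1, hQ⟩ := h4
        rw [h5]
        exact hB _
      · rw [extDiv_notin hX B Q hQ]
    rw [h2] at h1 h3
    rw [h1, h3]
    exact h.2 C hC0

end Pool.Agent.Helper63.PB
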