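import Pool.Agent.Helper63.PB.CoverDefs
import Pool.Agent.Helper63.PB.Hurwitz
import Pool.Agent.Helper63.PB.Under
import Pool.Agent.Helper92.Weak.Final
import Pool.Agent.Helper60.MA.Pairs
import Pool.Agent.Helper47.PQ.R3
import Pool.Agent.Helper47.PQ.R4

set_option autoImplicit false

/-!
# PB-39 LogCover: `κ` and `ν` of `K_X + Δ` under finite covers

`X → Y` a finite cover, `p` a pair on `X`, `p'` a pair on `Y` with `K_X + Δ = π^* (K_Y + Δ')`, that is
`e Δ'(P') = Δ(P) + e - 1` for `P` over `P'` with ramification index `e`.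

`logCover_eq`. `y` a transcendence basis of `k(Y) / k`, also one of `k(X) / k`. `can_Y = c + div ψ'`, `c P'`
the order of `dy` along `P'`; `can_X = a + div ψ`, `a P = e (c P' + 1) - 1` by `hurwitz`. So
`K_X + Δ - div (ψ / ψ')` has the coefficient `e (c P' + Δ' P' + P' ψ')` at `P`: it is the pull back of
`K_Y + Δ'`.
-/

namespace Pool.Agent.Helper63.PB

open Pool.Agent.Helper92.Weak Pool.Agent.Helper92.Ga Pool.Agent.Helper47.PQ
open Pool.Agent.Helper50.Forms

section Cover

variable {k L M : Type*} [Field k] [Field L] [Field M] [Algebra k L] [Algebra k M] [Algebra L M]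
  [IsScalarTower k L M] {X : ProjVar k M} {Y : ProjVar k L}

/-- Every prime divisor of `Y` has a prime divisor of `X` over it. -/
theorem exists_above [CharZero k] (hc : IsFiniteCover X Y) (P' : Y.primeDivisors) :
    ∃ (P : X.primeDivisors) (e : ℕ), LiesOver P.1 P'.1 e := by
  have hfin : FiniteDimensional L M := hc.fin
  obtain ⟨P, e, h⟩ := exists_over M P'.1
  exact ⟨⟨P, hc.mem P'.2 h⟩, e, h⟩

theorem logPull_nonneg [CharZero k] (hc : IsFiniteCover X Y) {Δ : X.Div} {Δ' : Y.Div}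
    (h : IsLogPull Δ Δ') (hΔ : ∀ P, 0 ≤ Δ P) (P' : Y.primeDivisors) : 0 ≤ Δ' P' := by
  obtain ⟨P, e, hPe⟩ := exists_above hc P'
  have h1 := h P P' e hPe
  have he : (1 : ℚ) ≤ e := by exact_mod_cast hPe.1
  have h2 := hΔ P
  have h3 : 0 ≤ (e : ℚ) * Δ' P' := by rw [h1]; linarith
  by_contra hcon
  push Not at hcon
  have h4 : (e : ℚ) * Δ' P' < 0 := mul_neg_of_pos_of_neg (by linarith) hcon
  linarith

/-- `κ` and `ν` of `K_X + Δ` and of `K_Y + Δ'` are the same. -/
theorem logPull_eq [IsAlgClosed k] [CharZero k] (hc : IsFiniteCover X Y) {n : ℕ}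
    (hn : Algebra.trdeg k L = n) {p : X.Pair n} {p' : Y.Pair n} (h : IsLogPull p.Δ p'.Δ) :
    X.kod p.logDiv = Y.kod p'.logDiv ∧ X.nu p.logDiv = Y.nu p'.logDiv := by
  have hfin : FiniteDimensional L M := hc.fin
  obtain ⟨y, hy⟩ := exists_basis_of_trdeg hn
  have hyM : IsTranscendenceBasis k (fun i => algebraMap L M (y i)) := hy.algebraMap_comp (A := M)
  obtain ⟨ψ, hψ, hψP⟩ := Pool.Agent.Helper60.MA.exists_psi X p hyM (one_ne_zero (α := M))
  obtain ⟨ψ', hψ', hψP'⟩ := Pool.Agent.Helper60.MA.exists_psi Y p' hy (one_ne_zero (α := L))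
  have hψM : algebraMap L M ψ' ≠ 0 := by simpa using hψ'
  have hpull : IsPull p'.logDiv (p.logDiv + X.prin (algebraMap L M ψ' / ψ)) := by
    intro P P' e hPe
    obtain ⟨a, ha, haP⟩ := hψP P
    obtain ⟨c, hcO, hcP⟩ := hψP' P'
    rw [one_smul] at ha hcO
    have h1 : a = e * (c + 1) - 1 := isOrd_unique ha (hurwitz hy hPe hcO)
    have h2 := h P P' e hPe
    have h3 : (P.1 (algebraMap L M ψ') : ℚ) = e * P'.1 ψ' := by
      rw [hPe.2]; push_cast; ring
    have h4 : P.1 (algebraMap L M ψ' / ψ) = P.1 (algebraMap L M ψ') - P.1 ψ := by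
      rw [div_eq_mul_inv, P.1.map_mul hψM (inv_ne_zero hψ), P.1.map_inv]
      ring
    change p.can P + p.Δ P + (P.1 (algebraMap L M ψ' / ψ) : ℚ) = e * (p'.can P' + p'.Δ P')
    rw [haP, hcP, h4, Int.cast_sub, h3, h1]
    push_cast
    linarith
  have hne : algebraMap L M ψ' / ψ ≠ 0 := div_ne_zero hψM hψ
  constructor
  · rw [← hc.kod_pull hpull, ProjVar.kod_add_prin _ hne]
  · rw [← hc.nu_pull hpull, ProjVar.nu_add_prin _ hne]

end Cover

section Ops

variable {k L M : Type*} [Field k] [Field L] [Field M] [Algebra k L] [Algebra k M] [Algebra L M]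
  {X : ProjVar k M} {Y : ProjVar k L}

/-- Adding a divisor and its pull back. -/
theorem isLogPull_add {Δ B : X.Div} {Δ' B' : Y.Div} (h : IsLogPull Δ Δ') (hB : IsPull B' B) :
    IsLogPull (Δ + B) (Δ' + B') := by
  intro P P' e hPe
  change (e : ℚ) * (Δ' P' + B' P') = Δ P + B P + (e - 1)
  rw [mul_add, h P P' e hPe, hB P P' e hPe]
  ring

/-- The dimension of a finite cover. -/
theorem trdeg_cover [IsScalarTower k L M] (hc : IsFiniteCover X Y) {n : ℕ} :
    Algebra.trdeg k M = n ↔ Algebra.trdeg k L = n := by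
  have hfin : FiniteDimensional L M := hc.fin
  have h := lift_trdeg_add_eq k L M
  rw [trdeg_eq_zero (R := L) (A := M), Cardinal.lift_zero, add_zero] at h
  constructor
  · intro h1
    rw [h1, Cardinal.lift_natCast, Cardinal.lift_eq_nat_iff] at h
    exact h
  · intro h1
    rw [h1, Cardinal.lift_natCast, eq_comm, Cardinal.lift_eq_nat_iff] at h
    exact h

end Ops

end Pool.Agent.Helper63.PB
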