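import Pool.Agent.Helper63.PB.Curve
import Pool.Agent.Helper63.PB.LogCover

set_option autoImplicit false

/-!
# PB-44 CurveCover: the comparison theorem for finite covers of curve fibrations

`trdeg_of_curve`. `L'` is algebraic over `K'(t)`, `t` transcendental, so `trdeg_K' L' = 1`, and
`trdeg_K L' = trdeg_K K' + trdeg_K' L' = 1 = trdeg_K L + trdeg_L L'`.

`curve_cover`: `logPull_eq` and `curve_main`.
-/

namespace Pool.Agent.Helper63.PB

open Pool.Agent.Helper92.Weak Pool.Agent.Helper92.Ga Pool.Agent.Helper47.PQ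
open IntermediateField.algebraAdjoinAdjoin

section Trdeg

variable {k K L K' L' : Type*} [Field k] [Field K] [Field L] [Field K'] [Field L']
  [Algebra k K] [Algebra k L] [Algebra K L] [Algebra K K'] [Algebra K L'] [Algebra L L']
  [Algebra K' L'] [IsScalarTower k K L] [IsScalarTower K L L'] [IsScalarTower K K' L']

/-- The transcendence degree is one. -/
theorem trdeg_eq_one {K L : Type*} [Field K] [Field L] [Algebra K L] {t : L}
    (ht : Transcendental K t) (h : ∀ x : L, IsAlgebraic (IntermediateField.adjoin K {t}) x) :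
    Algebra.trdeg K L = 1 := by
  have h0 : Set.range (fun _ : Fin 1 => t) = {t} := Set.range_const
  have h1 : AlgebraicIndependent K (fun _ : Fin 1 => t) :=
    algebraicIndependent_unique_type_iff.2 ht
  have h2 : Algebra.IsAlgebraic (IntermediateField.adjoin K {t}) L := ⟨h⟩
  have h3 : Algebra.IsAlgebraic (Algebra.adjoin K {t}) L :=
    (IsFractionRing.comap_isAlgebraic_iff (A := Algebra.adjoin K {t})
      (K := IntermediateField.adjoin K {t}) (C := L)).2 h2
  have h4 : IsTranscendenceBasis K (fun _ : Fin 1 => t) := by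
    rw [h1.isTranscendenceBasis_iff_isAlgebraic, h0]
    exact h3
  have h5 := h4.lift_cardinalMk_eq_trdeg
  simp only [Cardinal.mk_fintype, Fintype.card_fin, Nat.cast_one, Cardinal.lift_one] at h5
  have h6 : Cardinal.lift.{0} (Algebra.trdeg K L) = 1 := by
    rw [← h5]
  simpa using h6

/-- The function field of a curve of genus at most one is algebraic over `K(t)`. -/
theorem trdeg_curve {K L : Type*} [Field K] [Field L] [Algebra K L]
    (h : (∃ t : L, Transcendental K t ∧ IntermediateField.adjoin K {t} = ⊤) ∨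
      ∃ (t y : L) (l : K), Transcendental K t ∧ l ≠ 0 ∧ l ≠ 1 ∧
        y ^ 2 = t * (t - 1) * (t - algebraMap K L l) ∧ IntermediateField.adjoin K {t, y} = ⊤) :
    Algebra.trdeg K L = 1 := by
  rcases h with ⟨t, ht, htop⟩ | ⟨t, y, l, ht, -, -, hy, htop⟩
  · refine trdeg_eq_one ht fun x => ?_
    have hx : x ∈ IntermediateField.adjoin K {t} := by rw [htop]; trivial
    exact isAlgebraic_algebraMap (⟨x, hx⟩ : IntermediateField.adjoin K {t})
  · refine trdeg_eq_one ht fun x => ?_
    set M := IntermediateField.adjoin K {t} with hM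
    have htM : t ∈ M := IntermediateField.mem_adjoin_simple_self K t
    have hyM : IsAlgebraic M y := by
      have h1 : IsAlgebraic M (y ^ 2) := by
        have h2 : y ^ 2 ∈ M := by
          rw [hy]
          exact M.mul_mem (M.mul_mem htM (M.sub_mem htM M.one_mem))
            (M.sub_mem htM (M.algebraMap_mem l))
        exact isAlgebraic_algebraMap (⟨y ^ 2, h2⟩ : M)
      exact IsAlgebraic.of_pow (n := 2) (by norm_num) h1
    have h1 : IntermediateField.adjoin K {t, y} ≤
        (algebraicClosure M L).restrictScalars K := by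
      rw [IntermediateField.adjoin_le_iff]
      have hmem : ∀ z : L, IsAlgebraic M z → z ∈ (algebraicClosure M L).restrictScalars K :=
        fun z hz => (IntermediateField.mem_restrictScalars K).2 (mem_algebraicClosure_iff.2 hz)
      rintro z (rfl | rfl)
      · exact hmem _ (isAlgebraic_algebraMap (⟨z, htM⟩ : M))
      · exact hmem _ hyM
    have hx : x ∈ IntermediateField.adjoin K {t, y} := by rw [htop]; trivial
    exact mem_algebraicClosure_iff.1 ((IntermediateField.mem_restrictScalars K).1 (h1 hx))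

/-- The dimension of the total space of a curve fibration. -/
theorem trdeg_of_curve {X : ProjVar k L} {Z : ProjVar k K} {d : ℕ}
    (hd : Algebra.trdeg k K = d) (h : IsCurveFibration K' L' X Z) :
    Algebra.trdeg k L = (d + 1 : ℕ) := by
  have j1 : FiniteDimensional K K' := h.finite
  have j2 : Algebra.IsPushout K K' L L' := h.pushout
  have j3 : Algebra.IsPushout K L K' L' := j2.symm
  have j4 : FiniteDimensional L L' :=
    Module.Finite.equiv (Algebra.IsPushout.equiv K L K' L').toLinearEquiv
  have h1 : Algebra.trdeg K' L' = 1 := trdeg_curve h.curve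
  have h2 : Algebra.trdeg K L' = 1 := by
    have h := lift_trdeg_add_eq K K' L'
    rw [trdeg_eq_zero (R := K) (A := K'), h1] at h
    simp only [Cardinal.lift_zero, zero_add, Cardinal.lift_one] at h
    rw [eq_comm, Cardinal.lift_eq_one] at h
    exact h
  have h3 : Algebra.trdeg K L = 1 := by
    have h := lift_trdeg_add_eq K L L'
    rw [trdeg_eq_zero (R := L) (A := L'), h2] at h
    simp only [Cardinal.lift_zero, add_zero, Cardinal.lift_one] at h
    rw [Cardinal.lift_eq_one] at h
    exact h
  have h4 := lift_trdeg_add_eq k K L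
  rw [hd, h3] at h4
  simp only [Cardinal.lift_natCast, Cardinal.lift_one] at h4
  have h5 : Cardinal.lift (Algebra.trdeg k L) = ((d + 1 : ℕ) : Cardinal) := by
    rw [← h4]
    push_cast
    rfl
  rw [Cardinal.lift_eq_nat_iff] at h5
  exact h5

end Trdeg

section Main

variable {k K L K' L' M : Type*} [Field k] [Field K] [Field L] [Field K'] [Field L'] [Field M]
  [Algebra k K] [Algebra k L] [Algebra k K'] [Algebra k L'] [Algebra K L] [Algebra K K']
  [Algebra K L'] [Algebra L L'] [Algebra K' L'] [IsScalarTower k K L] [IsScalarTower k K K']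
  [IsScalarTower k K L'] [IsScalarTower k L L'] [IsScalarTower k K' L'] [IsScalarTower K L L']
  [IsScalarTower K K' L'] [Algebra k M] [Algebra L M] [IsScalarTower k L M]
  {X : ProjVar k M} {Y : ProjVar k L} {Z : ProjVar k K}

/-- The comparison theorem for finite covers of curve fibrations: `X → Y` a finite cover, `K_X + Δ` the
pull back of `K_Y + Δ'`, `Y → Z` a fibration in curves of genus at most one. -/
theorem curve_cover [IsAlgClosed k] [CharZero k] {d : ℕ} (hd : Algebra.trdeg k K = d)
    (hc : IsFiniteCover X Y) (h : IsCurveFibration K' L' Y Z) (p : X.Pair (d + 1))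
    (p' : Y.Pair (d + 1)) (hp : IsLogPull p.Δ p'.Δ) (q : Z.Pair d)
    (h1 : (∀ P : Y.primeDivisors, (∀ x : K, P.1 (algebraMap K L x) = 0) → p'.Δ P ≤ 1) ∨
      IsBigOnFibre K p')
    (hq : IsOrbifoldBase p' q) (hκ : Z.kod q.logDiv ≠ ⊥) :
    (X.kod p.logDiv = ⊥ ∧ X.nu p.logDiv = ⊥) ∨
    ∃ (s : ℕ) (B : Z.Div), s ≤ 1 ∧ (∀ Q, 0 ≤ B Q) ∧ ∀ ε : ℚ, 0 < ε →
      X.kod p.logDiv = s + Z.kod (q.logDiv + ε • B) ∧
      X.nu p.logDiv = s + Z.nu (q.logDiv + ε • B) := by
  obtain ⟨hk, hnu⟩ := logPull_eq hc (trdeg_of_curve hd h) hp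
  rw [hk, hnu]
  exact curve_main hd h p' q h1 hq hκ

omit [IsScalarTower k K L] in
/-- If `X → Y` is a finite cover, `K_X + Δ` is the pull back of `K_Y + Δ'`, and `q` is a part of the orbifold
divisor of `(X, Δ) → Z`, then it is a part of the orbifold divisor of `(Y, Δ') → Z`. -/
theorem isOrbifoldBase_of_cover [CharZero k] [Algebra K M] [IsScalarTower K L M]
    (hc : IsFiniteCover X Y) {m n : ℕ} {p : X.Pair m} {p' : Y.Pair m}
    (hp : IsLogPull p.Δ p'.Δ) {q : Z.Pair n} (hq : IsOrbifoldBase p q) :
    IsOrbifoldBase p' q := by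
  intro P' Q e' hPQ
  obtain ⟨P, e, hPe⟩ := exists_above hc P'
  have he : (1 : ℚ) ≤ e := by exact_mod_cast hPe.1
  have h2 := hp P P' e hPe
  have h3 := hq P Q (e * e') (under_trans hPe hPQ)
  push_cast at h3
  by_contra hcon
  push Not at hcon
  have h4 : (e : ℚ) * (p'.Δ P' + (e' - 1)) < e * (e' * q.Δ Q) :=
    mul_lt_mul_of_pos_left hcon (by linarith)
  linarith

omit [Algebra k K] [IsScalarTower k K L] in
/-- If `X → Y` is a finite cover and `K_X + Δ` is the pull back of `K_Y + Δ'`, then the horizontal coefficients of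
`Δ'` are at most one if those of `Δ` are. -/
theorem horizontal_le_of_cover [CharZero k] [Algebra K M] [IsScalarTower K L M]
    (hc : IsFiniteCover X Y) {Δ : X.Div} {Δ' : Y.Div} (hp : IsLogPull Δ Δ')
    (h1 : ∀ P : X.primeDivisors, (∀ x : K, P.1 (algebraMap K M x) = 0) → Δ P ≤ 1)
    (P' : Y.primeDivisors) (hP' : ∀ x : K, P'.1 (algebraMap K L x) = 0) : Δ' P' ≤ 1 := by
  obtain ⟨P, e, hPe⟩ := exists_above hc P'
  have he : (1 : ℚ) ≤ e := by exact_mod_cast hPe.1
  have h2 := hp P P' e hPe
  have h3 := h1 P fun x => by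
    rw [IsScalarTower.algebraMap_apply K L M, hPe.2, hP', mul_zero]
  by_contra hcon
  push Not at hcon
  have h4 : (e : ℚ) * 1 < e * Δ' P' := mul_lt_mul_of_pos_left hcon (by linarith)
  linarith

end Main

end Pool.Agent.Helper63.PB
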