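import Pool.Agent.Helper92.Weak.Defs

set_option autoImplicit false

/-!
# Fibrations in curves of genus at most one: definition
-/

namespace Pool.Agent.Helper63.PB

open Pool.Agent.Helper92.Weak

/-- `X → Z` is a morphism which maps every prime divisor of `X` onto `Z` or onto a prime divisor
of `Z`, and the geometric generic fibre is a curve of genus zero or one: the function field
`L' = L ⊗ K'` of `X` over the finite extension `K'` of the function field `K` of `Z` is `K'(t)`,
or `K'(t, y)` with `y ^ 2 = t (t - 1) (t - l)`, `l ≠ 0, 1`. -/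
structure IsCurveFibration {k K L : Type*} (K' L' : Type*) [Field k] [Field K] [Field L]
    [Field K'] [Field L'] [Algebra k K] [Algebra k L] [Algebra K L] [Algebra K K'] [Algebra K L']
    [Algebra L L'] [Algebra K' L'] [IsScalarTower K L L'] [IsScalarTower K K' L']
    (X : ProjVar k L) (Z : ProjVar k K) : Prop where
  mor : IsMorphism X Z
  equi : ∀ P ∈ X.primeDivisors, (∃ a : K, P (algebraMap K L a) ≠ 0) →
    ∃ Q ∈ Z.primeDivisors, ∃ e, LiesOver P Q e
  finite : FiniteDimensional K K'
  pushout : Algebra.IsPushout K K' L L'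
  curve : (∃ t : L', Transcendental K' t ∧ IntermediateField.adjoin K' {t} = ⊤) ∨
    ∃ (t y : L') (l : K'), Transcendental K' t ∧ l ≠ 0 ∧ l ≠ 1 ∧
      y ^ 2 = t * (t - 1) * (t - algebraMap K' L' l) ∧ IntermediateField.adjoin K' {t, y} = ⊤

/-- The restriction of `K_X + min(Δ, 1)` to the generic fibre of `X → Z` (a curve) has positive
degree: some multiple of it has two sections with a nonconstant quotient. -/
def IsBigOnFibre (K : Type*) {k L : Type*} [Field k] [Field K] [Field L] [Algebra k L]
    [Algebra K L] {X : ProjVar k L} {n : ℕ} (p : X.Pair n) : Prop :=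
  ∃ (m : ℕ) (f g : L), Transcendental K (f / g) ∧
    ∀ P : X.primeDivisors, (∀ x : K, P.1 (algebraMap K L x) = 0) →
      0 ≤ P.1 f + m * (p.can P + min (p.Δ P) 1) ∧ 0 ≤ P.1 g + m * (p.can P + min (p.Δ P) 1)

end Pool.Agent.Helper63.PB
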