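import Pool.Agent.Helper92.Ga.Line
import Pool.Agent.Helper92.Weak.Values
import Pool.Agent.Helper60.MA.Defs

set_option autoImplicit false

/-!
# Project PB (MP_2c56d9_ag): fibrations whose general fibre is a rational curve

Complete proof: team store, `memo_MP_2c56d9_ag_P1_helper63.md`.

`k` is algebraically closed of characteristic zero, `K ⊆ L` are the function fields of `Z` and `X`,
`K' / K` is finite, `L' = L ⊗ K'` (a pushout) and `L' = K'(t)`.
-/

namespace Pool.Agent.Helper63.PB

open Pool.Agent.Helper92.Weak Pool.Agent.Helper92.Ga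

/-! ### The frame: numerical data of differential forms -/

section Frame

variable {k K L K' L' : Type*} [Field k] [Field K] [Field L] [Field K'] [Field L']
  [Algebra k K] [Algebra k L] [Algebra k K'] [Algebra k L'] [Algebra K L] [Algebra K K']
  [Algebra L L'] [Algebra K' L']

/-- The data of a fibration `X → Z` with generic fibre a form of the projective line, `L' = K'(t)`:
the derivation `Dt = d/dt` of `L' / K'`, the orders `a` along the prime divisors of `X` of the form
`dy ∧ ds` and `c` along the prime divisors of `Z` of the form `dy` (`y` a transcendence basis of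
`K / k`, `s ∈ L` transcendental over `K`), `u = Dt s`, and the two facts about differential forms
which are used:
`star`: for `v` over `P` over `Q`: `v (Dt g) ≥ v g - (ε (a P + 1 - e (c Q + 1)) - v u)`;
`hor`: for `P` trivial on `K` every `v` over `P` is unramified, and `v u = a P` if
`v t ≥ 0`, `v u = a P + 2` if `v t < 0`. -/
structure Frame (X : ProjVar k L) (Z : ProjVar k K) (K' : Type*) {L' : Type*} [Field K'] [Field L']
    [Algebra k K'] [Algebra k L'] [Algebra K K'] [Algebra L L'] [Algebra K' L'] (t : L') where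
  mor : IsMorphism X Z
  equi : ∀ P ∈ X.primeDivisors, (∃ a : K, P (algebraMap K L a) ≠ 0) →
    ∃ Q ∈ Z.primeDivisors, ∃ e, LiesOver P Q e
  tr : ∃ s : L, Transcendental K s ∧ ∀ x : L, IsAlgebraic (IntermediateField.adjoin K {s}) x
  line : IsLine K' t
  Dt : Derivation K' L' L'
  Dt_t : Dt t = 1
  u : L'
  u_ne : u ≠ 0
  a : X.primeDivisors →₀ ℤ
  c : Z.primeDivisors →₀ ℤ
  star : ∀ (P : X.primeDivisors) (Q : Z.primeDivisors) (e : ℕ), LiesOver P.1 Q.1 e →
    ∀ (v : DVal k L') (ε : ℕ), LiesOver v P.1 ε → ∀ g : L',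
      v.Ge ((v g - (ε * (a P + 1 - e * (c Q + 1)) - v u) : ℤ) : ℚ) (Dt g)
  hor : ∀ P : X.primeDivisors, (∀ x : K, P.1 (algebraMap K L x) = 0) →
    ∀ (v : DVal k L') (ε : ℕ), LiesOver v P.1 ε →
      ε = 1 ∧ (0 ≤ v t → v u = a P) ∧ (v t < 0 → v u = a P + 2)

variable {X : ProjVar k L} {Z : ProjVar k K} {t : L'} (F : Frame X Z K' t)

/-- `λ_P = a P + 1 - e (c Q + 1)`. -/
def Frame.lam (P : X.primeDivisors) (Q : Z.primeDivisors) (e : ℕ) : ℤ :=
  F.a P + 1 - e * (F.c Q + 1)

/-- `μ_v = ε λ_P - v u`, for `v` over `P` with ramification `ε`. -/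
def Frame.mu (P : X.primeDivisors) (Q : Z.primeDivisors) (e : ℕ) (v : DVal k L') (ε : ℕ) : ℤ :=
  ε * F.lam P Q e - v F.u

/-- The divisor of `dy ∧ ds` on `X`. -/
noncomputable def Frame.aD : X.Div := F.a.mapRange (fun z : ℤ => (z : ℚ)) (by simp)

/-- The divisor of `dy` on `Z`. -/
noncomputable def Frame.cD : Z.Div := F.c.mapRange (fun z : ℤ => (z : ℚ)) (by simp)

@[simp] theorem Frame.aD_apply (P : X.primeDivisors) : F.aD P = F.a P := by
  unfold Frame.aD
  rw [Finsupp.mapRange_apply]

@[simp] theorem Frame.cD_apply (Q : Z.primeDivisors) : F.cD Q = F.c Q := by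
  unfold Frame.cD
  rw [Finsupp.mapRange_apply]

end Frame

/-! ### Rational places of `K'(t)` -/

section Places

variable (k : Type*) {K' L' : Type*} [Field k] [Field K'] [Field L'] [Algebra k K'] [Algebra k L']
  [Algebra K' L'] [IsScalarTower k K' L'] {t : L'}

/-- The place of `K'(t)` at a rational point of the projective line; `none` is the point at
infinity. -/
noncomputable def plc (h : IsLine K' t) : Option K' → DVal k L'
  | none => infVal k h
  | some α => pVal k h (Polynomial.X - Polynomial.C α) (Polynomial.prime_X_sub_C α)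

variable (t) in
/-- `t - α`, and `1` for the point at infinity. -/
def lin : Option K' → L'
  | none => 1
  | some α => t - algebraMap K' L' α

end Places

section HorData

variable {k K L K' L' : Type*} [Field k] [Field K] [Field L] [Field K'] [Field L']
  [Algebra k K] [Algebra k L] [Algebra k K'] [Algebra k L'] [Algebra K L] [Algebra K K']
  [Algebra L L'] [Algebra K' L'] [IsScalarTower k K' L']
  {X : ProjVar k L} {Z : ProjVar k K} {t : L'}

/-- The points of the geometric generic fibre in the support of `Δ`: they are all rational over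
`K'`. The prime divisor of `X` below the place `i` is `pr i`. -/
structure HorData (F : Frame X Z K' t) (Δ : X.Div) where
  S : Finset (Option K')
  pr : Option K' → X.primeDivisors
  ov : ∀ i, LiesOver (plc k F.line i) (pr i).1 1
  triv : ∀ i, ∀ x : K, (pr i).1 (algebraMap K L x) = 0
  mem : ∀ i, i ∈ S ↔ Δ (pr i) ≠ 0
  split : ∀ P : X.primeDivisors, (∀ x : K, P.1 (algebraMap K L x) = 0) → Δ P ≠ 0 →
    ∀ (v : DVal k L') (ε : ℕ), LiesOver v P.1 ε → ∃ i ∈ S, v = plc k F.line i ∧ pr i = P

variable {F : Frame X Z K' t} {Δ : X.Div}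

/-- The degree of `Δ` on the generic fibre. -/
noncomputable def HorData.deg (H : HorData F Δ) : ℚ := ∑ i ∈ H.S, Δ (H.pr i)

/-- The logarithmic derivative of the quotient of two linear forms. -/
noncomputable def Frame.theta (F : Frame X Z K' t) (i j : Option K') : L' :=
  F.Dt (lin t i / lin t j) / (lin t i / lin t j)

/-- The product of powers of the `theta i j`. -/
noncomputable def HorData.phi (H : HorData F Δ) (x : H.S → H.S → ℕ) : L' :=
  ∏ i : H.S, ∏ j : H.S, F.theta i.1 j.1 ^ x i j

/-- The number of times the index `i` is used. -/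
def HorData.use (H : HorData F Δ) (x : H.S → H.S → ℕ) (i : H.S) : ℕ := ∑ j, (x i j + x j i)

/-- The divisor `P` over `Q` is good: there is no slack in the inequality of the orbifold base, and
all inequalities `v (theta i j) + μ_v ≥ 0` with `(i, j) ∈ W` are equalities. -/
def HorData.Good (H : HorData F Δ) (W : H.S → H.S → Prop) (E : Z.Div) (P : X.primeDivisors)
    (Q : Z.primeDivisors) (e : ℕ) : Prop :=
  LiesOver P.1 Q.1 e ∧ Δ P + (e - 1) = e * E Q ∧
    ∀ (v : DVal k L') (ε : ℕ), LiesOver v P.1 ε → ∀ i j : H.S, W i j →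
      v (F.theta i.1 j.1) + F.mu P Q e v ε = 0

end HorData

/-! ### Sections over the finite extension `K'` -/

section Fam

variable {k K : Type*} [Field k] [Field K] [Algebra k K]

/-- The elements `b` of `K'` with `Q' b ≥ -e' D(Q)` for all valuations `Q'` of `K'` over a prime
divisor `Q` of `Z` (with ramification `e'`). -/
def famH0 (K' : Type*) [Field K'] [Algebra k K'] [Algebra K K'] (Z : ProjVar k K) (D : Z.Div) :
    Submodule k K' :=
  ⨅ (Q : Z.primeDivisors) (Q' : DVal k K') (e' : ℕ) (_ : LiesOver Q' Q.1 e'), Q'.filt (-(e' * D Q))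

theorem mem_famH0 {K' : Type*} [Field K'] [Algebra k K'] [Algebra K K'] {Z : ProjVar k K}
    {D : Z.Div} {b : K'} : b ∈ famH0 K' Z D ↔ ∀ (Q : Z.primeDivisors) (Q' : DVal k K') (e' : ℕ),
      LiesOver Q' Q.1 e' → Q'.Ge (-(e' * D Q)) b := by
  unfold famH0
  simp only [Submodule.mem_iInf, DVal.mem_filt]

end Fam

/-! ### Reduced divisors and forms -/

section Red

variable {k K : Type*} [Field k] [Field K] [Algebra k K] {Z : ProjVar k K}

/-- The reduced divisor with a given finite set of components. -/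
noncomputable def redDiv (B : Finset Z.primeDivisors) : Z.Div := ∑ Q ∈ B, Finsupp.single Q 1

open Classical in
theorem redDiv_apply (B : Finset Z.primeDivisors) (Q : Z.primeDivisors) :
    redDiv B Q = if Q ∈ B then 1 else 0 := by
  unfold redDiv
  rw [Finsupp.finsetSum_apply]
  simp only [Finsupp.single_apply]
  rw [Finset.sum_ite_eq']

end Red

section Om

open scoped KaehlerDifferential

variable (k : Type*) {K L : Type*} [Field k] [Field K] [Field L] [Algebra k K] [Algebra k L]
  [Algebra K L]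

/-- The form `dy ∧ dg`, `y` functions in `K`, `g ∈ L`. -/
noncomputable def Om {d : ℕ} (y : Fin d → K) (g : L) : ⋀[L]^(d + 1) Ω[L⁄k] :=
  dform k (Fin.append (fun i => algebraMap K L (y i)) (fun _ : Fin 1 => g))

end Om

/-! ### The abstract lower and upper data -/

section Abs

variable {k K L : Type*} [Field k] [Field K] [Field L] [Algebra k K] [Algebra k L] [Algebra K L]

/-- Functions `b`, `b ρ₁`, ..., `b ρ_s` on `X` which are sections of `N D - π* (N T + B)`, with
`ρ` algebraically independent over the function field `K` of `Z`. -/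
structure LowerData (X : ProjVar k L) (Z : ProjVar k K) (D : X.Div) (T : Z.Div)
    (B : Finset Z.primeDivisors) (s : ℕ) where
  N : ℕ
  N_pos : 0 < N
  b : L
  b_ne : b ≠ 0
  ρ : Fin s → L
  indep : AlgebraicIndependent K ρ
  hor : ∀ P : X.primeDivisors, (∀ x : K, P.1 (algebraMap K L x) = 0) →
    0 ≤ (P.1 b : ℚ) + N * D P ∧ ∀ i, 0 ≤ (P.1 (b * ρ i) : ℚ) + N * D P
  vert : ∀ (P : X.primeDivisors) (Q : Z.primeDivisors) (e : ℕ), LiesOver P.1 Q.1 e →
    e * (N * T Q + redDiv B Q) ≤ P.1 b + N * D P ∧
      ∀ i, e * (N * T Q + redDiv B Q) ≤ P.1 (b * ρ i) + N * D P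

/-- The spaces of sections of `q M D + A` have dimension at most `C' q ^ s` times the
dimension of the space of sections of `q M (T + C B) + A'` over the finite extension `K'` of `K`. -/
def UpperData (X : ProjVar k L) (Z : ProjVar k K) (K' : Type*) [Field K'] [Algebra k K']
    [Algebra K K'] (D : X.Div) (T : Z.Div) (B : Finset Z.primeDivisors) (s : ℕ) : Prop :=
  ∃ M C : ℕ, 0 < M ∧ ∀ A : X.Div, ∃ (A' : Z.Div) (C' : ℕ), (A = 0 → A' = 0) ∧ ∀ q : ℕ, 1 ≤ q →
    sdim (X.H0 (((q * M : ℕ) : ℚ) • D + A)) ≤ C' * (q : ℕ∞) ^ s *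
      sdim (famH0 K' Z (((q * M : ℕ) : ℚ) • (T + (C : ℚ) • redDiv B) + A'))

end Abs

/-! ### The data for the upper bound -/

section UData

variable {k K L K' L' : Type*} [Field k] [Field K] [Field L] [Field K'] [Field L']
  [Algebra k K] [Algebra k L] [Algebra k K'] [Algebra k L'] [Algebra K L] [Algebra K K']
  [Algebra L L'] [Algebra K' L']
  {X : ProjVar k L} {Z : ProjVar k K} {t : L'}

/-- A function `Ψ` such that `f (Dt s)^(q M) Ψ^q` is a polynomial in `t` of degree `≤ q J` for
`f ∈ H⁰(q M (K_X + Δ))`, and whose values at good prime divisors over `Q ∉ B` are at least `M μ`. -/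
structure UData (F : Frame X Z K' t) (Δ : X.Div) (E : Z.Div) (B : Finset Z.primeDivisors) where
  M : ℕ
  M_pos : 0 < M
  J : ℕ
  Ψ : L'
  Ψ_ne : Ψ ≠ 0
  fin : ∀ P : X.primeDivisors, (∀ x : K, P.1 (algebraMap K L x) = 0) → ∀ v : DVal k L',
    LiesOver v P.1 1 → 0 ≤ v t → M * Δ P ≤ v Ψ
  inf : ∀ P : X.primeDivisors, (∀ x : K, P.1 (algebraMap K L x) = 0) → ∀ v : DVal k L',
    LiesOver v P.1 1 → v t < 0 → M * Δ P - 2 * M - J ≤ v Ψ
  good : ∀ Q ∉ B, ∃ (P : X.primeDivisors) (e : ℕ), LiesOver P.1 Q.1 e ∧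
    Δ P + (e - 1) = e * E Q ∧ ∀ (v : DVal k L') (ε : ℕ), LiesOver v P.1 ε →
      M * F.mu P Q e v ε ≤ v Ψ ∧ (J ≠ 0 → F.mu P Q e v ε ≤ 0 ∧ v t = 0)

end UData

end Pool.Agent.Helper63.PB
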