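import Pool.Agent.Helper63.PB.Approx

set_option autoImplicit false

/-!
# PB-04 DerBound: a derivation which is logarithmic on `E` loses a bounded amount on `E'`

`E' / E` finite, characteristic zero, `w` over `v` with ramification `ε`, `D` a derivation of `E'`
over `k` with `w (D c) ≥ w c` for `c ∈ E`. CLAIM: there is `C` with `w (D x) ≥ w x - C` for all `x`.

PROOF. Let `b_i` be a basis of `E' / E`, scaled by elements of `E` so that `w' b_i ≥ 0` for all the
finitely many `w'` over `v` (`finite_above`; or: so that `b_i` is integral over `v.ring`), `b'_i` the dual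
basis for the trace form (`Algebra.traceForm`, nondegenerate since separable,
`LinearMap.BilinForm.dualBasis`): `x = ∑ trace (x b_i) • b'_i`. Let `C₁ ∈ ℕ` with
`w.Ge (-C₁) (b'_i)`, `w.Ge (-C₁) (D b'_i)` for all `i`.
(1) If `w' x ≥ 0` for all `w'` over `v` then `c_i = trace (x b_i)` has `v c_i ≥ 0`
(`Helper47.PQ.trace_ge` with `q = 0`), so `D x = ∑ (D c_i) b'_i + c_i D b'_i` has value `≥ -C₁`
(`w (D c_i) ≥ w c_i ≥ 0`).
(2) If only `w x ≥ 0`: let `e₀` be as in `exists_sep`, `a = e₀ ^ N` with `N` so large that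
`w' (a x) ≥ 0` and `w' a ≥ 0` for all `w'` over `v` (finitely many), `w a = 0`. Then
`D x = a⁻¹ (D (a x) - x D a)` has value `≥ -C₁` by (1).
(3) General `x ≠ 0`: let `p ∈ E`, `v p = 1`, `w x = ε q + r`, `0 ≤ r < ε`, `y = x p^(-q)`:
`0 ≤ w y < ε`, `D x = p^q D y + q y p^(q-1) D p`; values `≥ ε q - C₁` and
`≥ w y + ε q ≥ w x` (as `w (D p) ≥ w p`). Both are `≥ w x - (ε + C₁)`.
-/

namespace Pool.Agent.Helper63.PB

open Pool.Agent.Helper92.Weak

variable {k E E' : Type*} [Field k] [Field E] [Field E'] [Algebra k E] [Algebra k E']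
  [Algebra E E'] [IsScalarTower k E E'] [FiniteDimensional E E'] [CharZero k]

omit [CharZero k] in
private theorem exists_lower {v : DVal k E} (x : E') :
    ∃ M : ℕ, ∀ (w' : DVal k E') (ε' : ℕ), LiesOver w' v ε' → -(M : ℤ) ≤ w' x := by
  have hfin := finite_above (E' := E') v
  have h1 : ((fun w' : DVal k E' => (w' x).natAbs) '' {w : DVal k E' | ∃ ε, LiesOver w v ε}).Finite :=
    hfin.image _
  obtain ⟨M, hM⟩ := h1.bddAbove
  refine ⟨M, fun w' ε' h => ?_⟩
  have h2 : (w' x).natAbs ≤ M := hM ⟨w', ⟨ε', h⟩, rfl⟩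
  omega

private theorem der_one {v : DVal k E} {w : DVal k E'} {ε : ℕ} (hw : LiesOver w v ε)
    (D : Derivation k E' E')
    (hD : ∀ c : E, w.Ge (w (algebraMap E E' c)) (D (algebraMap E E' c))) :
    ∃ C : ℕ, ∀ x : E', (∀ (w' : DVal k E') (ε' : ℕ), LiesOver w' v ε' → 0 ≤ w' x) →
      w.Ge (-(C : ℚ)) (D x) := by
  have : CharZero E := charZero_of_injective_algebraMap (algebraMap k E).injective
  have hnd := traceForm_nondegenerate E E'
  let b := Module.finBasis E E'
  let b' := (Algebra.traceForm E E').dualBasis hnd b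
  have hM : ∀ i, ∃ M : ℕ, ∀ (w' : DVal k E') (ε' : ℕ), LiesOver w' v ε' → -(M : ℤ) ≤ w' (b i) :=
    fun i => exists_lower (b i)
  choose M hM using hM
  let M₀ : ℕ := ∑ i, M i
  have hM₀ : ∀ i, M i ≤ M₀ := fun i => Finset.single_le_sum (fun _ _ => Nat.zero_le _)
    (Finset.mem_univ i)
  let C₁ : ℕ := ∑ i, ((w (b' i)).natAbs + (w (D (b' i))).natAbs)
  have hC₁ : ∀ i, (w (b' i)).natAbs + (w (D (b' i))).natAbs ≤ C₁ :=
    fun i => Finset.single_le_sum (f := fun i => (w (b' i)).natAbs + (w (D (b' i))).natAbs)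
      (fun _ _ => Nat.zero_le _) (Finset.mem_univ i)
  refine ⟨ε * M₀ + C₁, fun x hx => ?_⟩
  have hexp : x = ∑ i, algebraMap E E' (Algebra.trace E E' (x * b i)) * b' i := by
    conv_lhs => rw [← b'.sum_repr x]
    refine Finset.sum_congr rfl fun i _ => ?_
    rw [Algebra.smul_def, LinearMap.BilinForm.dualBasis_repr_apply, Algebra.traceForm_apply]
  have hc : ∀ i, v.Ge (((-(M₀ : ℤ) : ℤ)) : ℚ) (Algebra.trace E E' (x * b i)) := by
    intro i
    apply Helper47.PQ.trace_ge
    intro w' ε' h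
    by_cases hx0 : x = 0
    · left; rw [hx0, zero_mul]
    right
    have hb0 : b i ≠ 0 := b.ne_zero i
    rw [w'.map_mul hx0 hb0]
    have h1 := hx w' ε' h
    have h2 := hM i w' ε' h
    have h3 := hM₀ i
    have h4 : 1 ≤ ε' := h.1
    have h5 : (M₀ : ℤ) ≤ ε' * M₀ := by
      have : M₀ ≤ ε' * M₀ := Nat.le_mul_of_pos_left _ h4
      exact_mod_cast this
    have h6 : (ε' : ℤ) * (-(M₀ : ℤ)) ≤ w' x + w' (b i) := by
      have : (M i : ℤ) ≤ M₀ := by exact_mod_cast h3
      linarith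
    exact_mod_cast h6
  have hcw : ∀ i, w.Ge (-((ε * M₀ : ℕ) : ℚ)) (algebraMap E E' (Algebra.trace E E' (x * b i))) := by
    intro i
    rcases hc i with h | h
    · left; rw [h, _root_.map_zero]
    · right
      rw [hw.2]
      have h1 : -(M₀ : ℤ) ≤ v (Algebra.trace E E' (x * b i)) := by exact_mod_cast h
      have h2 : (ε : ℤ) * (-(M₀ : ℤ)) ≤ ε * v (Algebra.trace E E' (x * b i)) :=
        mul_le_mul_of_nonneg_left h1 (by positivity)
      have h3 : (-((ε * M₀ : ℕ) : ℤ)) ≤ ε * v (Algebra.trace E E' (x * b i)) := by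
        push_cast
        linarith
      exact_mod_cast h3
  have hDc : ∀ i, w.Ge (-((ε * M₀ : ℕ) : ℚ))
      (D (algebraMap E E' (Algebra.trace E E' (x * b i)))) := by
    intro i
    rcases hcw i with h | h
    · left; rw [h, _root_.map_zero]
    · exact (hD _).mono h
  have hb1 : ∀ i, w.Ge (-(C₁ : ℚ)) (b' i) := by
    intro i
    right
    have h1 := hC₁ i
    have h2 : -(C₁ : ℤ) ≤ w (b' i) := by omega
    exact_mod_cast h2
  have hb2 : ∀ i, w.Ge (-(C₁ : ℚ)) (D (b' i)) := by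
    intro i
    right
    have h1 := hC₁ i
    have h2 : -(C₁ : ℤ) ≤ w (D (b' i)) := by omega
    exact_mod_cast h2
  rw [hexp, map_sum]
  refine DVal.Ge.sum fun i _ => ?_
  rw [D.leibniz, smul_eq_mul, smul_eq_mul]
  have e1 : (-(((ε * M₀ + C₁ : ℕ)) : ℚ)) = (-((ε * M₀ : ℕ) : ℚ)) + (-(C₁ : ℚ)) := by
    push_cast
    ring
  rw [e1]
  refine ((hcw i).mul (hb2 i)).add ?_
  rw [add_comm]
  exact (hb1 i).mul (hDc i)

theorem der_bounded {v : DVal k E} {w : DVal k E'} {ε : ℕ} (hw : LiesOver w v ε)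
    (D : Derivation k E' E')
    (hD : ∀ c : E, w.Ge (w (algebraMap E E' c)) (D (algebraMap E E' c))) :
    ∃ C : ℕ, ∀ x : E', w.Ge ((w x : ℚ) - C) (D x) := by
  obtain ⟨C₀, hC₀⟩ := der_one hw D hD
  obtain ⟨e₀, he0, hwe, hsep⟩ := exists_sep hw
  -- step 2
  have h2 : ∀ x : E', 0 ≤ w x → w.Ge (-(C₀ : ℚ)) (D x) := by
    intro x hx
    by_cases hx0 : x = 0
    · left; rw [hx0, _root_.map_zero]
    obtain ⟨N, hN⟩ := exists_lower (v := v) x
    have ha0 : e₀ ^ N ≠ 0 := pow_ne_zero _ he0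
    have key : ∀ (w' : DVal k E') (ε' : ℕ), LiesOver w' v ε' → 0 ≤ w' (e₀ ^ N) ∧
        0 ≤ w' (e₀ ^ N * x) := by
      intro w' ε' h
      by_cases hww : w' = w
      · subst hww
        rw [w'.map_mul ha0 hx0, w'.map_pow, hwe, mul_zero, zero_add]
        exact ⟨le_rfl, hx⟩
      · have h1 := hsep w' ε' h hww
        have h3 := hN w' ε' h
        rw [w'.map_mul ha0 hx0, w'.map_pow]
        have h4 : (N : ℤ) ≤ N * w' e₀ := by
          have := mul_le_mul_of_nonneg_left h1 (Int.natCast_nonneg N)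
          linarith
        constructor
        · have := Int.natCast_nonneg N
          linarith
        · linarith
    have hA := hC₀ (e₀ ^ N) fun w' ε' h => (key w' ε' h).1
    have hB := hC₀ (e₀ ^ N * x) fun w' ε' h => (key w' ε' h).2
    have hid : e₀ ^ N * D x = D (e₀ ^ N * x) - x * D (e₀ ^ N) := by
      rw [D.leibniz, smul_eq_mul, smul_eq_mul]
      ring
    have hxge : w.Ge 0 x := by
      right
      exact_mod_cast hx
    have h3 : w.Ge (-(C₀ : ℚ)) (e₀ ^ N * D x) := by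
      rw [hid]
      refine hB.sub ?_
      have := hxge.mul hA
      rwa [zero_add] at this
    by_cases hDx : D x = 0
    · exact Or.inl hDx
    right
    rw [DVal.ge_iff (mul_ne_zero ha0 hDx), w.map_mul ha0 hDx, w.map_pow, hwe, mul_zero,
      zero_add] at h3
    exact h3
  -- step 3
  obtain ⟨p, hp0, hp⟩ := v.exists_uniformizer
  have hε : 0 < ε := hw.1
  refine ⟨ε + C₀, fun x => ?_⟩
  by_cases hx0 : x = 0
  · left; rw [hx0, _root_.map_zero]
  set q : ℤ := w x / ε with hq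
  have hεz : (0 : ℤ) < ε := by exact_mod_cast hε
  have hq1 : (ε : ℤ) * q ≤ w x := Int.mul_ediv_self_le hεz.ne'
  have hq2 : w x < ε * q + ε := Int.lt_mul_ediv_self_add hεz
  set P : E' := algebraMap E E' (p ^ q) with hP
  have hpq0 : p ^ q ≠ 0 := zpow_ne_zero _ hp0
  have hP0 : P ≠ 0 := by
    rw [hP, Ne, map_eq_zero_iff _ (algebraMap E E').injective]
    exact hpq0
  have hwP : w P = ε * q := by
    rw [hP, hw.2, v.map_zpow, hp, mul_one]
  set y : E' := x * P⁻¹ with hy
  have hy0 : y ≠ 0 := mul_ne_zero hx0 (inv_ne_zero hP0)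
  have hwy : w y = w x - ε * q := by
    rw [hy, w.map_mul hx0 (inv_ne_zero hP0), w.map_inv, hwP]
    ring
  have hxy : x = P * y := by
    rw [hy]
    field_simp
  have hDy := h2 y (by rw [hwy]; linarith)
  have hDP : w.Ge (w P) (D P) := hD (p ^ q)
  have e1 : D x = P * D y + y * D P := by
    conv_lhs => rw [hxy]
    rw [D.leibniz, smul_eq_mul, smul_eq_mul]
  rw [e1]
  have hg1 := (DVal.ge_self (v := w) P).mul hDy
  have hg2 := (DVal.ge_self (v := w) y).mul hDP
  refine (hg1.mono ?_).add (hg2.mono ?_)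
  · rw [hwP]
    have : (w x : ℚ) < ε * q + ε := by exact_mod_cast hq2
    push_cast
    linarith
  · rw [hwP, hwy]
    push_cast
    have h1 : (0 : ℚ) ≤ ε := by positivity
    have h3 : (0 : ℚ) ≤ C₀ := by positivity
    linarith

end Pool.Agent.Helper63.PB
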