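import Pool.Agent.Helper63.PB.Split
import Mathlib.FieldTheory.RatFunc.IntermediateField

set_option autoImplicit false

/-!
# PB-36 Enlarge: enlarging `K'`
-/

namespace Pool.Agent.Helper63.PB

open Pool.Agent.Helper92.Weak Pool.Agent.Helper92.Ga
open Polynomial

section Pushout

variable {K' K'' L' L'' : Type*} [Field K'] [Field K''] [Field L'] [Field L'']
  [Algebra K' K''] [Algebra K' L'] [Algebra K' L''] [Algebra K'' L''] [Algebra L' L'']
  [IsScalarTower K' K'' L''] [IsScalarTower K' L' L''] {t : L'}

theorem pushout_line [Algebra.IsAlgebraic K' K''] (h : IsLine K' t)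
    (h'' : IsLine K'' (algebraMap L' L'' t)) : Algebra.IsPushout K' K'' L' L'' := by
  let a0 : Algebra K'[X] K''[X] := Polynomial.algebra K' K''
  let a1 : Algebra K'[X] L' := lineAlg K' t
  let a2 : Algebra K''[X] L'' := lineAlg K'' (algebraMap L' L'' t)
  let a3 : Algebra K'[X] L'' := lineAlg K' (algebraMap L' L'' t)
  have f1 : IsFractionRing K'[X] L' := h.isFractionRing
  have f2 : IsFractionRing K''[X] L'' := h''.isFractionRing
  have t1 : IsScalarTower K' K'[X] L' := lineAlg_tower K' t
  have t2 : IsScalarTower K'' K''[X] L'' := lineAlg_tower K'' (algebraMap L' L'' t)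
  have t3 : IsScalarTower K' K'[X] L'' := lineAlg_tower K' (algebraMap L' L'' t)
  have t4 : IsScalarTower K'[X] L' L'' := by
    apply IsScalarTower.of_algebraMap_eq
    intro p
    change aeval (algebraMap L' L'' t) p = algebraMap L' L'' (aeval t p)
    rw [aeval_algebraMap_apply]
  have t5 : IsScalarTower K'[X] K''[X] L'' := by
    apply IsScalarTower.of_algebraMap_eq
    intro p
    change aeval (algebraMap L' L'' t) p = aeval (algebraMap L' L'' t) (algebraMap K'[X] K''[X] p)
    rw [Polynomial.algebraMap_def, coe_mapRingHom, aeval_map_algebraMap]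
  have t6 : IsScalarTower K' K''[X] L'' := by
    apply IsScalarTower.of_algebraMap_eq
    intro x
    rw [IsScalarTower.algebraMap_apply K' K'' L'', IsScalarTower.algebraMap_apply K'' K''[X] L'',
      ← IsScalarTower.algebraMap_apply K' K'' K''[X]]
  have key : Algebra.IsPushout K'[X] L' K''[X] L'' := inferInstance
  have : Algebra.IsPushout K' L' K'' L'' :=
    (Algebra.IsPushout.comp_iff K' K'[X] K'' K''[X]).2 key
  exact this.symm

end Pushout

section Num

variable {k K' L' : Type*} [Field k] [Field K'] [Field L'] [Algebra k K'] [Algebra k L']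
  [Algebra K' L'] [IsScalarTower k K' L'] {t : L'}

/-- A polynomial which is positive at finitely many finite places. -/
theorem exists_num (h : IsLine K' t) (T : Finset (DVal k L'))
    (hT : ∀ v ∈ T, ∀ x : K', v (algebraMap K' L' x) = 0) :
    ∃ f : K'[X], f ≠ 0 ∧ ∀ v ∈ T, 0 ≤ v t → 0 < v (aeval t f) := by
  classical
  induction T using Finset.induction_on with
  | empty => exact ⟨1, one_ne_zero, fun v hv => absurd hv (Finset.notMem_empty v)⟩
  | insert w T hw ih =>
    obtain ⟨f, hf, hfT⟩ := ih fun v hv => hT v (Finset.mem_insert_of_mem hv)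
    by_cases hwt : 0 ≤ w t
    · obtain ⟨p, hp, hwp⟩ := exists_pVal h w (hT w (Finset.mem_insert_self w T)) hwt
      refine ⟨p * f, mul_ne_zero hp.ne_zero hf, fun v hv hvt => ?_⟩
      have hn : ∀ g : K'[X], 0 ≤ v (aeval t g) := fun g => by
        obtain ⟨p', hp', hvp'⟩ := exists_pVal h v (hT v hv) hvt
        rw [hvp']
        exact pVal_nonneg k h hp' g
      rw [map_mul, v.map_mul (h.aeval_ne hp.ne_zero) (h.aeval_ne hf)]
      rcases Finset.mem_insert.1 hv with rfl | hv'
      · have h1 : v (aeval t p) = 1 := by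
          rw [hwp]
          exact pVal_self k h hp
        have h2 := hn f
        omega
      · have h1 := hfT v hv' hvt
        have h2 := hn p
        omega
    · refine ⟨f, hf, fun v hv hvt => ?_⟩
      rcases Finset.mem_insert.1 hv with rfl | hv'
      · exact absurd hvt hwt
      · exact hfT v hv' hvt

/-- A place at which a product of linear polynomials is positive is rational. -/
theorem exists_plc_of_splits (h : IsLine K' t) {v : DVal k L'}
    (hv : ∀ x : K', v (algebraMap K' L' x) = 0) (hvt : 0 ≤ v t) {g : K'[X]} (hg : g ≠ 0)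
    (hs : g.Splits) (hpos : 0 < v (aeval t g)) : ∃ i, v = plc k h i := by
  by_contra hcon
  push Not at hcon
  have hlin : ∀ β : K', v (t - algebraMap K' L' β) ≤ 0 := fun β => by
    by_contra h0
    exact hcon (some β) (eq_plc_of_pos h hv hvt β (not_le.1 h0))
  have key : ∀ m : Multiset K',
      v (aeval t (m.map fun a => (X - C a : K'[X])).prod) ≤ 0 := by
    intro m
    induction m using Multiset.induction_on with
    | empty =>
      rw [Multiset.map_zero, Multiset.prod_zero, map_one, v.map_one]
    | cons a m ih =>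
      have h1 : (X - C a : K'[X]) ≠ 0 := X_sub_C_ne_zero a
      have h2 : (m.map fun a => (X - C a : K'[X])).prod ≠ 0 :=
        (monic_multisetProd_X_sub_C m).ne_zero
      rw [Multiset.map_cons, Multiset.prod_cons, map_mul,
        v.map_mul (h.aeval_ne h1) (h.aeval_ne h2), aeval_X_sub_C]
      have h3 := hlin a
      omega
  have h4 := key g.roots
  rw [hs.eq_prod_roots, map_mul, aeval_C, v.map_mul] at hpos
  · rw [hv] at hpos
    omega
  · have := leadingCoeff_ne_zero.2 hg
    intro h0
    exact this ((map_eq_zero_iff _ (algebraMap K' L').injective).1 h0)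
  · exact h.aeval_ne (monic_multisetProd_X_sub_C _).ne_zero

end Num

section Enlarge

variable {k K L K' L' K'' L'' : Type*} [Field k] [Field K] [Field L] [Field K'] [Field L']
  [Field K''] [Field L'']
  [Algebra k K] [Algebra k L] [Algebra k K'] [Algebra k L'] [Algebra K L] [Algebra K K']
  [Algebra K L'] [Algebra L L'] [Algebra K' L'] [IsScalarTower k K L] [IsScalarTower k K K']
  [IsScalarTower k K L'] [IsScalarTower k L L'] [IsScalarTower k K' L'] [IsScalarTower K L L']
  [IsScalarTower K K' L'] [FiniteDimensional K K'] [FiniteDimensional L L']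
  [Algebra k K''] [Algebra k L''] [Algebra K K''] [Algebra K L''] [Algebra L L''] [Algebra K' K'']
  [Algebra K' L''] [Algebra L' L''] [Algebra K'' L'']
  [IsScalarTower k K K''] [IsScalarTower k K L''] [IsScalarTower k L L'']
  [IsScalarTower k K'' L''] [IsScalarTower k L' L''] [IsScalarTower k K' K'']
  [IsScalarTower K L L''] [IsScalarTower K K'' L'']
  [IsScalarTower K K' K''] [IsScalarTower K' K'' L''] [IsScalarTower K' L' L'']
  [IsScalarTower L L' L''] [FiniteDimensional K' K'']
  {t : L'}

omit [Algebra k K'] [Algebra K L'] [IsScalarTower k K K'] [IsScalarTower k K L']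
  [IsScalarTower k L L'] [IsScalarTower k K' L'] [IsScalarTower K L L'] [IsScalarTower K K' L']
  [FiniteDimensional L L'] [IsScalarTower k K L''] [IsScalarTower k K' K''] in
theorem split_of_num (h'' : IsLine K'' (algebraMap L' L'' t)) [FiniteDimensional L' L'']
    {f : K'[X]} (hs : (f.map (algebraMap K' K'')).Splits) (hf : f ≠ 0)
    {P : DVal k L} (hP : ∀ x : K, P (algebraMap K L x) = 0)
    (hPf : ∀ (v : DVal k L') (ε : ℕ), LiesOver v P ε → 0 ≤ v t → 0 < v (aeval t f))
    (w : DVal k L'') (ε : ℕ) (hw : LiesOver w P ε) : ∃ i, w = plc k h'' i := by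
  have : FiniteDimensional K K'' := FiniteDimensional.trans K K' K''
  have hwt : ∀ x : K'', w (algebraMap K'' L'' x) = 0 := triv_of_hor hP hw
  obtain ⟨v, ε', hv⟩ := exists_under (E := L') w
  obtain ⟨e, hve, -⟩ := under_factor hv hw
  by_cases ht : w (algebraMap L' L'' t) < 0
  · exact ⟨none, eq_infVal h'' w hwt ht⟩
  · have ht' := not_lt.1 ht
    have hε : (0 : ℤ) < ε' := by exact_mod_cast hv.1
    have hvt : 0 ≤ v t := by
      have h1 := hv.2 t
      by_contra h0
      have h2 := mul_neg_of_pos_of_neg hε (not_le.1 h0)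
      omega
    have h1 := hPf v e hve hvt
    apply exists_plc_of_splits h'' hwt ht' ((Polynomial.map_ne_zero_iff
      (algebraMap K' K'').injective).2 hf) hs
    rw [aeval_map_algebraMap, aeval_algebraMap_apply, hv.2]
    exact mul_pos hε h1

/-- The comparison theorem. -/
theorem enlarge_main [Algebra.IsPushout K K' L L'] [CharZero k] [IsAlgClosed k]
    {X : ProjVar k L} {Z : ProjVar k K} {d : ℕ} (hd : Algebra.trdeg k K = d)
    (hmor : IsMorphism X Z)
    (hequi : ∀ P ∈ X.primeDivisors, (∃ a : K, P (algebraMap K L a) ≠ 0) →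
      ∃ Q ∈ Z.primeDivisors, ∃ e, LiesOver P Q e)
    (ht : IsLine K' t) (p : X.Pair (d + 1)) (q : Z.Pair d)
    (h1 : (∀ P : X.primeDivisors, (∀ x : K, P.1 (algebraMap K L x) = 0) → p.Δ P ≤ 1) ∨
      IsBigOnFibre K p)
    (hq : IsOrbifoldBase p q) (hκ : Z.kod q.logDiv ≠ ⊥)
    (h'' : IsLine K'' (algebraMap L' L'' t))
    {f : K'[X]} (hs : (f.map (algebraMap K' K'')).Splits) (hf : f ≠ 0)
    (hPf : ∀ P : X.primeDivisors, (∀ x : K, P.1 (algebraMap K L x) = 0) → p.Δ P ≠ 0 →
      ∀ (v : DVal k L') (ε : ℕ), LiesOver v P.1 ε → 0 ≤ v t → 0 < v (aeval t f)) :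
    (X.kod p.logDiv = ⊥ ∧ X.nu p.logDiv = ⊥) ∨
    ∃ (s : ℕ) (B : Z.Div), s ≤ 1 ∧ (∀ Q, 0 ≤ B Q) ∧ ∀ ε : ℚ, 0 < ε →
      X.kod p.logDiv = s + Z.kod (q.logDiv + ε • B) ∧
      X.nu p.logDiv = s + Z.nu (q.logDiv + ε • B) := by
  have i1 : Algebra.IsPushout K' K'' L' L'' := pushout_line ht h''
  have i0 : Algebra.IsPushout K' L' K'' L'' := i1.symm
  have i2 : FiniteDimensional L' L'' :=
    Module.Finite.equiv (Algebra.IsPushout.equiv K' L' K'' L'').toLinearEquiv
  have i3 : FiniteDimensional L L'' := FiniteDimensional.trans L L' L''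
  have i4 : FiniteDimensional K K'' := FiniteDimensional.trans K K' K''
  have i6 : IsScalarTower K L' L'' := by
    apply IsScalarTower.of_algebraMap_eq
    intro x
    rw [IsScalarTower.algebraMap_apply K L L'', IsScalarTower.algebraMap_apply L L' L'',
      ← IsScalarTower.algebraMap_apply K L L']
  have i5 : Algebra.IsPushout K K'' L L'' := (Algebra.IsPushout.comp_iff K K' L L').2 i1
  exact split_main hd hmor hequi h'' p q h1
    (fun P hP hPΔ v ε hv => split_of_num h'' hs hf hP (hPf P hP hPΔ) v ε hv) hq hκ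

end Enlarge

end Pool.Agent.Helper63.PB
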