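import Pool.Agent.Helper63.PB.Finite

/-!
# PB-19 FinMu: almost all vertical prime divisors have `μ = 0` and multiplicity one

PROOF. Outside a finite set of prime divisors `P` of `X`: `a P = 0`, `c Q = 0` for the `Q` below `P`
(`finite_image`-like: for each of the finitely many `Q` with `c Q ≠ 0` only finitely many `P`,
`finite_over_base`), and `v t = 0`, `v u = 0` for all `v` over `P` (`finite_ne`). For such `P` over `Q` with
multiplicity `e` and `v` over `P` with ramification `ε`: `star` with `g = t` says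
`0 = v (Dt t) ≥ v t - μ = -μ`, and `μ = ε (0 + 1 - e (0 + 1)) - 0 = ε (1 - e)`. So `e ≤ 1`, `e = 1` and
`μ = 0`. (If no `v` lies over `P` there is nothing to prove, but there is one by `PQ.exists_over`.)
-/

set_option autoImplicit false

namespace Pool.Agent.Helper63.PB

open Pool.Agent.Helper92.Weak Pool.Agent.Helper92.Ga

variable {k K L K' L' : Type*} [Field k] [Field K] [Field L] [Field K'] [Field L']
  [Algebra k K] [Algebra k L] [Algebra k K'] [Algebra k L'] [Algebra K L] [Algebra K K']
  [Algebra L L'] [Algebra K' L'] [IsScalarTower k L L'] [IsScalarTower k K' L']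
  [FiniteDimensional L L'] [CharZero k]
  {X : ProjVar k L} {Z : ProjVar k K} {t : L'} (F : Frame X Z K' t)

theorem finite_mu : {P : X.primeDivisors | ∃ (Q : Z.primeDivisors) (e : ℕ) (v : DVal k L') (ε : ℕ),
    LiesOver P.1 Q.1 e ∧ LiesOver v P.1 ε ∧ (F.mu P Q e v ε ≠ 0 ∨ e ≠ 1)}.Finite := by
  classical
  have ht : t ≠ 0 := by
    intro h0
    have h1 := F.Dt_t
    have h2 : ∀ x : L', x = 0 → F.Dt x = 0 := fun x hx => by rw [hx, map_zero]
    rw [h2 t h0] at h1
    exact zero_ne_one h1
  have hA : {P : X.primeDivisors | F.a P ≠ 0}.Finite := by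
    refine (F.a.support.finite_toSet).subset fun P hP => ?_
    simpa using hP
  have hc : {Q : Z.primeDivisors | F.c Q ≠ 0}.Finite := by
    refine (F.c.support.finite_toSet).subset fun Q hQ => ?_
    simpa using hQ
  have hB : (⋃ Q ∈ {Q : Z.primeDivisors | F.c Q ≠ 0},
      {P : X.primeDivisors | ∃ e, LiesOver P.1 Q.1 e}).Finite :=
    hc.biUnion fun Q _ => finite_over_base X Q.1
  have hC := finite_ne (L' := L') X ht
  have hD := finite_ne (L' := L') X F.u_ne
  refine (((hA.union hB).union hC).union hD).subset ?_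
  rintro P ⟨Q, e, v, ε, hPQ, hvP, hne⟩
  by_contra hP
  simp only [Set.mem_union, Set.mem_ofPred_eq, Set.mem_iUnion, not_or, not_exists, not_and,
    not_not, exists_prop] at hP
  obtain ⟨⟨⟨ha, hb⟩, ht'⟩, hu'⟩ := hP
  have hcQ : F.c Q = 0 := by
    by_contra h
    exact hb Q h e hPQ
  have hvt : v t = 0 := ht' v ε hvP
  have hvu : v F.u = 0 := hu' v ε hvP
  have hstar := F.star P Q e hPQ v ε hvP t
  rw [F.Dt_t, ha, hcQ, hvt, hvu] at hstar
  have h1 : (0 : ℤ) - (ε * (0 + 1 - e * (0 + 1)) - 0) ≤ v (1 : L') := by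
    rcases hstar with h | h
    · exact absurd h one_ne_zero
    · exact_mod_cast h
  rw [DVal.map_one] at h1
  have he : (1 : ℤ) ≤ e := by exact_mod_cast hPQ.1
  have hε : (1 : ℤ) ≤ ε := by exact_mod_cast hvP.1
  have he1 : (e : ℤ) = 1 := by nlinarith
  rcases hne with h | h
  · apply h
    unfold Frame.mu Frame.lam
    rw [ha, hcQ, hvu, he1]
    ring
  · exact h (by exact_mod_cast he1)

end Pool.Agent.Helper63.PB
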