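import Pool.Agent.Helper63.PB.FinMu
import Pool.Agent.Helper63.PB.VertPrimes
import Pool.Agent.Helper63.PB.Places

set_option autoImplicit false

/-!
# PB-21 GoodFin: all but finitely many prime divisors of `Z` have a good prime divisor over them

PROOF. Let `T` be the finite set of prime divisors `P` of `X` such that `Δ P ≠ 0`, or `P` is in the set of
`finite_mu`, or some `v` over `P` has `v (theta i j) ≠ 0` for some `i ≠ j` in `S` (`finite_ne`,
`theta_ne_zero`; for `i = j` `theta i i = 0` and `v 0 = 0`). By `finite_image` only finitely many `Q` lie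
under some `P ∈ T`; also exclude the finitely many `Q` with `E Q ≠ 0`. For every other `Q` take `P` over `Q`
(`exists_vert` with `F.mor`, `F.tr`): `P ∉ T`, so `e = 1`, `Δ P = 0`, `E Q = 0`, `μ = 0`,
`v (theta i j) = 0`: `P` is good.
-/

namespace Pool.Agent.Helper63.PB

open Pool.Agent.Helper92.Weak Pool.Agent.Helper92.Ga

variable {k K L K' L' : Type*} [Field k] [Field K] [Field L] [Field K'] [Field L']
  [Algebra k K] [Algebra k L] [Algebra k K'] [Algebra k L'] [Algebra K L] [Algebra K K']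
  [Algebra L L'] [Algebra K' L'] [IsScalarTower k K L] [IsScalarTower k L L']
  [IsScalarTower k K' L'] [FiniteDimensional L L'] [CharZero k]
  {X : ProjVar k L} {Z : ProjVar k K} {t : L'} {F : Frame X Z K' t} {Δ : X.Div}

theorem finite_not_good (H : HorData F Δ) (W : H.S → H.S → Prop) (E : Z.Div) :
    {Q : Z.primeDivisors | ¬ ∃ (P : X.primeDivisors) (e : ℕ), H.Good W E P Q e}.Finite := by
  classical
  set T₁ : Set X.primeDivisors := {P | Δ P ≠ 0} with hT₁
  set T₂ : Set X.primeDivisors := {P | ∃ (Q : Z.primeDivisors) (e : ℕ) (v : DVal k L') (ε : ℕ),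
    LiesOver P.1 Q.1 e ∧ LiesOver v P.1 ε ∧ (F.mu P Q e v ε ≠ 0 ∨ e ≠ 1)} with hT₂
  set T₃ : Set X.primeDivisors := ⋃ i ∈ H.S, ⋃ j ∈ H.S,
    {P | i ≠ j ∧ ∃ (v : DVal k L') (ε : ℕ), LiesOver v P.1 ε ∧ v (F.theta i j) ≠ 0} with hT₃
  have h1 : T₁.Finite := Δ.finite_support
  have h2 : T₂.Finite := finite_mu F
  have h3 : T₃.Finite := by
    refine H.S.finite_toSet.biUnion fun i _ => H.S.finite_toSet.biUnion fun j _ => ?_
    by_cases hij : i = j
    · refine Set.finite_empty.subset fun P hP => absurd hij hP.1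
    · exact (finite_ne X (theta_ne_zero F hij)).subset fun P hP => hP.2
  have h4 := finite_image Z ((h1.union h2).union h3)
  refine (h4.union E.finite_support).subset fun Q hQ => ?_
  by_contra hcon
  rw [Set.mem_union, not_or] at hcon
  obtain ⟨hc1, hc2⟩ := hcon
  apply hQ
  obtain ⟨s, hs, hs'⟩ := F.tr
  obtain ⟨P₀, hP₀, e, hPQ⟩ := exists_vert F.mor hs hs' Q.2
  set P : X.primeDivisors := ⟨P₀, hP₀⟩ with hP
  have hPT : P ∉ (T₁ ∪ T₂) ∪ T₃ := fun h => hc1 ⟨P, h, e, hPQ⟩
  rw [Set.mem_union, Set.mem_union, not_or, not_or] at hPT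
  obtain ⟨⟨hn1, hn2⟩, hn3⟩ := hPT
  have hΔ : Δ P = 0 := by
    by_contra h
    exact hn1 h
  have hE : E Q = 0 := by
    by_contra h
    exact hc2 h
  have hmu : ∀ (v : DVal k L') (ε : ℕ), LiesOver v P.1 ε → F.mu P Q e v ε = 0 ∧ e = 1 := by
    intro v ε hv
    by_contra h
    apply hn2
    refine ⟨Q, e, v, ε, hPQ, hv, ?_⟩
    by_contra h'
    rw [not_or, not_not, not_not] at h'
    exact h h'
  obtain ⟨v₀, ε₀, hv₀⟩ := Helper47.PQ.exists_over L' P.1
  have he : e = 1 := (hmu v₀ ε₀ hv₀).2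
  refine ⟨P, e, hPQ, ?_, ?_⟩
  · rw [hΔ, hE, he]
    norm_num
  · intro v ε hv i j _
    rw [(hmu v ε hv).1, add_zero]
    by_cases hij : i.1 = j.1
    · have h0 : F.theta i.1 j.1 = 0 := by
        unfold Frame.theta
        rw [hij, div_self (lin_ne_zero F.line j.1)]
        simp
      rw [h0]
      exact v.map_zero'
    · by_contra h
      apply hn3
      simp only [hT₃, Set.mem_iUnion]
      exact ⟨i.1, i.2, j.1, j.2, hij, v, ε, hv, h⟩

end Pool.Agent.Helper63.PB
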