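import Pool.Agent.Helper63.PB.PsiBounds
import Pool.Agent.Helper63.PB.LowNorm
import Pool.Agent.Helper63.PB.Transc
import Pool.Agent.Helper63.PB.Weights
import Pool.Agent.Helper60.MA.Ops

set_option autoImplicit false
set_option linter.unusedSectionVars false

/-!
# PB-25 Lower: the data for the lower bound

`D = aD + Δ`, `T = cD + E`. For `P` over `Q`: `e T(Q) - D(P) = -λ_P - (Δ P + (e - 1) - e E Q) ≤ -λ_P`
by `hbase` (`λ_P = a P + 1 - e (c Q + 1)`).

`lower_eq` (degree two). `ψ = phi x / u ^ m`. `psi_hor`, `psi_vert` give the first two hypotheses of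
`low_norm`. If `Q ∈ B` and `P` is over `Q`, then `P` is not good for `W i j := x i j ≠ 0`: either
`Δ P + (e - 1) ≠ e E Q`, then `e T(Q) - D(P) < -λ_P` and any `v` over `P` (`PQ.exists_over`) works; or
`v (theta i j) + μ ≠ 0` for some `v`, `x i j ≠ 0`: `psi_strict`. `LowerData` with `s = 0`: `b = norm(ψ)^R`,
`N = R n m`, `ρ` empty.

`lower_gt` (degree larger than two). `weights_gt` for `ι = S`, `δ i = Δ (pr i)` (positive: nonzero by
`H.mem` and `≥ 0`, `pr i` is trivial on `K` by `H.triv`) gives `m, x, x'`. `ψ₀ = phi x' / u^m`, `ρ₀ = phi x / phi x'`.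
`ρ₀` is transcendental over `K`: for `v = plc i` with `use x i ≠ use x' i` the value
`v ρ₀ = use x' i - use x i ≠ 0` (`val_phi`, `plc_injective`), while `v` is trivial on `K` and so is `0` on
nonzero elements algebraic over `K`. `exists_norm_transcendental`: `z ∈ k` with `ρ = norm (ρ₀ - z)`
transcendental. `ψ₁ = ψ₀ (ρ₀ - z) = phi x / u^m - z phi x' / u^m`. Both `ψ₀` and `ψ₁` satisfy the hypotheses of
`low_norm` (values of sums: `Ge.add`, `Ge.smul`): horizontally and vertically by `psi_hor`, `psi_vert` for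
`x` and `x'`; strictness: `P` over `Q ∈ B` is not good for `W i j := i ≠ j`: either the slack is
positive, or `v (theta i j) + μ ≠ 0` for some `v`, `i ≠ j`, and `psi_strict` applies to `x` and to `x'` (both
have `x i j ≥ 1`). `LowerData` with `s = 1`: `b = norm(ψ₀)^R`, `ρ 0 = norm(ρ₀ - z)^R`
(transcendental: `Transcendental.pow`; `algebraicIndependent_unique_type_iff`),
`b ρ = norm(ψ₁)^R`.
-/

namespace Pool.Agent.Helper63.PB

open Pool.Agent.Helper92.Weak Pool.Agent.Helper92.Ga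

section Aux

/-- An element algebraic over a subfield on which `v` is trivial has value `0`. -/
private theorem lower_triv {k K L' : Type*} [Field k] [Field K] [Field L'] [Algebra k K]
    [Algebra k L'] [Algebra K L'] [IsScalarTower k K L'] (v : DVal k L')
    (h : ∀ a : K, v (algebraMap K L' a) = 0) {ρ : L'} (hρ : IsAlgebraic K ρ) : v ρ = 0 := by
  let A : IntermediateField k L' := (IsScalarTower.toAlgHom k K L').fieldRange
  have hA : ∀ y ∈ A, v y = 0 := by
    rintro y ⟨a, rfl⟩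
    exact h a
  obtain ⟨p, hp, hp0⟩ := hρ
  let ι : K →+* A := (IsScalarTower.toAlgHom k K L').rangeRestrictField
  have hι : (algebraMap A L').comp ι = algebraMap K L' := by
    ext a
    rfl
  refine Pool.Agent.Helper60.MA.dval_algebraic v A hA ⟨p.map ι, ?_, ?_⟩
  · exact (Polynomial.map_ne_zero_iff ι.injective).2 hp
  · rw [Polynomial.aeval_def, Polynomial.eval₂_map, hι]
    exact hp0

/-- Values of `a - z b`. -/
private theorem lower_sub_le {k L' : Type*} [Field k] [Field L'] [Algebra k L'] (v : DVal k L')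
    {a b : L'} (z : k) (hab : a - algebraMap k L' z * b ≠ 0) {r : ℚ}
    (h1 : r ≤ v a) (h2 : r ≤ v b) : r ≤ v (a - algebraMap k L' z * b) := by
  have h3 : v.Ge r a := Or.inr h1
  have h4 : v.Ge r (algebraMap k L' z * b) := by
    rw [← Algebra.smul_def]
    exact DVal.Ge.smul (Or.inr h2) z
  exact (DVal.ge_iff hab).1 (h3.sub h4)

private theorem lower_sub_lt {k L' : Type*} [Field k] [Field L'] [Algebra k L'] (v : DVal k L')
    {a b : L'} (z : k) (hab : a - algebraMap k L' z * b ≠ 0) {r : ℚ}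
    (h1 : r < v a) (h2 : r < v b) : r < v (a - algebraMap k L' z * b) := by
  have h3 : r < min (v a : ℚ) (v b) := lt_min h1 h2
  exact h3.trans_le (lower_sub_le v z hab (min_le_left _ _) (min_le_right _ _))

end Aux

variable {k K L K' L' : Type*} [Field k] [Field K] [Field L] [Field K'] [Field L']
  [Algebra k K] [Algebra k L] [Algebra k K'] [Algebra k L'] [Algebra K L] [Algebra K K']
  [Algebra K L'] [Algebra L L'] [Algebra K' L'] [IsScalarTower k K L] [IsScalarTower k K K']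
  [IsScalarTower k K L'] [IsScalarTower k L L'] [IsScalarTower k K' L'] [IsScalarTower K L L']
  [IsScalarTower K K' L'] [FiniteDimensional K K'] [FiniteDimensional L L'] [CharZero k]
  {X : ProjVar k L} {Z : ProjVar k K} {t : L'} {F : Frame X Z K' t} {Δ : X.Div}
  (H : HorData F Δ) {E : Z.Div} {B : Finset Z.primeDivisors}

/-- `e T(Q) - D(P) = -λ - slack`. -/
private theorem lower_slack (P : X.primeDivisors) (Q : Z.primeDivisors) (e : ℕ) :
    (e : ℚ) * (F.cD + E) Q - (F.aD + Δ) P = -(F.lam P Q e : ℚ) - (Δ P + (e - 1) - e * E Q) := by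
  rw [Finsupp.add_apply, Finsupp.add_apply, Frame.aD_apply, Frame.cD_apply, Frame.lam]
  push_cast
  ring

/-- The vertical inequality. -/
private theorem lower_vert
    (hbase : ∀ (P : X.primeDivisors) (Q : Z.primeDivisors) (e : ℕ), LiesOver P.1 Q.1 e →
      e * E Q ≤ Δ P + (e - 1))
    {x : H.S → H.S → ℕ} {m : ℕ} (hx : ∀ i, x i i = 0) (hm : ∑ i, ∑ j, x i j = m)
    (P : X.primeDivisors) (Q : Z.primeDivisors) (e : ℕ) (hPQ : LiesOver P.1 Q.1 e)
    (v : DVal k L') (ε : ℕ) (hv : LiesOver v P.1 ε) :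
    (ε : ℚ) * (m * (e * (F.cD + E) Q - (F.aD + Δ) P)) ≤ v (H.phi x / F.u ^ m) := by
  have h1 := psi_vert H hx hm hPQ hv
  have h2 : (-((ε : ℤ) * (m * F.lam P Q e)) : ℤ) ≤ ((v (H.phi x / F.u ^ m) : ℤ) : ℚ) := by
    exact_mod_cast h1
  refine le_trans ?_ h2
  rw [lower_slack]
  have h3 := hbase P Q e hPQ
  have h4 : (0 : ℚ) ≤ (ε : ℚ) * m := by positivity
  push_cast
  nlinarith [mul_nonneg h4 (sub_nonneg.2 h3)]

/-- The strict vertical inequality when there is slack. -/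
private theorem lower_strict_slack
    {x : H.S → H.S → ℕ} {m : ℕ} (hm0 : 0 < m) (hx : ∀ i, x i i = 0) (hm : ∑ i, ∑ j, x i j = m)
    (P : X.primeDivisors) (Q : Z.primeDivisors) (e : ℕ) (hPQ : LiesOver P.1 Q.1 e)
    (hs : e * E Q < Δ P + (e - 1))
    (v : DVal k L') (ε : ℕ) (hv : LiesOver v P.1 ε) :
    (ε : ℚ) * (m * (e * (F.cD + E) Q - (F.aD + Δ) P)) < v (H.phi x / F.u ^ m) := by
  have h1 := psi_vert H hx hm hPQ hv
  have h2 : (-((ε : ℤ) * (m * F.lam P Q e)) : ℤ) ≤ ((v (H.phi x / F.u ^ m) : ℤ) : ℚ) := by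
    exact_mod_cast h1
  refine lt_of_lt_of_le ?_ h2
  rw [lower_slack]
  have hε : (0 : ℚ) < ε := by exact_mod_cast hv.1
  have hm' : (0 : ℚ) < m := by exact_mod_cast hm0
  push_cast
  nlinarith [mul_pos (mul_pos hε hm') (sub_pos.2 hs)]

/-- The strict vertical inequality when some `theta` is strict. -/
private theorem lower_strict_theta
    (hbase : ∀ (P : X.primeDivisors) (Q : Z.primeDivisors) (e : ℕ), LiesOver P.1 Q.1 e →
      e * E Q ≤ Δ P + (e - 1))
    {x : H.S → H.S → ℕ} {m : ℕ} (hx : ∀ i, x i i = 0) (hm : ∑ i, ∑ j, x i j = m)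
    (P : X.primeDivisors) (Q : Z.primeDivisors) (e : ℕ) (hPQ : LiesOver P.1 Q.1 e)
    (v : DVal k L') (ε : ℕ) (hv : LiesOver v P.1 ε) {i j : H.S} (hij : x i j ≠ 0)
    (h : v (F.theta i.1 j.1) + F.mu P Q e v ε ≠ 0) :
    (ε : ℚ) * (m * (e * (F.cD + E) Q - (F.aD + Δ) P)) < v (H.phi x / F.u ^ m) := by
  have h1 := psi_strict H hx hm hPQ hv hij h
  have h2 : (-((ε : ℤ) * (m * F.lam P Q e)) : ℤ) < ((v (H.phi x / F.u ^ m) : ℤ) : ℚ) := by
    exact_mod_cast h1
  refine lt_of_le_of_lt ?_ h2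
  rw [lower_slack]
  have h3 := hbase P Q e hPQ
  have h4 : (0 : ℚ) ≤ (ε : ℚ) * m := by positivity
  push_cast
  nlinarith [mul_nonneg h4 (sub_nonneg.2 h3)]

/-- Some valuation over `P` is strict, if `P` is not good. -/
private theorem lower_strict
    (hbase : ∀ (P : X.primeDivisors) (Q : Z.primeDivisors) (e : ℕ), LiesOver P.1 Q.1 e →
      e * E Q ≤ Δ P + (e - 1)) (W : H.S → H.S → Prop)
    (P : X.primeDivisors) (Q : Z.primeDivisors) (e : ℕ) (hPQ : LiesOver P.1 Q.1 e)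
    (hbad : ¬ H.Good W E P Q e) {m : ℕ} (hm0 : 0 < m) :
    ∃ (v : DVal k L') (ε : ℕ), LiesOver v P.1 ε ∧ ∀ x : H.S → H.S → ℕ, (∀ i, x i i = 0) →
      ∑ i, ∑ j, x i j = m → (∀ i j, W i j → x i j ≠ 0) →
      (ε : ℚ) * (m * (e * (F.cD + E) Q - (F.aD + Δ) P)) < v (H.phi x / F.u ^ m) := by
  by_cases hs : Δ P + (e - 1) = e * E Q
  · have h1 : ∃ (v : DVal k L') (ε : ℕ), LiesOver v P.1 ε ∧ ∃ i j : H.S, W i j ∧
        v (F.theta i.1 j.1) + F.mu P Q e v ε ≠ 0 := by
      by_contra hcon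
      push Not at hcon
      exact hbad ⟨hPQ, hs, fun v ε hv i j hij => hcon v ε hv i j hij⟩
    obtain ⟨v, ε, hv, i, j, hij, h⟩ := h1
    refine ⟨v, ε, hv, fun x hx hm hW => ?_⟩
    exact lower_strict_theta H hbase hx hm P Q e hPQ v ε hv (hW i j hij) h
  · obtain ⟨v, ε, hv⟩ := Pool.Agent.Helper47.PQ.exists_over L' P.1
    refine ⟨v, ε, hv, fun x hx hm _ => ?_⟩
    exact lower_strict_slack H hm0 hx hm P Q e hPQ
      (lt_of_le_of_ne (hbase P Q e hPQ) (Ne.symm hs)) v ε hv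

private theorem lower_hor
    (h0 : ∀ P : X.primeDivisors, (∀ x : K, P.1 (algebraMap K L x) = 0) → 0 ≤ Δ P)
    {x : H.S → H.S → ℕ} {m : ℕ} (hx : ∀ i, x i i = 0) (hm : ∑ i, ∑ j, x i j = m)
    (huse : ∀ i : H.S, (H.use x i : ℚ) ≤ m * Δ (H.pr i))
    (P : X.primeDivisors) (hP : ∀ x : K, P.1 (algebraMap K L x) = 0)
    (v : DVal k L') (ε : ℕ) (hv : LiesOver v P.1 ε) :
    -((ε : ℚ) * (m * (F.aD + Δ) P)) ≤ v (H.phi x / F.u ^ m) := by
  rw [Finsupp.add_apply, Frame.aD_apply]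
  exact psi_hor H hx hm huse hP (h0 P hP) hv

theorem lower_eq
    (h0 : ∀ P : X.primeDivisors, (∀ x : K, P.1 (algebraMap K L x) = 0) → 0 ≤ Δ P)
    (hbase : ∀ (P : X.primeDivisors) (Q : Z.primeDivisors) (e : ℕ), LiesOver P.1 Q.1 e →
      e * E Q ≤ Δ P + (e - 1))
    {x : H.S → H.S → ℕ} {m : ℕ} (hm0 : 0 < m) (hx : ∀ i, x i i = 0) (hm : ∑ i, ∑ j, x i j = m)
    (huse : ∀ i : H.S, (H.use x i : ℚ) = m * Δ (H.pr i))
    (hB : ∀ Q ∈ B, ¬ ∃ (P : X.primeDivisors) (e : ℕ), H.Good (fun i j => x i j ≠ 0) E P Q e) :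
    Nonempty (LowerData X Z (F.aD + Δ) (F.cD + E) B 0) := by
  obtain ⟨R, hR, hlow⟩ := low_norm (L' := L') (F.aD + Δ) (F.cD + E) B hm0
  have hψ : H.phi x / F.u ^ m ≠ 0 := div_ne_zero (phi_ne_zero H hx) (pow_ne_zero _ F.u_ne)
  obtain ⟨h1, h2⟩ := hlow (H.phi x / F.u ^ m) hψ
    (fun P hP v ε hv => lower_hor H h0 hx hm (fun i => (huse i).le) P hP v ε hv)
    (fun P Q e hPQ v ε hv => lower_vert H hbase hx hm P Q e hPQ v ε hv)
    (fun P Q e hPQ hQ => by
      obtain ⟨v, ε, hv, h⟩ := lower_strict H hbase (fun i j => x i j ≠ 0) P Q e hPQ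
        (fun hg => hB Q hQ ⟨P, e, hg⟩) hm0
      exact ⟨v, ε, hv, h x hx hm fun i j hij => hij⟩)
  refine ⟨{ N := R * (Module.finrank L L' * m)
            N_pos := Nat.mul_pos hR (Nat.mul_pos Module.finrank_pos hm0)
            b := Algebra.norm L (H.phi x / F.u ^ m) ^ R
            b_ne := pow_ne_zero _ (Algebra.norm_ne_zero_iff.2 hψ)
            ρ := Fin.elim0
            indep := ?_
            hor := fun P hP => ⟨h1 P hP, fun i => i.elim0⟩
            vert := fun P Q e hPQ => ⟨h2 P Q e hPQ, fun i => i.elim0⟩ }⟩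
  exact (algebraicIndependent_empty_type_iff).2 (algebraMap K L).injective

/-- The lower bound if the degree of `min(Δ, 1)` is larger than two. -/
theorem lower_gt_min
    (h0 : ∀ P : X.primeDivisors, (∀ x : K, P.1 (algebraMap K L x) = 0) → 0 ≤ Δ P)
    (hbase : ∀ (P : X.primeDivisors) (Q : Z.primeDivisors) (e : ℕ), LiesOver P.1 Q.1 e →
      e * E Q ≤ Δ P + (e - 1))
    (hD : 2 < ∑ i ∈ H.S, min (Δ (H.pr i)) 1)
    (hB : ∀ Q ∈ B, ¬ ∃ (P : X.primeDivisors) (e : ℕ), H.Good (fun i j => i ≠ j) E P Q e) :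
    Nonempty (LowerData X Z (F.aD + Δ) (F.cD + E) B 1) := by
  classical
  have hδ0 : ∀ i : H.S, 0 < min (Δ (H.pr i.1)) 1 := fun i =>
    lt_min (lt_of_le_of_ne (h0 _ (H.triv i.1)) (Ne.symm ((H.mem i.1).1 i.2))) one_pos
  have hδ1 : ∀ i : H.S, min (Δ (H.pr i.1)) 1 ≤ 1 := fun i => min_le_right _ _
  have hδ2 : 2 < ∑ i : H.S, min (Δ (H.pr i.1)) 1 := by
    have h3 : ∑ i ∈ H.S, min (Δ (H.pr i)) 1 = ∑ i : H.S, min (Δ (H.pr i.1)) 1 :=
      (Finset.sum_coe_sort H.S fun i => min (Δ (H.pr i)) 1).symm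
    rwa [← h3]
  obtain ⟨m, x, x', hm0, hx, hx', hm, hm', hge, huse₁, huse₁', i₀, hi₀⟩ :=
    weights_gt (δ := fun i : H.S => min (Δ (H.pr i.1)) 1) hδ0 hδ1 hδ2
  have huse : ∀ i : H.S, (H.use x i : ℚ) ≤ m * Δ (H.pr i) := fun i =>
    (huse₁ i).trans (mul_le_mul_of_nonneg_left (min_le_left _ _) (Nat.cast_nonneg m))
  have huse' : ∀ i : H.S, (H.use x' i : ℚ) ≤ m * Δ (H.pr i) := fun i =>
    (huse₁' i).trans (mul_le_mul_of_nonneg_left (min_le_left _ _) (Nat.cast_nonneg m))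
  have hun : F.u ^ m ≠ 0 := pow_ne_zero _ F.u_ne
  have hφ : H.phi x ≠ 0 := phi_ne_zero H hx
  have hφ' : H.phi x' ≠ 0 := phi_ne_zero H hx'
  -- transcendence
  have htr : Transcendental K (H.phi x / H.phi x') := by
    intro hal
    set v : DVal k L' := plc k F.line i₀.1 with hvdef
    have hvK' : ∀ a : K', v (algebraMap K' L' a) = 0 := plc_triv F.line i₀.1
    have hvK : ∀ a : K, v (algebraMap K L' a) = 0 := by
      intro a
      rw [IsScalarTower.algebraMap_apply K K' L']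
      exact hvK' _
    have h3 := lower_triv v hvK hal
    have key : ∀ (y : H.S → H.S → ℕ), (∑ i : H.S, if v = plc k F.line i.1 then (H.use y i : ℤ)
        else 0) = H.use y i₀ := by
      intro y
      rw [Finset.sum_eq_single i₀]
      · rw [if_pos hvdef]
      · intro i _ hi
        rw [if_neg]
        intro heq
        apply hi
        have h4 := plc_injective F.line (hvdef.symm.trans heq)
        exact Subtype.ext h4.symm
      · intro h
        exact absurd (Finset.mem_univ _) h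
    rw [v.map_div hφ hφ', val_phi H hvK' hx hm, val_phi H hvK' hx' hm', key, key] at h3
    apply hi₀
    have h5 : (H.use x i₀ : ℤ) = H.use x' i₀ := by linarith
    exact_mod_cast h5
  obtain ⟨z, hz⟩ := exists_norm_transcendental (k := k) (K := K) (L := L) htr
  obtain ⟨R, hR, hlow⟩ := low_norm (L' := L') (F.aD + Δ) (F.cD + E) B hm0
  have hψ0 : H.phi x' / F.u ^ m ≠ 0 := div_ne_zero hφ' hun
  have hρz : H.phi x / H.phi x' - algebraMap k L' z ≠ 0 := by
    intro h
    rw [h, Algebra.norm_zero] at hz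
    exact hz isAlgebraic_zero
  have heq : H.phi x' / F.u ^ m * (H.phi x / H.phi x' - algebraMap k L' z) =
      H.phi x / F.u ^ m - algebraMap k L' z * (H.phi x' / F.u ^ m) := by
    field_simp
  have hψ1 : H.phi x / F.u ^ m - algebraMap k L' z * (H.phi x' / F.u ^ m) ≠ 0 := by
    rw [← heq]
    exact mul_ne_zero hψ0 hρz
  have hstr : ∀ (P : X.primeDivisors) (Q : Z.primeDivisors) (e : ℕ), LiesOver P.1 Q.1 e → Q ∈ B →
      ∃ (v : DVal k L') (ε : ℕ), LiesOver v P.1 ε ∧ ∀ x : H.S → H.S → ℕ, (∀ i, x i i = 0) →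
        ∑ i, ∑ j, x i j = m → (∀ i j, i ≠ j → x i j ≠ 0) →
        (ε : ℚ) * (m * (e * (F.cD + E) Q - (F.aD + Δ) P)) < v (H.phi x / F.u ^ m) :=
    fun P Q e hPQ hQ => lower_strict H hbase (fun i j => i ≠ j) P Q e hPQ
      (fun hg => hB Q hQ ⟨P, e, hg⟩) hm0
  obtain ⟨a1, a2⟩ := hlow (H.phi x' / F.u ^ m) hψ0
    (fun P hP v ε hv => lower_hor H h0 hx' hm' huse' P hP v ε hv)
    (fun P Q e hPQ v ε hv => lower_vert H hbase hx' hm' P Q e hPQ v ε hv)
    (fun P Q e hPQ hQ => by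
      obtain ⟨v, ε, hv, h⟩ := hstr P Q e hPQ hQ
      exact ⟨v, ε, hv, h x' hx' hm' fun i j hij => by have := (hge i j hij).2; omega⟩)
  obtain ⟨b1, b2⟩ := hlow (H.phi x / F.u ^ m - algebraMap k L' z * (H.phi x' / F.u ^ m)) hψ1
    (fun P hP v ε hv => lower_sub_le v z hψ1 (lower_hor H h0 hx hm huse P hP v ε hv)
      (lower_hor H h0 hx' hm' huse' P hP v ε hv))
    (fun P Q e hPQ v ε hv => lower_sub_le v z hψ1 (lower_vert H hbase hx hm P Q e hPQ v ε hv)
      (lower_vert H hbase hx' hm' P Q e hPQ v ε hv))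
    (fun P Q e hPQ hQ => by
      obtain ⟨v, ε, hv, h⟩ := hstr P Q e hPQ hQ
      exact ⟨v, ε, hv, lower_sub_lt v z hψ1
        (h x hx hm fun i j hij => by have := (hge i j hij).1; omega)
        (h x' hx' hm' fun i j hij => by have := (hge i j hij).2; omega)⟩)
  have hbρ : Algebra.norm L (H.phi x' / F.u ^ m) ^ R *
      Algebra.norm L (H.phi x / H.phi x' - algebraMap k L' z) ^ R =
      Algebra.norm L (H.phi x / F.u ^ m - algebraMap k L' z * (H.phi x' / F.u ^ m)) ^ R := by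
    rw [← mul_pow, ← map_mul, heq]
  refine ⟨{ N := R * (Module.finrank L L' * m)
            N_pos := Nat.mul_pos hR (Nat.mul_pos Module.finrank_pos hm0)
            b := Algebra.norm L (H.phi x' / F.u ^ m) ^ R
            b_ne := pow_ne_zero _ (Algebra.norm_ne_zero_iff.2 hψ0)
            ρ := fun _ => Algebra.norm L (H.phi x / H.phi x' - algebraMap k L' z) ^ R
            indep := ?_
            hor := fun P hP => ⟨a1 P hP, fun i => ?_⟩
            vert := fun P Q e hPQ => ⟨a2 P Q e hPQ, fun i => ?_⟩ }⟩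
  · rw [algebraicIndependent_unique_type_iff]
    exact hz.pow hR
  · rw [hbρ]
    exact b1 P hP
  · rw [hbρ]
    exact b2 P Q e hPQ

theorem lower_gt
    (h0 : ∀ P : X.primeDivisors, (∀ x : K, P.1 (algebraMap K L x) = 0) → 0 ≤ Δ P)
    (h1 : ∀ P : X.primeDivisors, (∀ x : K, P.1 (algebraMap K L x) = 0) → Δ P ≤ 1)
    (hbase : ∀ (P : X.primeDivisors) (Q : Z.primeDivisors) (e : ℕ), LiesOver P.1 Q.1 e →
      e * E Q ≤ Δ P + (e - 1))
    (hD : 2 < H.deg)
    (hB : ∀ Q ∈ B, ¬ ∃ (P : X.primeDivisors) (e : ℕ), H.Good (fun i j => i ≠ j) E P Q e) :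
    Nonempty (LowerData X Z (F.aD + Δ) (F.cD + E) B 1) := by
  refine lower_gt_min H h0 hbase ?_ hB
  have h2 : ∑ i ∈ H.S, min (Δ (H.pr i)) 1 = H.deg := by
    unfold HorData.deg
    exact Finset.sum_congr rfl fun i _ => min_eq_left (h1 _ (H.triv i))
  rwa [h2]

end Pool.Agent.Helper63.PB
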