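import Pool.Agent.Helper63.PB.UBcoef
import Pool.Agent.Helper63.PB.PsiBounds
import Pool.Agent.Helper63.PB.Weights

set_option autoImplicit false

/-!
# PB-31 MkUpper: the data for the upper bound

`upper_of_uData`. From `ub_coef`: the map `f ↦ (b_j)_{j ≤ q J + J_A}` is `k`-linear (the polynomial `p` is
determined by its value at `t`, `IsLine.inj`) and injective (`u, Ψ, G ≠ 0`) from `H⁰(X, q M (aD + Δ) + A)` to
`(q J + J_A + 1)` copies of `famH0 K' Z (..)`, so `sdim ≤ (q J + J_A + 1) sdim (famH0 ..)`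
(`sdim_le_card_mul`, as in `Helper47.PQ.IsFiniteCover.sdim_trace`), and `q J + J_A + 1 ≤ (J + J_A + 1) q^s`
for `q ≥ 1`, `s = 0` if `J = 0`, `s = 1` otherwise.

`uData_gt`. Degree larger than two, with `0, 1, ∞ ∈ S`. Let `M ≥ 1` be a common denominator of the
`Δ (pr i)`, `i ∈ S`, `n_i = M Δ (pr i) ∈ ℕ`; `Ψ = ∏_{i ∈ S} lin i ^ n_i`; `J = ∑ n_i - 2 M = M (deg - 2) > 0`.
`fin`, `inf`: `val_lin` (`v` over `P` horizontal is trivial on `K'`: `triv_of_hor`; `v = plc i` for at most
one `i`; `pr i = P` by `liesOver_unique`; if `Δ P ≠ 0` then `v = plc i`, `i ∈ S`, by `H.split`):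
`v t ≥ 0`: `v Ψ = ∑_i n_i [v = plc i] = M Δ P`. `v t < 0`: `v = plc none` (`eq_infVal`),
`v Ψ = ∑_i n_i ([v = plc i] - 1) = M Δ P - ∑ n_i = M Δ P - 2 M - J`.
`good`: for `Q ∉ B` there is `P, e` good for `W i j := i ≠ j`. For `v` over `P`: `theta (some 0) none = 1 / t`,
so `μ = v t`; `theta (some 1) none = 1 / (t - 1)`, so `μ = v (t - 1)`;
`theta (some 0) (some 1) = -1 / (t (t - 1))` up to sign, so `v t + v (t - 1) = μ` (`theta_eq`: the
constants `c ∈ K'` have to be computed: `c = ± 1` here, and `c = 1` for `(some α, none)`). Hence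
`μ = v t = v (t - 1) = 0`. For `i = some α ∈ S`: `v (t - α) = μ = 0` from `theta (some α) none = 1 / (t - α)`.
So `v Ψ = 0 = M μ`.

`uData_eq`. Degree two, `x` exact: `use x i = m Δ (pr i)`. `M = m`, `J = 0`, `Ψ = (phi x)⁻¹`. `fin`, `inf`:
`val_phi`: `v Ψ = ∑_i [v = plc i] use i - 2 m [v t < 0] = m Δ P - 2 m [v t < 0]`. `good`: `P` good for
`W i j := x i j ≠ 0`: `v (phi x) = ∑ x i j v (theta i j) = -m μ` (`val_phi_eq`), so `v Ψ = M μ`.
-/

namespace Pool.Agent.Helper63.PB

open Pool.Agent.Helper92.Weak Pool.Agent.Helper92.Ga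

variable {k K L K' L' : Type*} [Field k] [Field K] [Field L] [Field K'] [Field L']
  [Algebra k K] [Algebra k L] [Algebra k K'] [Algebra k L'] [Algebra K L] [Algebra K K']
  [Algebra K L'] [Algebra L L'] [Algebra K' L'] [IsScalarTower k K L] [IsScalarTower k K K']
  [IsScalarTower k K L'] [IsScalarTower k L L'] [IsScalarTower k K' L'] [IsScalarTower K L L']
  [IsScalarTower K K' L'] [FiniteDimensional K K'] [FiniteDimensional L L'] [CharZero k]
  {X : ProjVar k L} {Z : ProjVar k K} {t : L'} {F : Frame X Z K' t} {Δ : X.Div} {E : Z.Div}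
  {B : Finset Z.primeDivisors}

theorem upper_of_uData [Algebra.IsPushout K K' L L'] (U : UData F Δ E B) :
    UpperData X Z K' (F.aD + Δ) (F.cD + E) B (if U.J = 0 then 0 else 1) := by
  classical
  obtain ⟨C, hC⟩ := ub_coef U
  refine ⟨U.M, C, U.M_pos, fun A => ?_⟩
  obtain ⟨A', G, JA, hG, hA, h⟩ := hC A
  refine ⟨A', U.J + JA + 1, hA, fun q hq => ?_⟩
  set W := X.H0 (((q * U.M : ℕ) : ℚ) • (F.aD + Δ) + A) with hW
  set W' := famH0 K' Z (((q * U.M : ℕ) : ℚ) • (F.cD + E + (C : ℚ) • redDiv B) + A') with hW'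
  have hex : ∀ f : W, ∃ p : Polynomial K',
      Polynomial.aeval t p = algebraMap L L' f.1 * F.u ^ (q * U.M) * U.Ψ ^ q * G ∧
      p.natDegree ≤ q * U.J + JA ∧ ∀ j, p.coeff j ∈ W' := fun f => h q f.1 hq f.2
  choose p hp1 hp2 hp3 using hex
  have hadd : ∀ f g : W, p (f + g) = p f + p g := by
    intro f g
    apply F.line.inj
    rw [map_add, hp1, hp1, hp1, Submodule.coe_add, map_add]
    ring
  have hsmul : ∀ (c : k) (f : W), p (c • f) = Polynomial.C (algebraMap k K' c) * p f := by
    intro c f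
    apply F.line.inj
    rw [map_mul, hp1, hp1, Polynomial.aeval_C, Submodule.coe_smul, Algebra.smul_def, map_mul,
      ← IsScalarTower.algebraMap_apply k K' L', ← IsScalarTower.algebraMap_apply k L L']
    ring
  let Fm : W →ₗ[k] (Fin (q * U.J + JA + 1) → W') :=
    { toFun := fun f j => ⟨(p f).coeff j, hp3 f j⟩
      map_add' := fun f g => by
        funext j
        apply Subtype.ext
        change (p (f + g)).coeff j = (p f).coeff j + (p g).coeff j
        rw [hadd, Polynomial.coeff_add]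
      map_smul' := fun c f => by
        funext j
        apply Subtype.ext
        change (p (c • f)).coeff j = c • (p f).coeff j
        rw [hsmul, Polynomial.coeff_C_mul, Algebra.smul_def] }
  have hFm : Function.Injective Fm := by
    intro f g hfg
    have h1 : p f = p g := by
      apply Polynomial.ext
      intro j
      by_cases hj : j < q * U.J + JA + 1
      · exact congrArg Subtype.val (congrFun hfg ⟨j, hj⟩)
      · have hf := hp2 f
        have hg := hp2 g
        rw [Polynomial.coeff_eq_zero_of_natDegree_lt (by omega),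
          Polynomial.coeff_eq_zero_of_natDegree_lt (by omega)]
    have h2 := hp1 f
    rw [h1, hp1 g] at h2
    have h3 := mul_right_cancel₀ hG h2
    have h4 := mul_right_cancel₀ (pow_ne_zero q U.Ψ_ne) h3
    have h5 := mul_right_cancel₀ (pow_ne_zero (q * U.M) F.u_ne) h4
    exact Subtype.ext ((algebraMap L L').injective h5).symm
  have h6 := sdim_le_card_mul
    ((Finsupp.linearEquivFunOnFinite k W' (Fin (q * U.J + JA + 1))).symm.toLinearMap ∘ₗ Fm)
    ((Finsupp.linearEquivFunOnFinite k W' (Fin (q * U.J + JA + 1))).symm.injective.comp hFm)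
  rw [Fintype.card_fin] at h6
  refine h6.trans (mul_le_mul_left ?_ _)
  have h7 : q * U.J + JA + 1 ≤ (U.J + JA + 1) * q ^ (if U.J = 0 then 0 else 1) := by
    by_cases hJ : U.J = 0
    · rw [if_pos hJ, hJ, pow_zero, mul_one]
      omega
    · rw [if_neg hJ, pow_one]
      nlinarith
  exact_mod_cast h7

open Classical in
/-- The sum over the places at `v`. -/
private theorem h45_sum (H : HorData F Δ) {P : X.primeDivisors}
    (hP : ∀ x : K, P.1 (algebraMap K L x) = 0) {v : DVal k L'} (hv : LiesOver v P.1 1)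
    (c : ℚ) (g : H.S → ℚ) (hg : ∀ i : H.S, g i = c * Δ (H.pr i.1)) :
    ∑ i : H.S, (if v = plc k F.line i.1 then g i else 0) = c * Δ P := by
  have hpr : ∀ i : H.S, v = plc k F.line i.1 → H.pr i.1 = P := by
    intro i hi
    have h1 := H.ov i.1
    rw [← hi] at h1
    exact Subtype.ext (Pool.Agent.Helper47.PQ.liesOver_unique h1 hv).1
  by_cases hΔ : Δ P = 0
  · rw [hΔ, mul_zero]
    refine Finset.sum_eq_zero fun i _ => if_neg fun hi => ?_
    exact (H.mem i.1).1 i.2 (by rw [hpr i hi, hΔ])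
  · obtain ⟨i₀, hi₀, hvi, hpi⟩ := H.split P hP hΔ v 1 hv
    rw [Finset.sum_eq_single (⟨i₀, hi₀⟩ : H.S)]
    · rw [if_pos hvi, hg, hpi]
    · intro j _ hj
      refine if_neg fun hvj => hj (Subtype.ext ?_)
      exact plc_injective F.line (hvj.symm.trans hvi)
    · intro h0
      exact absurd (Finset.mem_univ _) h0

private theorem h45_theta_none (F : Frame X Z K' t) (α : K') :
    F.theta (some α) none = (lin t (some α))⁻¹ := by
  have hi := lin_ne_zero F.line (some α)
  unfold Frame.theta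
  change F.Dt ((t - algebraMap K' L' α) / 1) / ((t - algebraMap K' L' α) / 1) =
    (t - algebraMap K' L' α)⁻¹
  rw [div_one, map_sub, F.Dt_t, F.Dt.map_algebraMap, sub_zero, one_div]

private theorem h45_theta_some (F : Frame X Z K' t) :
    F.theta (some 0) (some 1) = -(lin t (some (0 : K')) * lin t (some (1 : K')))⁻¹ := by
  have hi := lin_ne_zero F.line (some (0 : K'))
  have hj := lin_ne_zero F.line (some (1 : K'))
  have hDs : ∀ α : K', F.Dt (t - algebraMap K' L' α) = 1 := by
    intro α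
    rw [map_sub, F.Dt_t, F.Dt.map_algebraMap, sub_zero]
  change t - algebraMap K' L' 0 ≠ 0 at hi
  change t - algebraMap K' L' 1 ≠ 0 at hj
  have key : F.theta (some 0) (some 1) = F.Dt (lin t (some (0 : K'))) / lin t (some (0 : K')) -
      F.Dt (lin t (some (1 : K'))) / lin t (some (1 : K')) := by
    unfold Frame.theta
    rw [Derivation.leibniz_div]
    simp only [smul_eq_mul]
    change _ / ((t - algebraMap K' L' 0) / (t - algebraMap K' L' 1)) = _
    change _ = _ / (t - algebraMap K' L' 0) - _ / (t - algebraMap K' L' 1)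
    unfold lin
    field_simp
  rw [key]
  change F.Dt (t - algebraMap K' L' 0) / (t - algebraMap K' L' 0) -
        F.Dt (t - algebraMap K' L' 1) / (t - algebraMap K' L' 1) =
        -((t - algebraMap K' L' 0) * (t - algebraMap K' L' 1))⁻¹
  rw [hDs, hDs]
  rw [map_zero, sub_zero] at hi ⊢
  rw [map_one] at hj ⊢
  field_simp
  ring

theorem uData_gt (H : HorData F Δ) (hS : none ∈ H.S ∧ some 0 ∈ H.S ∧ some 1 ∈ H.S)
    (h0 : ∀ P : X.primeDivisors, (∀ x : K, P.1 (algebraMap K L x) = 0) → 0 ≤ Δ P)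
    (hD : 2 < H.deg)
    (hB : ∀ Q ∉ B, ∃ (P : X.primeDivisors) (e : ℕ), H.Good (fun i j => i ≠ j) E P Q e) :
    ∃ U : UData F Δ E B, U.J ≠ 0 := by
  classical
  obtain ⟨M, n, hM, hn⟩ := w_den (fun i : H.S => Δ (H.pr i.1)) fun i => h0 _ (H.triv i.1)
  have hM' : (0 : ℚ) < M := by exact_mod_cast hM
  have hdeg : ((∑ i, n i : ℕ) : ℚ) = M * H.deg := by
    unfold HorData.deg
    rw [← Finset.sum_coe_sort H.S, Finset.mul_sum]
    push_cast
    exact Finset.sum_congr rfl fun i _ => (hn i).symm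
  have hlt : 2 * M < ∑ i, n i := by
    have h1 : ((2 * M : ℕ) : ℚ) < ((∑ i, n i : ℕ) : ℚ) := by
      rw [hdeg]
      push_cast
      nlinarith
    exact_mod_cast h1
  have hprod : ∀ i ∈ (Finset.univ : Finset H.S), lin t i.1 ^ n i ≠ 0 := fun i _ =>
    pow_ne_zero _ (lin_ne_zero F.line i.1)
  have hval : ∀ v : DVal k L', v (∏ i : H.S, lin t i.1 ^ n i) =
      ∑ i : H.S, (n i : ℤ) * v (lin t i.1) := by
    intro v
    rw [v.map_prod _ _ hprod]
    exact Finset.sum_congr rfl fun i _ => v.map_pow _ _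
  have hJ : (((∑ i, n i) - 2 * M : ℕ) : ℚ) = (∑ i, (n i : ℚ)) - 2 * M := by
    rw [Nat.cast_sub hlt.le]
    push_cast
    ring
  refine ⟨⟨M, hM, ∑ i, n i - 2 * M, ∏ i : H.S, lin t i.1 ^ n i, Finset.prod_ne_zero_iff.2 hprod,
    ?_, ?_, ?_⟩, ?_⟩
  · intro P hP v hv ht
    have htriv := triv_of_hor (K' := K') hP hv
    rw [← h45_sum H hP hv (M : ℚ) (fun i => (n i : ℚ)) fun i => (hn i).symm, hval]
    push_cast
    refine (Finset.sum_le_sum fun i _ => ?_)
    rw [val_lin F.line htriv, if_neg (not_lt.2 ht)]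
    by_cases hvi : v = plc k F.line i.1
    · rw [if_pos hvi, if_pos hvi]
      push_cast
      linarith
    · rw [if_neg hvi, if_neg hvi]
      push_cast
      linarith
  · intro P hP v hv ht
    have htriv := triv_of_hor (K' := K') hP hv
    rw [← h45_sum H hP hv (M : ℚ) (fun i => (n i : ℚ)) fun i => (hn i).symm, hval, hJ]
    push_cast
    have h1 : ∀ i : H.S, (n i : ℚ) * (v (lin t i.1) : ℚ) =
        (if v = plc k F.line i.1 then (n i : ℚ) else 0) - (n i : ℚ) := by
      intro i
      rw [val_lin F.line htriv, if_pos ht]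
      by_cases hvi : v = plc k F.line i.1
      · rw [if_pos hvi, if_pos hvi]
        push_cast
        ring
      · rw [if_neg hvi, if_neg hvi]
        push_cast
        ring
    rw [Finset.sum_congr rfl fun i _ => h1 i, Finset.sum_sub_distrib]
    linarith
  · intro Q hQ
    obtain ⟨P, e, h1, h2, h3⟩ := hB Q hQ
    refine ⟨P, e, h1, h2, fun v ε hv => ?_⟩
    have hnone : ∀ α : K', some α ∈ H.S → v (lin t (some α)) = F.mu P Q e v ε := by
      intro α hα
      have h4 := h3 v ε hv ⟨some α, hα⟩ ⟨none, hS.1⟩ (fun h => by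
        have := congrArg Subtype.val h
        simp at this)
      rw [h45_theta_none, v.map_inv] at h4
      linarith
    have hc0 := hnone 0 hS.2.1
    have hc1 := hnone 1 hS.2.2
    have h5 := h3 v ε hv ⟨some 0, hS.2.1⟩ ⟨some 1, hS.2.2⟩ (fun h => by
      have := congrArg Subtype.val h
      simp at this)
    rw [h45_theta_some, v.map_neg, v.map_inv, v.map_mul (lin_ne_zero F.line _)
      (lin_ne_zero F.line _), hc0, hc1] at h5
    have hmu : F.mu P Q e v ε = 0 := by linarith
    have hlin : ∀ i : H.S, v (lin t i.1) = 0 := by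
      rintro ⟨i, hi⟩
      cases i with
      | none =>
        change v 1 = 0
        exact v.map_one
      | some α => rw [hnone α hi, hmu]
    have hvt : v t = 0 := by
      rw [hmu] at hc0
      have h6 : lin t (some (0 : K')) = t := by
        change t - algebraMap K' L' 0 = t
        rw [_root_.map_zero, sub_zero]
      rwa [h6] at hc0
    rw [hmu, hval, Finset.sum_congr rfl fun i _ => by rw [hlin i, mul_zero],
      Finset.sum_const_zero]
    exact ⟨by simp, fun _ => ⟨le_rfl, hvt⟩⟩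
  · change ∑ i, n i - 2 * M ≠ 0
    omega

theorem uData_eq (H : HorData F Δ) {x : H.S → H.S → ℕ} {m : ℕ} (hm0 : 0 < m)
    (hx : ∀ i, x i i = 0) (hm : ∑ i, ∑ j, x i j = m)
    (huse : ∀ i : H.S, (H.use x i : ℚ) = m * Δ (H.pr i))
    (hB : ∀ Q ∉ B, ∃ (P : X.primeDivisors) (e : ℕ), H.Good (fun i j => x i j ≠ 0) E P Q e) :
    ∃ U : UData F Δ E B, U.J = 0 := by
  classical
  refine ⟨⟨m, hm0, 0, (H.phi x)⁻¹, inv_ne_zero (phi_ne_zero H hx), ?_, ?_, ?_⟩, rfl⟩
  · intro P hP v hv ht
    have htriv := triv_of_hor (K' := K') hP hv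
    rw [v.map_inv, val_phi H htriv hx hm, if_neg (not_lt.2 ht),
      ← h45_sum H hP hv (m : ℚ) (fun i => (H.use x i : ℚ)) huse]
    push_cast
    apply le_of_eq
    ring
  · intro P hP v hv ht
    have htriv := triv_of_hor (K' := K') hP hv
    rw [v.map_inv, val_phi H htriv hx hm, if_pos ht,
      ← h45_sum H hP hv (m : ℚ) (fun i => (H.use x i : ℚ)) huse]
    push_cast
    apply le_of_eq
    ring
  · intro Q hQ
    obtain ⟨P, e, h1, h2, h3⟩ := hB Q hQ
    refine ⟨P, e, h1, h2, fun v ε hv => ⟨?_, fun h => absurd rfl h⟩⟩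
    rw [v.map_inv, val_phi_eq H v hx]
    have h4 : ∀ i j : H.S, (x i j : ℤ) * v (F.theta i.1 j.1) =
        -((x i j : ℤ) * F.mu P Q e v ε) := by
      intro i j
      by_cases hij : x i j = 0
      · rw [hij]
        simp
      · have h5 := h3 v ε hv i j hij
        have h6 : v (F.theta i.1 j.1) = -F.mu P Q e v ε := by linarith
        rw [h6]
        ring
    simp only [h4, Finset.sum_neg_distrib, neg_neg]
    simp only [← Finset.sum_mul]
    apply le_of_eq
    rw [← hm]
    push_cast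
    rfl

end Pool.Agent.Helper63.PB
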