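import Pool.Agent.Helper63.PB.UBpoly
import Pool.Agent.Helper63.PB.PsiBounds
import Pool.Agent.Helper47.PQ.D10

set_option autoImplicit false

/-!
# PB-32 Neg: degree less than two

If `deg Δ < 2` on the generic fibre then `ν = κ = ⊥` for `aD + Δ`.

PROOF. Let `M ≥ 1` be a common denominator of the `Δ (pr i)`, `i ∈ S`, `n_i = M Δ (pr i) ∈ ℕ` (`h0`),
`Ψ = ∏_{i ∈ S} lin i ^ n_i`, `J = ∑ n_i - 2 M = M (deg - 2) < 0`. As in `uData_gt` (PB-31, first part)
`v Ψ = M Δ P` for `v` over horizontal `P` with `v t ≥ 0`, and `= M Δ P - 2 M - J` if `v t < 0`. For a divisor `A`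
let `G, J_A` be as in `exists_poly_of_sec` for `M A` (i.e. the divisor `(M : ℚ) • A`). If
`f ∈ H⁰(X, q (aD + Δ) + A)` is nonzero then `f^M ∈ H⁰(X, q M (aD + Δ) + M A)` (`pow_mem_sec`), so
`0 ≤ deg p ≤ q J + J_A`, which is impossible for `q > J_A`. So `H⁰(X, q (aD + Δ) + A) = ⊥` for all large
`q`, the growth is `⊥` (`logGrowth_eq_bot`), and `ν = ⊥` (`nu_eq_sup` or the definition with
`h0_le`). `κ ≤ ν` (`PQ.kod_le_nu`).
-/

namespace Pool.Agent.Helper63.PB

open Pool.Agent.Helper92.Weak Pool.Agent.Helper92.Ga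

variable {k K L K' L' : Type*} [Field k] [Field K] [Field L] [Field K'] [Field L']
  [Algebra k K] [Algebra k L] [Algebra k K'] [Algebra k L'] [Algebra K L] [Algebra K K']
  [Algebra K L'] [Algebra L L'] [Algebra K' L'] [IsScalarTower k K L] [IsScalarTower k K K']
  [IsScalarTower k L L'] [IsScalarTower k K' L'] [IsScalarTower K L L'] [IsScalarTower K K' L']
  [FiniteDimensional K K'] [FiniteDimensional L L'] [CharZero k] [IsAlgClosed k]
  {X : ProjVar k L} {Z : ProjVar k K} {t : L'} {F : Frame X Z K' t} {Δ : X.Div}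

private theorem ng_den {ι : Type*} [Fintype ι] (δ : ι → ℚ) (h0 : ∀ i, 0 ≤ δ i) :
    ∃ (m : ℕ) (k : ι → ℕ), 0 < m ∧ ∀ i, (m : ℚ) * δ i = k i := by
  classical
  refine ⟨∏ i, (δ i).den, fun i => (∏ j ∈ Finset.univ.erase i, (δ j).den) * (δ i).num.toNat,
    Finset.prod_pos fun i _ => (δ i).den_pos, fun i => ?_⟩
  have h1 : ∏ j, (δ j).den = (δ i).den * ∏ j ∈ Finset.univ.erase i, (δ j).den :=
    (Finset.mul_prod_erase _ _ (Finset.mem_univ i)).symm
  have h2 : ((δ i).num.toNat : ℚ) = ((δ i).num : ℚ) := by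
    have : (((δ i).num.toNat : ℤ)) = (δ i).num := Int.toNat_of_nonneg (Rat.num_nonneg.2 (h0 i))
    exact_mod_cast this
  have h3 : ((δ i).den : ℚ) * δ i = ((δ i).num : ℚ) := by
    rw [mul_comm]
    exact Rat.mul_den_eq_num (δ i)
  rw [h1]
  push_cast
  rw [h2, ← h3]
  ring

open Classical in
/-- The sum over the places at `v`. -/
private theorem ng_sum (H : HorData F Δ) {P : X.primeDivisors}
    (hP : ∀ x : K, P.1 (algebraMap K L x) = 0) {v : DVal k L'} (hv : LiesOver v P.1 1)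
    (c : ℚ) (g : H.S → ℚ) (hg : ∀ i : H.S, g i = c * Δ (H.pr i.1)) :
    ∑ i : H.S, (if v = plc k F.line i.1 then g i else 0) = c * Δ P := by
  have hpr : ∀ i : H.S, v = plc k F.line i.1 → H.pr i.1 = P := by
    intro i hi
    have h1 := H.ov i.1
    rw [← hi] at h1
    exact Subtype.ext (Pool.Agent.Helper47.PQ.liesOver_unique h1 hv).1
  by_cases hΔ : Δ P = 0
  · rw [hΔ, mul_zero]
    refine Finset.sum_eq_zero fun i _ => if_neg fun hi => ?_
    exact (H.mem i.1).1 i.2 (by rw [hpr i hi, hΔ])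
  · obtain ⟨i₀, hi₀, hvi, hpi⟩ := H.split P hP hΔ v 1 hv
    rw [Finset.sum_eq_single (⟨i₀, hi₀⟩ : H.S)]
    · rw [if_pos hvi, hg, hpi]
    · intro j _ hj
      refine if_neg fun hvj => hj (Subtype.ext ?_)
      exact plc_injective F.line (hvj.symm.trans hvi)
    · intro h0
      exact absurd (Finset.mem_univ _) h0

omit [IsAlgClosed k] in
private theorem ng_pow {D A : X.Div} {q M : ℕ} {f : L} (hf0 : f ≠ 0)
    (hf : f ∈ X.H0 ((q : ℚ) • D + A)) :
    f ^ M ∈ X.H0 (((q * M : ℕ) : ℚ) • D + (M : ℚ) • A) := by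
  rw [Pool.Agent.Helper60.MA.mem_H0] at hf ⊢
  intro P
  have h1 := hf P
  rw [DVal.ge_iff hf0, Finsupp.add_apply, Finsupp.smul_apply, smul_eq_mul] at h1
  rw [DVal.ge_iff (pow_ne_zero M hf0), Finsupp.add_apply, Finsupp.smul_apply, Finsupp.smul_apply,
    smul_eq_mul, smul_eq_mul, P.1.map_pow]
  push_cast
  have hM : (0 : ℚ) ≤ M := Nat.cast_nonneg M
  nlinarith

theorem neg_case (H : HorData F Δ)
    (h0 : ∀ P : X.primeDivisors, (∀ x : K, P.1 (algebraMap K L x) = 0) → 0 ≤ Δ P)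
    (hD : H.deg < 2) : X.kod (F.aD + Δ) = ⊥ ∧ X.nu (F.aD + Δ) = ⊥ := by
  classical
  obtain ⟨M, n, hM, hn⟩ := ng_den (fun i : H.S => Δ (H.pr i.1)) fun i => h0 _ (H.triv i.1)
  have hM' : (0 : ℚ) < M := by exact_mod_cast hM
  have hdeg : ((∑ i, n i : ℕ) : ℚ) = M * H.deg := by
    unfold HorData.deg
    rw [← Finset.sum_coe_sort H.S, Finset.mul_sum]
    push_cast
    exact Finset.sum_congr rfl fun i _ => (hn i).symm
  have hlt : ∑ i, n i < 2 * M := by
    have h1 : ((∑ i, n i : ℕ) : ℚ) < ((2 * M : ℕ) : ℚ) := by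
      rw [hdeg]
      push_cast
      nlinarith
    exact_mod_cast h1
  have hprod : ∀ i ∈ (Finset.univ : Finset H.S), lin t i.1 ^ n i ≠ 0 := fun i _ =>
    pow_ne_zero _ (lin_ne_zero F.line i.1)
  have hval : ∀ v : DVal k L', v (∏ i : H.S, lin t i.1 ^ n i) =
      ∑ i : H.S, (n i : ℤ) * v (lin t i.1) := by
    intro v
    rw [v.map_prod _ _ hprod]
    exact Finset.sum_congr rfl fun i _ => v.map_pow _ _
  obtain ⟨J, hJdef⟩ : ∃ J : ℤ, J = (∑ i, (n i : ℤ)) - 2 * M := ⟨_, rfl⟩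
  have hJ : (J : ℚ) = (∑ i, (n i : ℚ)) - 2 * M := by
    rw [hJdef]
    push_cast
    ring
  have hJneg : J < 0 := by
    have h1 : ((∑ i, n i : ℕ) : ℤ) < ((2 * M : ℕ) : ℤ) := by exact_mod_cast hlt
    push_cast at h1
    rw [hJdef]
    linarith
  have hfin : ∀ P : X.primeDivisors, (∀ x : K, P.1 (algebraMap K L x) = 0) → ∀ v : DVal k L',
      LiesOver v P.1 1 → 0 ≤ v t → M * Δ P ≤ v (∏ i : H.S, lin t i.1 ^ n i) := by
    intro P hP v hv ht
    have htriv := triv_of_hor (K' := K') hP hv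
    rw [← ng_sum H hP hv (M : ℚ) (fun i => (n i : ℚ)) fun i => (hn i).symm, hval]
    push_cast
    refine (Finset.sum_le_sum fun i _ => ?_)
    rw [val_lin F.line htriv, if_neg (not_lt.2 ht)]
    by_cases hvi : v = plc k F.line i.1
    · rw [if_pos hvi, if_pos hvi]
      push_cast
      linarith
    · rw [if_neg hvi, if_neg hvi]
      push_cast
      linarith
  have hinf : ∀ P : X.primeDivisors, (∀ x : K, P.1 (algebraMap K L x) = 0) → ∀ v : DVal k L',
      LiesOver v P.1 1 → v t < 0 → M * Δ P - 2 * M - J ≤ v (∏ i : H.S, lin t i.1 ^ n i) := by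
    intro P hP v hv ht
    have htriv := triv_of_hor (K' := K') hP hv
    rw [← ng_sum H hP hv (M : ℚ) (fun i => (n i : ℚ)) fun i => (hn i).symm, hval, hJ]
    push_cast
    have h1 : ∀ i : H.S, (n i : ℚ) * (v (lin t i.1) : ℚ) =
        (if v = plc k F.line i.1 then (n i : ℚ) else 0) - (n i : ℚ) := by
      intro i
      rw [val_lin F.line htriv, if_pos ht]
      by_cases hvi : v = plc k F.line i.1
      · rw [if_pos hvi, if_pos hvi]
        push_cast
        ring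
      · rw [if_neg hvi, if_neg hvi]
        push_cast
        ring
    rw [Finset.sum_congr rfl fun i _ => h1 i, Finset.sum_sub_distrib]
    linarith
  have hvan : ∀ A : X.Div, logGrowth (fun m => sdim (X.H0 ((m : ℚ) • (F.aD + Δ) + A))) = ⊥ := by
    intro A
    obtain ⟨G, JA, -, -, hsec⟩ := exists_poly_of_sec F (Finset.prod_ne_zero_iff.2 hprod) hfin hinf
      ((M : ℚ) • A)
    apply logGrowth_eq_bot
    rw [Filter.eventually_atTop]
    refine ⟨JA + 1, fun q hq => ?_⟩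
    rw [sdim_eq_zero, Submodule.eq_bot_iff]
    intro f hf
    by_contra hf0
    obtain ⟨p, -, -, hp⟩ := hsec q (f ^ M) (pow_ne_zero M hf0) (ng_pow hf0 hf)
    have h1 : (0 : ℤ) ≤ p.natDegree := Int.natCast_nonneg _
    have h2 : ((JA : ℤ) + 1) ≤ q := by exact_mod_cast hq
    nlinarith
  have hnu : X.nu (F.aD + Δ) = ⊥ := by
    rw [Pool.Agent.Helper47.PQ.nu_eq_sup]
    rw [iSup_eq_bot]
    exact hvan
  refine ⟨?_, hnu⟩
  have h1 := Pool.Agent.Helper47.PQ.kod_le_nu (X := X) (F.aD + Δ)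
  rw [hnu] at h1
  exact le_bot_iff.1 h1

end Pool.Agent.Helper63.PB
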