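import Pool.Agent.Helper63.PB.AbsMain
import Pool.Agent.Helper63.PB.Lower
import Pool.Agent.Helper63.PB.GoodFin
import Pool.Agent.Helper63.PB.MkUpper
import Pool.Agent.Helper63.PB.Neg

set_option autoImplicit false

/-!
# PB-34 FrameMain: the comparison theorem for a frame

The horizontal coefficients are `≤ 1`, or the sum of the `min(Δ, 1)` is larger than two.

PROOF. `deg Δ < 2`: `neg_case`. `deg Δ = 2`: `weights_eq` for `ι = S`, `δ i = Δ (pr i)` (positive by `H.mem`,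
`h0`, `H.triv`; `≤ 1` by `h1`) gives `m, x` with `use x i = m Δ (pr i)`; `B` = the finite set of `Q` without a
good `P` for `W i j := x i j ≠ 0` (`finite_not_good`); `lower_eq`, `uData_eq`, `upper_of_uData`, `abs_main` with
`s = 0`. `deg Δ > 2`: `B` for `W i j := i ≠ j`, `lower_gt`, `uData_gt`, `upper_of_uData`, `abs_main` with
`s = 1`.
-/

namespace Pool.Agent.Helper63.PB

open Pool.Agent.Helper92.Weak Pool.Agent.Helper92.Ga

variable {k K L K' L' : Type*} [Field k] [Field K] [Field L] [Field K'] [Field L']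
  [Algebra k K] [Algebra k L] [Algebra k K'] [Algebra k L'] [Algebra K L] [Algebra K K']
  [Algebra K L'] [Algebra L L'] [Algebra K' L'] [IsScalarTower k K L] [IsScalarTower k K K']
  [IsScalarTower k K L'] [IsScalarTower k L L'] [IsScalarTower k K' L'] [IsScalarTower K L L']
  [IsScalarTower K K' L'] [FiniteDimensional K K'] [FiniteDimensional L L']
  [Algebra.IsPushout K K' L L'] [CharZero k] [IsAlgClosed k]
  {X : ProjVar k L} {Z : ProjVar k K} {t : L'}

theorem frame_main (F : Frame X Z K' t) {Δ : X.Div} (H : HorData F Δ)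
    (hS : 2 < H.deg → none ∈ H.S ∧ some 0 ∈ H.S ∧ some 1 ∈ H.S)
    (h0 : ∀ P : X.primeDivisors, (∀ x : K, P.1 (algebraMap K L x) = 0) → 0 ≤ Δ P)
    (h1 : (∀ P : X.primeDivisors, (∀ x : K, P.1 (algebraMap K L x) = 0) → Δ P ≤ 1) ∨
      2 < ∑ i ∈ H.S, min (Δ (H.pr i)) 1) {E : Z.Div}
    (hbase : ∀ (P : X.primeDivisors) (Q : Z.primeDivisors) (e : ℕ), LiesOver P.1 Q.1 e →
      e * E Q ≤ Δ P + (e - 1))
    {N₃ : ℕ} (hN₃ : 0 < N₃) {η : K} (hη : η ≠ 0)
    (hT : ∀ Q : Z.primeDivisors, 0 ≤ (Q.1 η : ℚ) + N₃ * (F.cD + E) Q) :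
    (X.kod (F.aD + Δ) = ⊥ ∧ X.nu (F.aD + Δ) = ⊥) ∨
    ∃ (s : ℕ) (B : Finset Z.primeDivisors), s ≤ 1 ∧ ∀ ε : ℚ, 0 < ε →
      X.kod (F.aD + Δ) = s + Z.kod (F.cD + E + ε • redDiv B) ∧
      X.nu (F.aD + Δ) = s + Z.nu (F.cD + E + ε • redDiv B) := by
  classical
  have hpos : ∀ i : H.S, 0 < Δ (H.pr i.1) := fun i =>
    lt_of_le_of_ne (h0 _ (H.triv i.1)) (Ne.symm ((H.mem i.1).1 i.2))
  have hmin : H.deg ≤ 2 → ∀ i : H.S, Δ (H.pr i.1) ≤ 1 := by
    rintro hd ⟨i, hi⟩
    rcases h1 with h1 | h1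
    · exact h1 _ (H.triv i)
    · exfalso
      have h2 : ∑ i ∈ H.S, min (Δ (H.pr i)) 1 ≤ H.deg :=
        Finset.sum_le_sum fun i _ => min_le_left _ _
      linarith
  have hmin2 : 2 < H.deg → 2 < ∑ i ∈ H.S, min (Δ (H.pr i)) 1 := by
    intro hd
    rcases h1 with h1 | h1
    · have h2 : ∑ i ∈ H.S, min (Δ (H.pr i)) 1 = H.deg := by
        unfold HorData.deg
        exact Finset.sum_congr rfl fun i _ => min_eq_left (h1 _ (H.triv i))
      rwa [h2]
    · exact h1
  have hsum : ∑ i : H.S, Δ (H.pr i.1) = H.deg := by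
    unfold HorData.deg
    exact Finset.sum_coe_sort H.S (fun i => Δ (H.pr i))
  rcases lt_trichotomy H.deg 2 with hd | hd | hd
  · exact Or.inl (neg_case H h0 hd)
  · right
    obtain ⟨m, x, hm0, hx, hm, huse⟩ := weights_eq hpos (hmin hd.le) (by rw [hsum, hd])
    have hfin := finite_not_good H (fun i j => x i j ≠ 0) E
    have hB1 : ∀ Q ∈ hfin.toFinset, ¬ ∃ (P : X.primeDivisors) (e : ℕ),
        H.Good (fun i j => x i j ≠ 0) E P Q e := by
      intro Q hQ
      rw [Set.Finite.mem_toFinset] at hQ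
      exact hQ
    have hB2 : ∀ Q ∉ hfin.toFinset, ∃ (P : X.primeDivisors) (e : ℕ),
        H.Good (fun i j => x i j ≠ 0) E P Q e := by
      intro Q hQ
      rw [Set.Finite.mem_toFinset, Set.mem_ofPred_eq, not_not] at hQ
      exact hQ
    have hlow := lower_eq H h0 hbase hm0 hx hm huse hB1
    obtain ⟨U, hU⟩ := uData_eq H hm0 hx hm huse hB2
    have hup := upper_of_uData U
    rw [if_pos hU] at hup
    exact ⟨0, hfin.toFinset, zero_le_one, fun ε hε =>
      abs_main F.equi hlow hup hN₃ hη hT hε⟩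
  · right
    have hfin := finite_not_good H (fun i j => i ≠ j) E
    have hB1 : ∀ Q ∈ hfin.toFinset, ¬ ∃ (P : X.primeDivisors) (e : ℕ),
        H.Good (fun i j => i ≠ j) E P Q e := by
      intro Q hQ
      rw [Set.Finite.mem_toFinset] at hQ
      exact hQ
    have hB2 : ∀ Q ∉ hfin.toFinset, ∃ (P : X.primeDivisors) (e : ℕ),
        H.Good (fun i j => i ≠ j) E P Q e := by
      intro Q hQ
      rw [Set.Finite.mem_toFinset, Set.mem_ofPred_eq, not_not] at hQ
      exact hQ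
    have hlow := lower_gt_min H h0 hbase (hmin2 hd) hB1
    obtain ⟨U, hU⟩ := uData_gt H (hS hd) h0 hd hB2
    have hup := upper_of_uData U
    rw [if_neg hU] at hup
    exact ⟨1, hfin.toFinset, le_rfl, fun ε hε =>
      abs_main F.equi hlow hup hN₃ hη hT hε⟩

end Pool.Agent.Helper63.PB
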