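import Pool.Agent.Helper63.PB.LogIneq
import Pool.Agent.Helper63.PB.Hurwitz
import Pool.Agent.Helper63.PB.Unram
import Pool.Agent.Helper92.Weak.Final
import Pool.Agent.Helper60.MA.Pairs
import Pool.Agent.Helper60.MA.Ops

set_option autoImplicit false

/-!
# PB-18 MkFrame: the frame of a fibration in rational curves

`ord_u`. `L' = K'(t)`, `s ∈ L'`, `y'` a transcendence basis of `K' / k`, `v` trivial on `K'`, `a` the order of
`dy' ∧ ds` along `v`: `v (Dt s) = a` if `v t ≥ 0` and `a + 2` if `v t < 0`.
PROOF. `dy' ∧ ds = (Dt s) dy' ∧ dt` (`om_eq` for `L' / K'`, `s := t`). The order of `dy' ∧ dt`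
(`= omega1 t 1 y'`) is `0` if `v t ≥ 0` (`v = pVal`: `Ga.exists_pVal`, `Ga.isOrd_pVal`), `-2` if `v t < 0`
(`Ga.eq_infVal`, `Ga.isOrd_inf`). `isOrd_smul` and `isOrd_unique`.

`exists_frame`. Let `y : Fin d → K` be a transcendence basis of `K / k` and `s ∈ L` a transcendence
basis of `L / K` (`trdeg_K L' = trdeg_K K' + trdeg_K' L' = 1 = trdeg_K L + trdeg_L L'`). `Dt`: the
derivation of `L' / K'` dual to the basis `dt` of `Ω[L'⁄K']`. `u = Dt s` is nonzero: otherwise `Dt`
kills `K(s)` and everything algebraic over it, so `t`.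
`g, h`: `Helper60.MA.exists_psi`.
`star`: `v` over `P` (`ε`) over `Q` (`e`). By `hurwitz` (`L' / L`, the transcendence basis `(y, s)` of
`L / k`) the form `Om k y s` on `L'` has order `ε (a P + 1) - 1` along `v`. `v` lies over `Q` with
multiplicity `ε e` (`under_trans`). `log_ineq_gen` for `M := L'`, `s := algebraMap L L' s`, the derivation
`u⁻¹ • Dt` over `K` gives `v (u⁻¹ Dt g) ≥ v g - (ε (a P + 1) - ε e (c Q + 1))`.
`hor`: `P` trivial on `K`: `ε = 1` by `unram`; then `Om k y s` on `L'` has order `a P` along `v`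
(`hurwitz`), `v` is trivial on `K'` (algebraic over `K`), `ord_u` with `y' = algebraMap K K' ∘ y`.
-/

namespace Pool.Agent.Helper63.PB

open Pool.Agent.Helper92.Weak Pool.Agent.Helper92.Ga
open scoped KaehlerDifferential

/-- `t` is a transcendence basis of `K(t) / K`. -/
private theorem line_basis {K L : Type*} [Field K] [Field L] [Algebra K L] {t : L}
    (h : IsLine K t) : IsTranscendenceBasis K (fun _ : Fin 1 => t) := by
  rw [h.isTorus.indep.isTranscendenceBasis_iff_isAlgebraic]
  constructor
  intro a
  have ha : a ∈ IntermediateField.adjoin K (Set.range (fun _ : Fin 1 => t)) := by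
    rw [h.isTorus.gen]
    trivial
  rw [IntermediateField.mem_adjoin_iff_div] at ha
  obtain ⟨r, hr, s, hs, rfl⟩ := ha
  have h1 : IsAlgebraic (Algebra.adjoin K (Set.range (fun _ : Fin 1 => t))) r :=
    isAlgebraic_algebraMap (⟨r, hr⟩ : Algebra.adjoin K (Set.range (fun _ : Fin 1 => t)))
  have h2 : IsAlgebraic (Algebra.adjoin K (Set.range (fun _ : Fin 1 => t))) s :=
    isAlgebraic_algebraMap (⟨s, hs⟩ : Algebra.adjoin K (Set.range (fun _ : Fin 1 => t)))
  rw [div_eq_mul_inv]
  exact h1.mul h2.inv

theorem ord_u {k K' L' : Type*} [Field k] [Field K'] [Field L'] [Algebra k K'] [Algebra k L']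
    [Algebra K' L'] [IsScalarTower k K' L'] [CharZero k] {d : ℕ} {y' : Fin d → K'}
    (hy' : IsTranscendenceBasis k y') {t : L'} (h : IsLine K' t) (Dt : Derivation K' L' L')
    (hDt : Dt t = 1) {v : DVal k L'} (hv : ∀ x : K', v (algebraMap K' L' x) = 0) {s : L'} {a : ℤ}
    (ha : v.IsOrd (Om k y' s) a) : (0 ≤ v t → v (Dt s) = a) ∧ (v t < 0 → v (Dt s) = a + 2) := by
  have hs' : ∀ x : L', IsAlgebraic (IntermediateField.adjoin K' {t}) x := by
    intro x
    have hx : x ∈ IntermediateField.adjoin K' {t} := by rw [h.gen]; trivial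
    exact isAlgebraic_algebraMap (⟨x, hx⟩ : IntermediateField.adjoin K' {t})
  have hom : Om k y' s = Dt s • Om k y' t := om_eq hy' h.trans hs' Dt hDt s
  have hne : Dt s ≠ 0 := by
    intro h0
    rw [hom, h0, zero_smul] at ha
    exact not_isOrd_zero _ _ ha
  obtain ⟨b, hb⟩ := Pool.Agent.Helper50.Forms.exists_kaehler_basis hy'
  have hz : dform k y' ≠ 0 := Pool.Agent.Helper50.Forms.dform_ne_zero y' b hb
  have hom1 : Om k y' t = omega1 (k := k) t (1 : K') y' := by
    unfold Om omega1
    rw [map_one, one_smul]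
  rw [hom] at ha
  constructor
  · intro ht
    obtain ⟨p, hp, hvp⟩ := exists_pVal h v hv ht
    have h1 : v.IsOrd (Om k y' t) 0 := by
      rw [hom1, hvp]
      exact isOrd_pVal hy' h hp one_ne_zero y' hz
    have h2 := (isOrd_smul v hne).2 h1
    rw [add_zero] at h2
    exact isOrd_unique h2 ha
  · intro ht
    have hvp := eq_infVal h v hv ht
    have h1 : v.IsOrd (Om k y' t) (-2) := by
      rw [hom1, hvp]
      exact isOrd_inf hy' h one_ne_zero y' hz
    have h2 := (isOrd_smul v hne).2 h1
    have h3 := isOrd_unique h2 ha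
    omega

/-- A function on `L` which is a transcendence basis over `K`. -/
private theorem exists_s {K L K' L' : Type*} [Field K] [Field L] [Field K'] [Field L']
    [Algebra K L] [Algebra K K'] [Algebra K L'] [Algebra L L'] [Algebra K' L']
    [IsScalarTower K L L'] [IsScalarTower K K' L'] [FiniteDimensional K K']
    [FiniteDimensional L L'] {t : L'} (ht : IsLine K' t) :
    ∃ s : Fin 1 → L, IsTranscendenceBasis K s := by
  have h1 : Algebra.trdeg K' L' = 1 := by
    have h := (line_basis ht).lift_cardinalMk_eq_trdeg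
    simp only [Cardinal.mk_fintype, Fintype.card_fin, Nat.cast_one, Cardinal.lift_one] at h
    have h' : Cardinal.lift.{0} (Algebra.trdeg K' L') = 1 := by
      rw [← h]
    simpa using h'
  have h2 : Algebra.trdeg K L' = 1 := by
    have h := lift_trdeg_add_eq K K' L'
    rw [trdeg_eq_zero (R := K) (A := K'), h1] at h
    simp only [Cardinal.lift_zero, zero_add, Cardinal.lift_one] at h
    rw [eq_comm, Cardinal.lift_eq_one] at h
    exact h
  have h3 : Algebra.trdeg K L = 1 := by
    have h := lift_trdeg_add_eq K L L'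
    rw [trdeg_eq_zero (R := L) (A := L'), h2] at h
    simp only [Cardinal.lift_zero, add_zero, Cardinal.lift_one] at h
    rw [Cardinal.lift_eq_one] at h
    exact h
  exact exists_basis_of_trdeg (d := 1) (by rw [h3]; norm_num)

/-- The transcendence basis `(y, s)`. -/
private theorem append_basis {k K L : Type*} [Field k] [Field K] [Field L] [Algebra k K]
    [Algebra k L] [Algebra K L] [IsScalarTower k K L] {d : ℕ} {y : Fin d → K}
    (hy : IsTranscendenceBasis k y) {s : L} (hs : IsTranscendenceBasis K (fun _ : Fin 1 => s)) :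
    IsTranscendenceBasis k (Fin.append (fun i => algebraMap K L (y i)) (fun _ : Fin 1 => s)) := by
  have h1 := hy.sumElim_comp hs
  let ε : Fin (d + 1) ≃ Fin 1 ⊕ Fin d := finSumFinEquiv.symm.trans (Equiv.sumComm _ _)
  have h2 := h1.comp_equiv ε
  convert h2 using 1
  funext i
  induction i using Fin.addCases with
  | left i => rw [Fin.append_left]; simp [ε]
  | right l => rw [Fin.append_right]; simp [ε]

/-- The image of `dy ∧ ds` in a larger field. -/
private theorem om_map {k K L M : Type*} [Field k] [Field K] [Field L] [Field M] [Algebra k K]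
    [Algebra k L] [Algebra k M] [Algebra K L] [Algebra K M] [Algebra L M] [IsScalarTower K L M]
    {d : ℕ} (y : Fin d → K) (s : L) :
    dform k (fun i => algebraMap L M
      (Fin.append (fun i => algebraMap K L (y i)) (fun _ : Fin 1 => s) i)) =
      Om k y (algebraMap L M s) := by
  unfold Om
  congr 1
  funext i
  induction i using Fin.addCases with
  | left i => rw [Fin.append_left, Fin.append_left, ← IsScalarTower.algebraMap_apply]
  | right l => rw [Fin.append_right, Fin.append_right]

/-- The form `dy ∧ ds` and extension of the base. -/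
private theorem om_base {k K K' L' : Type*} [Field k] [Field K] [Field K'] [Field L'] [Algebra k K]
    [Algebra k K'] [Algebra k L'] [Algebra K K'] [Algebra K L'] [Algebra K' L']
    [IsScalarTower K K' L'] {d : ℕ} (y : Fin d → K) (s : L') :
    Om k (fun i => algebraMap K K' (y i)) s = Om k y s := by
  unfold Om
  congr 1
  funext i
  induction i using Fin.addCases with
  | left i => rw [Fin.append_left, Fin.append_left, ← IsScalarTower.algebraMap_apply]
  | right l => rw [Fin.append_right, Fin.append_right]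

/-- A valuation which is trivial on `K` is trivial on finite extensions of `K`. -/
private theorem triv_ext {k K K' L' : Type*} [Field k] [Field K] [Field K'] [Field L'] [Algebra k K]
    [Algebra k K'] [Algebra k L'] [Algebra K K'] [Algebra K L'] [Algebra K' L']
    [IsScalarTower K K' L'] [FiniteDimensional K K'] {v : DVal k L'}
    (hv : ∀ x : K, v (algebraMap K L' x) = 0) (x : K') : v (algebraMap K' L' x) = 0 := by
  have key : ∀ z : K', 0 ≤ v (algebraMap K' L' z) := by
    intro z
    apply Pool.Agent.Helper47.PQ.mem_ring_of_isIntegral v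
    have h1 : IsIntegral K (algebraMap K' L' z) :=
      (Algebra.IsIntegral.isIntegral z).algebraMap
    obtain ⟨p, hp, hpz⟩ := h1
    let φ : K →+* v.ring :=
      { toFun := fun c => ⟨algebraMap K L' c, (hv c).ge⟩
        map_one' := by ext; simp
        map_mul' := fun a b => by ext; simp
        map_zero' := by ext; simp
        map_add' := fun a b => by ext; simp }
    refine ⟨p.map φ, hp.map φ, ?_⟩
    rw [Polynomial.eval₂_map]
    exact hpz
  have h1 := key x
  have h2 := key x⁻¹
  rw [map_inv₀, v.map_inv] at h2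
  omega

theorem exists_frame {k K L K' L' : Type*} [Field k] [Field K] [Field L] [Field K'] [Field L']
    [Algebra k K] [Algebra k L] [Algebra k K'] [Algebra k L'] [Algebra K L] [Algebra K K']
    [Algebra K L'] [Algebra L L'] [Algebra K' L'] [IsScalarTower k K L] [IsScalarTower k K K']
    [IsScalarTower k K L'] [IsScalarTower k L L'] [IsScalarTower k K' L'] [IsScalarTower K L L']
    [IsScalarTower K K' L'] [FiniteDimensional K K'] [FiniteDimensional L L']
    [Algebra.IsPushout K K' L L'] [CharZero k] {d : ℕ} (hd : Algebra.trdeg k K = d)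
    {X : ProjVar k L} {Z : ProjVar k K} (hmor : IsMorphism X Z)
    (hequi : ∀ P ∈ X.primeDivisors, (∃ a : K, P (algebraMap K L a) ≠ 0) →
      ∃ Q ∈ Z.primeDivisors, ∃ e, LiesOver P Q e)
    {t : L'} (ht : IsLine K' t) (p : X.Pair (d + 1)) (q : Z.Pair d) :
    ∃ (F : Frame X Z K' t) (g : L) (h : K), g ≠ 0 ∧ h ≠ 0 ∧
      (∀ P, p.can P = P.1 g + F.a P) ∧ ∀ Q, q.can Q = Q.1 h + F.c Q := by
  classical
  have hK0 : CharZero K := charZero_of_injective_algebraMap (algebraMap k K).injective
  have hK'0 : CharZero K' := charZero_of_injective_algebraMap (algebraMap k K').injective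
  obtain ⟨y, hy⟩ := exists_basis_of_trdeg hd
  obtain ⟨s₁, hs₁⟩ := exists_s (K := K) (L := L) ht
  obtain ⟨s, rfl⟩ : ∃ s : L, s₁ = fun _ : Fin 1 => s :=
    ⟨s₁ 0, funext fun i => by rw [Subsingleton.elim i 0]⟩
  have hsT : Transcendental K s := by
    have := hs₁.1
    rwa [algebraicIndependent_unique_type_iff] at this
  have hsA : ∀ x : L, IsAlgebraic (IntermediateField.adjoin K {s}) x := by
    have h1 := hs₁.isAlgebraic_field
    rw [Set.range_const] at h1
    exact fun x => h1.isAlgebraic x
  set s' : L' := algebraMap L L' s with hs'def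
  have hs'₁ : IsTranscendenceBasis K (fun _ : Fin 1 => s') :=
    hs₁.algebraMap_comp (A := L')
  have hs'T : Transcendental K s' := by
    have := hs'₁.1
    rwa [algebraicIndependent_unique_type_iff] at this
  have hs'A : ∀ x : L', IsAlgebraic (IntermediateField.adjoin K {s'}) x := by
    have h1 := hs'₁.isAlgebraic_field
    rw [Set.range_const] at h1
    exact fun x => h1.isAlgebraic x
  -- the derivation
  obtain ⟨b, hb⟩ := Pool.Agent.Helper50.Forms.exists_kaehler_basis (line_basis ht)
  let Dt : Derivation K' L' L' := (b.coord 0).compDer (KaehlerDifferential.D K' L')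
  have hDt : Dt t = 1 := by
    change b.coord 0 (KaehlerDifferential.D K' L' t) = 1
    rw [← hb 0, Module.Basis.coord_apply, b.repr_self, Finsupp.single_eq_same]
  have hu : Dt s' ≠ 0 := by
    intro h0
    let δ : Derivation K L' L' := Dt.restrictScalars K
    have h1 : IntermediateField.adjoin K {s'} ≤ Pool.Agent.Helper60.MA.constField δ := by
      rw [IntermediateField.adjoin_le_iff]
      rintro _ rfl
      exact h0
    have h2 : δ t = 0 := Pool.Agent.Helper60.MA.der_eq_zero_of_isAlgebraic δ _ (fun z hz => h1 hz)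
      (hs'A t)
    have h3 : δ t = 1 := hDt
    rw [h3] at h2
    exact one_ne_zero h2
  -- the forms
  obtain ⟨g, hg, hgP⟩ := Pool.Agent.Helper60.MA.exists_psi X p (append_basis hy hs₁)
    (one_ne_zero (α := L))
  obtain ⟨h, hh, hhQ⟩ := Pool.Agent.Helper60.MA.exists_psi Z q hy (one_ne_zero (α := K))
  choose a haO haC using hgP
  choose c hcO hcC using hhQ
  simp only [one_smul] at haO hcO
  have hfa : ∀ P : X.primeDivisors, a P ≠ 0 → P ∈ p.can.support ∪ (X.finite_prin g).toFinset := by
    intro P hP
    rw [Finset.mem_union, Finsupp.mem_support_iff, Set.Finite.mem_toFinset]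
    by_contra hcon
    push Not at hcon
    have h1 := haC P
    have h2 : (P.1 g : ℚ) = 0 := by
      by_contra h3
      exact hcon.2 h3
    rw [hcon.1, h2, add_zero] at h1
    exact hP (by exact_mod_cast h1.symm)
  have hfc : ∀ Q : Z.primeDivisors, c Q ≠ 0 → Q ∈ q.can.support ∪ (Z.finite_prin h).toFinset := by
    intro Q hQ
    rw [Finset.mem_union, Finsupp.mem_support_iff, Set.Finite.mem_toFinset]
    by_contra hcon
    push Not at hcon
    have h1 := hcC Q
    have h2 : (Q.1 h : ℚ) = 0 := by
      by_contra h3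
      exact hcon.2 h3
    rw [hcon.1, h2, add_zero] at h1
    exact hQ (by exact_mod_cast h1.symm)
  let aF : X.primeDivisors →₀ ℤ := Finsupp.onFinset _ a hfa
  let cF : Z.primeDivisors →₀ ℤ := Finsupp.onFinset _ c hfc
  have haF : ∀ P, aF P = a P := fun _ => rfl
  have hcF : ∀ Q, cF Q = c Q := fun _ => rfl
  -- the form on `L'`
  have hord : ∀ (P : X.primeDivisors) (v : DVal k L') (ε : ℕ), LiesOver v P.1 ε →
      v.IsOrd (Om k y s') (ε * (a P + 1) - 1) := by
    intro P v ε hv
    have h1 := hurwitz (append_basis hy hs₁) hv (haO P)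
    rwa [om_map] at h1
  have star : ∀ (P : X.primeDivisors) (Q : Z.primeDivisors) (e : ℕ), LiesOver P.1 Q.1 e →
      ∀ (v : DVal k L') (ε : ℕ), LiesOver v P.1 ε → ∀ g : L',
        v.Ge ((v g - (ε * (aF P + 1 - e * (cF Q + 1)) - v (Dt s')) : ℤ) : ℚ) (Dt g) := by
    intro P Q e hPQ v ε hv x
    have h1 := log_ineq_gen hy hs'T hs'A ((Dt s')⁻¹ • Dt.restrictScalars K)
      (by
        change (Dt s')⁻¹ * Dt s' = 1
        exact inv_mul_cancel₀ hu)
      (under_trans hv hPQ) (hord P v ε hv) (hcO Q) x
    have h2 : ((Dt s')⁻¹ • Dt.restrictScalars K) x = (Dt s')⁻¹ * Dt x := rfl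
    rw [h2] at h1
    have h3 := (DVal.ge_self (v := v) (Dt s')).mul h1
    rw [← mul_assoc, mul_inv_cancel₀ hu, one_mul] at h3
    refine h3.mono (le_of_eq ?_)
    rw [haF, hcF]
    push_cast
    ring
  have hor : ∀ P : X.primeDivisors, (∀ x : K, P.1 (algebraMap K L x) = 0) →
      ∀ (v : DVal k L') (ε : ℕ), LiesOver v P.1 ε →
        ε = 1 ∧ (0 ≤ v t → v (Dt s') = aF P) ∧ (v t < 0 → v (Dt s') = aF P + 2) := by
    intro P hP v ε hv
    have h1 : ε = 1 := unram (K' := K') hP hv
    have hvK : ∀ x : K, v (algebraMap K L' x) = 0 := by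
      intro x
      rw [IsScalarTower.algebraMap_apply K L L', hv.2, hP, mul_zero]
    have h2 : v.IsOrd (Om k (fun i => algebraMap K K' (y i)) s') (a P) := by
      have h3 := hord P v ε hv
      rw [h1] at h3
      rw [om_base]
      convert h3 using 1
      push_cast
      ring
    have hy' : IsTranscendenceBasis k (fun i => algebraMap K K' (y i)) :=
      hy.algebraMap_comp (A := K')
    exact ⟨h1, ord_u hy' ht Dt hDt (triv_ext hvK) h2⟩
  refine ⟨{ mor := hmor, equi := hequi, tr := ⟨s, hsT, hsA⟩, line := ht, Dt := Dt, Dt_t := hDt,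
            u := Dt s', u_ne := hu, a := aF, c := cF, star := star, hor := hor },
    g, h, hg, hh, ?_, ?_⟩
  · intro P
    rw [haC P]
    change (a P : ℚ) + _ = _ + (a P : ℚ)
    ring
  · intro Q
    rw [hcC Q]
    change (c Q : ℚ) + _ = _ + (c Q : ℚ)
    ring

end Pool.Agent.Helper63.PB
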