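import Pool.Agent.Helper63.PB.Places

set_option autoImplicit false

/-!
# PB-33 Moebius: normalisation of the coordinate

`L' = K'(t)`, three different rational places `plc i, plc j, plc l`. There is another coordinate `t'`
(`L' = K'(t')`) for which these are the places `∞, 0, 1`, and every rational place for `t` is a rational
place for `t'`.

PROOF. `t' = c (lin t j) / (lin t i)` with `c ∈ K'` nonzero such that `t' - 1` vanishes at `plc l`:
`l = some γ`: `c = (lin i)(γ) / (lin j)(γ)` where `lin (some α)(γ) = γ - α ≠ 0`, `lin none (γ) = 1`;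
`l = none`: `c = 1` (then `i = some α`, `j = some β`, `t' = (t - β) / (t - α)`, `t' - 1 = (α - β) / (t - α)`).
`IsLine K' t'`: `t'` generates `L'` (`t` is a Moebius expression in `t'`:
`t' ∈ adjoin {t}` and `t ∈ adjoin {t'}`) and is transcendental (otherwise `t` would be algebraic).
Values (`val_lin`): `plc i t' < 0`, so `plc i = plc' none` (`eq_infVal`). `plc j t' > 0`, so
`plc j = plc' (some 0)` (`val_lin` for `t'`: `v (t' - β) > 0` only if `v = plc' (some β)`). `t' - 1 = c' lin l / lin i`,
`c' ≠ 0`, so `plc l (t' - 1) > 0` and `plc l = plc' (some 1)`.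
In general let `v = plc (some α)`: if `v (lin i) > 0` then `i = some α` and `v = plc' none`. Otherwise
`lin i` is a unit at `v` and `t' - β'` with `β' = c (lin j)(α) / (lin i)(α) ∈ K'` is
`c'' (t - α) / lin i` (a direct computation: `c lin j (t) lin i (α) - c lin j (α) lin i (t)` is a multiple
by a constant of `t - α`, since it is a polynomial in `t` of degree `≤ 1` vanishing at `α`) or zero
(impossible, as `t'` is transcendental), so `v (t' - β') > 0` and `v = plc' (some β')`. `v = plc none`: if
`v t' < 0` it is `plc' none`; otherwise `i` is not `none`, `t' - c` (`j ≠ none`) or `t'` (`j = none`) is a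
constant over `lin i`, so it has positive value at `v`: `v = plc' (some c)` or `plc' (some 0)`.

IMPLEMENTATION. `t'` is obtained from `t` by translations, the inversion and a scaling.
-/

namespace Pool.Agent.Helper63.PB

open Pool.Agent.Helper92.Weak Pool.Agent.Helper92.Ga

variable {k K' L' : Type*} [Field k] [Field K'] [Field L'] [Algebra k K'] [Algebra k L']
  [Algebra K' L'] [IsScalarTower k K' L'] {t : L'}

theorem isLine_of_mem (h : IsLine K' t) {t' : L'}
    (hmem : t ∈ IntermediateField.adjoin K' ({t'} : Set L')) : IsLine K' t' := by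
  have hgen : IntermediateField.adjoin K' ({t'} : Set L') = ⊤ := by
    rw [eq_top_iff, ← h.gen, IntermediateField.adjoin_le_iff]
    rintro x hx
    rw [Set.mem_singleton_iff] at hx
    rw [hx]
    exact hmem
  refine ⟨fun halg => ?_, hgen⟩
  have h1 : IsIntegral K' t' := halg.isIntegral
  have h2 := IntermediateField.isAlgebraic_adjoin_simple h1
  have h3 : IsAlgebraic K' (⟨t, hmem⟩ : IntermediateField.adjoin K' ({t'} : Set L')) :=
    h2.isAlgebraic _
  exact h.trans (h3.algebraMap (A := L'))

theorem eq_plc_none {t' : L'} (h' : IsLine K' t') {v : DVal k L'}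
    (hv : ∀ a : K', v (algebraMap K' L' a) = 0) (hneg : v t' < 0) : v = plc k h' none :=
  eq_infVal h' v hv hneg

theorem eq_plc_some {t' : L'} (h' : IsLine K' t') {v : DVal k L'}
    (hv : ∀ a : K', v (algebraMap K' L' a) = 0) (β : K')
    (hpos : 0 < v (t' - algebraMap K' L' β)) : v = plc k h' (some β) := by
  classical
  by_contra hne
  have h1 := val_lin h' hv (some β)
  rw [if_neg hne] at h1
  change v (t' - algebraMap K' L' β) = _ at h1
  rw [h1] at hpos
  split_ifs at hpos <;> norm_num at hpos

theorem move_trans (k : Type*) [Field k] [Algebra k K'] [Algebra k L'] [IsScalarTower k K' L']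
    (h : IsLine K' t) (α : K') :
    ∃ (t' : L') (h' : IsLine K' t'), plc k h none = plc k h' none ∧
      ∀ β, plc k h (some β) = plc k h' (some (β - α)) := by
  have h' : IsLine K' (t - algebraMap K' L' α) := by
    apply isLine_of_mem h
    have h1 : t = (t - algebraMap K' L' α) + algebraMap K' L' α := by ring
    have h2 := add_mem (IntermediateField.mem_adjoin_simple_self K' (t - algebraMap K' L' α))
      (IntermediateField.algebraMap_mem
        (IntermediateField.adjoin K' ({t - algebraMap K' L' α} : Set L')) α)
    rw [sub_add_cancel] at h2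
    exact h2
  refine ⟨t - algebraMap K' L' α, h', ?_, fun β => ?_⟩
  · apply eq_plc_none h' (plc_triv h none)
    classical
    have h1 := val_lin (k := k) h (plc_triv h none) (some α)
    rw [if_neg (fun h0 => by simpa using plc_injective (k := k) h h0),
      if_pos (by rw [(plc_t (k := k) h none).1 rfl]; norm_num)] at h1
    change plc k h none (t - algebraMap K' L' α) = _ at h1
    rw [h1]
    norm_num
  · apply eq_plc_some h' (plc_triv h (some β))
    have h1 : t - algebraMap K' L' α - algebraMap K' L' (β - α) = lin t (some β) := by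
      change _ = t - algebraMap K' L' β
      rw [map_sub]
      ring
    rw [h1, plc_some_lin]
    norm_num

theorem move_scale (k : Type*) [Field k] [Algebra k K'] [Algebra k L'] [IsScalarTower k K' L']
    (h : IsLine K' t) {c : K'} (hc : c ≠ 0) :
    ∃ (t' : L') (h' : IsLine K' t'), plc k h none = plc k h' none ∧
      ∀ β, plc k h (some β) = plc k h' (some (c * β)) := by
  have hc' : algebraMap K' L' c ≠ 0 := by
    rw [Ne, map_eq_zero]
    exact hc
  have h' : IsLine K' (algebraMap K' L' c * t) := by
    apply isLine_of_mem h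
    have h2 := mul_mem (IntermediateField.algebraMap_mem
        (IntermediateField.adjoin K' ({algebraMap K' L' c * t} : Set L')) c⁻¹)
      (IntermediateField.mem_adjoin_simple_self K' (algebraMap K' L' c * t))
    rw [← mul_assoc, ← map_mul, inv_mul_cancel₀ hc, map_one, one_mul] at h2
    exact h2
  refine ⟨algebraMap K' L' c * t, h', ?_, fun β => ?_⟩
  · apply eq_plc_none h' (plc_triv h none)
    rw [DVal.map_mul _ hc' h.ne_zero, plc_triv, (plc_t h none).1 rfl]
    norm_num
  · apply eq_plc_some h' (plc_triv h (some β))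
    have h1 : algebraMap K' L' c * t - algebraMap K' L' (c * β) =
        algebraMap K' L' c * lin t (some β) := by
      change _ = algebraMap K' L' c * (t - algebraMap K' L' β)
      rw [map_mul]
      ring
    rw [h1, DVal.map_mul _ hc' (lin_ne_zero h _), plc_triv, plc_some_lin]
    norm_num

theorem move_inv (k : Type*) [Field k] [Algebra k K'] [Algebra k L'] [IsScalarTower k K' L']
    (h : IsLine K' t) :
    ∃ (t' : L') (h' : IsLine K' t'), plc k h none = plc k h' (some 0) ∧
      plc k h (some 0) = plc k h' none ∧
      ∀ β, β ≠ 0 → plc k h (some β) = plc k h' (some β⁻¹) := by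
  have h0 := h.ne_zero
  have h' : IsLine K' t⁻¹ := by
    apply isLine_of_mem h
    have h2 := inv_mem (IntermediateField.mem_adjoin_simple_self K' t⁻¹)
    rw [inv_inv] at h2
    exact h2
  refine ⟨t⁻¹, h', ?_, ?_, fun β hβ => ?_⟩
  · apply eq_plc_some h' (plc_triv h none)
    rw [map_zero, sub_zero, DVal.map_inv, (plc_t h none).1 rfl]
    norm_num
  · apply eq_plc_none h' (plc_triv h (some 0))
    have h1 := plc_some_lin (k := k) h (0 : K')
    change plc k h (some 0) (t - algebraMap K' L' 0) = 1 at h1
    rw [map_zero, sub_zero] at h1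
    rw [DVal.map_inv, h1]
    norm_num
  · apply eq_plc_some h' (plc_triv h (some β))
    have hβ' : algebraMap K' L' β ≠ 0 := by
      rw [Ne, map_eq_zero]
      exact hβ
    have h1 : t⁻¹ - algebraMap K' L' β⁻¹ =
        -(lin t (some β) / (t * algebraMap K' L' β)) := by
      change _ = -((t - algebraMap K' L' β) / (t * algebraMap K' L' β))
      rw [map_inv₀]
      field_simp
      ring
    have h2 : plc k h (some β) t = 0 := by
      classical
      have h3 := val_lin (k := k) h (plc_triv h (some β)) (some 0)
      rw [if_neg (fun h0 => hβ (by simpa using plc_injective (k := k) h h0)),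
        if_neg (not_lt.2 ((plc_t h (some β)).2 (by simp)))] at h3
      change plc k h (some β) (t - algebraMap K' L' 0) = _ at h3
      rw [map_zero, sub_zero] at h3
      rw [h3]
      norm_num
    rw [h1, DVal.map_neg, DVal.map_div _ (lin_ne_zero h _) (mul_ne_zero h0 hβ'),
      DVal.map_mul _ h0 hβ', plc_triv, plc_some_lin, h2]
    norm_num

theorem exists_moebius (h : IsLine K' t) {i j l : Option K'} (hij : i ≠ j) (hil : i ≠ l)
    (hjl : j ≠ l) : ∃ (t' : L') (h' : IsLine K' t'), plc k h' none = plc k h i ∧
      plc k h' (some 0) = plc k h j ∧ plc k h' (some 1) = plc k h l ∧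
      ∀ n, ∃ n', plc k h n = plc k h' n' := by
  -- first move the place `i` to infinity
  obtain ⟨t1, h1, e1, f1⟩ : ∃ (t' : L') (h' : IsLine K' t'), plc k h i = plc k h' none ∧
      ∀ n, ∃ n', plc k h n = plc k h' n' := by
    cases i with
    | none => exact ⟨t, h, rfl, fun n => ⟨n, rfl⟩⟩
    | some α =>
      obtain ⟨t1, h1, a1, b1⟩ := move_trans k h α
      obtain ⟨t2, h2, a2, b2, c2⟩ := move_inv k h1
      refine ⟨t2, h2, ?_, fun n => ?_⟩
      · rw [b1, sub_self, b2]
      · cases n with
        | none => exact ⟨_, a1.trans a2⟩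
        | some β =>
          by_cases hβ : β - α = 0
          · exact ⟨_, (b1 β).trans (by rw [hβ, b2])⟩
          · exact ⟨_, (b1 β).trans (c2 _ hβ)⟩
  obtain ⟨j1, ej⟩ := f1 j
  obtain ⟨l1, el⟩ := f1 l
  have hj1 : j1 ≠ none := by
    rintro rfl
    exact hij (plc_injective h (e1.trans ej.symm))
  have hl1 : l1 ≠ none := by
    rintro rfl
    exact hil (plc_injective h (e1.trans el.symm))
  have hjl1 : j1 ≠ l1 := by
    rintro rfl
    exact hjl (plc_injective h (ej.trans el.symm))
  obtain ⟨β, rfl⟩ := Option.ne_none_iff_exists'.1 hj1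
  obtain ⟨γ, rfl⟩ := Option.ne_none_iff_exists'.1 hl1
  have hβγ : γ - β ≠ 0 := by
    intro h0
    exact hjl1 (by rw [sub_eq_zero.1 h0])
  obtain ⟨t2, h2, a2, b2⟩ := move_trans k h1 β
  obtain ⟨t3, h3, a3, b3⟩ := move_scale k h2 (inv_ne_zero hβγ)
  refine ⟨t3, h3, ?_, ?_, ?_, fun n => ?_⟩
  · rw [e1, a2, a3]
  · rw [ej, b2, sub_self, b3, mul_zero]
  · rw [el, b2, b3, inv_mul_cancel₀ hβγ]
  · obtain ⟨n1, e⟩ := f1 n
    cases n1 with
    | none => exact ⟨_, e.trans (a2.trans a3)⟩
    | some δ => exact ⟨_, e.trans ((b2 δ).trans (b3 _))⟩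

end Pool.Agent.Helper63.PB
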