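import Pool.Agent.Helper63.PB.Approx

set_option autoImplicit false

/-!
# PB-07 NormGe: values of norms

`E' / E` finite of degree `n`, characteristic zero, `v` a discrete valuation of `E`, `x ∈ E'`
nonzero, `r ∈ ℚ` with `w x ≥ ε r` for all `w` over `v` (ramification `ε`). CLAIM:
`v (norm x) ≥ n r`, and `v (norm x) > n r` if `w x > ε r` for some `w` over `v`.

PROOF. (1) `r = 0`: `x` is integral over `v.ring` (`Helper47.PQ.isIntegral_of_ge`), so `norm x` is
integral over `v.ring` (`Algebra.isIntegral_norm`), `v (norm x) ≥ 0`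
(`Helper47.PQ.mem_ring_of_isIntegral`). Strict part: suppose `w x > 0` and `v (norm x) = 0`. The element
`x' = norm x / x` is integral over `v.ring`: `w' x' = -w' x`: use instead the minimal polynomial: let
`P = minpoly E x`, with coefficients in `v.ring` (`PQ.minpoly_coeff_ge` with `q = 0`), constant
coefficient `c₀`, `norm x = ± c₀^(n/deg P)` (`Algebra.norm_eq_norm_adjoin` or
`Algebra.norm_eq_prod_roots`-like; `PowerBasis.norm_gen_eq_coeff_zero_minpoly`), so `v c₀ = 0`.
But `c₀ = -(x) (x^{d-1} + ... )` has `w c₀ ≥ w x > 0`, contradiction to `w c₀ = ε v c₀ = 0`.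
(2) `r ∈ ℤ`: apply (1) to `x p^(-r)`, `v p = 1`, `norm (x p^(-r)) = norm x * p^(-n r)`
(`Algebra.norm_algebraMap`).
(3) General `r = a / m`: apply (2) to `x ^ m` and the integer `m r`, and divide by `m`.
-/

namespace Pool.Agent.Helper63.PB

open Pool.Agent.Helper92.Weak

variable {k E E' : Type*} [Field k] [Field E] [Field E'] [Algebra k E] [Algebra k E']
  [Algebra E E'] [IsScalarTower k E E'] [FiniteDimensional E E'] [CharZero k]

private theorem norm_ge0 (v : DVal k E) {x : E'}
    (h : ∀ (w : DVal k E') (ε : ℕ), LiesOver w v ε → 0 ≤ w x) :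
    0 ≤ v (Algebra.norm E x) :=
  Helper47.PQ.mem_ring_of_isIntegral v
    (Algebra.isIntegral_norm E (Helper47.PQ.isIntegral_of_ge v h))

private theorem norm_gt0 (v : DVal k E) {x : E'} (hx : x ≠ 0)
    (h : ∀ (w : DVal k E') (ε : ℕ), LiesOver w v ε → 0 ≤ w x)
    (h1 : ∃ (w : DVal k E') (ε : ℕ), LiesOver w v ε ∧ 0 < w x) :
    0 < v (Algebra.norm E x) := by
  classical
  obtain ⟨w, ε, hw, hwx⟩ := h1
  have hint : IsIntegral E x := Algebra.IsIntegral.isIntegral x
  set P := minpoly E x with hP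
  -- coefficients
  have hcoeff : ∀ i, 0 ≤ v (P.coeff i) := by
    intro i
    by_cases hi : i ≤ P.natDegree
    · have h2 := Helper47.PQ.minpoly_coeff_ge (q := 0) v (x := x) (fun w ε hw => by
        right
        have := h w ε hw
        simp only [Int.cast_zero, mul_zero]
        exact_mod_cast this) (P.natDegree - i) (Nat.sub_le _ _)
      rw [← hP, Nat.sub_sub_self hi] at h2
      simp only [Int.cast_zero, mul_zero] at h2
      exact v.mem_ring_iff_ge.2 h2
    · rw [Polynomial.coeff_eq_zero_of_natDegree_lt (by omega), v.map_zero]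
  have hc0 : P.coeff 0 ≠ 0 := minpoly.coeff_zero_ne_zero hint hx
  have hc0' : algebraMap E E' (P.coeff 0) ≠ 0 := (map_ne_zero _).2 hc0
  -- the constant coefficient has positive value
  have hpos : 0 < v (P.coeff 0) := by
    have h2 : Polynomial.aeval x P = 0 := minpoly.aeval E x
    rw [← Polynomial.divX_mul_X_add P, map_add, map_mul, Polynomial.aeval_X,
      Polynomial.aeval_C] at h2
    set y := Polynomial.aeval x P.divX with hy
    have h3 : algebraMap E E' (P.coeff 0) = -(y * x) := by linear_combination h2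
    have hy0 : y ≠ 0 := by
      intro h0
      rw [h0, zero_mul, neg_zero] at h3
      exact hc0' h3
    have hyge : w.Ge 0 y := by
      rw [hy, Polynomial.aeval_eq_sum_range]
      refine DVal.Ge.sum fun i _ => ?_
      rw [Algebra.smul_def]
      have h4 : w.Ge 0 (algebraMap E E' (P.divX.coeff i)) := by
        right
        rw [hw.2, Polynomial.coeff_divX]
        have h5 : (0 : ℤ) ≤ ε * v (P.coeff (i + 1)) := mul_nonneg (by positivity) (hcoeff _)
        exact_mod_cast h5
      have h6 : w.Ge 0 (x ^ i) := by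
        right
        rw [w.map_pow]
        have h7 : (0 : ℤ) ≤ i * w x := mul_nonneg (by positivity) hwx.le
        exact_mod_cast h7
      simpa using h4.mul h6
    rw [DVal.ge_iff hy0] at hyge
    have hyge' : 0 ≤ w y := by exact_mod_cast hyge
    have h4 : w (algebraMap E E' (P.coeff 0)) = w y + w x := by
      rw [h3, w.map_neg, w.map_mul hy0 hx]
    rw [hw.2] at h4
    have h5 : (0 : ℤ) < ε * v (P.coeff 0) := by omega
    exact pos_of_mul_pos_right h5 (by positivity)
  rw [Algebra.norm_eq_norm_adjoin E x, v.map_pow]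
  have hn : 0 < Module.finrank (IntermediateField.adjoin E {x}) E' := Module.finrank_pos
  have h6 : Algebra.norm E (IntermediateField.AdjoinSimple.gen E x) =
      (-1) ^ P.natDegree * P.coeff 0 := by
    have h7 := Algebra.PowerBasis.norm_gen_eq_coeff_zero_minpoly
      (IntermediateField.adjoin.powerBasis hint)
    rw [IntermediateField.adjoin.powerBasis_gen, IntermediateField.adjoin.powerBasis_dim,
      IntermediateField.minpoly_gen] at h7
    exact h7
  have h7 : v (Algebra.norm E (IntermediateField.AdjoinSimple.gen E x)) = v (P.coeff 0) := by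
    rw [h6, v.map_mul (pow_ne_zero _ (by simp)) hc0, v.map_pow, v.map_neg, v.map_one, mul_zero,
      zero_add]
  rw [h7]
  exact mul_pos (by exact_mod_cast hn) hpos

omit [IsScalarTower k E E'] [CharZero k] in
private theorem scaled (v : DVal k E) {x : E'} (hx : x ≠ 0) (q : ℤ) :
    ∃ y : E', y ≠ 0 ∧ (∀ (w : DVal k E') (ε : ℕ), LiesOver w v ε → w y = w x - ε * q) ∧
      v (Algebra.norm E y) = v (Algebra.norm E x) - Module.finrank E E' * q := by
  obtain ⟨p, hp0, hp⟩ := v.exists_uniformizer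
  have hc : p ^ (-q) ≠ 0 := zpow_ne_zero _ hp0
  have hc' : algebraMap E E' (p ^ (-q)) ≠ 0 := (map_ne_zero _).2 hc
  have hvc : v (p ^ (-q)) = -q := by rw [v.map_zpow, hp, mul_one]
  have hnx : Algebra.norm E x ≠ 0 := Algebra.norm_ne_zero_iff.2 hx
  refine ⟨algebraMap E E' (p ^ (-q)) * x, mul_ne_zero hc' hx, fun w ε hw => ?_, ?_⟩
  · rw [w.map_mul hc' hx, hw.2, hvc]
    ring
  · rw [map_mul, Algebra.norm_algebraMap, v.map_mul (pow_ne_zero _ hc) hnx, v.map_pow, hvc]
    ring

private theorem norm_geZ (v : DVal k E) {x : E'} (hx : x ≠ 0) {q : ℤ}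
    (h : ∀ (w : DVal k E') (ε : ℕ), LiesOver w v ε → ε * q ≤ w x) :
    (Module.finrank E E' : ℤ) * q ≤ v (Algebra.norm E x) := by
  obtain ⟨y, hy0, hy, hn⟩ := scaled v hx q
  have h2 := norm_ge0 v (x := y) fun w ε hw => by
    rw [hy w ε hw]
    have := h w ε hw
    omega
  omega

private theorem norm_gtZ (v : DVal k E) {x : E'} (hx : x ≠ 0) {q : ℤ}
    (h : ∀ (w : DVal k E') (ε : ℕ), LiesOver w v ε → ε * q ≤ w x)
    (h1 : ∃ (w : DVal k E') (ε : ℕ), LiesOver w v ε ∧ ε * q < w x) :
    (Module.finrank E E' : ℤ) * q < v (Algebra.norm E x) := by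
  obtain ⟨y, hy0, hy, hn⟩ := scaled v hx q
  obtain ⟨w, ε, hw, hwx⟩ := h1
  have h2 := norm_gt0 v hy0 (fun w ε hw => by
    rw [hy w ε hw]
    have := h w ε hw
    omega) ⟨w, ε, hw, by rw [hy w ε hw]; omega⟩
  omega

theorem norm_ge (v : DVal k E) {x : E'} (hx : x ≠ 0) {r : ℚ}
    (h : ∀ (w : DVal k E') (ε : ℕ), LiesOver w v ε → ε * r ≤ w x) :
    (Module.finrank E E' : ℚ) * r ≤ v (Algebra.norm E x) := by
  have hd : (0 : ℚ) < r.den := by exact_mod_cast r.den_pos
  have hr : r * r.den = r.num := Rat.mul_den_eq_num r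
  have h2 := norm_geZ v (pow_ne_zero r.den hx) (q := r.num) fun w ε hw => by
    have h3 := h w ε hw
    rw [w.map_pow]
    have h4 : ((ε * r.num : ℤ) : ℚ) ≤ ((r.den * w x : ℤ) : ℚ) := by
      push_cast
      rw [← hr]
      nlinarith [mul_le_mul_of_nonneg_left h3 hd.le]
    exact_mod_cast h4
  rw [map_pow, v.map_pow] at h2
  have h3 : ((Module.finrank E E' * r.num : ℤ) : ℚ) ≤ ((r.den * v (Algebra.norm E x) : ℤ) : ℚ) := by
    exact_mod_cast h2
  push_cast at h3
  rw [← hr] at h3
  have h4 : (r.den : ℚ) * (Module.finrank E E' * r) ≤ r.den * v (Algebra.norm E x) := by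
    linarith
  exact le_of_mul_le_mul_left h4 hd

theorem norm_gt (v : DVal k E) {x : E'} (hx : x ≠ 0) {r : ℚ}
    (h : ∀ (w : DVal k E') (ε : ℕ), LiesOver w v ε → ε * r ≤ w x)
    (h1 : ∃ (w : DVal k E') (ε : ℕ), LiesOver w v ε ∧ ε * r < w x) :
    (Module.finrank E E' : ℚ) * r < v (Algebra.norm E x) := by
  have hd : (0 : ℚ) < r.den := by exact_mod_cast r.den_pos
  have hr : r * r.den = r.num := Rat.mul_den_eq_num r
  obtain ⟨w₀, ε₀, hw₀, hwx₀⟩ := h1
  have h2 := norm_gtZ v (pow_ne_zero r.den hx) (q := r.num) (fun w ε hw => by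
    have h3 := h w ε hw
    rw [w.map_pow]
    have h4 : ((ε * r.num : ℤ) : ℚ) ≤ ((r.den * w x : ℤ) : ℚ) := by
      push_cast
      rw [← hr]
      nlinarith [mul_le_mul_of_nonneg_left h3 hd.le]
    exact_mod_cast h4) ⟨w₀, ε₀, hw₀, by
      rw [w₀.map_pow]
      have h4 : ((ε₀ * r.num : ℤ) : ℚ) < ((r.den * w₀ x : ℤ) : ℚ) := by
        push_cast
        rw [← hr]
        nlinarith [mul_lt_mul_of_pos_left hwx₀ hd]
      exact_mod_cast h4⟩
  rw [map_pow, v.map_pow] at h2
  have h3 : ((Module.finrank E E' * r.num : ℤ) : ℚ) < ((r.den * v (Algebra.norm E x) : ℤ) : ℚ) := by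
    exact_mod_cast h2
  push_cast at h3
  rw [← hr] at h3
  have h4 : (r.den : ℚ) * (Module.finrank E E' * r) < r.den * v (Algebra.norm E x) := by
    linarith
  exact lt_of_mul_lt_mul_left h4 hd.le

end Pool.Agent.Helper63.PB
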