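import Mathlib

set_option autoImplicit false

/-!
# PB-13 Real: degree sequences of multigraphs

Let `n : ι → ℕ` have sum `2 m` and all `n i ≤ m`. Then there is `x : ι → ι → ℕ` with zero diagonal and
`∑_j (x i j + x j i) = n i`.

PROOF. Induction on `m`. `m = 0`: all `n i = 0`, `x = 0`. `m + 1`: `∑ n = 2 m + 2`. Choose `i₀` with `n i₀`
maximal and `j₀ ≠ i₀` with `n j₀` maximal among `j ≠ i₀`. Both are positive: `n i₀ > 0` as the sum is
positive; `∑_{j ≠ i₀} n j = 2 m + 2 - n i₀ ≥ m + 1 > 0`. Let `n'` be `n` decreased by one at `i₀` and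
`j₀`: sum `2 m`. All `n' i ≤ m`: for `i = i₀`: `n i₀ - 1 ≤ m`; for `j₀` the same. For
`i ≠ i₀, j₀`: if `n i ≥ m + 1`, then `n i₀, n j₀ ≥ n i ≥ m + 1` and the sum is at least
`3 m + 3 > 2 m + 2`. So induction gives `x'`, and `x = x' +` one at `(i₀, j₀)`.
-/

namespace Pool.Agent.Helper63.PB

theorem exists_pairing {ι : Type*} [Fintype ι] (n : ι → ℕ) {m : ℕ} (hs : ∑ i, n i = 2 * m)
    (hn : ∀ i, n i ≤ m) :
    ∃ x : ι → ι → ℕ, (∀ i, x i i = 0) ∧ (∀ i, ∑ j, (x i j + x j i) = n i) ∧
      ∑ i, ∑ j, x i j = m := by
  classical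
  induction m generalizing n with
  | zero =>
    refine ⟨fun _ _ => 0, fun _ => rfl, fun i => ?_, by simp⟩
    have := hn i
    simp only [add_zero, Finset.sum_const_zero]
    omega
  | succ m ih =>
    have hne : (Finset.univ : Finset ι).Nonempty := by
      by_contra hc
      rw [Finset.not_nonempty_iff_eq_empty] at hc
      rw [hc, Finset.sum_empty] at hs
      omega
    obtain ⟨i₀, -, hi₀⟩ := Finset.exists_max_image Finset.univ n hne
    have hsplit : n i₀ + ∑ i ∈ Finset.univ.erase i₀, n i = 2 * (m + 1) := by
      rw [Finset.add_sum_erase _ _ (Finset.mem_univ i₀), hs]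
    have hne2 : (Finset.univ.erase i₀ : Finset ι).Nonempty := by
      by_contra hc
      rw [Finset.not_nonempty_iff_eq_empty] at hc
      rw [hc, Finset.sum_empty] at hsplit
      have := hn i₀
      omega
    obtain ⟨j₀, hj₀m, hj₀⟩ := Finset.exists_max_image (Finset.univ.erase i₀) n hne2
    have hij : j₀ ≠ i₀ := (Finset.mem_erase.1 hj₀m).1
    have hj₀' : ∀ i, i ≠ i₀ → n i ≤ n j₀ := fun i hi =>
      hj₀ i (Finset.mem_erase.2 ⟨hi, Finset.mem_univ _⟩)
    have hsplit2 : n j₀ + ∑ i ∈ (Finset.univ.erase i₀).erase j₀, n i =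
        ∑ i ∈ Finset.univ.erase i₀, n i := Finset.add_sum_erase _ _ hj₀m
    have hpos1 : 0 < n i₀ := by
      by_contra hc
      have h0 : ∀ i ∈ Finset.univ, n i = 0 := fun i hi => by
        have := hi₀ i hi
        omega
      rw [Finset.sum_eq_zero h0] at hs
      omega
    have hpos2 : 0 < n j₀ := by
      by_contra hc
      have h0 : ∀ i ∈ Finset.univ.erase i₀, n i = 0 := fun i hi => by
        have := hj₀ i hi
        omega
      rw [Finset.sum_eq_zero h0] at hsplit
      have := hn i₀
      omega
    let e : ι → ℕ := fun i => (if i = i₀ then 1 else 0) + (if i = j₀ then 1 else 0)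
    have he : ∀ i, e i ≤ n i := by
      intro i
      simp only [e]
      by_cases h1 : i = i₀
      · subst h1
        rw [if_pos rfl, if_neg (Ne.symm hij)]
        omega
      · by_cases h2 : i = j₀
        · subst h2
          rw [if_neg hij, if_pos rfl]
          omega
        · rw [if_neg h1, if_neg h2]
          omega
    have hes : ∑ i, e i = 2 := by
      simp only [e]
      rw [Finset.sum_add_distrib, Finset.sum_ite_eq', Finset.sum_ite_eq']
      simp
    have hs' : ∑ i, (n i - e i) = 2 * m := by
      have h1 : ∑ i, (n i - e i) + ∑ i, e i = ∑ i, n i := by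
        rw [← Finset.sum_add_distrib]
        exact Finset.sum_congr rfl fun i _ => Nat.sub_add_cancel (he i)
      rw [hes, hs] at h1
      omega
    have hn' : ∀ i, n i - e i ≤ m := by
      intro i
      by_cases h1 : i = i₀
      · have h2 : e i = 1 := by
          simp only [e]
          rw [if_pos h1, if_neg (fun h => hij (h.symm.trans h1))]
        rw [h2]
        have := hn i
        omega
      · by_cases h3 : i = j₀
        · have h2 : e i = 1 := by
            simp only [e]
            rw [if_neg h1, if_pos h3]
          rw [h2]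
          have := hn i
          omega
        · by_contra hc
          have h4 : n i ≤ ∑ i ∈ (Finset.univ.erase i₀).erase j₀, n i :=
            Finset.single_le_sum (f := n) (fun _ _ => Nat.zero_le _)
              (Finset.mem_erase.2 ⟨h3, Finset.mem_erase.2 ⟨h1, Finset.mem_univ _⟩⟩)
          have h5 := hj₀' i h1
          have h6 := hi₀ i (Finset.mem_univ _)
          omega
    obtain ⟨x, hx0, hx1, hx2⟩ := ih (fun i => n i - e i) hs' hn'
    refine ⟨fun i j => x i j + (if i = i₀ then (if j = j₀ then 1 else 0) else 0), fun i => ?_,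
      fun i => ?_, ?_⟩
    · show x i i + _ = 0
      rw [hx0 i, zero_add]
      by_cases h1 : i = i₀
      · rw [if_pos h1, if_neg (fun h => hij (h.symm.trans h1))]
      · rw [if_neg h1]
    · have h1 : ∑ j, ((x i j + (if i = i₀ then (if j = j₀ then 1 else 0) else 0)) +
          (x j i + (if j = i₀ then (if i = j₀ then 1 else 0) else 0))) =
          ∑ j, (x i j + x j i) + (∑ j, (if i = i₀ then (if j = j₀ then 1 else 0) else 0) +
            ∑ j, (if j = i₀ then (if i = j₀ then 1 else 0) else 0)) := by
        rw [← Finset.sum_add_distrib, ← Finset.sum_add_distrib]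
        refine Finset.sum_congr rfl fun j _ => ?_
        ring
      have h2 : ∑ j, (if i = i₀ then (if j = j₀ then 1 else 0) else 0) =
          (if i = i₀ then 1 else 0) := by
        by_cases h : i = i₀
        · simp [h]
        · simp [h]
      have h3 : ∑ j, (if j = i₀ then (if i = j₀ then 1 else 0) else 0) =
          (if i = j₀ then 1 else 0) := by
        rw [Finset.sum_ite_eq']
        simp
      rw [h1, h2, h3, hx1 i]
      have h4 := he i
      show n i - e i + e i = n i
      omega
    · have h1 : ∀ i, ∑ j, (x i j + (if i = i₀ then (if j = j₀ then 1 else 0) else 0)) =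
          ∑ j, x i j + (if i = i₀ then 1 else 0) := by
        intro i
        rw [Finset.sum_add_distrib]
        congr 1
        by_cases h : i = i₀
        · simp [h]
        · simp [h]
      rw [Finset.sum_congr rfl fun i _ => h1 i, Finset.sum_add_distrib, hx2, Finset.sum_ite_eq']
      simp

end Pool.Agent.Helper63.PB
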