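import Pool.Agent.Helper63.PB.Defs

set_option autoImplicit false

/-!
# PB-03 ResPoly: polynomials which vanish modulo a valuation

`E' / E` algebraic, characteristic zero, `w` over `v`. For `x ∈ E'` with `w x ≥ 0` there is a
polynomial `p` over `v.ring` with `w (p(x)) ≥ 1` (or `p(x) = 0`) and `w (p'(x)) = 0`.

PROOF. Consider the polynomials `p ∈ E[T]` with all coefficients in `v.ring`, at least one
coefficient of value `0` (so nonzero), and `w.Ge 1 (p(x))`. They exist: the minimal polynomial of
`x` over `E` times a constant of `E` (divide by a coefficient of smallest value) has `p(x) = 0`.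
Take one of minimal degree `n`. Its leading coefficient has value `0`: otherwise it has value `≥ 1`,
and `p - lc T^n` is again such a polynomial (`w (lc x^n) ≥ 1`), of smaller degree (it still has a
coefficient of value `0`). `n ≥ 1` since `w` of a constant of value `0` is `0 < 1`. The derivative `p'`
has coefficients in `v.ring`, degree `n - 1 < n`, and leading coefficient `n lc` of value `0`
(`n ∈ k` nonzero, characteristic zero). By minimality not `w.Ge 1 (p'(x))`; but
`w (p'(x)) ≥ 0` since the coefficients and `x` are in `w.ring`. So `p'(x) ≠ 0`, `w (p'(x)) = 0`.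
-/

namespace Pool.Agent.Helper63.PB

open Pool.Agent.Helper92.Weak

variable {k E E' : Type*} [Field k] [Field E] [Field E'] [Algebra k E] [Algebra k E']
  [Algebra E E'] [IsScalarTower k E E'] [Algebra.IsAlgebraic E E'] [CharZero k]

omit [IsScalarTower k E E'] [Algebra.IsAlgebraic E E'] [CharZero k] in
private theorem ge_aeval {v : DVal k E} {w : DVal k E'} {ε : ℕ} (hw : LiesOver w v ε) {x : E'}
    (hx : 0 ≤ w x) {q : Polynomial E} (hq : ∀ i, 0 ≤ v (q.coeff i)) :
    w.Ge 0 (Polynomial.aeval x q) := by
  rw [Polynomial.aeval_eq_sum_range]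
  refine DVal.Ge.sum fun i _ => ?_
  rw [Algebra.smul_def]
  have h1 : w.Ge 0 (algebraMap E E' (q.coeff i)) := by
    right
    rw [hw.2]
    have := hq i
    have h2 : (0 : ℤ) ≤ (ε : ℤ) * v (q.coeff i) := mul_nonneg (by positivity) this
    exact_mod_cast h2
  have h2 : w.Ge 0 (x ^ i) := by
    right
    rw [w.map_pow]
    have h2 : (0 : ℤ) ≤ (i : ℤ) * w x := mul_nonneg (by positivity) hx
    exact_mod_cast h2
  simpa using h1.mul h2

/-- The set of polynomials used in the proof. -/
private def SP (v : DVal k E) (w : DVal k E') (x : E') : Set (Polynomial E) :=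
  {p | (∀ i, 0 ≤ v (p.coeff i)) ∧ (∃ i, p.coeff i ≠ 0 ∧ v (p.coeff i) = 0) ∧
    w.Ge 1 (Polynomial.aeval x p)}

omit [IsScalarTower k E E'] [CharZero k] in
private theorem SP_nonempty (v : DVal k E) (w : DVal k E') (x : E') : (SP v w x).Nonempty := by
  classical
  have hx : IsIntegral E x := (Algebra.IsAlgebraic.isAlgebraic (R := E) x).isIntegral
  have hm : minpoly E x ≠ 0 := minpoly.ne_zero hx
  obtain ⟨i0, hi0, hmin⟩ := (minpoly E x).support.exists_min_image
    (fun i => v ((minpoly E x).coeff i)) (Polynomial.nonempty_support_iff.2 hm)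
  have hc0 : (minpoly E x).coeff i0 ≠ 0 := Polynomial.mem_support_iff.1 hi0
  refine ⟨Polynomial.C ((minpoly E x).coeff i0)⁻¹ * minpoly E x, ?_, ⟨i0, ?_, ?_⟩, ?_⟩
  · intro i
    rw [Polynomial.coeff_C_mul]
    by_cases hi : (minpoly E x).coeff i = 0
    · rw [hi, mul_zero, v.map_zero]
    · rw [v.map_mul (inv_ne_zero hc0) hi, v.map_inv]
      have := hmin i (Polynomial.mem_support_iff.2 hi)
      omega
  · rw [Polynomial.coeff_C_mul, inv_mul_cancel₀ hc0]
    exact one_ne_zero
  · rw [Polynomial.coeff_C_mul, inv_mul_cancel₀ hc0, v.map_one]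
  · left
    rw [map_mul, minpoly.aeval, mul_zero]

theorem exists_resPoly {v : DVal k E} {w : DVal k E'} {ε : ℕ} (hw : LiesOver w v ε) {x : E'}
    (hx : 0 ≤ w x) : ∃ p : Polynomial E, (∀ i, 0 ≤ v (p.coeff i)) ∧
      w.Ge 1 (Polynomial.aeval x p) ∧
      Polynomial.aeval x (Polynomial.derivative p) ≠ 0 ∧
      w (Polynomial.aeval x (Polynomial.derivative p)) = 0 := by
  classical
  have hcE : CharZero E := charZero_of_injective_algebraMap (algebraMap k E).injective
  -- a polynomial of least degree
  obtain ⟨p, hp, hmin⟩ : ∃ p ∈ SP v w x, ∀ q ∈ SP v w x, p.natDegree ≤ q.natDegree := by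
    have hne : ((fun p : Polynomial E => p.natDegree) '' SP v w x).Nonempty :=
      (SP_nonempty v w x).image _
    obtain ⟨p, hp, hpn⟩ := Nat.sInf_mem hne
    refine ⟨p, hp, fun q hq => ?_⟩
    have h1 : sInf ((fun p : Polynomial E => p.natDegree) '' SP v w x) ≤ q.natDegree :=
      Nat.sInf_le ⟨q, hq, rfl⟩
    rw [← hpn] at h1
    exact h1
  obtain ⟨hp1, ⟨j, hj, hj0⟩, hp3⟩ := hp
  have hp0 : p ≠ 0 := by
    rintro rfl
    simp at hj
  have hlc : p.leadingCoeff ≠ 0 := Polynomial.leadingCoeff_ne_zero.2 hp0
  have hεZ : (1 : ℤ) ≤ ε := by exact_mod_cast hw.1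
  -- the leading coefficient has value zero
  have hlc0 : v p.leadingCoeff = 0 := by
    by_contra hne
    have h1 : 1 ≤ v p.leadingCoeff := by
      have := hp1 p.natDegree
      rw [Polynomial.coeff_natDegree] at this
      omega
    have hjn : j ≠ p.natDegree := by
      rintro rfl
      rw [Polynomial.coeff_natDegree] at hj0
      exact hne hj0
    have hmem : p.eraseLead ∈ SP v w x := by
      refine ⟨?_, ⟨j, ?_, ?_⟩, ?_⟩
      · intro i
        rw [Polynomial.eraseLead_coeff]
        split_ifs
        · rw [v.map_zero]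
        · exact hp1 i
      · rw [Polynomial.eraseLead_coeff, if_neg hjn]
        exact hj
      · rw [Polynomial.eraseLead_coeff, if_neg hjn]
        exact hj0
      · have h2 : Polynomial.aeval x p.eraseLead = Polynomial.aeval x p
            - algebraMap E E' p.leadingCoeff * x ^ p.natDegree := by
          have h3 := p.eraseLead_add_C_mul_X_pow
          have h4 := congrArg (Polynomial.aeval x) h3
          rw [map_add, map_mul, map_pow, Polynomial.aeval_C, Polynomial.aeval_X] at h4
          linear_combination h4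
        rw [h2]
        refine hp3.sub ?_
        have h5 : w.Ge 1 (algebraMap E E' p.leadingCoeff) := by
          right
          rw [hw.2]
          have h6 : (1 : ℤ) ≤ (ε : ℤ) * v p.leadingCoeff := by nlinarith
          exact_mod_cast h6
        have h6 : w.Ge 0 (x ^ p.natDegree) := by
          right
          rw [w.map_pow]
          have h2 : (0 : ℤ) ≤ (p.natDegree : ℤ) * w x := mul_nonneg (by positivity) hx
          exact_mod_cast h2
        simpa using h5.mul h6
    have h7 := hmin _ hmem
    rcases p.eraseLead_natDegree_lt_or_eraseLead_eq_zero with h8 | h8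
    · omega
    · have h9 : p.eraseLead.coeff j = 0 := by rw [h8]; simp
      rw [Polynomial.eraseLead_coeff, if_neg hjn] at h9
      exact hj h9
  -- the degree is positive
  have hn : p.natDegree ≠ 0 := by
    intro h0
    have h1 : p = Polynomial.C p.leadingCoeff := by
      have := Polynomial.eq_C_of_natDegree_eq_zero h0
      rw [Polynomial.leadingCoeff, h0]
      exact this
    rw [h1, Polynomial.aeval_C] at hp3
    have h2 : algebraMap E E' p.leadingCoeff ≠ 0 := (map_ne_zero _).2 hlc
    rw [DVal.ge_iff h2, hw.2, hlc0, mul_zero] at hp3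
    norm_num at hp3
  -- the derivative
  have hd1 : ∀ i, 0 ≤ v ((Polynomial.derivative p).coeff i) := by
    intro i
    rw [Polynomial.coeff_derivative]
    by_cases hi : p.coeff (i + 1) = 0
    · rw [hi, zero_mul, v.map_zero]
    · have hi1 : ((i : E) + 1) ≠ 0 := by exact_mod_cast Nat.succ_ne_zero i
      rw [v.map_mul hi hi1]
      have h2 : v ((i : E) + 1) = 0 := by
        have := v.map_const ((i : k) + 1)
        rwa [map_add, map_natCast, _root_.map_one] at this
      rw [h2, add_zero]
      exact hp1 _
  have hd2 : (Polynomial.derivative p).coeff (p.natDegree - 1) ≠ 0 ∧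
      v ((Polynomial.derivative p).coeff (p.natDegree - 1)) = 0 := by
    rw [Polynomial.coeff_derivative]
    have h1 : p.natDegree - 1 + 1 = p.natDegree := by omega
    rw [h1, Polynomial.coeff_natDegree]
    have hi1 : (((p.natDegree - 1 : ℕ) : E) + 1) ≠ 0 := by
      exact_mod_cast Nat.succ_ne_zero (p.natDegree - 1)
    refine ⟨mul_ne_zero hlc hi1, ?_⟩
    rw [v.map_mul hlc hi1, hlc0]
    have := v.map_const (((p.natDegree - 1 : ℕ) : k) + 1)
    rw [map_add, map_natCast, _root_.map_one] at this
    rw [this, add_zero]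
  have hnot : ¬ w.Ge 1 (Polynomial.aeval x (Polynomial.derivative p)) := by
    intro hge
    have h1 : Polynomial.derivative p ∈ SP v w x := ⟨hd1, ⟨_, hd2.1, hd2.2⟩, hge⟩
    have h2 := hmin _ h1
    have h3 := Polynomial.natDegree_derivative_lt hn
    omega
  have hge0 := ge_aeval hw hx hd1
  have hne : Polynomial.aeval x (Polynomial.derivative p) ≠ 0 := by
    intro h0
    exact hnot (Or.inl h0)
  refine ⟨p, hp1, hp3, hne, ?_⟩
  rw [DVal.ge_iff hne] at hge0 hnot
  have h1 : 0 ≤ w (Polynomial.aeval x (Polynomial.derivative p)) := by exact_mod_cast hge0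
  have h2 : ¬ (1 : ℤ) ≤ w (Polynomial.aeval x (Polynomial.derivative p)) := fun h =>
    hnot (by exact_mod_cast h)
  omega

end Pool.Agent.Helper63.PB
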