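import Pool.Agent.Helper63.PB.FrameMain
import Pool.Agent.Helper63.PB.MkFrame
import Pool.Agent.Helper63.PB.MkHor
import Pool.Agent.Helper63.PB.Moebius
import Pool.Agent.Helper63.PB.Big

set_option autoImplicit false

/-!
# PB-35 Split: the comparison theorem when the boundary splits over `K'`
-/

namespace Pool.Agent.Helper63.PB

open Pool.Agent.Helper92.Weak Pool.Agent.Helper92.Ga

/-- A pluricanonical form from the hypothesis that the Kodaira dimension is not `-∞`. -/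
theorem exists_pluri {k K : Type*} [Field k] [Field K] [Algebra k K] {Z : ProjVar k K}
    {D : Z.Div} (hκ : Z.kod D ≠ ⊥) : ∃ m : ℕ, 0 < m ∧ ∃ η : K, η ≠ 0 ∧
      ∀ Q : Z.primeDivisors, 0 ≤ (Q.1 η : ℚ) + m * D Q := by
  have hne : ¬ ∀ m : ℕ, 1 ≤ m → Z.h0 ((m : ℚ) • D) = 0 := by
    intro h
    apply hκ
    unfold ProjVar.kod kodDim
    rw [if_pos h]
  push Not at hne
  obtain ⟨m, hm, hm2⟩ := hne
  have h5 : sdim (Z.H0 ((m : ℚ) • D)) ≠ 0 := by
    intro h0
    have := Z.h0_le ((m : ℚ) • D)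
    rw [h0] at this
    exact hm2 (le_antisymm this zero_le)
  rw [sdim_ne_zero] at h5
  obtain ⟨η, hη, hη0⟩ := h5
  refine ⟨m, hm, η, hη0, fun Q => ?_⟩
  unfold ProjVar.H0 at hη
  rw [mem_sec_of_ne hη0] at hη
  have h6 := hη Q
  rw [Finsupp.smul_apply, smul_eq_mul] at h6
  exact h6

variable {k K L K' L' : Type*} [Field k] [Field K] [Field L] [Field K'] [Field L']
  [Algebra k K] [Algebra k L] [Algebra k K'] [Algebra k L'] [Algebra K L] [Algebra K K']
  [Algebra K L'] [Algebra L L'] [Algebra K' L'] [IsScalarTower k K L] [IsScalarTower k K K']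
  [IsScalarTower k K L'] [IsScalarTower k L L'] [IsScalarTower k K' L'] [IsScalarTower K L L']
  [IsScalarTower K K' L'] [FiniteDimensional K K'] [FiniteDimensional L L']
  [Algebra.IsPushout K K' L L'] [CharZero k]
  {X : ProjVar k L} {Z : ProjVar k K}

/-- The choice of the coordinate. -/
theorem exists_coord {d : ℕ} (hd : Algebra.trdeg k K = d) (hmor : IsMorphism X Z)
    (hequi : ∀ P ∈ X.primeDivisors, (∃ a : K, P (algebraMap K L a) ≠ 0) →
      ∃ Q ∈ Z.primeDivisors, ∃ e, LiesOver P Q e)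
    {t : L'} (ht : IsLine K' t) (p : X.Pair (d + 1)) (q : Z.Pair d)
    (hsplit : ∀ P : X.primeDivisors, (∀ x : K, P.1 (algebraMap K L x) = 0) → p.Δ P ≠ 0 →
      ∀ (v : DVal k L') (ε : ℕ), LiesOver v P.1 ε → ∃ i, v = plc k ht i) :
    ∃ (t' : L') (F : Frame X Z K' t') (H : HorData F p.Δ) (g : L) (h : K), g ≠ 0 ∧ h ≠ 0 ∧
      (∀ P, p.can P = P.1 g + F.a P) ∧ (∀ Q, q.can Q = Q.1 h + F.c Q) ∧
      (H.S.card ≤ 2 ∨ (none ∈ H.S ∧ some 0 ∈ H.S ∧ some 1 ∈ H.S)) := by
  classical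
  obtain ⟨F, g, h, hg, hh, hp, hq⟩ := exists_frame hd hmor hequi ht p q
  obtain ⟨H⟩ := exists_horData F hsplit
  by_cases hS : 2 < H.S.card
  · -- three places
    obtain ⟨i, j, l, hi, hj, hl, hij, hil, hjl⟩ := Finset.two_lt_card_iff.1 hS
    obtain ⟨t', ht', e1, e2, e3, e4⟩ := exists_moebius (k := k) ht hij hil hjl
    obtain ⟨F', g', h', hg', hh', hp', hq'⟩ := exists_frame hd hmor hequi ht' p q
    have hsplit' : ∀ P : X.primeDivisors, (∀ x : K, P.1 (algebraMap K L x) = 0) → p.Δ P ≠ 0 →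
        ∀ (v : DVal k L') (ε : ℕ), LiesOver v P.1 ε → ∃ i, v = plc k ht' i := by
      intro P hP hPΔ v ε hv
      obtain ⟨n, hn⟩ := hsplit P hP hPΔ v ε hv
      obtain ⟨n', hn'⟩ := e4 n
      exact ⟨n', hn.trans hn'⟩
    obtain ⟨H'⟩ := exists_horData F' hsplit'
    have key : ∀ (n : Option K') (n' : Option K'), n ∈ H.S → plc k ht' n' = plc k ht n →
        n' ∈ H'.S := by
      intro n n' hn he
      rw [H'.mem]
      have hov := H'.ov n'
      have hov2 := H.ov n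
      have he2 : plc k F'.line n' = plc k F.line n := he
      rw [he2] at hov
      have hpr : H'.pr n' = H.pr n :=
        Subtype.ext (Pool.Agent.Helper47.PQ.liesOver_unique hov hov2).1
      rw [hpr]
      exact (H.mem n).1 hn
    exact ⟨t', F', H', g', h', hg', hh', hp', hq',
      Or.inr ⟨key i none hi e1, key j (some 0) hj e2, key l (some 1) hl e3⟩⟩
  · exact ⟨t, F, H, g, h, hg, hh, hp, hq, Or.inl (not_lt.1 hS)⟩

/-- The comparison theorem, if the boundary splits over `K'`. -/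
theorem split_main [IsAlgClosed k] {d : ℕ} (hd : Algebra.trdeg k K = d) (hmor : IsMorphism X Z)
    (hequi : ∀ P ∈ X.primeDivisors, (∃ a : K, P (algebraMap K L a) ≠ 0) →
      ∃ Q ∈ Z.primeDivisors, ∃ e, LiesOver P Q e)
    {t : L'} (ht : IsLine K' t) (p : X.Pair (d + 1)) (q : Z.Pair d)
    (h1 : (∀ P : X.primeDivisors, (∀ x : K, P.1 (algebraMap K L x) = 0) → p.Δ P ≤ 1) ∨
      IsBigOnFibre K p)
    (hsplit : ∀ P : X.primeDivisors, (∀ x : K, P.1 (algebraMap K L x) = 0) → p.Δ P ≠ 0 →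
      ∀ (v : DVal k L') (ε : ℕ), LiesOver v P.1 ε → ∃ i, v = plc k ht i)
    (hq : IsOrbifoldBase p q) (hκ : Z.kod q.logDiv ≠ ⊥) :
    (X.kod p.logDiv = ⊥ ∧ X.nu p.logDiv = ⊥) ∨
    ∃ (s : ℕ) (B : Z.Div), s ≤ 1 ∧ (∀ Q, 0 ≤ B Q) ∧ ∀ ε : ℚ, 0 < ε →
      X.kod p.logDiv = s + Z.kod (q.logDiv + ε • B) ∧
      X.nu p.logDiv = s + Z.nu (q.logDiv + ε • B) := by
  classical
  obtain ⟨t', F, H, g, h, hg, hh, hp, hq', hS⟩ := exists_coord hd hmor hequi ht p q hsplit
  have h1' : (∀ P : X.primeDivisors, (∀ x : K, P.1 (algebraMap K L x) = 0) → p.Δ P ≤ 1) ∨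
      2 < ∑ i ∈ H.S, min (p.Δ (H.pr i)) 1 := by
    rcases h1 with h1 | h1
    · exact Or.inl h1
    · exact Or.inr (two_lt_of_big H (fun P _ => p.nonneg P) hg rfl hp h1)
  have hS' : 2 < H.deg → none ∈ H.S ∧ some 0 ∈ H.S ∧ some 1 ∈ H.S := by
    intro hdeg
    rcases hS with hS | hS
    · exfalso
      have h3 : ∑ i ∈ H.S, min (p.Δ (H.pr i)) 1 ≤ ∑ _i ∈ H.S, (1 : ℚ) :=
        Finset.sum_le_sum fun i _ => min_le_right _ _
      rw [Finset.sum_const, nsmul_eq_mul, mul_one] at h3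
      have h4 : (H.S.card : ℚ) ≤ 2 := by exact_mod_cast hS
      rcases h1' with h1' | h1'
      · have h5 : ∑ i ∈ H.S, min (p.Δ (H.pr i)) 1 = H.deg := by
          unfold HorData.deg
          exact Finset.sum_congr rfl fun i _ => min_eq_left (h1' _ (H.triv i))
        linarith
      · linarith
    · exact hS
  have e1 : p.logDiv = (F.aD + p.Δ) + X.prin g := by
    unfold ProjVar.Pair.logDiv
    ext P
    rw [Finsupp.add_apply, Finsupp.add_apply, Finsupp.add_apply, hp, Frame.aD_apply,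
      ProjVar.prin_apply]
    ring
  have e2 : q.logDiv = (F.cD + q.Δ) + Z.prin h := by
    unfold ProjVar.Pair.logDiv
    ext Q
    rw [Finsupp.add_apply, Finsupp.add_apply, Finsupp.add_apply, hq', Frame.cD_apply,
      ProjVar.prin_apply]
    ring
  have hκ' : Z.kod (F.cD + q.Δ) ≠ ⊥ := by
    rwa [e2, Z.kod_add_prin _ hh] at hκ
  obtain ⟨N₃, hN₃, η, hη, hT⟩ := exists_pluri hκ'
  have key := frame_main F H hS' (fun P _ => p.nonneg P) h1' hq hN₃ hη hT
  rw [e1, X.kod_add_prin _ hg, X.nu_add_prin _ hg]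
  rcases key with key | ⟨s, B, hs, key⟩
  · exact Or.inl key
  · refine Or.inr ⟨s, redDiv B, hs, fun Q => ?_, fun ε hε => ?_⟩
    · rw [redDiv_apply]
      split_ifs
      · exact zero_le_one
      · exact le_rfl
    · have e3 : q.logDiv + ε • redDiv B = (F.cD + q.Δ + ε • redDiv B) + Z.prin h := by
        rw [e2]
        abel
      rw [e3, Z.kod_add_prin _ hh, Z.nu_add_prin _ hh]
      exact key ε hε

end Pool.Agent.Helper63.PB
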