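import Pool.Agent.Helper63.PB.StableOps
import Pool.Agent.Helper63.PB.LogCover

set_option autoImplicit false

/-!
# PB-46 StableOps2: larger boundaries and finite quotients
-/

namespace Pool.Agent.Helper63.PB

open Pool.Agent.Helper92.Weak Pool.Agent.Helper92.Ga Pool.Agent.Helper47.PQ

section

variable {k K : Type*} [Field k] [Field K] [Algebra k K] {Z : ProjVar k K}

/-- Two canonical divisors differ by a principal divisor. -/
theorem exists_can_eq [CharZero k] {n : ℕ} (hn : Algebra.trdeg k K = n) (p p' : Z.Pair n) :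
    ∃ ψ : K, ψ ≠ 0 ∧ p'.can = p.can + Z.prin ψ := by
  obtain ⟨y, hy⟩ := exists_basis_of_trdeg hn
  obtain ⟨ψ, hψ, hψP⟩ := Pool.Agent.Helper60.MA.exists_psi Z p hy (one_ne_zero (α := K))
  obtain ⟨ψ', hψ', hψP'⟩ := Pool.Agent.Helper60.MA.exists_psi Z p' hy (one_ne_zero (α := K))
  refine ⟨ψ' / ψ, div_ne_zero hψ' hψ, ?_⟩
  ext P
  obtain ⟨a, ha, haP⟩ := hψP P
  obtain ⟨a', ha', haP'⟩ := hψP' P
  rw [Finsupp.add_apply, ProjVar.prin_apply, haP, haP', isOrd_unique ha ha', P.1.map_div hψ' hψ]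
  push_cast
  ring

theorem IsStable.congr {D : Z.Div} (h : IsStable Z D) {ψ : K} (hψ : ψ ≠ 0) :
    IsStable Z (D + Z.prin ψ) := by
  refine ⟨?_, fun B hB => ?_⟩
  · rw [Z.kod_add_prin _ hψ]
    exact h.1
  · have e : D + Z.prin ψ + B = D + B + Z.prin ψ := by abel
    rw [e, Z.kod_add_prin _ hψ, Z.nu_add_prin _ hψ]
    exact h.2 B hB

theorem isStable_enlarge [IsAlgClosed k] [CharZero k] {n : ℕ} (hn : Algebra.trdeg k K = n)
    {p p' : Z.Pair n} (h : ∀ Q, p.Δ Q ≤ p'.Δ Q) (hp : IsStable Z p.logDiv) :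
    IsStable Z p'.logDiv := by
  obtain ⟨ψ, hψ, hc⟩ := exists_can_eq hn p p'
  have hB : ∀ Q, 0 ≤ (p'.Δ - p.Δ) Q := fun Q => by
    rw [Finsupp.sub_apply]
    linarith [h Q]
  have e : p'.logDiv = p.logDiv + Z.prin ψ + (p'.Δ - p.Δ) := by
    unfold ProjVar.Pair.logDiv
    rw [hc]
    abel
  rw [e]
  have h1 := hp.congr hψ
  refine h1.add hB fun h2 => h1.1 ?_
  have h3 : Z.kod (p.logDiv + Z.prin ψ) ≤ Z.kod (p.logDiv + Z.prin ψ + (p'.Δ - p.Δ)) :=
    kod_mono fun Q => by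
      rw [Finsupp.add_apply (p.logDiv + Z.prin ψ)]
      linarith [hB Q]
  rw [h2] at h3
  exact le_bot_iff.1 h3

end

section

variable {k L M : Type*} [Field k] [Field L] [Field M] [Algebra k L] [Algebra k M] [Algebra L M]
  [IsScalarTower k L M] {X : ProjVar k M} {Y : ProjVar k L}

theorem isStable_quotient [IsAlgClosed k] [CharZero k] (hc : IsFiniteCover X Y) {n : ℕ}
    (hn : Algebra.trdeg k L = n) {p : X.Pair n} {p' : Y.Pair n} (h : IsLogPull p.Δ p'.Δ)
    (hp : IsStable X p.logDiv) : IsStable Y p'.logDiv := by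
  refine ⟨?_, fun B' hB' => ?_⟩
  · rw [← (logPull_eq hc hn h).1]
    exact hp.1
  · obtain ⟨B, hB⟩ := hc.exists_pull B'
    have hB0 : ∀ P, 0 ≤ B P := fun P => by
      obtain ⟨P', hP', e, he⟩ := hc.equi P.1 P.2
      rw [hB P ⟨P', hP'⟩ e he]
      exact mul_nonneg (Nat.cast_nonneg e) (hB' _)
    have h1 : IsLogPull (addPair p B hB0).Δ (addPair p' B' hB').Δ := isLogPull_add h hB
    obtain ⟨h2, h3⟩ := logPull_eq hc hn h1
    rw [addPair_logDiv, addPair_logDiv] at h2 h3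
    rw [← h2, ← h3]
    exact hp.2 B hB0

end

end Pool.Agent.Helper63.PB
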