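import Pool.Agent.Helper63.PB.Contract
import Pool.Agent.Helper63.PB.StableOps2

set_option autoImplicit false

/-!
# PB-52 StableModel: contractions and larger boundaries
-/

namespace Pool.Agent.Helper63.PB

open Pool.Agent.Helper92.Weak Pool.Agent.Helper92.Ga Pool.Agent.Helper47.PQ

variable {k L : Type*} [Field k] [Field L] [Algebra k L] {X X' : ProjVar k L}

/-- Every prime divisor of `X` is one of `X'`, and the boundary of `X` is at least the one of `X'`. -/
theorem isStable_model [IsAlgClosed k] [CharZero k] {n : ℕ} (hn : Algebra.trdeg k L = n)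
    (hX : ∀ P ∈ X.primeDivisors, P ∈ X'.primeDivisors) (p : X.Pair n) (p' : X'.Pair n)
    (hΔ : ∀ (P : X.primeDivisors) (P' : X'.primeDivisors), P.1 = P'.1 → p'.Δ P' ≤ p.Δ P)
    (h : IsStable X' p'.logDiv) : IsStable X p.logDiv := by
  let p₀ : X.Pair n :=
    { ω := p.ω, can := p.can, isDivisorOf := p.isDivisorOf, Δ := resDiv hX p'.Δ
      nonneg := fun P => by
        rw [resDiv_apply]
        exact p'.nonneg _ }
  have h1 : IsStable X p₀.logDiv := isStable_contract hn hX p₀ p' (fun P P' hPP' => by
    change resDiv hX p'.Δ P = p'.Δ P'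
    rw [resDiv_apply]
    congr 1
    exact Subtype.ext hPP') h
  exact isStable_enlarge hn (p := p₀) (p' := p) (fun Q => hΔ Q ⟨Q.1, hX Q.1 Q.2⟩ rfl) h1

end Pool.Agent.Helper63.PB
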