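import Pool.Agent.Helper63.PB.StableOps
import Pool.Agent.Helper92.Tor.Final
import Pool.Agent.Helper63.PB.Trdeg

set_option autoImplicit false

/-!
# PB-48 StableTorus: torus actions
-/

namespace Pool.Agent.Helper63.PB

open Pool.Agent.Helper92.Weak Pool.Agent.Helper92.Ga Pool.Agent.Helper47.PQ

variable {k K L : Type*} [Field k] [Field K] [Field L] [Algebra k K] [Algebra k L] [Algebra K L]
  [IsScalarTower k K L] {X : ProjVar k L} {Z : ProjVar k K}

theorem trdeg_of_torus {d r : ℕ} (hd : Algebra.trdeg k K = d) {t : Fin r → L}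
    (h : IsTorusVariety t X Z) : Algebra.trdeg k L = (d + r : ℕ) := by
  refine trdeg_of_basis hd (t := t) ?_
  rw [h.indep.isTranscendenceBasis_iff_isAlgebraic]
  constructor
  intro a
  have ha : a ∈ IntermediateField.adjoin K (Set.range t) := by
    rw [h.gen]
    trivial
  rw [IntermediateField.mem_adjoin_iff_div] at ha
  obtain ⟨r, hr, s, hs, rfl⟩ := ha
  have h1 : IsAlgebraic (Algebra.adjoin K (Set.range t)) r :=
    isAlgebraic_algebraMap (⟨r, hr⟩ : Algebra.adjoin K (Set.range t))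
  have h2 : IsAlgebraic (Algebra.adjoin K (Set.range t)) s :=
    isAlgebraic_algebraMap (⟨s, hs⟩ : Algebra.adjoin K (Set.range t))
  rw [div_eq_mul_inv]
  exact h1.mul h2.inv

/-- Pairs with a torus action over a stable pair are stable. -/
theorem isStable_torus [IsAlgClosed k] [CharZero k] {d r : ℕ} (hd : Algebra.trdeg k K = d)
    {t : Fin r → L} (h : IsTorusVariety t X Z) (p : X.Pair (d + r)) (q : Z.Pair d)
    (hlc : ∀ B : X.Div, (∀ P, 0 ≤ B P) →
      ∃ c : ℚ, 0 < c ∧ X.IsLogCanonical p.ω p.can (p.Δ + c • B))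
    (hq : IsOrbifoldBase p q) (hZ : IsStable Z q.logDiv) (hκ : X.kod p.logDiv ≠ ⊥) :
    IsStable X p.logDiv := by
  refine isStable_of_small hκ fun B hB => ?_
  obtain ⟨c, hc, hcl⟩ := hlc B hB
  have hcB : ∀ P, 0 ≤ (c • B) P := fun P => by
    rw [Finsupp.smul_apply, smul_eq_mul]
    exact mul_nonneg hc.le (hB P)
  refine ⟨c, hc, ?_⟩
  have hq' : IsOrbifoldBase (addPair p (c • B) hcB) q := by
    intro P Q e hPQ
    rw [addPair_Δ, Finsupp.add_apply]
    linarith [hq P Q e hPQ, hcB P]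
  rw [← addPair_logDiv p (c • B) hcB]
  rcases Pool.Agent.Helper92.Tor.torus_variety_pair hd Z X h (addPair p (c • B) hcB) hcl q hq'
    hZ.1 with h3 | ⟨s, BZ, -, hBZ, h3, -⟩
  · rw [h3.1, h3.2]
  · obtain ⟨h4, h5⟩ := h3 1 one_pos
    rw [one_smul] at h4 h5
    rw [h4, h5, hZ.2 BZ hBZ]

end Pool.Agent.Helper63.PB
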