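import Pool.Agent.Helper63.PB.DerBound
import Pool.Agent.Helper63.PB.ResPoly

set_option autoImplicit false

/-!
# PB-05 TLemma: logarithmic derivations of finite extensions

`E' / E` finite, characteristic zero, `w` over `v` with ramification `ε`, `D` a derivation of `E'`
over `k` (it need not map `E` to `E`) with `w (D c) ≥ w c` for all `c ∈ E`.

`der_ge_ext`: `w (D x) ≥ w x` for all `x ∈ E'`.
PROOF. By `der_bounded` there is a smallest `C ∈ ℕ` with `w (D x) ≥ w x - C` for all `x`
(`Nat.find`). Suppose `C ≥ 1`; we show that `C - 1` works, a contradiction.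
(a) Units: let `w u = 0`, `p` as in `exists_resPoly`. `D (p(u)) = p^D(u) + p'(u) D u` where
`p^D(u) = ∑ D(c_i) u^i` (`c_i` the coefficients), so `w.Ge 0 (p^D(u))` (as `w (D c_i) ≥ w c_i ≥ 0`), and
`w.Ge (1 - C) (D (p(u)))` (if `p(u) = 0` it is zero). So `w.Ge (1 - C) (p'(u) D u)` and
`w.Ge (1 - C) (D u)` since `w (p'(u)) = 0`.
(b) General `x ≠ 0`: let `v p = 1`, `u = x^ε p^(-w x)`, `w u = 0`. The logarithmic derivative
`θ(z) = z⁻¹ D z` is additive: `ε θ(x) = θ(u) + (w x) θ(p)`, `w.Ge 0 (θ(p))`, `w.Ge (1 - C) (θ(u))`. As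
`w ε = 0` (a nonzero constant) `w.Ge (1 - C) (θ(x))`, i.e. `w (D x) ≥ w x - (C - 1)`.

`der_pos_ext`: if moreover `w.Ge 1 (D c)` for all `c ∈ E` with `v c ≥ 0`, then `w.Ge 1 (D x)` for all
`x` with `w x ≥ 0`. PROOF. Let `w x ≥ 0`, `p` as in `exists_resPoly`: `D (p(x)) = p^D(x) + p'(x) D x`,
`w.Ge 1 (p^D(x))`, and `w.Ge 1 (D (p(x)))` by `der_ge_ext` (`w (p(x)) ≥ 1` or `p(x) = 0`).
-/

namespace Pool.Agent.Helper63.PB

open Pool.Agent.Helper92.Weak

variable {k E E' : Type*} [Field k] [Field E] [Field E'] [Algebra k E] [Algebra k E']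
  [Algebra E E'] [IsScalarTower k E E'] [FiniteDimensional E E'] [CharZero k]

omit [Algebra k E] [IsScalarTower k E E'] [FiniteDimensional E E'] [CharZero k] in
/-- The derivative of a polynomial expression. -/
private theorem der_aeval (D : Derivation k E' E') (x : E') (p : Polynomial E) :
    D (Polynomial.aeval x p) = (p.sum fun i c => D (algebraMap E E' c) * x ^ i) +
      Polynomial.aeval x (Polynomial.derivative p) * D x := by
  induction p using Polynomial.induction_on' with
  | add p q hp hq =>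
    rw [_root_.map_add, _root_.map_add, hp, hq, Polynomial.sum_add_index _ _ _ (by simp) (by
      intro i a b
      rw [_root_.map_add, _root_.map_add, add_mul]), Polynomial.derivative_add, _root_.map_add]
    ring
  | monomial n a =>
    rw [Polynomial.aeval_monomial, D.leibniz, D.leibniz_pow, Polynomial.sum_monomial_index _ _ (by
      simp), Polynomial.derivative_monomial, Polynomial.aeval_monomial]
    simp only [smul_eq_mul, nsmul_eq_mul, _root_.map_mul, map_natCast]
    ring

omit [IsScalarTower k E E'] [FiniteDimensional E E'] [CharZero k] in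
private theorem ge_sum {v : DVal k E} {w : DVal k E'}
    (D : Derivation k E' E') {n : ℚ} (hn : ∀ c : E, 0 ≤ v c → w.Ge n (D (algebraMap E E' c)))
    {p : Polynomial E} (hp : ∀ i, 0 ≤ v (p.coeff i)) {x : E'} (hx : 0 ≤ w x) :
    w.Ge n (p.sum fun i c => D (algebraMap E E' c) * x ^ i) := by
  unfold Polynomial.sum
  refine DVal.Ge.sum fun i _ => ?_
  have h1 : w.Ge 0 (x ^ i) := by
    right
    rw [w.map_pow]
    push_cast
    exact mul_nonneg (Nat.cast_nonneg i) (by exact_mod_cast hx)
  have h2 := (hn _ (hp i)).mul h1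
  rwa [add_zero] at h2

omit [CharZero k] in
private theorem ge_of_mul {w : DVal k E'} {n : ℚ} {a b : E'} (ha : a ≠ 0) (hwa : w a = 0)
    (h : w.Ge n (a * b)) : w.Ge n b := by
  by_cases hb : b = 0
  · exact Or.inl hb
  · rw [w.ge_iff (mul_ne_zero ha hb), w.map_mul ha hb, hwa, zero_add] at h
    exact Or.inr h

theorem der_ge_ext {v : DVal k E} {w : DVal k E'} {ε : ℕ} (hw : LiesOver w v ε)
    (D : Derivation k E' E')
    (hD : ∀ c : E, w.Ge (w (algebraMap E E' c)) (D (algebraMap E E' c))) (x : E') :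
    w.Ge (w x) (D x) := by
  classical
  have hcE : CharZero E' := charZero_of_injective_algebraMap (algebraMap k E').injective
  have hD0 : ∀ c : E, 0 ≤ v c → w.Ge 0 (D (algebraMap E E' c)) := fun c hc => by
    refine (hD c).mono ?_
    rw [hw.2]
    push_cast
    exact mul_nonneg (Nat.cast_nonneg ε) (by exact_mod_cast hc)
  have hex := der_bounded hw D hD
  have hmin := @Nat.find_min _ _ hex
  have hfind := Nat.find_spec hex
  rcases h0 : Nat.find hex with _ | C
  · rw [h0] at hfind
    have h1 := hfind x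
    rwa [Nat.cast_zero, sub_zero] at h1
  · exfalso
    rw [h0] at hfind
    refine hmin (m := C) (by rw [h0]; exact Nat.lt_succ_self C) fun x => ?_
    -- units
    have ha : ∀ u : E', u ≠ 0 → w u = 0 → w.Ge (-(C : ℚ)) (D u) := by
      intro u hu hwu
      obtain ⟨p, hp, hp1, hp2, hp3⟩ := exists_resPoly hw (x := u) hwu.ge
      have h1 : w.Ge (-(C : ℚ)) (D (Polynomial.aeval u p)) := by
        rcases hp1 with h2 | h2
        · rw [h2, _root_.map_zero]
          exact DVal.Ge.zero
        · refine (hfind _).mono ?_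
          push_cast
          linarith
      have h2 : w.Ge (-(C : ℚ)) (p.sum fun i c => D (algebraMap E E' c) * u ^ i) :=
        (ge_sum D hD0 hp hwu.ge).mono (by
          have : (0 : ℚ) ≤ C := Nat.cast_nonneg C
          linarith)
      have h3 := h1.sub h2
      rw [der_aeval, add_sub_cancel_left] at h3
      exact ge_of_mul hp2 hp3 h3
    by_cases hx : x = 0
    · rw [hx, _root_.map_zero]
      exact DVal.Ge.zero
    obtain ⟨π, hπ, hπ1⟩ := v.exists_uniformizer
    have hP : algebraMap E E' π ≠ 0 := by simpa using hπ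
    have hwP : w (algebraMap E E' π) = ε := by rw [hw.2, hπ1, mul_one]
    set P := algebraMap E E' π with hPdef
    set n : ℤ := w x with hn
    have hu0 : x ^ ε * P ^ (-n) ≠ 0 := mul_ne_zero (pow_ne_zero _ hx) (zpow_ne_zero _ hP)
    have hwu : w (x ^ ε * P ^ (-n)) = 0 := by
      rw [w.map_mul (pow_ne_zero _ hx) (zpow_ne_zero _ hP), w.map_pow, w.map_zpow, hwP]
      ring
    have h1 := ha _ hu0 hwu
    -- logarithmic derivatives
    have h2 : D (x ^ ε * P ^ (-n)) / (x ^ ε * P ^ (-n)) = ε * (D x / x) - n * (D P / P) := by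
      rw [D.leibniz, D.leibniz_pow, D.leibniz_zpow]
      obtain ⟨e, rfl⟩ : ∃ e, ε = e + 1 := ⟨ε - 1, (Nat.succ_pred_eq_of_pos hw.1).symm⟩
      rw [zpow_sub_one₀ hP, Nat.add_sub_cancel, pow_succ]
      have hP' := zpow_ne_zero (-n) hP
      simp only [smul_eq_mul, nsmul_eq_mul, zsmul_eq_mul]
      push_cast
      field_simp
      ring
    have h3 : w.Ge (-(C : ℚ)) (D (x ^ ε * P ^ (-n)) / (x ^ ε * P ^ (-n))) := by
      rw [div_eq_mul_inv]
      have h4 := h1.mul (w.ge_self (x ^ ε * P ^ (-n))⁻¹)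
      rwa [w.map_inv, hwu, neg_zero, Int.cast_zero, add_zero] at h4
    have h5 : w.Ge 0 (D P / P) := by
      rw [div_eq_mul_inv]
      have h4 := (hD π).mul (w.ge_self P⁻¹)
      rwa [w.map_inv, Int.cast_neg, add_neg_cancel] at h4
    have h6 : w.Ge 0 ((n : E') * (D P / P)) := by
      have h7 : ((n : ℤ) : E') = algebraMap k E' n := by simp
      have h8 : w.Ge 0 ((n : ℤ) : E') := by
        rw [h7]
        right
        rw [w.map_const]
        simp
      have h9 := h8.mul h5
      rwa [add_zero] at h9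
    have h7 : w.Ge (-(C : ℚ)) ((ε : E') * (D x / x)) := by
      have h8 := h3.add (h6.mono (by
        have : (0 : ℚ) ≤ C := Nat.cast_nonneg C
        linarith : -(C : ℚ) ≤ 0))
      rw [h2, sub_add_cancel] at h8
      exact h8
    have hε : (ε : E') ≠ 0 := Nat.cast_ne_zero.2 hw.1.ne'
    have hwε : w (ε : E') = 0 := by
      have h8 : (ε : E') = algebraMap k E' ε := by simp
      rw [h8, w.map_const]
    have h8 := (ge_of_mul hε hwε h7).mul (w.ge_self x)
    rw [div_mul_cancel₀ _ hx] at h8
    refine h8.mono ?_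
    linarith

theorem der_pos_ext {v : DVal k E} {w : DVal k E'} {ε : ℕ} (hw : LiesOver w v ε)
    (D : Derivation k E' E')
    (hD : ∀ c : E, w.Ge (w (algebraMap E E' c)) (D (algebraMap E E' c)))
    (h1 : ∀ c : E, 0 ≤ v c → w.Ge 1 (D (algebraMap E E' c))) {x : E'} (hx : 0 ≤ w x) :
    w.Ge 1 (D x) := by
  obtain ⟨p, hp, hp1, hp2, hp3⟩ := exists_resPoly hw (x := x) hx
  have h2 : w.Ge 1 (D (Polynomial.aeval x p)) := by
    rcases hp1 with h3 | h3
    · rw [h3, _root_.map_zero]
      exact DVal.Ge.zero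
    · exact (der_ge_ext hw D hD _).mono h3
  have h3 := h2.sub (ge_sum D h1 hp hx)
  rw [der_aeval, add_sub_cancel_left] at h3
  exact ge_of_mul hp2 hp3 h3

end Pool.Agent.Helper63.PB
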