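import Pool.Agent.Helper92.Ga.Line

set_option autoImplicit false

/-!
# PB-15 Taylor: coefficients of polynomials

`L' = K'(t)` (only: `t ∈ L'`, no transcendence needed here), `Dt` a `K'`-derivation of `L'` with
`Dt t = 1`, `v` a discrete valuation of `L'` over `k` (characteristic zero), `C₀ ≥ 0` with
`v (Dt g) ≥ v g - C₀` for all `g`. If `p ∈ K'[T]` has degree `≤ n` and `v (p(t)) ≥ r` (or `p(t) = 0`)
then `v (p_j) ≥ r - n (C₀ + |v t|)` for every coefficient `p_j`.

PROOF. `Dt^i (p(t)) = p^(i)(t)` (`Derivation` and `aeval`: `Dt (p(t)) = p'(t)`; iterate). So by induction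
`v.Ge (r - i C₀) (p^(i)(t))`. Taylor expansion at `t` evaluated at `0`:
`p_j = (1 / j!) p^(j)(0) = (1 / j!) ∑_{i ≤ n - j} p^(j+i)(t) (-t)^i / i!`
(`Polynomial.taylor`, `Polynomial.hasseDeriv`: with `hasseDeriv j p = p^(j) / j!`,
`p = ∑_i C((hasseDeriv i p)(t)) (X - t)^i` in `L'[X]`, so the coefficient of `X^j` is
`∑_i (hasseDeriv i p)(t) binom(i, j) (-t)^(i-j)`, `i ≤ n`; `(i! : k)` is a unit). Each term has value
`≥ r - i C₀ - (i - j) |v t| ≥ r - n (C₀ + |v t|)`.
-/

namespace Pool.Agent.Helper63.PB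

open Pool.Agent.Helper92.Weak

variable {k K' L' : Type*} [Field k] [Field K'] [Field L'] [Algebra k K'] [Algebra k L']
  [Algebra K' L'] [IsScalarTower k K' L'] [CharZero k] {t : L'}

/-- The coefficients of `p` in terms of its Taylor coefficients at `t`. -/
theorem coeff_eq_taylor_sum (t : L') (p : Polynomial K') {n : ℕ} (hn : p.natDegree ≤ n) (j : ℕ) :
    algebraMap K' L' (p.coeff j) = ∑ i ∈ Finset.range (n + 1),
      (i.choose j : L') * Polynomial.aeval t (Polynomial.hasseDeriv i p) * (-t) ^ (i - j) := by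
  set P : Polynomial L' := p.map (algebraMap K' L') with hP
  set Q : Polynomial L' := Polynomial.taylor t P with hQ
  have hPQ : P = Polynomial.taylor (-t) Q := by
    rw [hQ, Polynomial.taylor_taylor, neg_add_cancel, Polynomial.taylor_zero]
  have hQc : ∀ i, Q.coeff i = Polynomial.aeval t (Polynomial.hasseDeriv i p) := by
    intro i
    have hmap : Polynomial.hasseDeriv i P
        = (Polynomial.hasseDeriv i p).map (algebraMap K' L') := by
      ext m
      rw [Polynomial.hasseDeriv_coeff, hP, Polynomial.coeff_map, Polynomial.coeff_map,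
        Polynomial.hasseDeriv_coeff, map_mul, map_natCast]
    rw [hQ, Polynomial.taylor_coeff, hmap, Polynomial.eval_map_algebraMap]
  have hdeg : Q.natDegree < n + 1 := by
    rw [hQ, Polynomial.natDegree_taylor, hP]
    exact Nat.lt_succ_of_le (Polynomial.natDegree_map_le.trans hn)
  have h1 : algebraMap K' L' (p.coeff j) = (Polynomial.taylor (-t) Q).coeff j := by
    rw [← hPQ, hP, Polynomial.coeff_map]
  rw [h1, Polynomial.taylor_coeff]
  conv_lhs => rw [Polynomial.as_sum_range' Q (n + 1) hdeg]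
  rw [map_sum, Polynomial.eval_finsetSum]
  refine Finset.sum_congr rfl fun i _ => ?_
  rw [Polynomial.hasseDeriv_monomial, Polynomial.eval_monomial, hQc]

theorem coeff_ge (Dt : Derivation K' L' L') (ht : Dt t = 1) (v : DVal k L') {C₀ : ℤ}
    (hC : 0 ≤ C₀) (h : ∀ g : L', v.Ge ((v g - C₀ : ℤ) : ℚ) (Dt g)) (p : Polynomial K') {n : ℕ}
    (hn : p.natDegree ≤ n) {r : ℚ} (hr : v.Ge r (Polynomial.aeval t p)) (j : ℕ) :
    v.Ge (r - n * (C₀ + |v t|)) (algebraMap K' L' (p.coeff j)) := by
  have hstep : ∀ (s : ℚ) (g : L'), v.Ge s g → v.Ge (s - C₀) (Dt g) := by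
    intro s g hg
    by_cases hg0 : g = 0
    · left
      rw [hg0, map_zero]
    · rw [DVal.ge_iff hg0] at hg
      refine (h g).mono ?_
      push_cast
      linarith
  have hiter : ∀ i : ℕ, v.Ge (r - i * C₀) (Polynomial.aeval t (Polynomial.derivative^[i] p)) := by
    intro i
    induction i with
    | zero => simpa using hr
    | succ i ih =>
      have h1 := hstep _ _ ih
      rw [Derivation.map_aeval, ht, smul_eq_mul, mul_one] at h1
      rw [Function.iterate_succ_apply']
      refine h1.mono ?_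
      push_cast
      linarith
  have hhasse : ∀ i : ℕ, v.Ge (r - i * C₀) (Polynomial.aeval t (Polynomial.hasseDeriv i p)) := by
    intro i
    have h1 : (i.factorial : L') * Polynomial.aeval t (Polynomial.hasseDeriv i p)
        = Polynomial.aeval t (Polynomial.derivative^[i] p) := by
      rw [← Polynomial.factorial_smul_hasseDeriv]
      simp [nsmul_eq_mul]
    have h2 : Polynomial.aeval t (Polynomial.hasseDeriv i p)
        = ((i.factorial : k)⁻¹) • Polynomial.aeval t (Polynomial.derivative^[i] p) := by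
      rw [← h1, Algebra.smul_def, ← mul_assoc]
      have h3 : algebraMap k L' ((i.factorial : k)⁻¹) * (i.factorial : L') = 1 := by
        rw [← map_natCast (algebraMap k L') i.factorial, ← map_mul,
          inv_mul_cancel₀ (Nat.cast_ne_zero.2 i.factorial_ne_zero), map_one]
      rw [h3, one_mul]
    rw [h2]
    exact (hiter i).smul _
  rw [coeff_eq_taylor_sum t p hn j]
  refine DVal.Ge.sum fun i hi => ?_
  have hin : i ≤ n := Nat.lt_succ_iff.1 (Finset.mem_range.1 hi)
  by_cases hij : i < j
  · left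
    rw [Nat.choose_eq_zero_of_lt hij]
    simp
  push Not at hij
  have hpow : v.Ge (-((n : ℚ) * |v t|)) ((-t) ^ (i - j)) := by
    refine (DVal.ge_self (v := v) ((-t) ^ (i - j))).mono ?_
    rw [v.map_pow, v.map_neg]
    have h1 : -((n : ℤ) * |v t|) ≤ ((i - j : ℕ) : ℤ) * v t := by
      have h2 : ((i - j : ℕ) : ℤ) ≤ n := by
        have : i - j ≤ n := (Nat.sub_le i j).trans hin
        exact_mod_cast this
      have h3 : -|v t| ≤ v t := neg_abs_le _
      have h4 : 0 ≤ |v t| := abs_nonneg _
      have h5 : (0 : ℤ) ≤ ((i - j : ℕ) : ℤ) := Int.natCast_nonneg _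
      nlinarith [mul_le_mul_of_nonneg_left h3 h5, mul_le_mul_of_nonneg_right h2 h4]
    exact_mod_cast h1
  have hmul := (hhasse i).mul hpow
  have hfin := hmul.smul (i.choose j : k)
  have heq : ((i.choose j : L') * Polynomial.aeval t (Polynomial.hasseDeriv i p) * (-t) ^ (i - j))
      = (i.choose j : k) • (Polynomial.aeval t (Polynomial.hasseDeriv i p) * (-t) ^ (i - j)) := by
    rw [Algebra.smul_def, map_natCast, mul_assoc]
  rw [heq]
  refine hfin.mono ?_
  have h1 : (i : ℚ) * C₀ ≤ n * C₀ :=
    mul_le_mul_of_nonneg_right (by exact_mod_cast hin) (by exact_mod_cast hC)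
  push_cast
  linarith

end Pool.Agent.Helper63.PB
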