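import Pool.Agent.Helper63.PB.Trdeg
import Pool.Agent.Helper92.HR.MainR

set_option autoImplicit false

/-!
# PB-51 TrdegArr: the dimension of an arrangement fibration
-/

universe u

namespace Pool.Agent.Helper63.PB

open Pool.Agent.Helper92.Weak Pool.Agent.Helper92.HA

section

variable {K L K' L' : Type*} [Field K] [Field L] [Field K'] [Field L']
    [Algebra K L] [Algebra K K'] [Algebra K L'] [Algebra L L'] [Algebra K' L']
    [IsScalarTower K L L'] [IsScalarTower K K' L']

/-- The transcendence degree of `L / K` if `L' / L` and `K' / K` are finite. -/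
theorem trdeg_of_ext [FiniteDimensional K K']
    [FiniteDimensional L L'] {d : ℕ} {t : Fin d → L'} (ht : IsTranscendenceBasis K' t) :
    Algebra.trdeg K L = d := by
  have h1 : Algebra.trdeg K' L' = d := by
    have h := ht.lift_cardinalMk_eq_trdeg
    rw [Cardinal.mk_fin, Cardinal.lift_natCast] at h
    have h' : Cardinal.lift.{0} (Algebra.trdeg K' L') = d := by
      rw [← h]
    simpa using h'
  have h2 : Algebra.trdeg K L' = d := by
    have h := lift_trdeg_add_eq K K' L'
    rw [trdeg_eq_zero (R := K) (A := K'), h1] at h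
    simp only [Cardinal.lift_zero, zero_add, Cardinal.lift_natCast] at h
    rw [eq_comm, Cardinal.lift_eq_nat_iff] at h
    exact h
  have h := lift_trdeg_add_eq K L L'
  rw [trdeg_eq_zero (R := L) (A := L'), h2] at h
  simp only [Cardinal.lift_zero, add_zero, Cardinal.lift_natCast] at h
  rw [Cardinal.lift_eq_nat_iff] at h
  exact h

/-- The transcendence degree is additive. -/
theorem trdeg_add {k : Type*} [Field k] [Algebra k K] [Algebra k L] [IsScalarTower k K L]
    {n d : ℕ} (hn : Algebra.trdeg k K = n) (hd : Algebra.trdeg K L = d) :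
    Algebra.trdeg k L = (n + d : ℕ) := by
  have h4 := lift_trdeg_add_eq k K L
  rw [hn, hd, Cardinal.lift_natCast, Cardinal.lift_natCast] at h4
  have h5 : Cardinal.lift (Algebra.trdeg k L) = ((n + d : ℕ) : Cardinal) := by
    rw [← h4]
    push_cast
    rfl
  rw [Cardinal.lift_eq_nat_iff] at h5
  exact h5

end

variable {k K L M L' : Type*} {K' : Type u} [Field k] [Field K] [Field L] [Field K'] [Field M]
  [Field L'] [Algebra k K] [Algebra k L] [Algebra k K'] [Algebra k M] [Algebra k L'] [Algebra K L]
  [Algebra K K'] [Algebra K L'] [Algebra L L'] [Algebra K' M] [Algebra K' L'] [Algebra M L']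
  [IsScalarTower k K L] [IsScalarTower k K K'] [IsScalarTower k K L'] [IsScalarTower k L L']
  [IsScalarTower k K' M] [IsScalarTower k K' L'] [IsScalarTower k M L'] [IsScalarTower K L L']
  [IsScalarTower K K' L'] [IsScalarTower K' M L'] {d : ℕ}
  {X : ProjVar k L} {Z : ProjVar k K} {t : Fin d → M} {ι : Type*} [Fintype ι] [DecidableEq ι]

/-- The dimension of the total space of an arrangement fibration. -/
theorem trdeg_of_arr {n : ℕ} (hn : Algebra.trdeg k K = n) (A : Arr K' L' t ι) {Δ : X.Div}
    (h : IsArrangement X Δ Z A) : Algebra.trdeg k L = (n + d : ℕ) := by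
  have j1 := h.finK
  have j2 := h.finL
  exact trdeg_add hn (trdeg_of_ext (K' := K') (L' := L') (tL_basis A))

end Pool.Agent.Helper63.PB
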