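import Pool.Agent.Helper63.PB.TowerDefs
import Pool.Agent.Helper63.PB.StableOps2
import Pool.Agent.Helper63.PB.StableTorus
import Pool.Agent.Helper63.PB.TrdegArr
import Pool.Agent.Helper63.PB.CurveCover
import Pool.Agent.Helper60.PB.StableBig
import Pool.Agent.Helper60.PB.Mds
import Pool.Agent.Helper60.PB.NuZero
import Pool.Agent.Helper92.HR.StableR
import Pool.Agent.Helper24.PB.StableProduct
import Pool.Agent.Helper24.PB.Birational

set_option autoImplicit false

/-!
# PB-47 TowerMain: weak abundance for towers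
-/

namespace Pool.Agent.Helper63.PB

open Pool.Agent.Helper92.Weak Pool.Agent.Helper92.Ga Pool.Agent.Helper47.PQ
open Pool.Agent.Helper60.PB Pool.Agent.Helper92.HA

universe u

/-- Weak abundance for curve fibrations over stable bases. -/
theorem kod_eq_nu_curve {k K L K' L' : Type*} [Field k] [Field K] [Field L] [Field K'] [Field L']
    [Algebra k K] [Algebra k L] [Algebra k K'] [Algebra k L'] [Algebra K L] [Algebra K K']
    [Algebra K L'] [Algebra L L'] [Algebra K' L'] [IsScalarTower k K L] [IsScalarTower k K K']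
    [IsScalarTower k K L'] [IsScalarTower k L L'] [IsScalarTower k K' L'] [IsScalarTower K L L']
    [IsScalarTower K K' L'] {X : ProjVar k L} {Z : ProjVar k K} [IsAlgClosed k] [CharZero k]
    {d : ℕ} (hd : Algebra.trdeg k K = d)
    (h : IsCurveFibration K' L' X Z) (p : X.Pair (d + 1)) (q : Z.Pair d)
    (h1 : (∀ P : X.primeDivisors, (∀ x : K, P.1 (algebraMap K L x) = 0) → p.Δ P ≤ 1) ∨
      IsBigOnFibre K p)
    (hq : IsOrbifoldBase p q) (hZ : IsStable Z q.logDiv) :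
    X.kod p.logDiv = X.nu p.logDiv := by
  rcases curve_main hd h p q h1 hq hZ.1 with h2 | ⟨s, B, -, hB, h3⟩
  · rw [h2.1, h2.2]
  · obtain ⟨h4, h5⟩ := h3 1 one_pos
    rw [h4, h5, one_smul, hZ.2 B hB]

/-- Weak abundance for varieties with a torus action over stable bases. -/
theorem kod_eq_nu_torus {k K L : Type*} [Field k] [Field K] [Field L] [Algebra k K] [Algebra k L]
    [Algebra K L] [IsScalarTower k K L] {X : ProjVar k L} {Z : ProjVar k K} [IsAlgClosed k]
    [CharZero k] {d r : ℕ} (hd : Algebra.trdeg k K = d)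
    {t : Fin r → L} (h : IsTorusVariety t X Z) (p : X.Pair (d + r)) (q : Z.Pair d) (hlc : p.LC)
    (hq : IsOrbifoldBase p q) (hZ : IsStable Z q.logDiv) : X.kod p.logDiv = X.nu p.logDiv := by
  rcases Pool.Agent.Helper92.Tor.torus_variety_pair hd Z X h p hlc q hq hZ.1 with
    h2 | ⟨s, B, -, hB, h3, -⟩
  · rw [h2.1, h2.2]
  · obtain ⟨h4, h5⟩ := h3 1 one_pos
    rw [h4, h5, one_smul, hZ.2 B hB]

/-- Weak abundance for towers. -/
theorem Tower.main {k : Type u} [Field k] [IsAlgClosed k] [CharZero k] {𝓑 : PairClass k}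
    (h𝓑 : ∀ (K : Type u) [Field K] [Algebra k K] (Z : ProjVar k K) (d : ℕ) (q : Z.Pair d),
      𝓑 K Z d q → IsStable Z q.logDiv) {b : Bool}
    {K : Type u} [Field K] [Algebra k K] {Z : ProjVar k K} {d : ℕ} {q : Z.Pair d}
    (h : Tower k 𝓑 b K Z d q) : Algebra.trdeg k K = d ∧ Z.kod q.logDiv = Z.nu q.logDiv ∧
      (b = true → IsStable Z q.logDiv) := by
  have key : ∀ {b : Bool} {K : Type u} [Field K] [Algebra k K] {Z : ProjVar k K} {D : Z.Div},
      IsStable Z D → Z.kod D = Z.nu D ∧ (b = true → IsStable Z D) :=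
    fun h => ⟨h.eq, fun _ => h⟩
  induction h with
  | base K Z d q hd hq => exact ⟨hd, key (h𝓑 K Z d q hq)⟩
  | primeBig K Z d q hd hZ hκ => exact ⟨hd, key (isStable_primeBig hd hZ hκ)⟩
  | fgSections K Z d q hd hZ hκ => exact ⟨hd, key (isStable_fg hZ hκ)⟩
  | big K Z d q hd hκ => exact ⟨hd, key (isStable_of_big hd hκ)⟩
  | birational L X Y n p q hq h1 h2 ih =>
    exact ⟨ih.1, key (isStable_birational ih.1 q p h1 h2 (ih.2.2 rfl))⟩
  | product M K E F Y X m n pF pY p h hs hF hY h1 h2 ihF ihY =>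
    refine ⟨trdeg_of_product h ihF.1 ihY.1, key (isStable_product_pair h ?_ ihF.1 ihY.1 pF
      pY p h1 h2 (ihF.2.2 rfl) (ihY.2.2 rfl))⟩
    exact hs.elim (fun hr => isSplit_of_rational h (Or.inl hr)) id
  | weaken K Z d q hq ih => exact ⟨ih.1, ih.2.1, fun h => absurd h (by decide)⟩
  | curve b K L X Z d h p q hq hpq hΔ hκ ih =>
    obtain ⟨K', L', _, _, _, _, _, _, _, _, _, _, _, _, _, _, h⟩ := h
    refine ⟨trdeg_of_curve ih.1 h, kod_eq_nu_curve ih.1 h p q ?_ hpq (ih.2.2 rfl), fun hb => ?_⟩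
    · exact hΔ.imp_left fun h1 P hP => (h1 P hP).1
    · exact isStable_fibration ih.1 h p q (hΔ.imp_left fun h1 P hP => (h1 P hP).2 hb) hpq
        (ih.2.2 rfl) (hκ hb)
  | arrangement b K L X Z n d hd p q h hq hpq ih =>
    obtain ⟨K', M, L', ι, _, _, _, _, _, _, _, _, _, _, _, _, _, _, _, _, _, _, _, _, _, _, _, t, A,
      h, hA⟩ := h
    exact ⟨trdeg_of_arr ih.1 A h, kod_eq_nu_arrangement ih.1 hd A p q h hpq (ih.2.2 rfl),
      fun hb => isStable_arrangement ih.1 hd A p q h (hA hb) hpq (ih.2.2 rfl)⟩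
  | torus b K L X Z d r t h p q hlc hB hpq hq hκ ih =>
    exact ⟨trdeg_of_torus ih.1 h, kod_eq_nu_torus ih.1 h p q hlc hpq (ih.2.2 rfl),
      fun hb => isStable_torus ih.1 h p q (hB hb) hpq (ih.2.2 rfl) (hκ hb)⟩
  | nuZero K L X Z n d hd p q h hq ih =>
    exact ⟨trdeg_of_nuZero ih.1 hd, kod_eq_nu_nuZero ih.1 hd p q h (ih.2.2 rfl),
      fun h => absurd h (by decide)⟩
  | box M K E F Y X m n pF pY p h hF hY hb ihF ihY =>
    exact ⟨trdeg_of_product h ihF.1 ihY.1, kod_eq_nu_box h ihF.1 ihY.1 pF pY p hb ihF.2.1 ihY.2.1,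
      fun h => absurd h (by decide)⟩
  | quotient b L M X Y n p p' hp hc h ih =>
    have h0 := (trdeg_cover hc).1 ih.1
    obtain ⟨h1, h2⟩ := logPull_eq hc h0 h
    exact ⟨h0, by rw [← h1, ← h2, ih.2.1], fun hb => isStable_quotient hc h0 h (ih.2.2 hb)⟩
  | cover L M X Y n p p' hp hc h ih =>
    obtain ⟨h1, h2⟩ := logPull_eq hc ih.1 h
    exact ⟨(trdeg_cover hc).2 ih.1, by rw [h1, h2, ih.2.1], fun h => absurd h (by decide)⟩
  | crepant L X Y n p q hq h0 h1 h2 ih =>
    obtain ⟨h3, h4⟩ := kod_nu_crepant ih.1 q p h0 h1 h2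
    exact ⟨ih.1, by rw [h3, h4, ih.2.1], fun h => absurd h (by decide)⟩

end Pool.Agent.Helper63.PB
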