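import Pool.Agent.Helper63.PB.UBpoly
import Pool.Agent.Helper63.PB.FinMu
import Pool.Agent.Helper63.PB.VertPrimes
import Pool.Agent.Helper63.PB.Common
import Pool.Agent.Helper63.PB.Taylor

set_option autoImplicit false

/-!
# PB-30 UBcoef: the coefficients of sections

`U : UData F Δ E B`, `T = cD + E`. There is `C` such that for every divisor `A` on `X` there are `A'` on `Z`
(`A' = 0` if `A = 0`), `G` and `J_A` as in `exists_poly_of_sec` (with `J = U.J`), such that for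
`f ∈ H⁰(X, q M (aD + Δ) + A)`, `q ≥ 1`, the coefficients of the polynomial
`F = f u^(q M) Ψ^q G = ∑ b_j t^j` are in `famH0 K' Z (q M (T + C B) + A')`.

PROOF. Let `v` be over `P` (ramification `ε`) over `Q` (multiplicity `e`), `λ = a P + 1 - e (c Q + 1)`,
`μ = ε λ - v u`, `m = q M`. From `P f ≥ -m (a P + Δ P) - A P` and `a P = λ - 1 + e (c Q + 1)`:
(1) `v F ≥ -m μ - m ε (e c Q + (Δ P + e - 1)) - ε A P + q v Ψ + v G`.
(2) By `star` and `coeff_ge` (`C₀ = max μ 0`):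
`v b_j ≥ v F - (q J + J_A) (max μ 0 + |v t|)` for all `j`.
For `Q ∉ B` let `P, e` be as in `U.good`: `Δ P + e - 1 = e E Q`, `v Ψ ≥ M μ`, and if `J ≠ 0` `μ ≤ 0`, `v t = 0`.
So `v b_j ≥ -m ε e T(Q) - ε A P + v G - J_A (max μ 0 + |v t|)`. (In case `J ≠ 0` the last term is zero, in
case `J = 0` the degree is `≤ J_A`.)
For `Q ∈ B` fix one `P` over `Q` (`exists_vert`), and all quantities are bounded:
`v b_j ≥ -m ε e T(Q) - C₁ m - C_A`, `C₁`, `C_A` constants (maximum over the finitely many `Q ∈ B` and the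
finitely many `v` over the chosen `P`, `finite_above`), `C_A = 0` if `A = 0` (then `G = 1`, `J_A = 0`).
Now let `Q'` be over `Q` with ramification `e'`. `exists_common` gives `v` over the chosen `P` and over `Q'`
(ramification `ε'`), `ε e = ε' e'`, `v b_j = ε' Q' b_j`. So
`Q' b_j ≥ -e' m T(Q) - (ε A P - v G + J_A (max μ 0 + |v t|)) / ε'` for `Q ∉ B`. Put
`A'(Q) = max_v (|ε A P| + |v G| + J_A (max μ 0 + |v t|))` over the finitely many `v` over the chosen `P` (it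
is `≥ 0`, so dividing by `ε' ≥ 1` and multiplying by `e' ≥ 1` is harmless). It is zero for almost all
`Q`: `A P = 0` for almost all `P` (`finite_image`: each `P` lies over one `Q`), `v G = 0` and `v t = 0` for all `v`
over almost all `P` (`finite_ne`), `μ = 0` for almost all `P` (`finite_mu`). For `Q ∈ B`:
`A'(Q) = C_A`, `C = C₁`. If `A = 0` then `A' = 0`. (The zero function `f = 0`: take `p = 0`.)
-/

namespace Pool.Agent.Helper63.PB

open Pool.Agent.Helper92.Weak Pool.Agent.Helper92.Ga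

variable {k K L K' L' : Type*} [Field k] [Field K] [Field L] [Field K'] [Field L']
  [Algebra k K] [Algebra k L] [Algebra k K'] [Algebra k L'] [Algebra K L] [Algebra K K']
  [Algebra K L'] [Algebra L L'] [Algebra K' L'] [IsScalarTower k K L] [IsScalarTower k K K']
  [IsScalarTower k K L'] [IsScalarTower k L L'] [IsScalarTower k K' L'] [IsScalarTower K L L']
  [IsScalarTower K K' L'] [FiniteDimensional K K'] [FiniteDimensional L L']
  [Algebra.IsPushout K K' L L'] [CharZero k]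
  {X : ProjVar k L} {Z : ProjVar k K} {t : L'} {F : Frame X Z K' t} {Δ : X.Div} {E : Z.Div}
  {B : Finset Z.primeDivisors}

omit [Algebra K L'] [IsScalarTower k K L] [IsScalarTower k K K'] [IsScalarTower k K L']
  [IsScalarTower k L L'] [IsScalarTower K L L'] [IsScalarTower K K' L'] [FiniteDimensional K K']
  [FiniteDimensional L L'] [Algebra.IsPushout K K' L L'] in
private theorem ubc_core (F : Frame X Z K' t) {P : X.primeDivisors} {Q : Z.primeDivisors} {e : ℕ}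
    (hPQ : LiesOver P.1 Q.1 e) {v : DVal k L'} {ε : ℕ} (hv : LiesOver v P.1 ε)
    {Ψ G : L'} (hΨ : Ψ ≠ 0) (hG : G ≠ 0) {m q n : ℕ} {f : L} (hf : f ≠ 0) {α A : ℚ}
    (hPf : -((m : ℚ) * (F.a P + α) + A) ≤ P.1 f) {p : Polynomial K'}
    (hp : Polynomial.aeval t p = algebraMap L L' f * F.u ^ m * Ψ ^ q * G)
    (hn : p.natDegree ≤ n) (j : ℕ) :
    v.Ge (-((m : ℚ) * (ε * (e * F.c Q + (α + e - 1)))) - ε * A - m * F.mu P Q e v ε
      + q * v Ψ + v G - n * (((max (F.mu P Q e v ε) 0 : ℤ) : ℚ) + ((|v t| : ℤ) : ℚ)))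
      (algebraMap K' L' (p.coeff j)) := by
  have hfL : algebraMap L L' f ≠ 0 := by
    rwa [Ne, map_eq_zero_iff _ (algebraMap L L').injective]
  have hval : v (Polynomial.aeval t p) =
      ε * P.1 f + m * v F.u + q * v Ψ + v G := by
    rw [hp, v.map_mul (mul_ne_zero (mul_ne_zero hfL (pow_ne_zero _ F.u_ne)) (pow_ne_zero _ hΨ)) hG,
      v.map_mul (mul_ne_zero hfL (pow_ne_zero _ F.u_ne)) (pow_ne_zero _ hΨ),
      v.map_mul hfL (pow_ne_zero _ F.u_ne), hv.2, v.map_pow, v.map_pow]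
  have hμ : F.mu P Q e v ε = ε * (F.a P + 1 - e * (F.c Q + 1)) - v F.u := rfl
  have h := coeff_ge F.Dt F.Dt_t v (C₀ := max (F.mu P Q e v ε) 0) (le_max_right _ _)
    (fun g => (F.star P Q e hPQ v ε hv g).mono (by
      rw [← hμ]
      have h1 : F.mu P Q e v ε ≤ max (F.mu P Q e v ε) 0 := le_max_left _ _
      exact_mod_cast (show v g - max (F.mu P Q e v ε) 0 ≤ v g - F.mu P Q e v ε by linarith)))
    p hn (r := ((v (Polynomial.aeval t p) : ℤ) : ℚ)) (DVal.ge_self _) j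
  refine h.mono ?_
  have h1 : (ε : ℚ) * (-((m : ℚ) * (F.a P + α) + A)) ≤ ε * P.1 f :=
    mul_le_mul_of_nonneg_left hPf (Nat.cast_nonneg _)
  have h2 : ((v (Polynomial.aeval t p) : ℤ) : ℚ) =
      ε * P.1 f + m * v F.u + q * v Ψ + v G := by
    rw [hval]
    push_cast
    ring
  have h3 : ((F.mu P Q e v ε : ℤ) : ℚ) = ε * (F.a P + 1 - e * (F.c Q + 1)) - v F.u := by
    rw [hμ]
    push_cast
    ring
  rw [h2, h3]
  have h4 : -((m : ℚ) * (ε * (e * F.c Q + (α + e - 1)))) - ε * A -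
      m * (ε * (F.a P + 1 - e * (F.c Q + 1)) - v F.u) =
      (ε : ℚ) * (-((m : ℚ) * (F.a P + α) + A)) + m * v F.u := by ring
  linarith

private theorem ubc_arith_good {m q M J JA ε e : ℕ} {c E A α : ℚ} {μ w g s : ℤ} (hm : m = q * M)
    (hα : α + (e - 1) = e * E) (hw : M * μ ≤ w) (hJ : J ≠ 0 → μ ≤ 0 ∧ s = 0) :
    -((m : ℚ) * (ε * (e * (c + E)))) - (|(ε : ℚ) * A| + ((|g| : ℤ) : ℚ) +
      JA * (((max μ 0 : ℤ) : ℚ) + ((|s| : ℤ) : ℚ))) ≤
    -((m : ℚ) * (ε * (e * c + (α + e - 1)))) - ε * A - m * μ + q * w + g -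
      ((q * J + JA : ℕ) : ℚ) * (((max μ 0 : ℤ) : ℚ) + ((|s| : ℤ) : ℚ)) := by
  have h1 : (α + e - 1 : ℚ) = e * E := by rw [← hα]; ring
  rw [h1]
  have h2 : (ε : ℚ) * A ≤ |(ε : ℚ) * A| := le_abs_self _
  have h3 : -((|g| : ℤ) : ℚ) ≤ g := by exact_mod_cast neg_abs_le g
  have h4 : ((q * J + JA : ℕ) : ℚ) * (((max μ 0 : ℤ) : ℚ) + ((|s| : ℤ) : ℚ)) =
      JA * (((max μ 0 : ℤ) : ℚ) + ((|s| : ℤ) : ℚ)) := by
    by_cases h : J = 0
    · rw [h, mul_zero, zero_add]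
    · obtain ⟨h5, h6⟩ := hJ h
      rw [max_eq_right h5, h6]
      simp
  have h7 : (m : ℚ) * μ ≤ q * w := by
    rw [hm]
    push_cast
    have h8 : ((M : ℚ) * μ) ≤ w := by exact_mod_cast hw
    have h9 := mul_le_mul_of_nonneg_left h8 (Nat.cast_nonneg (α := ℚ) q)
    linarith
  rw [h4]
  have h10 : (m : ℚ) * (ε * (e * (c + E))) = (m : ℚ) * (ε * (e * c + e * E)) := by ring
  rw [h10]
  linarith

private theorem ubc_arith_bad {m q M J JA ε e : ℕ} {c E A α C : ℚ} {μ w g s : ℤ} (hm : m = q * M)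
    (hM : 0 < M) (hε : 0 < ε) (he : 0 < e)
    (hC : ((|μ| : ℤ) : ℚ) + ε * |α + e - 1| + ε * (e * |E|) + ((|w| : ℤ) : ℚ) +
      J * (((max μ 0 : ℤ) : ℚ) + ((|s| : ℤ) : ℚ)) ≤ C) :
    -((m : ℚ) * (ε * (e * (c + E + C)))) - (|(ε : ℚ) * A| + ((|g| : ℤ) : ℚ) +
      JA * (((max μ 0 : ℤ) : ℚ) + ((|s| : ℤ) : ℚ))) ≤
    -((m : ℚ) * (ε * (e * c + (α + e - 1)))) - ε * A - m * μ + q * w + g -
      ((q * J + JA : ℕ) : ℚ) * (((max μ 0 : ℤ) : ℚ) + ((|s| : ℤ) : ℚ)) := by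
  have hμ : -((|μ| : ℤ) : ℚ) ≤ -(μ : ℚ) := by
    have := le_abs_self μ
    have h : (μ : ℚ) ≤ ((|μ| : ℤ) : ℚ) := by exact_mod_cast this
    linarith
  have h2 : (ε : ℚ) * A ≤ |(ε : ℚ) * A| := le_abs_self _
  have h3 : -((|g| : ℤ) : ℚ) ≤ g := by exact_mod_cast neg_abs_le g
  have hw : -((|w| : ℤ) : ℚ) ≤ w := by exact_mod_cast neg_abs_le w
  have hw0 : (0 : ℚ) ≤ ((|w| : ℤ) : ℚ) := by exact_mod_cast abs_nonneg w
  have hqm : (q : ℚ) ≤ m := by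
    have : q ≤ m := by rw [hm]; exact Nat.le_mul_of_pos_right q hM
    exact_mod_cast this
  have hm0 : (0 : ℚ) ≤ m := Nat.cast_nonneg _
  have hq0 : (0 : ℚ) ≤ q := Nat.cast_nonneg _
  have hS : (0 : ℚ) ≤ ((max μ 0 : ℤ) : ℚ) + ((|s| : ℤ) : ℚ) := by
    have h1 : (0 : ℚ) ≤ ((max μ 0 : ℤ) : ℚ) := by exact_mod_cast le_max_right μ 0
    have h2 : (0 : ℚ) ≤ ((|s| : ℤ) : ℚ) := by exact_mod_cast abs_nonneg s
    linarith
  have hJ0 : (0 : ℚ) ≤ J * (((max μ 0 : ℤ) : ℚ) + ((|s| : ℤ) : ℚ)) :=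
    mul_nonneg (Nat.cast_nonneg _) hS
  have hε' : (1 : ℚ) ≤ ε := by exact_mod_cast hε
  have he' : (1 : ℚ) ≤ e := by exact_mod_cast he
  have hC0 : (0 : ℚ) ≤ C := by
    refine le_trans ?_ hC
    have h1 : (0 : ℚ) ≤ ((|μ| : ℤ) : ℚ) := by exact_mod_cast abs_nonneg μ
    positivity
  have e1 : (m : ℚ) * C ≤ m * (ε * (e * C)) := by
    refine mul_le_mul_of_nonneg_left ?_ hm0
    have h1 : C ≤ e * C := by nlinarith
    have h2 : (0 : ℚ) ≤ e * C := by positivity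
    nlinarith
  have e2 := mul_le_mul_of_nonneg_left hC hm0
  have e3 : -((m : ℚ) * (ε * |α + e - 1|)) ≤ -((m : ℚ) * (ε * (α + e - 1))) := by
    have h1 : (ε : ℚ) * (α + e - 1) ≤ ε * |α + e - 1| :=
      mul_le_mul_of_nonneg_left (le_abs_self _) (by linarith)
    have h2 := mul_le_mul_of_nonneg_left h1 hm0
    linarith
  have e4 : -((m : ℚ) * (ε * (e * |E|))) ≤ (m : ℚ) * (ε * (e * E)) := by
    have h1 : -((e : ℚ) * |E|) ≤ e * E := by
      have := neg_abs_le E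
      nlinarith
    have h2 : -((ε : ℚ) * (e * |E|)) ≤ ε * (e * E) := by nlinarith
    have h3 := mul_le_mul_of_nonneg_left h2 hm0
    linarith
  have e5 : -((m : ℚ) * ((|μ| : ℤ) : ℚ)) ≤ -((m : ℚ) * μ) := by
    have := mul_le_mul_of_nonneg_left hμ hm0
    linarith
  have e6 : -((m : ℚ) * ((|w| : ℤ) : ℚ)) ≤ q * w := by
    have h1 := mul_le_mul_of_nonneg_left hw hq0
    have h2 := mul_le_mul_of_nonneg_right hqm hw0
    linarith
  have e7 : ((q : ℚ) * J) * (((max μ 0 : ℤ) : ℚ) + ((|s| : ℤ) : ℚ)) ≤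
      m * (J * (((max μ 0 : ℤ) : ℚ) + ((|s| : ℤ) : ℚ))) := by
    have := mul_le_mul_of_nonneg_right hqm hJ0
    linarith
  push_cast at e2 ⊢
  push_cast at e1 e3 e4 e5 e6 e7 h2 h3
  have e8 : -((m : ℚ) * (ε * (e * (c + E + C)))) =
      -((m : ℚ) * (ε * (e * c))) - (m : ℚ) * (ε * (e * E)) - m * (ε * (e * C)) := by ring
  have e9 : -((m : ℚ) * (ε * (e * c + (α + e - 1)))) =
      -((m : ℚ) * (ε * (e * c))) - (m : ℚ) * (ε * (α + e - 1)) := by ring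
  rw [e8, e9]
  linarith

theorem ub_coef (U : UData F Δ E B) : ∃ C : ℕ, ∀ A : X.Div, ∃ (A' : Z.Div) (G : L') (JA : ℕ),
    G ≠ 0 ∧ (A = 0 → A' = 0) ∧ ∀ (q : ℕ) (f : L), 1 ≤ q →
      f ∈ X.H0 (((q * U.M : ℕ) : ℚ) • (F.aD + Δ) + A) → ∃ p : Polynomial K',
        Polynomial.aeval t p = algebraMap L L' f * F.u ^ (q * U.M) * U.Ψ ^ q * G ∧
        p.natDegree ≤ q * U.J + JA ∧ ∀ j, p.coeff j ∈
          famH0 K' Z (((q * U.M : ℕ) : ℚ) • (F.cD + E + (C : ℚ) • redDiv B) + A') := by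
  classical
  -- a prime divisor over every prime divisor of the base
  obtain ⟨s, hs, hs'⟩ := F.tr
  have hch : ∀ Q : Z.primeDivisors, ∃ (P : X.primeDivisors) (e : ℕ), LiesOver P.1 Q.1 e ∧
      (Q ∉ B → Δ P + (e - 1) = e * E Q ∧ ∀ (v : DVal k L') (ε : ℕ), LiesOver v P.1 ε →
        U.M * F.mu P Q e v ε ≤ v U.Ψ ∧ (U.J ≠ 0 → F.mu P Q e v ε ≤ 0 ∧ v t = 0)) := by
    intro Q
    by_cases hQ : Q ∈ B
    · obtain ⟨P₀, hP₀, e, he⟩ := exists_vert F.mor hs hs' Q.2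
      exact ⟨⟨P₀, hP₀⟩, e, he, fun h => absurd hQ h⟩
    · obtain ⟨P, e, h1, h2, h3⟩ := U.good Q hQ
      exact ⟨P, e, h1, fun _ => ⟨h2, h3⟩⟩
  choose Pc ec hPe hgood using hch
  have hV : ∀ Q : Z.primeDivisors,
      {v : DVal k L' | ∃ ε, LiesOver v (Pc Q).1 ε}.Finite := fun Q => finite_above (Pc Q).1
  choose π hπ using fun Q : Z.primeDivisors => (Pc Q).1.surj'
  have hπ' : ∀ Q, (Pc Q).1 (π Q) = 1 := hπ
  -- the ramification index as a function of the valuation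
  obtain ⟨r, hr⟩ : ∃ r : Z.primeDivisors → DVal k L' → ℤ,
      ∀ Q v, r Q v = v (algebraMap L L' (π Q)) := ⟨_, fun _ _ => rfl⟩
  have hrε : ∀ Q v ε, LiesOver v (Pc Q).1 ε → (ε : ℤ) = r Q v := by
    intro Q v ε h
    rw [hr, h.2, hπ', mul_one]
  obtain ⟨μ, hμ⟩ : ∃ μ : Z.primeDivisors → DVal k L' → ℤ,
      ∀ Q v, μ Q v = r Q v * F.lam (Pc Q) Q (ec Q) - v F.u := ⟨_, fun _ _ => rfl⟩
  have hμε : ∀ Q v ε, LiesOver v (Pc Q).1 ε → F.mu (Pc Q) Q (ec Q) v ε = μ Q v := by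
    intro Q v ε h
    rw [hμ, ← hrε Q v ε h]
    rfl
  -- the constant
  obtain ⟨c₁, hc₁⟩ : ∃ c₁ : Z.primeDivisors → DVal k L' → ℚ, ∀ Q v, c₁ Q v =
      ((|μ Q v| : ℤ) : ℚ) + r Q v * |Δ (Pc Q) + ec Q - 1| + r Q v * (ec Q * |E Q|) +
      ((|v U.Ψ| : ℤ) : ℚ) + U.J * (((max (μ Q v) 0 : ℤ) : ℚ) + ((|v t| : ℤ) : ℚ)) :=
    ⟨_, fun _ _ => rfl⟩
  have hS0 : ∀ a b : ℤ, (0 : ℚ) ≤ ((max a 0 : ℤ) : ℚ) + ((|b| : ℤ) : ℚ) := by
    intro a b
    have h1 : (0 : ℚ) ≤ ((max a 0 : ℤ) : ℚ) := by exact_mod_cast le_max_right a 0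
    have h2 : (0 : ℚ) ≤ ((|b| : ℤ) : ℚ) := by exact_mod_cast abs_nonneg b
    linarith
  have hr0 : ∀ Q v, v ∈ (hV Q).toFinset → (1 : ℚ) ≤ r Q v := by
    intro Q v hv
    rw [Set.Finite.mem_toFinset] at hv
    obtain ⟨ε, hε⟩ := hv
    rw [← hrε Q v ε hε]
    exact_mod_cast hε.1
  have hc₁0 : ∀ Q v, v ∈ (hV Q).toFinset → 0 ≤ c₁ Q v := by
    intro Q v hv
    rw [hc₁]
    have h1 := hr0 Q v hv
    have h2 : (0 : ℚ) ≤ r Q v := by linarith
    have h3 : (0 : ℚ) ≤ ((|μ Q v| : ℤ) : ℚ) := by exact_mod_cast abs_nonneg (μ Q v)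
    have h4 : (0 : ℚ) ≤ ((|v U.Ψ| : ℤ) : ℚ) := by exact_mod_cast abs_nonneg (v U.Ψ)
    have h5 := mul_nonneg (Nat.cast_nonneg (α := ℚ) U.J) (hS0 (μ Q v) (v t))
    have h6 : 0 ≤ (r Q v : ℚ) * |Δ (Pc Q) + ec Q - 1| := mul_nonneg h2 (abs_nonneg _)
    have h7 : 0 ≤ (r Q v : ℚ) * (ec Q * |E Q|) :=
      mul_nonneg h2 (mul_nonneg (Nat.cast_nonneg _) (abs_nonneg _))
    linarith
  obtain ⟨C, hC⟩ : ∃ C : ℕ, ∀ Q ∈ B, ∀ v ∈ (hV Q).toFinset, c₁ Q v ≤ C := by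
    obtain ⟨C, hC⟩ := exists_nat_ge (∑ Q ∈ B, ∑ v ∈ (hV Q).toFinset, c₁ Q v)
    refine ⟨C, fun Q hQ v hv => le_trans ?_ hC⟩
    have h1 : c₁ Q v ≤ ∑ v ∈ (hV Q).toFinset, c₁ Q v :=
      Finset.single_le_sum (f := fun v => c₁ Q v) (fun w hw => hc₁0 Q w hw) hv
    refine h1.trans (Finset.single_le_sum (f := fun Q => ∑ v ∈ (hV Q).toFinset, c₁ Q v)
      (fun Q' _ => Finset.sum_nonneg fun w hw => hc₁0 Q' w hw) hQ)
  refine ⟨C, fun A => ?_⟩
  obtain ⟨G, JA, hG, hA0, hpoly⟩ := exists_poly_of_sec F U.Ψ_ne (M := U.M) (J := (U.J : ℤ)) U.fin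
    (fun P h v hv ht => by
      have := U.inf P h v hv ht
      push_cast
      linarith) A
  -- the divisor on the base
  obtain ⟨d, hd⟩ : ∃ d : Z.primeDivisors → DVal k L' → ℚ, ∀ Q v, d Q v =
      |(r Q v : ℚ) * A (Pc Q)| + ((|v G| : ℤ) : ℚ) +
      JA * (((max (μ Q v) 0 : ℤ) : ℚ) + ((|v t| : ℤ) : ℚ)) := ⟨_, fun _ _ => rfl⟩
  have hd0 : ∀ Q v, 0 ≤ d Q v := by
    intro Q v
    rw [hd]
    have h1 : (0 : ℚ) ≤ ((|v G| : ℤ) : ℚ) := by exact_mod_cast abs_nonneg (v G)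
    have h2 := mul_nonneg (Nat.cast_nonneg (α := ℚ) JA) (hS0 (μ Q v) (v t))
    have h3 := abs_nonneg ((r Q v : ℚ) * A (Pc Q))
    linarith
  have ht0 : t ≠ 0 := by
    intro h
    have h1 : F.Dt t = F.Dt 0 := congrArg F.Dt h
    rw [F.Dt_t, map_zero] at h1
    exact one_ne_zero h1
  have hfin : (Function.support fun Q : Z.primeDivisors =>
      ∑ v ∈ (hV Q).toFinset, d Q v).Finite := by
    have hT : (({P : X.primeDivisors | A P ≠ 0} ∪
        {P : X.primeDivisors | ∃ (v : DVal k L') (ε : ℕ), LiesOver v P.1 ε ∧ v G ≠ 0}) ∪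
        ({P : X.primeDivisors | ∃ (v : DVal k L') (ε : ℕ), LiesOver v P.1 ε ∧ v t ≠ 0} ∪
        {P : X.primeDivisors | ∃ (Q : Z.primeDivisors) (e : ℕ) (v : DVal k L') (ε : ℕ),
          LiesOver P.1 Q.1 e ∧ LiesOver v P.1 ε ∧ (F.mu P Q e v ε ≠ 0 ∨ e ≠ 1)})).Finite :=
      (A.hasFiniteSupport.union (finite_ne X hG)).union ((finite_ne X ht0).union (finite_mu F))
    refine (finite_image Z hT).subset fun Q hQ => ?_
    by_contra hcon
    apply hQ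
    have hPT : Pc Q ∉ (({P : X.primeDivisors | A P ≠ 0} ∪
        {P : X.primeDivisors | ∃ (v : DVal k L') (ε : ℕ), LiesOver v P.1 ε ∧ v G ≠ 0}) ∪
        ({P : X.primeDivisors | ∃ (v : DVal k L') (ε : ℕ), LiesOver v P.1 ε ∧ v t ≠ 0} ∪
        {P : X.primeDivisors | ∃ (Q : Z.primeDivisors) (e : ℕ) (v : DVal k L') (ε : ℕ),
          LiesOver P.1 Q.1 e ∧ LiesOver v P.1 ε ∧ (F.mu P Q e v ε ≠ 0 ∨ e ≠ 1)})) :=
      fun h => hcon ⟨Pc Q, h, ec Q, hPe Q⟩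
    rw [Set.mem_union, Set.mem_union, Set.mem_union, not_or, not_or, not_or] at hPT
    obtain ⟨⟨n1, n2⟩, n3, n4⟩ := hPT
    refine Finset.sum_eq_zero fun v hv => ?_
    rw [Set.Finite.mem_toFinset] at hv
    obtain ⟨ε, hε⟩ := hv
    have m1 : A (Pc Q) = 0 := by
      by_contra h
      exact n1 h
    have m2 : v G = 0 := by
      by_contra h
      exact n2 ⟨v, ε, hε, h⟩
    have m3 : v t = 0 := by
      by_contra h
      exact n3 ⟨v, ε, hε, h⟩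
    have m4 : μ Q v = 0 := by
      by_contra h
      exact n4 ⟨Q, ec Q, v, ε, hPe Q, hε, Or.inl (by rw [hμε Q v ε hε]; exact h)⟩
    rw [hd, m1, m2, m3, m4]
    simp
  obtain ⟨A', hA'⟩ : ∃ A' : Z.Div, ∀ Q, A' Q = ∑ v ∈ (hV Q).toFinset, d Q v :=
    ⟨Finsupp.ofSupportFinite _ hfin, fun Q => rfl⟩
  refine ⟨A', G, JA, hG, ?_, ?_⟩
  · intro hA
    obtain ⟨hG1, hJA0⟩ := hA0 hA
    ext Q
    rw [hA', Finsupp.zero_apply]
    refine Finset.sum_eq_zero fun v _ => ?_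
    rw [hd, hG1, hJA0, hA, v.map_one, Finsupp.zero_apply]
    simp
  intro q f hq hf
  by_cases hf0 : f = 0
  · refine ⟨0, ?_, ?_, fun j => ?_⟩
    · rw [hf0]
      simp
    · rw [Polynomial.natDegree_zero]
      exact Nat.zero_le _
    · rw [Polynomial.coeff_zero]
      exact Submodule.zero_mem _
  obtain ⟨p, hp0, hp, hdeg⟩ := hpoly q f hf0 hf
  have hdeg' : p.natDegree ≤ q * U.J + JA := by exact_mod_cast hdeg
  refine ⟨p, hp, hdeg', fun j => ?_⟩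
  rw [mem_famH0]
  intro Q Q' e' hQ'
  obtain ⟨v, ε, ε', hv, hvQ', hεε⟩ := exists_common (L₁ := L') (hPe Q) hQ'
  have hvm : v ∈ (hV Q).toFinset := by
    rw [Set.Finite.mem_toFinset]
    exact ⟨ε, hv⟩
  have hPf : -((((q * U.M : ℕ) : ℚ)) * (F.a (Pc Q) + Δ (Pc Q)) + A (Pc Q)) ≤ (Pc Q).1 f := by
    have h1 : (Pc Q).1.Ge (-((((q * U.M : ℕ) : ℚ) • (F.aD + Δ) + A) (Pc Q))) f := by
      have h2 := hf
      unfold ProjVar.H0 sec at h2
      rw [Submodule.mem_iInf] at h2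
      exact h2 (Pc Q)
    rw [DVal.ge_iff hf0, Finsupp.add_apply, Finsupp.smul_apply, Finsupp.add_apply,
      Frame.aD_apply, smul_eq_mul] at h1
    exact h1
  have hcore := ubc_core F (hPe Q) hv U.Ψ_ne hG hf0 hPf hp hdeg' j
  have hre : ((r Q v : ℤ) : ℚ) = (ε : ℚ) := by
    rw [← hrε Q v ε hv]
    push_cast
    rfl
  have hdd : |(ε : ℚ) * A (Pc Q)| + ((|v G| : ℤ) : ℚ) +
      JA * (((max (μ Q v) 0 : ℤ) : ℚ) + ((|v t| : ℤ) : ℚ)) ≤ A' Q := by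
    have h1 : d Q v ≤ A' Q := by
      rw [hA']
      exact Finset.single_le_sum (f := fun v => d Q v) (fun w _ => hd0 Q w) hvm
    rwa [hd, hre] at h1
  have hμv := hμε Q v ε hv
  rw [hμv] at hcore
  -- the bound for `v`
  have hkey : v.Ge (-(((q * U.M : ℕ) : ℚ) * (ε * (ec Q * (F.c Q + E Q + C * redDiv B Q)))) -
      A' Q) (algebraMap K' L' (p.coeff j)) := by
    refine hcore.mono ?_
    by_cases hQB : Q ∈ B
    · have h1 : redDiv B Q = 1 := by rw [redDiv_apply, if_pos hQB]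
      rw [h1, mul_one]
      have h2 := hC Q hQB v hvm
      rw [hc₁, hre] at h2
      have h3 := ubc_arith_bad (m := q * U.M) (q := q) (M := U.M) (J := U.J) (JA := JA) (ε := ε)
        (e := ec Q) (c := F.c Q) (E := E Q) (A := A (Pc Q)) (α := Δ (Pc Q)) (C := C)
        (μ := μ Q v) (w := v U.Ψ) (g := v G) (s := v t) rfl U.M_pos hv.1 (hPe Q).1 h2
      refine le_trans ?_ h3
      linarith
    · have h1 : redDiv B Q = 0 := by rw [redDiv_apply, if_neg hQB]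
      rw [h1, mul_zero, add_zero]
      obtain ⟨h4, h5⟩ := hgood Q hQB
      obtain ⟨h6, h7⟩ := h5 v ε hv
      rw [hμv] at h6 h7
      have h3 := ubc_arith_good (m := q * U.M) (q := q) (M := U.M) (J := U.J) (JA := JA) (ε := ε)
        (e := ec Q) (c := F.c Q) (E := E Q) (A := A (Pc Q)) (α := Δ (Pc Q))
        (μ := μ Q v) (w := v U.Ψ) (g := v G) (s := v t) rfl h4 h6 h7
      refine le_trans ?_ h3
      linarith
  by_cases hb : p.coeff j = 0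
  · exact Or.inl hb
  have hb' : algebraMap K' L' (p.coeff j) ≠ 0 := by
    rwa [Ne, map_eq_zero_iff _ (algebraMap K' L').injective]
  rw [DVal.ge_iff hb', hvQ'.2] at hkey
  rw [DVal.ge_iff hb, Finsupp.add_apply, Finsupp.smul_apply, Finsupp.add_apply, Finsupp.add_apply,
    Frame.cD_apply, Finsupp.smul_apply, smul_eq_mul, smul_eq_mul]
  have hε'1 : (1 : ℚ) ≤ ε' := by exact_mod_cast hvQ'.1
  have he'1 : (1 : ℚ) ≤ e' := by exact_mod_cast hQ'.1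
  have hA'0 : 0 ≤ A' Q := by
    rw [hA']
    exact Finset.sum_nonneg fun w _ => hd0 Q w
  have h8 : (ε : ℚ) * ec Q = ε' * e' := by exact_mod_cast hεε
  have h9 : ((q * U.M : ℕ) : ℚ) * (ε * (ec Q * (F.c Q + E Q + C * redDiv B Q))) =
      ε' * (e' * (((q * U.M : ℕ) : ℚ) * (F.c Q + E Q + C * redDiv B Q))) := by
    have : ((q * U.M : ℕ) : ℚ) * (ε * (ec Q * (F.c Q + E Q + C * redDiv B Q))) =
      ((ε : ℚ) * ec Q) * (((q * U.M : ℕ) : ℚ) * (F.c Q + E Q + C * redDiv B Q)) := by ring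
    rw [this, h8]
    ring
  rw [h9] at hkey
  push_cast at hkey
  have h10 : A' Q ≤ ε' * (e' * A' Q) := by
    have h11 : A' Q ≤ e' * A' Q := by nlinarith
    have h12 : 0 ≤ (e' : ℚ) * A' Q := by positivity
    nlinarith
  have h13 : (ε' : ℚ) * (-(e' * (((q : ℚ) * U.M) * (F.c Q + E Q + C * redDiv B Q) + A' Q))) ≤
      ε' * (Q' (p.coeff j) : ℚ) := by
    refine le_trans ?_ hkey
    have : (ε' : ℚ) * (-(e' * (((q : ℚ) * U.M) * (F.c Q + E Q + C * redDiv B Q) + A' Q))) =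
      -(ε' * (e' * (((q : ℚ) * U.M) * (F.c Q + E Q + C * redDiv B Q)))) -
        ε' * (e' * A' Q) := by ring
    rw [this]
    linarith
  have h14 := le_of_mul_le_mul_left h13 (by linarith)
  push_cast
  exact h14

end Pool.Agent.Helper63.PB
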