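import Pool.Agent.Helper63.PB.MkHor

set_option autoImplicit false

/-!
# PB-29 UBpoly: sections are polynomials in `t`

`Ψ ∈ L'`, `M ≥ 1`, `J ∈ ℤ` with `v Ψ ≥ M Δ(P)` at the valuations `v` of `L'` over horizontal `P` with
`v t ≥ 0`, and `v Ψ ≥ M Δ(P) - 2 M - J` at those with `v t < 0`. For every divisor `A` on `X` there are
`G ∈ L'` nonzero and `J_A ∈ ℕ` (`G = 1`, `J_A = 0` if `A = 0`) such that for `f ∈ H⁰(X, q M (aD + Δ) + A)`,
`f ≠ 0`, the function `f u^(q M) Ψ^q G` is a nonzero polynomial in `t` over `K'` of degree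
`≤ q J + J_A`.

PROOF. All `v` trivial on `K'` lie over a `P ∈ X.primeDivisors` trivial on `K`, unramified
(`exists_hor_under`).
`G`: for each `P` in the support of `A` trivial on `K` let `h_P ∈ L`, `P h_P = 1`, and `h_P = a(t) / b(t)`,
`a, b ∈ K'[T]` (`IsLine.exists_div`); for `v` over `P` with `v t ≥ 0`:
`v (a(t)) = v h_P + v (b(t)) ≥ 1` (`v ≥ 0` on polynomials). `G = g(t)`,
`g = ∏_P a_P^(n_P)`, `n_P = ⌈|A P|⌉`. So `v G ≥ A P` for all `v` over horizontal `P` with `v t ≥ 0`
(and `v G ≥ 0 = A P` if `P` is not in the support). `J_A = deg g + ∑_P ⌈|A P|⌉`.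
Let `F = f u^(q M) Ψ^q G`. `v` over `P` horizontal, `v t ≥ 0`: `v f = P f ≥ -q M (a P + Δ P) - A P`,
`v u = a P`, so `v F ≥ 0`. So `F` is a polynomial (`exists_poly_of_nonneg`: all `pVal` are such `v`, with
`v t ≥ 0` by `pVal_nonneg`). At `v = infVal` over `P`: `v u = a P + 2`,
`v F ≥ -q M (a P + Δ P) - A P + q M (a P + 2) + q (M Δ P - 2 M - J) - deg g = -q J - A P - deg g`
(`infVal_aeval`), and `v F = -deg p` (`infVal_aeval`). So `deg p ≤ q J + J_A`.
-/

namespace Pool.Agent.Helper63.PB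

open Pool.Agent.Helper92.Weak Pool.Agent.Helper92.Ga

variable {k K L K' L' : Type*} [Field k] [Field K] [Field L] [Field K'] [Field L']
  [Algebra k K] [Algebra k L] [Algebra k K'] [Algebra k L'] [Algebra K L] [Algebra K K']
  [Algebra K L'] [Algebra L L'] [Algebra K' L'] [IsScalarTower k K L] [IsScalarTower k K K']
  [IsScalarTower k L L'] [IsScalarTower k K' L'] [IsScalarTower K L L'] [IsScalarTower K K' L']
  [FiniteDimensional K K'] [FiniteDimensional L L'] [CharZero k]
  {X : ProjVar k L} {Z : ProjVar k K} {t : L'} (F : Frame X Z K' t) {Δ : X.Div}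

theorem exists_poly_of_sec {M : ℕ} {J : ℤ} {Ψ : L'} (hΨ : Ψ ≠ 0)
    (hfin : ∀ P : X.primeDivisors, (∀ x : K, P.1 (algebraMap K L x) = 0) → ∀ v : DVal k L',
      LiesOver v P.1 1 → 0 ≤ v t → M * Δ P ≤ v Ψ)
    (hinf : ∀ P : X.primeDivisors, (∀ x : K, P.1 (algebraMap K L x) = 0) → ∀ v : DVal k L',
      LiesOver v P.1 1 → v t < 0 → M * Δ P - 2 * M - J ≤ v Ψ) (A : X.Div) :
    ∃ (G : L') (JA : ℕ), G ≠ 0 ∧ (A = 0 → G = 1 ∧ JA = 0) ∧ ∀ (q : ℕ) (f : L), f ≠ 0 →
      f ∈ X.H0 (((q * M : ℕ) : ℚ) • (F.aD + Δ) + A) → ∃ p : Polynomial K', p ≠ 0 ∧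
        Polynomial.aeval t p = algebraMap L L' f * F.u ^ (q * M) * Ψ ^ q * G ∧
        (p.natDegree : ℤ) ≤ q * J + JA := by
  classical
  have hnn : ∀ v : DVal k L', (∀ x : K', v (algebraMap K' L' x) = 0) → 0 ≤ v t →
      ∀ b : Polynomial K', 0 ≤ v (Polynomial.aeval t b) := by
    intro v hv ht b
    have h1 : Polynomial.aeval t b ∈ v.ring :=
      aeval_mem_of (R := v.ring) (fun a => by rw [DVal.mem_ring, hv]) (by rwa [DVal.mem_ring]) b
    rwa [DVal.mem_ring] at h1
  have hex : ∀ P : X.primeDivisors, ∃ a : Polynomial K', a ≠ 0 ∧ ∀ v : DVal k L',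
      LiesOver v P.1 1 → (∀ x : K', v (algebraMap K' L' x) = 0) → 0 ≤ v t →
        1 ≤ v (Polynomial.aeval t a) := by
    intro P
    obtain ⟨h, hh0, hh⟩ := P.1.exists_uniformizer
    obtain ⟨a, b, hb, hab⟩ := F.line.exists_div (algebraMap L L' h)
    have hh0' : algebraMap L L' h ≠ 0 := (map_ne_zero _).2 hh0
    have ha : a ≠ 0 := by
      rintro rfl
      rw [map_zero, zero_div] at hab
      exact hh0' hab
    refine ⟨a, ha, fun v hv hvK ht => ?_⟩
    have h1 := hv.2 h
    rw [hh, hab, v.map_div (F.line.aeval_ne ha) (F.line.aeval_ne hb)] at h1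
    have h2 := hnn v hvK ht b
    push_cast at h1
    omega
  choose a ha0 ha using hex
  let n : X.primeDivisors → ℕ := fun P => ⌈|A P|⌉₊
  have hn : ∀ P, A P ≤ n P := fun P => (le_abs_self _).trans (Nat.le_ceil _)
  let g : Polynomial K' := ∏ P ∈ A.support, a P ^ n P
  have hg0 : g ≠ 0 := Finset.prod_ne_zero_iff.2 fun P _ => pow_ne_zero _ (ha0 P)
  have hG0 : Polynomial.aeval t g ≠ 0 := F.line.aeval_ne hg0
  have hG : ∀ (P : X.primeDivisors) (v : DVal k L'), LiesOver v P.1 1 →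
      (∀ x : K', v (algebraMap K' L' x) = 0) → 0 ≤ v t → A P ≤ v (Polynomial.aeval t g) := by
    intro P v hv hvK ht
    have h1 : v (Polynomial.aeval t g) =
        ∑ Q ∈ A.support, (n Q : ℤ) * v (Polynomial.aeval t (a Q)) := by
      change v (Polynomial.aeval t (∏ P ∈ A.support, a P ^ n P)) = _
      rw [map_prod, v.map_prod _ _ fun Q _ => by
        rw [map_pow]
        exact pow_ne_zero _ (F.line.aeval_ne (ha0 Q))]
      refine Finset.sum_congr rfl fun Q _ => ?_
      rw [map_pow, v.map_pow]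
    have h2 : ∀ Q ∈ A.support, 0 ≤ (n Q : ℤ) * v (Polynomial.aeval t (a Q)) := fun Q _ =>
      mul_nonneg (Int.natCast_nonneg _) (hnn v hvK ht _)
    by_cases hP : P ∈ A.support
    · have h3 := Finset.single_le_sum h2 hP
      have h4 : (1 : ℤ) ≤ v (Polynomial.aeval t (a P)) := ha P v hv hvK ht
      have h5 : (n P : ℤ) ≤ n P * v (Polynomial.aeval t (a P)) := by
        have h6 : (0 : ℤ) ≤ n P := Int.natCast_nonneg _
        nlinarith
      rw [← h1] at h3
      have h7 : ((n P : ℤ) : ℚ) ≤ v (Polynomial.aeval t g) := by exact_mod_cast h5.trans h3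
      refine (hn P).trans ?_
      exact_mod_cast h7
    · have h3 : A P = 0 := Finsupp.notMem_support_iff.1 hP
      rw [h3, h1]
      exact_mod_cast Finset.sum_nonneg h2
  have hAn : ∀ P : X.primeDivisors, A P ≤ ((∑ Q ∈ A.support, n Q : ℕ) : ℚ) := by
    intro P
    by_cases hP : P ∈ A.support
    · refine (hn P).trans ?_
      exact_mod_cast Finset.single_le_sum (f := n) (fun Q _ => Nat.zero_le _) hP
    · have h3 : A P = 0 := Finsupp.notMem_support_iff.1 hP
      rw [h3]
      exact Nat.cast_nonneg _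
  refine ⟨Polynomial.aeval t g, g.natDegree + ∑ Q ∈ A.support, n Q, hG0, ?_, ?_⟩
  · intro hA
    have hs : A.support = ∅ := by rw [hA, Finsupp.support_zero]
    have hg1 : g = 1 := by
      change ∏ P ∈ A.support, a P ^ n P = 1
      rw [hs, Finset.prod_empty]
    rw [hg1, hs, Finset.sum_empty, map_one, Polynomial.natDegree_one]
    exact ⟨rfl, rfl⟩
  · intro q f hf0 hf
    rw [Pool.Agent.Helper60.MA.mem_H0] at hf
    have hf0' : algebraMap L L' f ≠ 0 := (map_ne_zero _).2 hf0
    have hu := pow_ne_zero (q * M) F.u_ne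
    have hΨq := pow_ne_zero q hΨ
    have hF0 : algebraMap L L' f * F.u ^ (q * M) * Ψ ^ q * Polynomial.aeval t g ≠ 0 :=
      mul_ne_zero (mul_ne_zero (mul_ne_zero hf0' hu) hΨq) hG0
    have hvF : ∀ v : DVal k L',
        v (algebraMap L L' f * F.u ^ (q * M) * Ψ ^ q * Polynomial.aeval t g) =
          v (algebraMap L L' f) + (q * M : ℕ) * v F.u + q * v Ψ + v (Polynomial.aeval t g) := by
      intro v
      rw [v.map_mul (mul_ne_zero (mul_ne_zero hf0' hu) hΨq) hG0,
        v.map_mul (mul_ne_zero hf0' hu) hΨq, v.map_mul hf0' hu, v.map_pow, v.map_pow]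
    have hvf : ∀ (P : X.primeDivisors) (v : DVal k L'), LiesOver v P.1 1 →
        -((q * M : ℕ) * (F.a P + Δ P) + A P) ≤ (v (algebraMap L L' f) : ℚ) := by
      intro P v hv
      have h1 := hf P
      rw [DVal.ge_iff hf0, Finsupp.add_apply, Finsupp.smul_apply, Finsupp.add_apply,
        Frame.aD_apply, smul_eq_mul] at h1
      have h2 := hv.2 f
      rw [Nat.cast_one, one_mul] at h2
      rw [h2]
      exact h1
    have hpos : ∀ (p : Polynomial K') (hp : Prime p), 0 ≤ pVal k F.line p hp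
        (algebraMap L L' f * F.u ^ (q * M) * Ψ ^ q * Polynomial.aeval t g) := by
      intro p hp
      set v := pVal k F.line p hp with hvdef
      have hvK : ∀ x : K', v (algebraMap K' L' x) = 0 := fun x => pVal_algebraMap k F.line hp x
      have ht : 0 ≤ v t := by
        have h1 := pVal_nonneg k F.line hp Polynomial.X
        rw [Polynomial.aeval_X] at h1
        exact h1
      obtain ⟨P, hPK, hvP⟩ := exists_hor_under F hvK
      have h1 := (F.hor P hPK v 1 hvP).2.1 ht
      have h2 := hfin P hPK v hvP ht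
      have h3 := hG P v hvP hvK ht
      have h4 := hvf P v hvP
      have h5 : (0 : ℚ) ≤ ((v (algebraMap L L' f) + (q * M : ℕ) * v F.u + q * v Ψ +
          v (Polynomial.aeval t g) : ℤ) : ℚ) := by
        rw [h1]
        push_cast at h4 ⊢
        have h6 : (q : ℚ) * (M * Δ P) ≤ q * v Ψ := mul_le_mul_of_nonneg_left h2 (Nat.cast_nonneg q)
        linarith
      rw [hvF]
      exact_mod_cast h5
    obtain ⟨p, hp⟩ := exists_poly_of_nonneg k F.line hpos
    have hp0 : p ≠ 0 := by
      rintro rfl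
      rw [map_zero] at hp
      exact hF0 hp
    refine ⟨p, hp0, hp.symm, ?_⟩
    set v := infVal k F.line with hvdef
    have hvK : ∀ x : K', v (algebraMap K' L' x) = 0 := fun x => infVal_algebraMap F.line x
    have ht : v t < 0 := by
      rw [hvdef, infVal_t]
      norm_num
    obtain ⟨P, hPK, hvP⟩ := exists_hor_under F hvK
    have h1 := (F.hor P hPK v 1 hvP).2.2 ht
    have h2 := hinf P hPK v hvP ht
    have h4 := hvf P v hvP
    have h5 := hvF v
    have h6 : v (Polynomial.aeval t g) = -g.natDegree := infVal_aeval F.line hg0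
    have h7 : v (Polynomial.aeval t p) = -p.natDegree := infVal_aeval F.line hp0
    rw [hp, h7, h6, h1] at h5
    have h8 : ((-(p.natDegree : ℤ) : ℤ) : ℚ) = ((v (algebraMap L L' f) +
        (q * M : ℕ) * (F.a P + 2) + q * v Ψ + -(g.natDegree : ℤ) : ℤ) : ℚ) := by
      rw [h5]
    have h9 := hAn P
    have h10 : (q : ℚ) * (M * Δ P - 2 * M - J) ≤ q * v Ψ :=
      mul_le_mul_of_nonneg_left h2 (Nat.cast_nonneg q)
    have h11 : ((p.natDegree : ℤ) : ℚ) ≤
        ((q * J + ((g.natDegree + ∑ Q ∈ A.support, n Q : ℕ) : ℤ) : ℤ) : ℚ) := by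
      push_cast at h4 h8 h9 ⊢
      linarith
    exact_mod_cast h11

end Pool.Agent.Helper63.PB
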